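import Pool.Agent.Lib.MP_ae5b4e_an_WB.Defs

/-!
# POR (iii), N2, Lemma B: holomorphic parameter integrals
-/

namespace Pool.Agent.MP_ae5b4e_an_WB

open Complex Set Filter Topology MeasureTheory

private theorem ParamInt_gen {U : Set ℂ} (hU : IsOpen U) {S : Set ℝ} (hS : MeasurableSet S)
    {m : ℝ → ℂ} (hm : IntegrableOn m S) {f : ℂ → ℝ → ℂ}
    (hd : ∀ s ∈ S, DifferentiableOn ℂ (fun z => f z s) U)
    (hc : ∀ z ∈ U, ContinuousOn (f z) S)
    (hb : ∀ z0 ∈ U, ∃ C : ℝ, ∀ᶠ z in 𝓝 z0, ∀ s ∈ S, ‖f z s‖ ≤ C) :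
    DifferentiableOn ℂ (fun z => ∫ s in S, f z s * m s) U := by
  intro z0 hz0
  obtain ⟨C, hC⟩ := hb z0 hz0
  obtain ⟨r, hr, hball⟩ := Metric.mem_nhds_iff.1 (hC.and (hU.mem_nhds hz0))
  have hCb : ∀ z ∈ Metric.ball z0 r, ∀ s ∈ S, ‖f z s‖ ≤ C := fun z hz => (hball hz).1
  have hUb : Metric.ball z0 r ⊆ U := fun z hz => (hball hz).2
  have hz0r : z0 ∈ Metric.ball z0 r := Metric.mem_ball_self hr
  have hmeas : ∀ z ∈ U, AEStronglyMeasurable (fun s => f z s) (volume.restrict S) := fun z hz =>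
    (hc z hz).aestronglyMeasurable hS
  have hdiff : ∀ s ∈ S, ∀ z ∈ U, HasDerivAt (fun z => f z s) (deriv (fun z => f z s) z) z :=
    fun s hs z hz => ((hd s hs).differentiableAt (hU.mem_nhds hz)).hasDerivAt
  have key := hasDerivAt_integral_of_dominated_loc_of_deriv_le (μ := volume.restrict S)
    (F := fun z s => f z s * m s) (F' := fun z s => deriv (fun z => f z s) z * m s)
    (x₀ := z0) (s := Metric.ball z0 (r / 2)) (bound := fun s => C / (r / 4) * ‖m s‖)
    (Metric.ball_mem_nhds z0 (by positivity)) ?_ ?_ ?_ ?_ ?_ ?_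
  · exact key.2.differentiableAt.differentiableWithinAt
  · filter_upwards [hU.mem_nhds hz0] with z hz
    exact (hmeas z hz).mul hm.aestronglyMeasurable
  · refine (hm.norm.const_mul C).mono' ((hmeas z0 hz0).mul hm.aestronglyMeasurable) ?_
    refine (ae_restrict_mem hS).mono fun s hs => ?_
    rw [norm_mul]
    exact mul_le_mul_of_nonneg_right (hCb z0 hz0r s hs) (norm_nonneg _)
  · refine AEStronglyMeasurable.mul ?_ hm.aestronglyMeasurable
    have ht : ∀ n : ℕ, z0 + ((r / 2 / (n + 1) : ℝ) : ℂ) ∈ U := by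
      intro n
      apply hUb
      rw [Metric.mem_ball, dist_self_add_left, Complex.norm_real, Real.norm_eq_abs,
        abs_of_nonneg (by positivity)]
      have h1 : r / 2 / ((n : ℝ) + 1) ≤ r / 2 :=
        div_le_self (by positivity) (by
          have : (0 : ℝ) ≤ n := Nat.cast_nonneg n
          linarith)
      linarith
    refine aestronglyMeasurable_of_tendsto_ae atTop
      (f := fun (n : ℕ) s => ((r / 2 / (n + 1) : ℝ) : ℂ)⁻¹ •
        (f (z0 + ((r / 2 / (n + 1) : ℝ) : ℂ)) s - f z0 s)) (fun n => ?_) ?_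
    · exact ((hmeas _ (ht n)).sub (hmeas z0 hz0)).const_smul (((r / 2 / (n + 1) : ℝ) : ℂ)⁻¹)
    · refine (ae_restrict_mem hS).mono fun s hs => ?_
      have h1 := (hdiff s hs z0 hz0).tendsto_slope_zero
      refine h1.comp (tendsto_nhdsWithin_iff.2 ⟨?_, Filter.Eventually.of_forall fun n => ?_⟩)
      · have h2 : Tendsto (fun n : ℕ => r / 2 / ((n : ℝ) + 1)) atTop (𝓝 0) := by
          have h3 := tendsto_one_div_add_atTop_nhds_zero_nat.const_mul (r / 2)
          rw [mul_zero] at h3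
          refine h3.congr fun n => ?_
          ring
        have h4 := (Complex.continuous_ofReal.tendsto 0).comp h2
        rw [Complex.ofReal_zero] at h4
        exact h4
      · rw [Set.mem_compl_iff, Set.mem_singleton_iff, Complex.ofReal_eq_zero]
        positivity
  · refine (ae_restrict_mem hS).mono fun s hs z hz => ?_
    rw [norm_mul]
    refine mul_le_mul_of_nonneg_right ?_ (norm_nonneg _)
    have hcb : Metric.closedBall z (r / 4) ⊆ Metric.ball z0 r := by
      intro w hw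
      rw [Metric.mem_closedBall] at hw
      rw [Metric.mem_ball] at hz ⊢
      have := dist_triangle w z z0
      linarith
    refine Complex.norm_deriv_le_of_forall_mem_sphere_norm_le (by positivity)
      ((hd s hs).diffContOnCl_ball (hcb.trans hUb)) fun w hw => ?_
    exact hCb w (hcb (Metric.sphere_subset_closedBall hw)) s hs
  · exact hm.norm.const_mul _
  · refine (ae_restrict_mem hS).mono fun s hs z hz => ?_
    exact (hdiff s hs z (hUb (Metric.ball_subset_ball (by linarith) hz))).mul_const (m s)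

/-- Parameter integral of holomorphic functions, locally bounded in the parameter, continuous in
the variable of integration on the open interval. Proof: near `z0` let `ball z0 (2 ε) ⊆ U`, bound
`C` there. `‖∂_z f (z, θ)‖ ≤ C / ε` on `ball z0 ε` (Cauchy), `∂_z f (z0, θ)` is a.e. strongly measurable
on `Ioc a b` as a limit of the difference quotients `n (f (z0 + 1/n) θ - f z0 θ)`; use
`intervalIntegral.hasDerivAt_integral_of_dominated_loc_of_deriv_le`. -/
theorem differentiableOn_paramInt {U : Set ℂ} (hU : IsOpen U) {a b : ℝ} (hab : a ≤ b)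
    {f : ℂ → ℝ → ℂ} (hd : ∀ θ ∈ Ioo a b, DifferentiableOn ℂ (fun z => f z θ) U)
    (hc : ∀ z ∈ U, ContinuousOn (f z) (Ioo a b))
    (hb : ∀ z0 ∈ U, ∃ C : ℝ, ∀ᶠ z in 𝓝 z0, ∀ θ ∈ Ioo a b, ‖f z θ‖ ≤ C) :
    DifferentiableOn ℂ (fun z => ∫ θ in a..b, f z θ) U := by
  have h1 : IntegrableOn (fun _ : ℝ => (1 : ℂ)) (Ioo a b) :=
    integrableOn_const (by rw [Real.volume_Ioo]; exact ENNReal.ofReal_ne_top)
  have h2 := ParamInt_gen hU measurableSet_Ioo h1 hd hc hb
  refine h2.congr fun z _ => ?_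
  rw [intervalIntegral.integral_of_le hab, integral_Ioc_eq_integral_Ioo]
  simp only [mul_one]

/-- The same over an infinite interval `(0, oo)`, for an integrand `f z s * m s` with `m` integrable
and `f` locally bounded in `z`, uniformly in `s`. -/
theorem differentiableOn_paramInt_Ioi {U : Set ℂ} (hU : IsOpen U) {m : ℝ → ℂ}
    (hm : IntegrableOn m (Ioi 0)) {f : ℂ → ℝ → ℂ}
    (hd : ∀ s ∈ Ioi (0 : ℝ), DifferentiableOn ℂ (fun z => f z s) U)
    (hc : ∀ z ∈ U, ContinuousOn (f z) (Ioi 0))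
    (hb : ∀ z0 ∈ U, ∃ C : ℝ, ∀ᶠ z in 𝓝 z0, ∀ s ∈ Ioi (0 : ℝ), ‖f z s‖ ≤ C) :
    DifferentiableOn ℂ (fun z => ∫ s in Ioi (0 : ℝ), f z s * m s) U :=
  ParamInt_gen hU measurableSet_Ioi hm hd hc hb

end Pool.Agent.MP_ae5b4e_an_WB
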