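import Mathlib

/-!
# POR (iii), N2, Lemma B (walls between tips with good trajectories are impossible): definitions

`G y = sin y exp(1 - y cot y)`, `V y = sin^2 y / y`, so that `G' = G y / V y * ...` precisely
`G' y = G y * (y / sin^2 y)`, and a solution of `y' = V y` satisfies `G (y t) = G (y 0) exp t`.
`tipc = - e^2/4` is the only finite asymptotic value `/= 0` of `G^2` (for `Im y → ± oo`). `Fl y0 t` is
the end point of the lift of the path `r ↦ G y0 exp (r t)`, `0 ≤ r ≤ 1`, through `G`, starting at `y0`;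
it exists if the path `G y0 ^ 2 exp (2 r t)` does not meet `tipc`.

`u` is a fixed complex number with `0 < Re u` (in the application `u = 1 + i`): we continue along
`gam = gam_0 exp (u t)`, `t ≥ 0` real.
-/

namespace Pool.Agent.MP_ae5b4e_an_WB

open Complex Set Filter Topology MeasureTheory

/-- `G y = sin y exp (1 - y cot y)` -/
noncomputable def G (y : ℂ) : ℂ := sin y * exp (1 - y * (cos y / sin y))

/-- the vector field `sin^2 y / y` -/
noncomputable def V (y : ℂ) : ℂ := sin y ^ 2 / y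

/-- the asymptotic value `- e^2 / 4` of `G^2` -/
noncomputable def tipc : ℂ := -(Real.exp 2 / 4 : ℝ)

/-- `y0` can be continued along the segment from `0` to `t` -/
def Fwd (y0 t : ℂ) : Prop := ∀ r ∈ Icc (0 : ℝ) 1, G y0 ^ 2 * exp (2 * (r * t)) ≠ tipc

/-- `y0` can be continued for all times `u t`, `t ≥ 0` -/
def FwdAll (u y0 : ℂ) : Prop := ∀ t : ℝ, 0 ≤ t → G y0 ^ 2 * exp (2 * (u * t)) ≠ tipc

/-- `η` is the lift of `r ↦ G y0 exp (r t)`, `0 ≤ r ≤ 1`, which starts at `y0` -/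
def IsLift (y0 t : ℂ) (η : ℝ → ℂ) : Prop :=
  ContinuousOn η (Icc 0 1) ∧ η 0 = y0 ∧
    ∀ r ∈ Icc (0 : ℝ) 1, sin (η r) ≠ 0 ∧ G (η r) = G y0 * exp (r * t)

open Classical in
/-- the flow: end point of the lift (`0` if there is no lift) -/
noncomputable def Fl (y0 t : ℂ) : ℂ :=
  if h : ∃ η, IsLift y0 t η then (Classical.choose h) 1 else 0

/-- the domain of the flow -/
def Dom : Set (ℂ × ℂ) := {z | sin z.1 ≠ 0 ∧ Fwd z.1 z.2}

/-- good functions of the real variable `t > 0`: real analytic and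
`f t = ρ e^(ut) (1 + 1/(ut)) + o(e^(ut)/t)` for `t → + oo` -/
def Good (u : ℂ) (f : ℝ → ℂ) : Prop :=
  AnalyticOnNhd ℝ f (Ioi 0) ∧ ∃ ρ : ℂ,
    Tendsto (fun t : ℝ => (t : ℂ) * (f t * exp (-(u * t)) - ρ * (1 + 1 / (u * t)))) atTop (𝓝 0)

/-- the lower half plane -/
def Hm : Set ℂ := {l | l.im < 0}

/-- open rectangle around the segment `[-T, 0]` -/
def Rc (T δ : ℝ) : Set ℂ := {ω | -T - δ < ω.re ∧ ω.re < δ ∧ |ω.im| < δ}

/-- `P` is good: the descending trajectory `q = q P e^(-2us)` through `P` exists for all `s ≥ 0`,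
consists of regular points of `q`, and `e^(-s Re u) (1 + s) |l' s|` is integrable -/
def GoodP (u : ℂ) (q : ℂ → ℂ) (P : ℂ) : Prop :=
  q P ≠ 0 ∧ ∃ l : ℝ → ℂ, l 0 = P ∧ ContinuousOn l (Ici 0) ∧
    (∀ s : ℝ, 0 ≤ s → (l s).im < 0 ∧ q (l s) = q P * exp (-(2 * u * s)) ∧ deriv q (l s) ≠ 0) ∧
    IntegrableOn (fun s : ℝ => Real.exp (-(u.re * s)) * (1 + s) * ‖deriv l s‖) (Ioi 0)

/-- local primitive: `Y` is a sheet of `y` over the ball `B` of labels (`G (Y l)^2 = gs^2 q l`), and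
for small `t > 0` the function `F · t` is a primitive of `Psi = w/y` at `gam = gs exp (u t)` -/
def LocPrim (u gs : ℂ) (q : ℂ → ℂ) (B : Set ℂ) (τ : ℝ) (Y : ℂ → ℂ) (F : ℂ → ℝ → ℂ) : Prop :=
  DifferentiableOn ℂ Y B ∧ (∀ l ∈ B, l.im < 0 ∧ sin (Y l) ≠ 0 ∧ G (Y l) ^ 2 = gs ^ 2 * q l) ∧
    ∀ t ∈ Ioo (0 : ℝ) τ, ∀ l ∈ B,
      HasDerivAt (fun l' => F l' t) (G (Y l) * exp (u * t) / Fl (Y l) (u * t)) l

end Pool.Agent.MP_ae5b4e_an_WB
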