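import Pool.Agent.Lib.MP_ae5b4e_an_WB.LocRep

/-!
# POR (iii), N2, Lemma B: chain of local primitives along a path, and the theorem
-/

namespace Pool.Agent.MP_ae5b4e_an_WB

open Complex Set Filter Topology MeasureTheory Metric

/-- `T` is a family of heights along the path of labels `p` with the sheet `y`: near every point of the
path there is a local primitive -/
def PathPrim (u gs : ℂ) (q : ℂ → ℂ) (p y : ℝ → ℂ) (T : ℝ → ℝ → ℂ) : Prop :=
  ∀ s ∈ Icc (0 : ℝ) 1, ∃ ρ ε : ℝ, 0 < ρ ∧ 0 < ε ∧ ∃ (Y : ℂ → ℂ) (F : ℂ → ℝ → ℂ),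
    LocPrim u gs q (ball (p s) ρ) ρ Y F ∧ ∀ s' ∈ Icc (0 : ℝ) 1, |s' - s| < ε →
      p s' ∈ ball (p s) ρ ∧ Y (p s') = y s' ∧ ∀ t ∈ Ioo (0 : ℝ) ρ, F (p s') t = T s' t

/-- a locally constant predicate on `[0,1]` -/
theorem pred_chain {A : ℝ → Prop} (h : ∀ s ∈ Icc (0 : ℝ) 1, ∃ ε : ℝ, 0 < ε ∧
    ∀ s' ∈ Icc (0 : ℝ) 1, |s' - s| < ε → (A s ↔ A s')) (h0 : A 0) : A 1 := by
  have hloc : IsLocallyConstant (fun s : Icc (0 : ℝ) 1 => A s) := by
    rw [IsLocallyConstant.iff_eventually_eq]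
    rintro ⟨s, hs⟩
    obtain ⟨ε, hε, h1⟩ := h s hs
    filter_upwards [Metric.ball_mem_nhds (⟨s, hs⟩ : Icc (0 : ℝ) 1) hε] with x hx
    have h2 : |(x : ℝ) - s| < ε := by
      have h3 : dist x ⟨s, hs⟩ < ε := hx
      rwa [Subtype.dist_eq, Real.dist_eq] at h3
    exact propext (h1 x x.2 h2).symm
  have := hloc.apply_eq_of_preconnectedSpace (⟨1, by norm_num⟩ : Icc (0 : ℝ) 1) ⟨0, by norm_num⟩
  have h2 : A 1 = A 0 := this
  rw [h2]
  exact h0

/-- two local primitives with the same sheet value and the same value at a point agree nearby: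
`Y = Y'` near `P` (both are continuous right inverses of `G^2` composed with `gs^2 q`, `G` is injective
near `Y P`: `exists_local_inverse`), so `F · t - F' · t` is locally constant, uniformly in `t` on a fixed
ball. -/
theorem locPrim_eq {u gs : ℂ} {q : ℂ → ℂ} {B B' : Set ℂ} (hB : IsOpen B) (hB' : IsOpen B')
    {τ τ' : ℝ} {Y Y' : ℂ → ℂ} {F F' : ℂ → ℝ → ℂ} (h : LocPrim u gs q B τ Y F)
    (h' : LocPrim u gs q B' τ' Y' F') {P : ℂ} (hP : P ∈ B) (hP' : P ∈ B') (hY : Y P = Y' P)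
    {τ0 : ℝ} (h0 : τ0 ≤ τ) (h0' : τ0 ≤ τ')
    (hF : ∀ t ∈ Ioo (0 : ℝ) τ0, F P t = F' P t) :
    ∃ ε : ℝ, 0 < ε ∧ ball P ε ⊆ B ∩ B' ∧ ∀ l ∈ ball P ε, Y l = Y' l ∧
      ∀ t ∈ Ioo (0 : ℝ) τ0, F l t = F' l t := by
  have hYc : ContinuousAt Y P := (h.1.differentiableAt (hB.mem_nhds hP)).continuousAt
  have hYc' : ContinuousAt Y' P := (h'.1.differentiableAt (hB'.mem_nhds hP')).continuousAt
  have hsin : sin (Y P) ≠ 0 := (h.2.1 P hP).2.1
  have hGc : ContinuousAt G (Y P) := continuousAt_G hsin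
  have hGc1 : ContinuousAt (fun l => G (Y l)) P := ContinuousAt.comp (g := G) (f := Y) hGc hYc
  have hGc2 : ContinuousAt (fun l => G (Y' l)) P := by
    have : ContinuousAt G (Y' P) := by rw [← hY]; exact hGc
    exact ContinuousAt.comp (g := G) (f := Y') this hYc'
  have hne : G (Y P) + G (Y' P) ≠ 0 := by
    rw [← hY, ← two_mul]
    exact mul_ne_zero two_ne_zero (G_ne_zero hsin)
  have hsum : ∀ᶠ l in 𝓝 P, G (Y l) + G (Y' l) ≠ 0 := (hGc1.add hGc2).eventually_ne hne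
  have hGeq : ∀ᶠ l in 𝓝 P, G (Y l) = G (Y' l) := by
    filter_upwards [hsum, hB.mem_nhds hP, hB'.mem_nhds hP'] with l h1 h2 h3
    have h4 : (G (Y l) + G (Y' l)) * (G (Y l) - G (Y' l)) = 0 := by
      have h5 := (h.2.1 l h2).2.2
      have h6 := (h'.2.1 l h3).2.2
      linear_combination h5 - h6
    exact sub_eq_zero.1 ((mul_eq_zero.1 h4).resolve_left h1)
  have hYeq : ∀ᶠ l in 𝓝 P, Y l = Y' l := by
    refine eventually_eq_of_G_eq hsin hYc.tendsto ?_ hGeq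
    rw [hY]
    exact hYc'.tendsto
  have hBe : ∀ᶠ l in 𝓝 P, l ∈ B := hB.mem_nhds hP
  have hBe' : ∀ᶠ l in 𝓝 P, l ∈ B' := hB'.mem_nhds hP'
  obtain ⟨ε, hε, hball⟩ := Metric.eventually_nhds_iff_ball.1 (hYeq.and (hBe.and hBe'))
  refine ⟨ε, hε, fun l hl => ⟨(hball l hl).2.1, (hball l hl).2.2⟩, fun l hl =>
    ⟨(hball l hl).1, fun t ht => ?_⟩⟩
  have ht1 : t ∈ Ioo (0 : ℝ) τ := ⟨ht.1, ht.2.trans_le h0⟩
  have ht2 : t ∈ Ioo (0 : ℝ) τ' := ⟨ht.1, ht.2.trans_le h0'⟩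
  have hder : ∀ l' ∈ ball P ε, HasDerivAt (fun l'' => F l'' t - F' l'' t) 0 l' := by
    intro l' hl'
    obtain ⟨h1, h2, h3⟩ := hball l' hl'
    have h4 := (h.2.2 t ht1 l' h2).sub (h'.2.2 t ht2 l' h3)
    rw [h1, sub_self] at h4
    exact h4
  have hconst := isOpen_ball.is_const_of_deriv_eq_zero (convex_ball P ε).isPreconnected
    (f := fun l'' => F l'' t - F' l'' t)
    (fun l' hl' => (hder l' hl').differentiableAt.differentiableWithinAt)
    (fun l' hl' => (hder l' hl').deriv) hl (mem_ball_self hε)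
  have h5 : F l t - F' l t = F P t - F' P t := hconst
  rw [hF t ht, sub_self] at h5
  exact sub_eq_zero.1 h5

/-- CHAIN. `A s := ∃ ε > 0, ∀ P ∈ ball (p s) ε, Off P → GermGood (F_s P - T 0)`, with chosen local data
`F_s`. `A 0` by `exists_locRep` (`p 0` is `Off`); `A` is locally constant by `locPrim_eq`, `exists_off` and
`exists_locRep`: if `s'` is near `s`, then `F_{s'} = F_s` near `p s'`, and one `Off` label `P0` there suffices
(`F_s P - F_s P0` is `GermGood` for all `Off` labels `P`, `P0` in the ball of `exists_locRep`). `pred_chain`. -/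
theorem germ_chain {u gs : ℂ} (hu : 0 < u.re) (hgs : gs ≠ 0) {q : ℂ → ℂ}
    (hq : DifferentiableOn ℂ q Hm) {p y : ℝ → ℂ} {T : ℝ → ℝ → ℂ}
    (hp : PathPrim u gs q p y T) (hpc : ContinuousOn p (Icc 0 1))
    (hgood : ∀ s ∈ Icc (0 : ℝ) 1, ¬ Off u gs q (p s) → GoodP u q (p s))
    (h0 : Off u gs q (p 0)) (h1 : Off u gs q (p 1)) :
    GermGood u (fun t => T 1 t - T 0 t) := by
  -- local data
  have hdata : ∀ s : ℝ, ∃ (ρ ρ' e : ℝ) (Y : ℂ → ℂ) (F : ℂ → ℝ → ℂ), s ∈ Icc (0 : ℝ) 1 → 0 < ρ ∧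
      0 < ρ' ∧ ρ' ≤ ρ ∧ 0 < e ∧ LocPrim u gs q (ball (p s) ρ) ρ Y F ∧
      (∀ s' ∈ Icc (0 : ℝ) 1, |s' - s| < e →
        p s' ∈ ball (p s) ρ ∧ Y (p s') = y s' ∧ ∀ t ∈ Ioo (0 : ℝ) ρ, F (p s') t = T s' t) ∧
      ∀ l0 ∈ ball (p s) ρ', ∀ l1 ∈ ball (p s) ρ', Off u gs q l0 → Off u gs q l1 →
        GermGood u (fun t => F l1 t - F l0 t) := by
    intro s
    by_cases hs : s ∈ Icc (0 : ℝ) 1
    · obtain ⟨ρ, e, hρ, he, Y, F, hL, hloc⟩ := hp s hs
      obtain ⟨ρ', hρ', hle, hrep⟩ := exists_locRep hu hgs hq hρ hρ hL (hgood s hs)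
      exact ⟨ρ, ρ', e, Y, F, fun _ => ⟨hρ, hρ', hle, he, hL, hloc, hrep⟩⟩
    · exact ⟨0, 0, 0, fun _ => 0, fun _ _ => 0, fun h => absurd h hs⟩
  choose ρ ρ' e Y F hd using hdata
  have hA : ∀ s ∈ Icc (0 : ℝ) 1, ∀ l0 ∈ ball (p s) (ρ' s), ∀ l1 ∈ ball (p s) (ρ' s),
      Off u gs q l0 → Off u gs q l1 → GermGood u (fun t => F s l0 t - T 0 t) →
      GermGood u (fun t => F s l1 t - T 0 t) := by
    intro s hs l0 hl0 l1 hl1 ho0 ho1 hg
    refine (((hd s hs).2.2.2.2.2.2 l0 hl0 l1 hl1 ho0 ho1).add hg).congr one_pos fun t _ => ?_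
    ring
  set A : ℝ → Prop := fun s => ∃ P ∈ ball (p s) (ρ' s), Off u gs q P ∧
    GermGood u (fun t => F s P t - T 0 t) with hAdef
  have hAll : ∀ s ∈ Icc (0 : ℝ) 1, A s → ∀ P ∈ ball (p s) (ρ' s), Off u gs q P →
      GermGood u (fun t => F s P t - T 0 t) := by
    rintro s hs ⟨P, hP, ho, hg⟩ P' hP' ho'
    exact hA s hs P hP P' hP' ho ho' hg
  have mem0 : (0 : ℝ) ∈ Icc (0 : ℝ) 1 := by norm_num
  have mem1 : (1 : ℝ) ∈ Icc (0 : ℝ) 1 := by norm_num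
  have hA1 : A 1 := by
    refine pred_chain (A := A) ?_ ?_
    · intro s hs
      obtain ⟨hρ, hρ', hle, he, hL, hloc, hrep⟩ := hd s hs
      have hcs : ContinuousWithinAt p (Icc 0 1) s := hpc s hs
      obtain ⟨ε1, hε1, h1⟩ := Metric.continuousWithinAt_iff.1 hcs (ρ' s) hρ'
      refine ⟨min ε1 (e s), lt_min hε1 he, fun s' hs' hlt => ?_⟩
      have hlt1 : |s' - s| < ε1 := hlt.trans_le (min_le_left _ _)
      have hlt2 : |s' - s| < e s := hlt.trans_le (min_le_right _ _)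
      have hps' : p s' ∈ ball (p s) (ρ' s) := h1 hs' (by rwa [Real.dist_eq])
      obtain ⟨h2, h3, h4⟩ := hloc s' hs' hlt2
      obtain ⟨kρ, kρ', kle, ke, kL, kloc, krep⟩ := hd s' hs'
      obtain ⟨k2, k3, k4⟩ := kloc s' hs' (by rw [sub_self, abs_zero]; exact ke)
      obtain ⟨ε', hε', hsub, heq⟩ := locPrim_eq isOpen_ball isOpen_ball hL kL h2 k2
        (h3.trans k3.symm) (τ0 := min (ρ s) (ρ s')) (min_le_left _ _) (min_le_right _ _)
        (fun t ht => by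
          rw [h4 t ⟨ht.1, ht.2.trans_le (min_le_left _ _)⟩,
            k4 t ⟨ht.1, ht.2.trans_le (min_le_right _ _)⟩])
      obtain ⟨ε2, hε2, hsub2⟩ := Metric.isOpen_iff.1
        (isOpen_ball : IsOpen (ball (p s) (ρ' s))) _ hps'
      obtain ⟨P0, hP0, ho⟩ := exists_off hu hq (hgood s' hs')
        (lt_min (lt_min hε' hε2) kρ')
      have hP1 : P0 ∈ ball (p s') ε' :=
        ball_subset_ball ((min_le_left _ _).trans (min_le_left _ _)) hP0
      have hP2 : P0 ∈ ball (p s) (ρ' s) :=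
        hsub2 (ball_subset_ball ((min_le_left _ _).trans (min_le_right _ _)) hP0)
      have hP3 : P0 ∈ ball (p s') (ρ' s') := ball_subset_ball (min_le_right _ _) hP0
      have hFeq : ∀ t ∈ Ioo (0 : ℝ) (min (ρ s) (ρ s')), F s P0 t = F s' P0 t :=
        (heq P0 hP1).2
      constructor
      · intro has
        refine ⟨P0, hP3, ho, (hAll s hs has P0 hP2 ho).congr (lt_min hρ kρ) fun t ht => ?_⟩
        rw [hFeq t ht]
      · intro has
        refine ⟨P0, hP2, ho, (hAll s' hs' has P0 hP3 ho).congr (lt_min hρ kρ) fun t ht => ?_⟩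
        rw [hFeq t ht]
    · obtain ⟨hρ, hρ', hle, he, hL, hloc, hrep⟩ := hd 0 mem0
      refine ⟨p 0, mem_ball_self hρ', h0, (GermGood.zero u).congr hρ fun t ht => ?_⟩
      rw [(hloc 0 mem0 (by rw [sub_self, abs_zero]; exact he)).2.2 t ht, sub_self]
  obtain ⟨hρ, hρ', hle, he, hL, hloc, hrep⟩ := hd 1 mem1
  refine (hAll 1 mem1 hA1 (p 1) (mem_ball_self hρ') h1).congr hρ fun t ht => ?_
  rw [(hloc 1 mem1 (by rw [sub_self, abs_zero]; exact he)).2.2 t ht]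

/-- LEMMA B, core form. `Eb`, `Ed` are the contributions of the two ends (tip or zero of `q`). -/
theorem wall_zero_core {u gs k : ℂ} (hu : 0 < u.re) (hgs : gs ≠ 0) {q : ℂ → ℂ}
    (hq : DifferentiableOn ℂ q Hm) {p y : ℝ → ℂ} {T : ℝ → ℝ → ℂ}
    (hp : PathPrim u gs q p y T) (hpc : ContinuousOn p (Icc 0 1))
    (hgood : ∀ s ∈ Icc (0 : ℝ) 1, ¬ Off u gs q (p s) → GoodP u q (p s))
    (h0 : Off u gs q (p 0)) (h1 : Off u gs q (p 1)) {Eb Ed : ℝ → ℂ} (hb : GermGood u Eb)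
    (hd : GermGood u Ed) {τ : ℝ} (hτ : 0 < τ)
    (h : ∀ t ∈ Ioo (0 : ℝ) τ, T 1 t - T 0 t + Eb t - Ed t = k * exp (u * t)) : k = 0 := by
  have h2 := ((germ_chain hu hgs hq hp hpc hgood h0 h1).add hb).sub hd
  obtain ⟨g, hg, τ', hτ', hg'⟩ := h2
  refine hg.eq_zero hu (lt_min hτ hτ') fun t ht => ?_
  rw [← hg' t ⟨ht.1, ht.2.trans_le (min_le_right _ _)⟩]
  exact h t ⟨ht.1, ht.2.trans_le (min_le_left _ _)⟩

/-- LEMMA B with the identity given for real `gam = gs exp (u z)` only (`Im (u z) = 0`): both sides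
are analytic in `z` near `0`, and the line `Im (u z) = 0` accumulates at `0`, so the identity holds for
all `z` near `0`, in particular for small real `z = t > 0`. -/
theorem wall_zero {u gs k : ℂ} (hu : 0 < u.re) (hgs : gs ≠ 0) {q : ℂ → ℂ}
    (hq : DifferentiableOn ℂ q Hm) {p y : ℝ → ℂ} {T : ℝ → ℂ → ℂ}
    (hp : PathPrim u gs q p y (fun s t => T s t)) (hpc : ContinuousOn p (Icc 0 1))
    (hgood : ∀ s ∈ Icc (0 : ℝ) 1, ¬ Off u gs q (p s) → GoodP u q (p s))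
    (h0 : Off u gs q (p 0)) (h1 : Off u gs q (p 1)) {Eb Ed : ℂ → ℂ}
    (hb : GermGood u (fun t => Eb t)) (hd : GermGood u (fun t => Ed t))
    (hba : AnalyticAt ℂ Eb 0) (hda : AnalyticAt ℂ Ed 0) (hT0 : AnalyticAt ℂ (T 0) 0)
    (hT1 : AnalyticAt ℂ (T 1) 0)
    (h : ∀ᶠ z : ℂ in 𝓝 0, (u * z).im = 0 → T 1 z - T 0 z + Eb z - Ed z = k * exp (u * z)) :
    k = 0 := by
  have hu0 : u ≠ 0 := by
    rintro rfl
    simp at hu
  set E : ℂ → ℂ := fun z => T 1 z - T 0 z + Eb z - Ed z - k * exp (u * z) with hE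
  have hexp : AnalyticAt ℂ (fun z : ℂ => k * exp (u * z)) 0 := by
    have h2 : Differentiable ℂ (fun z : ℂ => k * exp (u * z)) := by fun_prop
    exact h2.analyticAt 0
  have hEa : AnalyticAt ℂ E 0 := (((hT1.sub hT0).add hba).sub hda).sub hexp
  have hfreq : ∃ᶠ z in 𝓝[≠] (0 : ℂ), E z = 0 := by
    have htend : Tendsto (fun r : ℝ => (r : ℂ) / u) (𝓝[≠] 0) (𝓝[≠] 0) := by
      refine tendsto_nhdsWithin_iff.2 ⟨?_, ?_⟩
      · have h2 : Continuous (fun r : ℝ => (r : ℂ) / u) := by fun_prop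
        have h3 := h2.tendsto 0
        rw [Complex.ofReal_zero, zero_div] at h3
        exact h3.mono_left nhdsWithin_le_nhds
      · filter_upwards [self_mem_nhdsWithin] with r hr
        exact div_ne_zero (Complex.ofReal_ne_zero.2 hr) hu0
    have h2 : ∀ᶠ r : ℝ in 𝓝[≠] 0, E ((r : ℂ) / u) = 0 := by
      have h3 := (htend.mono_right nhdsWithin_le_nhds).eventually h
      filter_upwards [h3] with r hr
      have h4 : u * ((r : ℂ) / u) = r := mul_div_cancel₀ _ hu0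
      have h5 := hr (by rw [h4]; exact Complex.ofReal_im r)
      simp only [hE]
      rw [h5, sub_self]
    exact htend.frequently h2.frequently
  have hev : ∀ᶠ z in 𝓝 (0 : ℂ), E z = 0 := hEa.frequently_zero_iff_eventually_zero.1 hfreq
  obtain ⟨τ, hτ, hball⟩ := Metric.eventually_nhds_iff_ball.1 hev
  refine wall_zero_core hu hgs hq hp hpc hgood h0 h1 hb hd hτ fun t ht => ?_
  have h2 : E (t : ℂ) = 0 := hball _ (by
    rw [mem_ball, dist_zero_right, Complex.norm_real, Real.norm_eq_abs, abs_of_pos ht.1]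
    exact ht.2)
  exact sub_eq_zero.1 h2

end Pool.Agent.MP_ae5b4e_an_WB
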