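import Pool.Agent.Lib.MP_ae5b4e_an_WB.ChartD

/-!
# POR (iii), N2, Lemma B: chart near a compact piece of a trajectory
-/

namespace Pool.Agent.MP_ae5b4e_an_WB

open Complex Set Filter Topology MeasureTheory Metric

private theorem ChartA_Rc_eq (T δ : ℝ) :
    Rc T δ = (Complex.re ⁻¹' Ioo (-T - δ) δ) ∩ (Complex.im ⁻¹' Ioo (-δ) δ) := by
  ext ω
  simp only [Rc, mem_ofPred_eq, mem_inter_iff, mem_preimage, mem_Ioo, abs_lt]
  tauto

theorem convex_Rc (T δ : ℝ) : Convex ℝ (Rc T δ) := by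
  rw [ChartA_Rc_eq]
  exact ((convex_Ioo _ _).linear_preimage Complex.reLm).inter
    ((convex_Ioo _ _).linear_preimage Complex.imLm)

theorem isOpen_Rc (T δ : ℝ) : IsOpen (Rc T δ) := by
  rw [ChartA_Rc_eq]
  exact (isOpen_Ioo.preimage Complex.continuous_re).inter
    (isOpen_Ioo.preimage Complex.continuous_im)

private theorem ChartA_isOpen_Hm : IsOpen Hm := isOpen_lt Complex.continuous_im continuous_const

private theorem ChartA_strict {q : ℂ → ℂ} (hq : DifferentiableOn ℂ q Hm) {z : ℂ} (hz : z ∈ Hm) :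
    HasStrictDerivAt q (deriv q z) z :=
  ((hq.analyticOnNhd ChartA_isOpen_Hm) z hz).hasStrictDerivAt

/-- a holomorphic inverse near a compact set on which `q` is injective with nonzero derivative -/
private theorem ChartA_inv {q : ℂ → ℂ} (hq : DifferentiableOn ℂ q Hm) {K : Set ℂ}
    (hK : IsCompact K) (hKH : K ⊆ Hm) (hinj : InjOn q K) (hd : ∀ z ∈ K, deriv q z ≠ 0) :
    ∃ (W : Set ℂ) (g : ℂ → ℂ), IsOpen W ∧ q '' K ⊆ W ∧ DifferentiableOn ℂ g W ∧
      (∀ w ∈ W, g w ∈ Hm ∧ q (g w) = w) ∧ ∀ z ∈ K, g (q z) = z := by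
  have hloc : ∀ z ∈ K, ∃ u ∈ 𝓝 z, InjOn q u := by
    intro z hz
    have h1 := ChartA_strict hq (hKH hz)
    have h2 := (h1.hasStrictFDerivAt_equiv (hd z hz))
    exact ⟨_, (h2.toOpenPartialHomeomorph q).open_source.mem_nhds
      h2.mem_toOpenPartialHomeomorph_source, (h2.toOpenPartialHomeomorph q).injOn⟩
  obtain ⟨U₀, hU₀, hU₀i⟩ := hinj.exists_mem_nhdsSet hK
    (fun z hz => (ChartA_strict hq (hKH hz)).hasDerivAt.continuousAt) hloc
  obtain ⟨U₁, hU₁o, hKU₁, hU₁⟩ := mem_nhdsSet_iff_exists.1 hU₀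
  have hder : IsOpen (Hm ∩ deriv q ⁻¹' {0}ᶜ) :=
    (hq.analyticOnNhd ChartA_isOpen_Hm).deriv.continuousOn.isOpen_inter_preimage ChartA_isOpen_Hm
      isOpen_compl_singleton
  set U : Set ℂ := U₁ ∩ (Hm ∩ deriv q ⁻¹' {0}ᶜ) with hU
  have hUo : IsOpen U := hU₁o.inter hder
  have hKU : K ⊆ U := fun z hz => ⟨hKU₁ hz, hKH hz, hd z hz⟩
  have hUi : InjOn q U := hU₀i.mono (inter_subset_left.trans hU₁)
  have hnhds : ∀ z ∈ U, ∀ V ∈ 𝓝 z, q '' V ∈ 𝓝 (q z) := by
    intro z hz V hV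
    have h1 := (ChartA_strict hq hz.2.1).map_nhds_eq hz.2.2
    rw [← h1]
    exact image_mem_map hV
  have hWo : IsOpen (q '' U) := by
    rw [isOpen_iff_mem_nhds]
    rintro _ ⟨z, hz, rfl⟩
    exact hnhds z hz U (hUo.mem_nhds hz)
  have hgU : ∀ z ∈ U, Function.invFunOn q U (q z) = z := fun z hz => hUi.leftInvOn_invFunOn hz
  have hgm : ∀ w ∈ q '' U, Function.invFunOn q U w ∈ U := fun w hw => Function.invFunOn_mem hw
  have hge : ∀ w ∈ q '' U, q (Function.invFunOn q U w) = w := fun w hw => Function.invFunOn_eq hw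
  have hcont : ∀ w ∈ q '' U, ContinuousAt (Function.invFunOn q U) w := by
    rintro _ ⟨z, hz, rfl⟩
    intro V hV
    rw [hgU z hz] at hV
    have h1 := hnhds z hz (V ∩ U) (inter_mem hV (hUo.mem_nhds hz))
    rw [mem_map]
    refine mem_of_superset h1 ?_
    rintro _ ⟨v, hv, rfl⟩
    show Function.invFunOn q U (q v) ∈ V
    rw [hgU v hv.2]
    exact hv.1
  refine ⟨q '' U, Function.invFunOn q U, hWo, image_mono hKU, ?_, fun w hw =>
    ⟨(hgm w hw).2.1, hge w hw⟩, fun z hz => hgU z (hKU hz)⟩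
  intro w hw
  have h1 := hgm w hw
  have h2 : HasDerivAt q (deriv q (Function.invFunOn q U w)) (Function.invFunOn q U w) :=
    (ChartA_strict hq h1.2.1).hasDerivAt
  have h3 := HasDerivAt.of_local_left_inverse (hcont w hw) h2 h1.2.2
    (mem_of_superset (hWo.mem_nhds hw) (fun y hy => hge y hy))
  exact h3.differentiableAt.differentiableWithinAt

/-- Chart on a rectangle. `K = l '' [0,T]` is compact, `q` is injective on `K` (`|q (l s)|` is strictly
decreasing) and locally injective at the points of `K` (`deriv q ≠ 0`); by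
`Set.InjOn.exists_mem_nhdsSet` `q` is injective on an open `U ⊇ K`, `U ⊆ Hm`. `q '' U` is open and the
inverse `g : q '' U → U` is holomorphic (`HasDerivAt.of_local_left_inverse`; `deriv q ≠ 0` on `U` by
injectivity, or after shrinking `U`). `E ω = q P e^(2uω)` maps the segment `[-T, 0]` into `q '' K`; by
compactness it maps `Rc T δ` into `q '' U` for small `δ`. `lam = g ∘ E`. -/
theorem exists_rect_chart {u : ℂ} (hu : 0 < u.re) {q : ℂ → ℂ} (hq : DifferentiableOn ℂ q Hm)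
    {P : ℂ} (hP : q P ≠ 0) {l : ℝ → ℂ} (h0 : l 0 = P) (hc : ContinuousOn l (Ici 0))
    (hl : ∀ s : ℝ, 0 ≤ s → (l s).im < 0 ∧ q (l s) = q P * exp (-(2 * u * s)) ∧
      deriv q (l s) ≠ 0) {T : ℝ} (hT : 0 < T) :
    ∃ δ : ℝ, 0 < δ ∧ ∃ lam : ℂ → ℂ, DifferentiableOn ℂ lam (Rc T δ) ∧
      (∀ ω ∈ Rc T δ, (lam ω).im < 0 ∧ q (lam ω) = q P * exp (2 * (u * ω))) ∧
      ∀ s ∈ Icc (0 : ℝ) T, lam (-(s : ℂ)) = l s := by
  have hKc : IsCompact (l '' Icc 0 T) :=
    isCompact_Icc.image_of_continuousOn (hc.mono Icc_subset_Ici_self)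
  have hKH : l '' Icc 0 T ⊆ Hm := by
    rintro _ ⟨s, hs, rfl⟩
    exact (hl s hs.1).1
  have hinj : InjOn q (l '' Icc 0 T) := by
    rintro _ ⟨s, hs, rfl⟩ _ ⟨t, ht, rfl⟩ hst
    rw [(hl s hs.1).2.1, (hl t ht.1).2.1] at hst
    have h1 := congrArg norm (mul_left_cancel₀ hP hst)
    rw [Complex.norm_exp, Complex.norm_exp, Real.exp_eq_exp] at h1
    have h2 : ∀ r : ℝ, (-(2 * u * (r : ℂ))).re = -(2 * u.re * r) := by
      intro r
      simp
    rw [h2, h2] at h1
    have h3 : s = t := by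
      have h4 : 2 * u.re * s = 2 * u.re * t := by linarith
      exact mul_left_cancel₀ (by positivity) h4
    rw [h3]
  obtain ⟨W, g, hWo, hKW, hgd, hgW, hgK⟩ := ChartA_inv hq hKc hKH hinj (by
    rintro _ ⟨s, hs, rfl⟩
    exact (hl s hs.1).2.2)
  have hEc : Continuous (fun ω : ℂ => q P * exp (2 * (u * ω))) := by fun_prop
  have hSc : IsCompact ((fun s : ℝ => (-(s : ℂ))) '' Icc 0 T) :=
    isCompact_Icc.image (by fun_prop)
  have hSW : (fun s : ℝ => (-(s : ℂ))) '' Icc 0 T ⊆ (fun ω : ℂ => q P * exp (2 * (u * ω))) ⁻¹' W := by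
    rintro _ ⟨s, hs, rfl⟩
    refine hKW ⟨l s, ⟨s, hs, rfl⟩, ?_⟩
    rw [(hl s hs.1).2.1]
    congr 2
    ring
  obtain ⟨δ, hδ, hδW⟩ := hSc.exists_thickening_subset_open (hWo.preimage hEc) hSW
  have hRc : ∀ ω ∈ Rc T (δ / 2), q P * exp (2 * (u * ω)) ∈ W := by
    intro ω hω
    refine hδW ?_
    rw [mem_thickening_iff]
    obtain ⟨h1, h2, h3⟩ := hω
    refine ⟨-((max 0 (min (-ω.re) T) : ℝ) : ℂ), ⟨max 0 (min (-ω.re) T), ⟨le_max_left _ _,
      max_le hT.le (min_le_right _ _)⟩, rfl⟩, ?_⟩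
    rw [dist_eq]
    refine lt_of_le_of_lt (Complex.norm_le_abs_re_add_abs_im _) ?_
    have h4 : (ω - -((max 0 (min (-ω.re) T) : ℝ) : ℂ)).re = ω.re + max 0 (min (-ω.re) T) := by
      simp
    have h5 : (ω - -((max 0 (min (-ω.re) T) : ℝ) : ℂ)).im = ω.im := by
      simp
    rw [h4, h5]
    have h6 : |ω.re + max 0 (min (-ω.re) T)| < δ / 2 := by
      rw [abs_lt]
      rcases le_total (-ω.re) T with h7 | h7
      · rw [min_eq_left h7]
        rcases le_total 0 (-ω.re) with h8 | h8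
        · rw [max_eq_right h8]
          constructor <;> linarith
        · rw [max_eq_left h8]
          constructor <;> linarith
      · rw [min_eq_right h7, max_eq_right hT.le]
        constructor <;> linarith
    linarith
  refine ⟨δ / 2, by linarith, fun ω => g (q P * exp (2 * (u * ω))), ?_, ?_, ?_⟩
  · exact hgd.comp (by fun_prop) hRc
  · intro ω hω
    exact hgW _ (hRc ω hω)
  · intro s hs
    have h1 : q P * exp (2 * (u * (-(s : ℂ)))) = q (l s) := by
      rw [(hl s hs.1).2.1]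
      congr 2
      ring
    show g (q P * exp (2 * (u * (-(s : ℂ))))) = l s
    rw [h1]
    exact hgK _ ⟨s, hs, rfl⟩

end Pool.Agent.MP_ae5b4e_an_WB
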