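import Pool.Agent.Lib.MP_ae5b4e_an_WB.ChartA

/-!
# POR (iii), N2, Lemma B: global chart along a good trajectory
-/

namespace Pool.Agent.MP_ae5b4e_an_WB

open Complex Set Filter Topology MeasureTheory Metric

/-- two holomorphic functions on `Rc T δ` that agree on the segment `(-T, 0)` agree (identity
theorem: `Rc T δ` is convex, the points of the segment accumulate) -/
theorem eqOn_Rc {T δ : ℝ} (hT : 0 < T) (hδ : 0 < δ) {f g : ℂ → ℂ}
    (hf : DifferentiableOn ℂ f (Rc T δ)) (hg : DifferentiableOn ℂ g (Rc T δ))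
    (h : ∀ s ∈ Ioo (0 : ℝ) T, f (-(s : ℂ)) = g (-(s : ℂ))) : EqOn f g (Rc T δ) := by
  have h0 : -((T / 2 : ℝ) : ℂ) ∈ Rc T δ := by
    refine ⟨?_, ?_, ?_⟩
    · rw [neg_re, ofReal_re]
      linarith
    · rw [neg_re, ofReal_re]
      linarith
    · rw [neg_im, ofReal_im, neg_zero, abs_zero]
      exact hδ
  refine (hf.analyticOnNhd (isOpen_Rc T δ)).eqOn_of_preconnected_of_frequently_eq
    (hg.analyticOnNhd (isOpen_Rc T δ)) (convex_Rc T δ).isPreconnected h0 ?_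
  have ht : Tendsto (fun s : ℝ => -(s : ℂ)) (𝓝[≠] (T / 2)) (𝓝[≠] (-((T / 2 : ℝ) : ℂ))) := by
    refine tendsto_nhdsWithin_of_tendsto_nhds_of_eventually_within _ ?_ ?_
    · exact (continuous_ofReal.neg.tendsto (T / 2)).mono_left nhdsWithin_le_nhds
    · filter_upwards [self_mem_nhdsWithin] with s hs hs'
      exact hs (by
        have h1 : (s : ℂ) = ((T / 2 : ℝ) : ℂ) := neg_injective hs'
        exact_mod_cast h1)
  refine ht.frequently (Eventually.frequently ?_)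
  have h1 : Ioo 0 T ∈ 𝓝 (T / 2) := Ioo_mem_nhds (by linarith) (by linarith)
  filter_upwards [mem_nhdsWithin_of_mem_nhds h1] with s hs
  exact h s hs

private theorem ChartB_min (δ : ℕ → ℝ) (h : ∀ n, 0 < δ n) (m : ℕ) :
    ∃ d : ℝ, 0 < d ∧ ∀ i ≤ m, d ≤ δ i := by
  induction m with
  | zero =>
    refine ⟨δ 0, h 0, fun i hi => ?_⟩
    rw [Nat.le_zero.1 hi]
  | succ m ih =>
    obtain ⟨d, hd, hi⟩ := ih
    refine ⟨min d (δ (m + 1)), lt_min hd (h _), fun i him => ?_⟩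
    rcases Nat.lt_or_ge i (m + 1) with h1 | h1
    · exact (min_le_left _ _).trans (hi i (by omega))
    · have h2 : i = m + 1 := by omega
      rw [h2]
      exact min_le_right _ _

private theorem ChartB_mono {T T' δ δ' : ℝ} (hT : T ≤ T') (hδ : δ ≤ δ') : Rc T δ ⊆ Rc T' δ' := by
  rintro ω ⟨h1, h2, h3⟩
  exact ⟨by linarith, by linarith, by linarith⟩

/-- Gluing: `lam_n` on `Rc (n + 1) δ_n` (`exists_rect_chart`), `δ_n ≤ 1` decreasing;
`lam ω := lam_N ω`, `N = ⌈|Re ω|⌉₊ + 1`. On `Rc T δ_m`, `m = ⌈T⌉₊ + 3`, `lam = lam_m` by `eqOn_Rc`.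
`cover`: `deriv lam 0 ≠ 0` (differentiate `q (lam ω) = q P e^(2uω)`), so `lam` maps neighbourhoods of `0` to
neighbourhoods of `P` (`HasStrictDerivAt.map_nhds_eq`). `int`: `l s = lam (-s)` for `s ≥ 0`, so
`‖deriv l s‖ = ‖deriv lam (-s)‖` for `s > 0`. -/
theorem exists_chart {u : ℂ} (hu : 0 < u.re) {q : ℂ → ℂ} (hq : DifferentiableOn ℂ q Hm)
    {P : ℂ} (hP : GoodP u q P) : ∃ lam : ℂ → ℂ, IsChart u q P lam := by
  obtain ⟨hqP, l, h0, hc, hl, hint⟩ := hP
  have hex : ∀ n : ℕ, ∃ δ : ℝ, 0 < δ ∧ ∃ lam : ℂ → ℂ,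
      DifferentiableOn ℂ lam (Rc ((n : ℝ) + 1) δ) ∧
      (∀ ω ∈ Rc ((n : ℝ) + 1) δ, (lam ω).im < 0 ∧ q (lam ω) = q P * exp (2 * (u * ω))) ∧
      ∀ s ∈ Icc (0 : ℝ) ((n : ℝ) + 1), lam (-(s : ℂ)) = l s := fun n =>
    exists_rect_chart hu hq hqP h0 hc hl (by positivity)
  choose δ hδ lm hd hlq hls using hex
  obtain ⟨lam, hlam⟩ : ∃ lam : ℂ → ℂ, ∀ ω, lam ω = lm (⌈|ω.re|⌉₊ + 1) ω := ⟨_, fun _ => rfl⟩
  -- values on the trajectory
  have hval : ∀ s : ℝ, 0 ≤ s → lam (-(s : ℂ)) = l s := by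
    intro s hs
    rw [hlam]
    refine hls _ s ⟨hs, ?_⟩
    rw [neg_re, ofReal_re, abs_neg, abs_of_nonneg hs]
    have h1 := Nat.le_ceil s
    push_cast
    linarith
  -- gluing
  have hglue : ∀ T : ℝ, 0 < T → ∃ m : ℕ, ∃ d : ℝ, 0 < d ∧ Rc T d ⊆ Rc ((m : ℝ) + 1) (δ m) ∧
      EqOn lam (lm m) (Rc T d) := by
    intro T hT
    obtain ⟨d, hd0, hdi⟩ := ChartB_min δ hδ (⌈T⌉₊ + 2)
    refine ⟨⌈T⌉₊ + 2, min d 1, lt_min hd0 one_pos, ?_, ?_⟩
    · refine ChartB_mono ?_ ((min_le_left _ _).trans (hdi _ le_rfl))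
      have h1 := Nat.le_ceil T
      push_cast
      linarith
    · intro ω hω
      rw [hlam]
      have habs : |ω.re| ≤ T + 1 := by
        have h1 : min d 1 ≤ 1 := min_le_right _ _
        rw [abs_le]
        constructor
        · linarith [hω.1]
        · linarith [hω.2.1]
      have hN : ⌈|ω.re|⌉₊ + 1 ≤ ⌈T⌉₊ + 2 := by
        have h1 : ⌈|ω.re|⌉₊ ≤ ⌈T⌉₊ + 1 := by
          rw [Nat.ceil_le]
          have h2 := Nat.le_ceil T
          push_cast
          linarith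
        omega
      have hcl := Nat.le_ceil |ω.re|
      generalize ⌈|ω.re|⌉₊ = N0 at hN hcl
      have hdp : 0 < min d 1 := lt_min hd0 one_pos
      have e1 : Rc (((N0 + 1 : ℕ) : ℝ) + 1) (min d 1) ⊆
          Rc (((N0 + 1 : ℕ) : ℝ) + 1) (δ (N0 + 1)) :=
        ChartB_mono le_rfl ((min_le_left _ _).trans (hdi _ hN))
      have e2 : Rc (((N0 + 1 : ℕ) : ℝ) + 1) (min d 1) ⊆
          Rc (((⌈T⌉₊ + 2 : ℕ) : ℝ) + 1) (δ (⌈T⌉₊ + 2)) := by
        refine ChartB_mono ?_ ((min_le_left _ _).trans (hdi _ le_rfl))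
        have h1 : ((N0 + 1 : ℕ) : ℝ) ≤ ((⌈T⌉₊ + 2 : ℕ) : ℝ) := by exact_mod_cast hN
        linarith
      refine eqOn_Rc (T := ((N0 + 1 : ℕ) : ℝ) + 1) (by positivity) hdp ((hd _).mono e1)
        ((hd _).mono e2) ?_ ?_
      · intro s hs
        rw [hls _ s ⟨hs.1.le, hs.2.le⟩, hls _ s ⟨hs.1.le, ?_⟩]
        have h1 : ((N0 + 1 : ℕ) : ℝ) ≤ ((⌈T⌉₊ + 2 : ℕ) : ℝ) := by exact_mod_cast hN
        linarith [hs.2]
      · refine ⟨?_, hω.2.1, hω.2.2⟩
        have h1 := neg_abs_le ω.re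
        push_cast
        linarith
  have hhol : ∀ T : ℝ, 0 < T → ∃ δ : ℝ, 0 < δ ∧ DifferentiableOn ℂ lam (Rc T δ) ∧
      ∀ ω ∈ Rc T δ, (lam ω).im < 0 ∧ q (lam ω) = q P * exp (2 * (u * ω)) := by
    intro T hT
    obtain ⟨m, d, hd0, hsub, heq⟩ := hglue T hT
    refine ⟨d, hd0, ((hd m).mono hsub).congr heq, fun ω hω => ?_⟩
    rw [heq hω]
    exact hlq m ω (hsub hω)
  have hzero : lam 0 = P := by
    have h1 := hval 0 le_rfl
    rw [ofReal_zero, neg_zero, h0] at h1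
    exact h1
  refine ⟨lam, hzero, hhol, ?_, ?_⟩
  · intro r hr
    obtain ⟨d, hd0, hdl, hql⟩ := hhol 1 one_pos
    have h0m : (0 : ℂ) ∈ Rc 1 d := by
      refine ⟨?_, ?_, ?_⟩
      · rw [zero_re]
        linarith
      · rw [zero_re]
        exact hd0
      · rw [zero_im, abs_zero]
        exact hd0
    have hn : Rc 1 d ∈ 𝓝 (0 : ℂ) := (isOpen_Rc 1 d).mem_nhds h0m
    have han : AnalyticAt ℂ lam 0 := hdl.analyticAt hn
    have hPm : P ∈ Hm := by
      have h1 := (hql 0 h0m).1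
      rw [hzero] at h1
      exact h1
    have hHo : IsOpen Hm := isOpen_lt continuous_im continuous_const
    have hqd : HasDerivAt q (deriv q (lam 0)) (lam 0) := by
      rw [hzero]
      exact (hq.differentiableAt (hHo.mem_nhds hPm)).hasDerivAt
    have h1 : HasDerivAt (fun ω => q (lam ω)) (deriv q (lam 0) * deriv lam 0) 0 :=
      hqd.comp 0 han.differentiableAt.hasDerivAt
    have h2 : HasDerivAt (fun ω : ℂ => q P * exp (2 * (u * ω))) (q P * (2 * u)) 0 := by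
      have h3 : HasDerivAt (fun ω : ℂ => 2 * (u * ω)) (2 * (u * 1)) 0 :=
        ((hasDerivAt_id (0 : ℂ)).const_mul u).const_mul 2
      have h4 := (h3.cexp).const_mul (q P)
      simpa using h4
    have h3 : (fun ω => q (lam ω)) =ᶠ[𝓝 0] fun ω : ℂ => q P * exp (2 * (u * ω)) := by
      filter_upwards [hn] with ω hω
      exact (hql ω hω).2
    have h4 : deriv q (lam 0) * deriv lam 0 = q P * (2 * u) :=
      h1.unique (h2.congr_of_eventuallyEq h3)
    have hu0 : u ≠ 0 := by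
      rintro rfl
      rw [zero_re] at hu
      exact lt_irrefl _ hu
    have h5 : deriv lam 0 ≠ 0 := by
      intro h
      rw [h, mul_zero] at h4
      exact mul_ne_zero hqP (mul_ne_zero two_ne_zero hu0) h4.symm
    have h6 : map lam (𝓝 0) = 𝓝 (lam 0) := han.hasStrictDerivAt.map_nhds_eq h5
    have h7 : lam '' ball 0 r ∈ 𝓝 (lam 0) := by
      rw [← h6]
      exact image_mem_map (ball_mem_nhds _ hr)
    rw [hzero] at h7
    obtain ⟨ρ, hρ, hρs⟩ := Metric.mem_nhds_iff.1 h7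
    exact ⟨ρ, hρ, hρs⟩
  · refine hint.congr_fun ?_ measurableSet_Ioi
    intro s hs
    have hs0 : 0 < s := hs
    have hnd : ‖deriv l s‖ = ‖deriv lam (-(s : ℂ))‖ := by
      obtain ⟨d, hd0, hdl, -⟩ := hhol s hs0
      have hsm : -(s : ℂ) ∈ Rc s d := by
        refine ⟨?_, ?_, ?_⟩
        · rw [neg_re, ofReal_re]
          linarith
        · rw [neg_re, ofReal_re]
          linarith
        · rw [neg_im, ofReal_im, neg_zero, abs_zero]
          exact hd0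
      have h1 : HasDerivAt lam (deriv lam (-(s : ℂ))) (-(s : ℂ)) :=
        (hdl.differentiableAt ((isOpen_Rc s d).mem_nhds hsm)).hasDerivAt
      have h2 : HasDerivAt (fun w : ℂ => lam (-w)) (deriv lam (-(s : ℂ)) * (-1)) (s : ℂ) :=
        HasDerivAt.comp (s : ℂ) h1 (hasDerivAt_neg (s : ℂ))
      have h3 := h2.comp_ofReal
      have h4 : l =ᶠ[𝓝 s] fun s' : ℝ => lam (-(s' : ℂ)) := by
        filter_upwards [Ioi_mem_nhds hs0] with s' hs'
        exact (hval s' (le_of_lt hs')).symm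
      rw [(h3.congr_of_eventuallyEq h4).deriv, norm_mul, norm_neg, norm_one, mul_one]
    change Real.exp (-(u.re * s)) * (1 + s) * ‖deriv l s‖ = _
    rw [hnd]

end Pool.Agent.MP_ae5b4e_an_WB
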