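import Pool.Agent.Lib.MP_ae5b4e_an_WB.Defs

/-!
# POR (iii), N2, Lemma B: charts along good trajectories
-/

namespace Pool.Agent.MP_ae5b4e_an_WB

open Complex Set Filter Topology MeasureTheory Metric

/-- `lam` is a chart of the label plane along the trajectory of `P`:
`q (lam ω) = q P e^(2uω)` near `(-oo, 0]` -/
structure IsChart (u : ℂ) (q : ℂ → ℂ) (P : ℂ) (lam : ℂ → ℂ) : Prop where
  zero : lam 0 = P
  hol : ∀ T : ℝ, 0 < T → ∃ δ : ℝ, 0 < δ ∧ DifferentiableOn ℂ lam (Rc T δ) ∧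
    ∀ ω ∈ Rc T δ, (lam ω).im < 0 ∧ q (lam ω) = q P * exp (2 * (u * ω))
  cover : ∀ r : ℝ, 0 < r → ∃ ρ : ℝ, 0 < ρ ∧ ball P ρ ⊆ lam '' ball 0 r
  int : IntegrableOn (fun s : ℝ => Real.exp (-(u.re * s)) * (1 + s) * ‖deriv lam (-(s : ℂ))‖)
    (Ioi 0)

end Pool.Agent.MP_ae5b4e_an_WB
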