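import Pool.Agent.Lib.MP_ae5b4e_an_WB.Defs

/-!
# POR (iii), N2, Lemma B: asymptotics of convolutions (real variable)
-/

namespace Pool.Agent.MP_ae5b4e_an_WB

open Complex Set Filter Topology MeasureTheory

private theorem Conv_meas {x r0 t : ℝ} {φ : ℝ → ℂ}
    (hφc : ∀ τ : ℝ, x < τ → τ ≠ r0 → ContinuousAt φ τ) :
    AEStronglyMeasurable (fun s : ℝ => if s ≤ t - x then φ (t - s) else 0) volume := by
  have hopen : IsOpen (Iio (t - x) \ {t - r0}) := isOpen_Iio.sdiff isClosed_singleton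
  have hc : ContinuousOn (fun s : ℝ => φ (t - s)) (Iio (t - x) \ {t - r0}) := by
    intro s hs
    have h1 : x < t - s := by
      have := hs.1
      simp only [mem_Iio] at this
      linarith
    have h2 : t - s ≠ r0 := by
      intro h
      apply hs.2
      rw [mem_singleton_iff]
      linarith
    have h3 : ContinuousAt (fun s : ℝ => φ (t - s)) s :=
      ContinuousAt.comp (f := fun s : ℝ => t - s) (g := φ) (hφc _ h1 h2)
        (by fun_prop : Continuous fun s : ℝ => t - s).continuousAt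
    exact h3.continuousWithinAt
  have h4 := (aestronglyMeasurable_indicator_iff hopen.measurableSet).2
    (hc.aestronglyMeasurable (μ := volume) hopen.measurableSet)
  refine h4.congr ?_
  have h5 : ({t - x, t - r0} : Set ℝ)ᶜ ∈ ae (volume : Measure ℝ) := by
    rw [mem_ae_iff, compl_compl]
    exact (Set.toFinite _).measure_zero _
  filter_upwards [h5] with s hs
  rw [mem_compl_iff, mem_insert_iff, mem_singleton_iff, not_or] at hs
  by_cases h6 : s ≤ t - x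
  · rw [if_pos h6, indicator_of_mem]
    exact ⟨lt_of_le_of_ne h6 hs.1, hs.2⟩
  · rw [if_neg h6, indicator_of_notMem]
    intro h7
    exact h6 (le_of_lt h7.1)

private theorem Conv_B {u Φ : ℂ} (hu0 : u ≠ 0) {x C T : ℝ} {φ : ℝ → ℂ}
    (hφb : ∀ τ : ℝ, x ≤ τ → ‖φ τ‖ ≤ C) (hT : 1 < T)
    (hφ : ∀ τ : ℝ, T ≤ τ → ‖φ τ - Φ * (1 + 1 / (u * τ))‖ ≤ C * (Real.log τ / τ ^ 2)) :
    ∀ τ : ℝ, x ≤ τ → ‖φ τ - Φ‖ * (1 + |τ|) ≤
      2 * (C + ‖Φ / u‖) + (C + ‖Φ‖) * (1 + |x| + T) := by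
  have hC : 0 ≤ C := (norm_nonneg _).trans (hφb x le_rfl)
  intro τ hτ
  have hpos1 : 0 ≤ 2 * (C + ‖Φ / u‖) := by positivity
  have hpos2 : 0 ≤ (C + ‖Φ‖) * (1 + |x| + T) := by positivity
  rcases le_or_gt T τ with h | h
  · have hτ0 : 0 < τ := by linarith
    have hτc : (τ : ℂ) ≠ 0 := by exact_mod_cast hτ0.ne'
    have h1 : φ τ - Φ = (φ τ - Φ * (1 + 1 / (u * τ))) + Φ / u / τ := by
      field_simp
      ring
    have h2 : ‖Φ / u / (τ : ℂ)‖ = ‖Φ / u‖ / τ := by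
      rw [norm_div, norm_real, Real.norm_of_nonneg hτ0.le]
    have h3 : C * (Real.log τ / τ ^ 2) ≤ C / τ := by
      rw [div_eq_mul_one_div C τ]
      refine mul_le_mul_of_nonneg_left ?_ hC
      rw [div_le_div_iff₀ (by positivity) hτ0]
      have := Real.log_le_self hτ0.le
      nlinarith
    have h4 : ‖φ τ - Φ‖ ≤ (C + ‖Φ / u‖) / τ := by
      rw [h1, add_div]
      refine (norm_add_le _ _).trans ?_
      rw [h2]
      exact add_le_add ((hφ τ h).trans h3) le_rfl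
    have h5 : (C + ‖Φ / u‖) / τ * (1 + |τ|) ≤ 2 * (C + ‖Φ / u‖) := by
      rw [abs_of_pos hτ0, div_mul_eq_mul_div, div_le_iff₀ hτ0]
      have : 0 ≤ C + ‖Φ / u‖ := by positivity
      nlinarith
    have h6 : ‖φ τ - Φ‖ * (1 + |τ|) ≤ (C + ‖Φ / u‖) / τ * (1 + |τ|) :=
      mul_le_mul_of_nonneg_right h4 (by positivity)
    linarith
  · have h1 : ‖φ τ - Φ‖ ≤ C + ‖Φ‖ := (norm_sub_le _ _).trans (add_le_add (hφb τ hτ) le_rfl)
    have h2 : |τ| ≤ |x| + T := by
      rw [abs_le]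
      constructor
      · have := neg_abs_le x
        linarith
      · have := abs_nonneg x
        linarith
    have h3 : ‖φ τ - Φ‖ * (1 + |τ|) ≤ (C + ‖Φ‖) * (1 + |x| + T) :=
      mul_le_mul h1 (by linarith) (by positivity) (by positivity)
    linarith

private theorem Conv_bound {u Φ : ℂ} (hu0 : u ≠ 0) {x C T : ℝ} {φ : ℝ → ℂ}
    (hφb : ∀ τ : ℝ, x ≤ τ → ‖φ τ‖ ≤ C) (hT : 1 < T)
    (hφ : ∀ τ : ℝ, T ≤ τ → ‖φ τ - Φ * (1 + 1 / (u * τ))‖ ≤ C * (Real.log τ / τ ^ 2)) :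
    ∃ K : ℝ, ∀ t : ℝ, 0 < t → ∀ s : ℝ, 0 ≤ s →
      ‖(t : ℂ) * ((if s ≤ t - x then φ (t - s) else 0) - Φ * (1 + 1 / (u * t)))‖ ≤
        K * (1 + s) := by
  have hC : 0 ≤ C := (norm_nonneg _).trans (hφb x le_rfl)
  have hB := Conv_B (Φ := Φ) hu0 hφb hT hφ
  set B : ℝ := 2 * (C + ‖Φ / u‖) + (C + ‖Φ‖) * (1 + |x| + T) with hBdef
  have hB0 : 0 ≤ B := by positivity
  refine ⟨B + ‖Φ / u‖ + ‖Φ‖ * (1 + |x|), fun t ht s hs => ?_⟩
  have htc : (t : ℂ) ≠ 0 := by exact_mod_cast ht.ne'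
  have e : ∀ w : ℂ, (t : ℂ) * (w - Φ * (1 + 1 / (u * t))) = t * (w - Φ) - Φ / u := by
    intro w
    field_simp
    ring
  have e2 : ∀ w : ℂ, ‖(t : ℂ) * (w - Φ * (1 + 1 / (u * t)))‖ ≤ t * ‖w - Φ‖ + ‖Φ / u‖ := by
    intro w
    rw [e]
    refine (norm_sub_le _ _).trans ?_
    rw [norm_mul, norm_real, Real.norm_of_nonneg ht.le]
  have hp1 : 0 ≤ ‖Φ / u‖ := norm_nonneg _
  have hp2 : 0 ≤ ‖Φ‖ * (1 + |x|) := by positivity
  by_cases h : s ≤ t - x
  · rw [if_pos h]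
    refine (e2 _).trans ?_
    have h1 := hB (t - s) (by linarith)
    have h2 : t ≤ (1 + |t - s|) * (1 + s) := by
      have h3 := le_abs_self (t - s)
      have h4 := abs_nonneg (t - s)
      nlinarith
    have h5 : t * ‖φ (t - s) - Φ‖ ≤ B * (1 + s) := by
      calc t * ‖φ (t - s) - Φ‖ ≤ (1 + |t - s|) * (1 + s) * ‖φ (t - s) - Φ‖ :=
            mul_le_mul_of_nonneg_right h2 (norm_nonneg _)
        _ = ‖φ (t - s) - Φ‖ * (1 + |t - s|) * (1 + s) := by ring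
        _ ≤ B * (1 + s) := mul_le_mul_of_nonneg_right h1 (by linarith)
    nlinarith
  · rw [if_neg h]
    refine (e2 _).trans ?_
    rw [zero_sub, norm_neg]
    have h1 : t ≤ s + |x| := by
      have := le_abs_self x
      linarith
    have h2 : t * ‖Φ‖ ≤ (s + |x|) * ‖Φ‖ := mul_le_mul_of_nonneg_right h1 (norm_nonneg _)
    have h3 : 0 ≤ ‖Φ‖ := norm_nonneg _
    have h4 : 0 ≤ |x| := abs_nonneg x
    have h5 : 0 ≤ ‖Φ‖ * (|x| * s) := by positivity
    have h6 : 0 ≤ B * s := by positivity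
    have h7 : 0 ≤ ‖Φ / u‖ * s := by positivity
    nlinarith

private theorem Conv_lim {u Φ : ℂ} (hu0 : u ≠ 0) {x C T : ℝ} {φ : ℝ → ℂ}
    (hφb : ∀ τ : ℝ, x ≤ τ → ‖φ τ‖ ≤ C) (hT : 1 < T)
    (hφ : ∀ τ : ℝ, T ≤ τ → ‖φ τ - Φ * (1 + 1 / (u * τ))‖ ≤ C * (Real.log τ / τ ^ 2))
    {s : ℝ} (hs : 0 ≤ s) :
    Tendsto (fun t : ℝ => (t : ℂ) * ((if s ≤ t - x then φ (t - s) else 0) -
      Φ * (1 + 1 / (u * t)))) atTop (𝓝 0) := by
  have hC : 0 ≤ C := (norm_nonneg _).trans (hφb x le_rfl)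
  have hsub : Tendsto (fun t : ℝ => t - s) atTop atTop :=
    tendsto_atTop_add_const_right atTop (-s) tendsto_id
  have h1 : Tendsto (fun t : ℝ => 2 * C * (Real.log (t - s) / (t - s)) +
      ‖Φ / u‖ * s * (t - s)⁻¹) atTop (𝓝 0) := by
    have h2 : Tendsto (fun t : ℝ => Real.log (t - s) / (t - s)) atTop (𝓝 0) :=
      (Real.isLittleO_log_id_atTop.tendsto_div_nhds_zero).comp hsub
    have h3 : Tendsto (fun t : ℝ => (t - s)⁻¹) atTop (𝓝 0) := tendsto_inv_atTop_zero.comp hsub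
    have h4 := (h2.const_mul (2 * C)).add (h3.const_mul (‖Φ / u‖ * s))
    simpa using h4
  refine squeeze_zero_norm' ?_ h1
  filter_upwards [eventually_ge_atTop (s + T), eventually_ge_atTop (s + x),
    eventually_ge_atTop (2 * s)] with t ht1 ht2 ht3
  rw [if_pos (by linarith)]
  have hτ : T ≤ t - s := by linarith
  have hτ0 : 0 < t - s := by linarith
  have ht0 : 0 < t := by linarith
  have htc : (t : ℂ) ≠ 0 := by exact_mod_cast ht0.ne'
  have hτc : ((t - s : ℝ) : ℂ) ≠ 0 := by exact_mod_cast hτ0.ne'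
  have e : (t : ℂ) * (φ (t - s) - Φ * (1 + 1 / (u * t))) =
      t * (φ (t - s) - Φ * (1 + 1 / (u * (t - s : ℝ)))) + Φ / u * s / (t - s : ℝ) := by
    have hst : (s : ℂ) = t - (t - s : ℝ) := by
      push_cast
      ring
    generalize ((t - s : ℝ) : ℂ) = τ at hτc hst ⊢
    rw [hst]
    field_simp
    ring
  rw [e]
  refine (norm_add_le _ _).trans (add_le_add ?_ ?_)
  · rw [norm_mul, norm_real, Real.norm_of_nonneg ht0.le]
    calc t * ‖φ (t - s) - Φ * (1 + 1 / (u * (t - s : ℝ)))‖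
        ≤ t * (C * (Real.log (t - s) / (t - s) ^ 2)) :=
          mul_le_mul_of_nonneg_left (hφ _ hτ) ht0.le
      _ ≤ (2 * (t - s)) * (C * (Real.log (t - s) / (t - s) ^ 2)) := by
          refine mul_le_mul_of_nonneg_right (by linarith) ?_
          have : 0 ≤ Real.log (t - s) := Real.log_nonneg (by linarith)
          positivity
      _ = 2 * C * (Real.log (t - s) / (t - s)) := by
          field_simp
  · rw [norm_div, norm_mul, norm_real, norm_real, Real.norm_of_nonneg hs,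
      Real.norm_of_nonneg hτ0.le, div_eq_mul_inv]

/-- CONVOLUTION LEMMA. `φ` bounded on `[x, oo)`, continuous except at one point,
`φ τ = Φ (1 + 1/(uτ)) + O(log τ/τ^2)`; `∫ (1 + s) ‖m s‖ ds < oo`. Then
`t (∫_0^(t-x) φ(t-s) m(s) ds - Φ (1 + 1/(ut)) ∫_0^oo m) → 0`.
Proof: dominated convergence (`tendsto_integral_filter_of_dominated_convergence`) for
`t (1_{s ≤ t-x} φ(t-s) - Φ (1 + 1/(ut))) m(s)` on `(0, oo)`. Pointwise limit `0`:
`t |φ(t-s) - Φ(1 + 1/(u(t-s)))| ≤ C t log t/(t-s)^2 → 0` and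
`t Φ/u (1/(t-s) - 1/t) = Φ s/(u (t-s)) → 0`.
Bound: there is `B` with `|φ τ - Φ| (1 + |τ|) ≤ B` for `τ ≥ x`, and `t ≤ (1 + |t-s|)(1 + s)`, so
`t |φ(t-s) - Φ (1 + 1/(ut))| ≤ B (1 + s) + |Φ/u|` for `s ≤ t - x`, and for `s > t - x`:
`t |Φ (1 + 1/(ut))| ≤ |Φ| (s + |x|) + |Φ/u|`. -/
theorem tendsto_conv {u Φ : ℂ} (hu : 0 < u.re) {x r0 C T : ℝ} {φ : ℝ → ℂ} {m : ℝ → ℂ}
    (hφc : ∀ τ : ℝ, x < τ → τ ≠ r0 → ContinuousAt φ τ) (hφb : ∀ τ : ℝ, x ≤ τ → ‖φ τ‖ ≤ C)
    (hT : 1 < T)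
    (hφ : ∀ τ : ℝ, T ≤ τ → ‖φ τ - Φ * (1 + 1 / (u * τ))‖ ≤ C * (Real.log τ / τ ^ 2))
    (hm : IntegrableOn m (Ioi 0)) (hm1 : IntegrableOn (fun s : ℝ => (1 + s) * ‖m s‖) (Ioi 0)) :
    Tendsto (fun t : ℝ => (t : ℂ) * ((∫ s in (0 : ℝ)..(t - x), φ (t - s) * m s) -
      Φ * (1 + 1 / (u * t)) * ∫ s in Ioi (0 : ℝ), m s)) atTop (𝓝 0) := by
  have hC : 0 ≤ C := (norm_nonneg _).trans (hφb x le_rfl)
  have hu0 : u ≠ 0 := by
    rintro rfl
    simp at hu
  let g : ℝ → ℝ → ℂ := fun t s => if s ≤ t - x then φ (t - s) else 0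
  have hgm : ∀ t, AEStronglyMeasurable (g t) (volume.restrict (Ioi 0)) := fun t =>
    (Conv_meas hφc).restrict
  have hgb : ∀ t s, ‖g t s‖ ≤ C := by
    intro t s
    change ‖if s ≤ t - x then φ (t - s) else 0‖ ≤ C
    by_cases h : s ≤ t - x
    · rw [if_pos h]
      exact hφb _ (by linarith)
    · rw [if_neg h, norm_zero]
      exact hC
  have hint : ∀ t, Integrable (fun s => g t s * m s) (volume.restrict (Ioi 0)) := fun t =>
    Integrable.bdd_mul hm (hgm t) (Eventually.of_forall (hgb t))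
  obtain ⟨K, hK⟩ := Conv_bound (Φ := Φ) hu0 hφb hT hφ
  have key : Tendsto (fun t : ℝ => ∫ s in Ioi (0 : ℝ),
      (t : ℂ) * (g t s - Φ * (1 + 1 / (u * t))) * m s) atTop
      (𝓝 (∫ _ in Ioi (0 : ℝ), (0 : ℂ))) := by
    refine tendsto_integral_filter_of_dominated_convergence
      (fun s => K * ((1 + s) * ‖m s‖)) ?_ ?_ (hm1.const_mul K) ?_
    · exact Eventually.of_forall fun t =>
        (((hgm t).sub aestronglyMeasurable_const).const_mul _).mul hm.aestronglyMeasurable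
    · filter_upwards [eventually_gt_atTop (0 : ℝ)] with t ht
      refine (ae_restrict_iff' measurableSet_Ioi).2 (Eventually.of_forall fun s hs => ?_)
      rw [norm_mul, ← mul_assoc]
      exact mul_le_mul_of_nonneg_right (hK t ht s (le_of_lt hs)) (norm_nonneg _)
    · refine (ae_restrict_iff' measurableSet_Ioi).2 (Eventually.of_forall fun s hs => ?_)
      have h := (Conv_lim (Φ := Φ) hu0 hφb hT hφ (s := s) (le_of_lt hs)).mul_const (m s)
      rw [zero_mul] at h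
      exact h
  rw [integral_zero] at key
  refine key.congr' ?_
  filter_upwards [eventually_ge_atTop x] with t ht
  have h1 : ∫ s in (0 : ℝ)..(t - x), φ (t - s) * m s = ∫ s in Ioi (0 : ℝ), g t s * m s := by
    rw [intervalIntegral.integral_of_le (by linarith), ← Ioi_inter_Iic,
      ← setIntegral_indicator measurableSet_Iic]
    refine integral_congr_ae (Eventually.of_forall fun s => ?_)
    change (Iic (t - x)).indicator (fun s => φ (t - s) * m s) s =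
      (if s ≤ t - x then φ (t - s) else 0) * m s
    by_cases h : s ≤ t - x
    · rw [if_pos h, indicator_of_mem (show s ∈ Iic (t - x) from h)]
    · rw [if_neg h, indicator_of_notMem (show s ∉ Iic (t - x) from h), zero_mul]
  rw [h1, ← integral_const_mul, ← integral_sub (hint t) (hm.const_mul _), ← integral_const_mul]
  refine integral_congr_ae (Eventually.of_forall fun s => ?_)
  change (t : ℂ) * (g t s - Φ * (1 + 1 / (u * t))) * m s =
    t * (g t s * m s - Φ * (1 + 1 / (u * t)) * m s)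
  ring

end Pool.Agent.MP_ae5b4e_an_WB
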