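import Pool.Agent.Lib.MP_ae5b4e_an_WB.Flow

/-!
# POR (iii), N2, Lemma B: asymptotics of `G y0 / Fl y0 (u t)`, uniform on compact sets

(`FwdAll.fwd` is in the module `GA`.)
-/

namespace Pool.Agent.MP_ae5b4e_an_WB

open Complex Set Filter Topology MeasureTheory

/-- `‖ψ‖ ≤ C (1 + |w|)` along every flow, without any hypothesis (`Fl_dich`,
`exists_norm_G_div_le`; if there is no lift the value is `0`) -/
theorem exists_norm_psi_le : ∃ C : ℝ, 0 < C ∧ ∀ y0 t : ℂ,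
    ‖G y0 * exp t / Fl y0 t‖ ≤ C * (1 + ‖G y0 * exp t‖) := by
  obtain ⟨C, hC, h⟩ := exists_norm_G_div_le
  refine ⟨C, hC, fun y0 t => ?_⟩
  rcases Fl_dich y0 t with h0 | ⟨h1, h2⟩
  · rw [h0, div_zero, norm_zero]
    positivity
  · have := h _ h1
    rwa [h2] at this

/-- From `exists_asymp_Fl`: `Λ y0 = G y0 / (k π)`;
`‖G y0 / Fl - Λ (1 + 1/(ut))‖ = |Λ| ‖kπ / Fl - (1 + 1/(ut))‖`. `Λ` is continuous on `K` as a uniform limit
(`t → oo`) of the continuous functions `y0 ↦ G y0 / Fl y0 (ut)` (`continuousOn_Fl`). -/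
theorem exists_Lam {u : ℂ} (hu : 0 < u.re) {K : Set ℂ} (hK : IsCompact K)
    (h : ∀ y0 ∈ K, sin y0 ≠ 0 ∧ FwdAll u y0) :
    ∃ Λ : ℂ → ℂ, ContinuousOn Λ K ∧ (∀ y0 ∈ K, ∃ k : ℤ, k ≠ 0 ∧ Λ y0 = G y0 / (k * Real.pi)) ∧
      ∃ C T : ℝ, 1 < T ∧ ∀ y0 ∈ K, ∀ t : ℝ, T ≤ t →
        ‖G y0 / Fl y0 (u * t) - Λ y0 * (1 + 1 / (u * t))‖ ≤ C * (Real.log t / t ^ 2) := by
  have hu0 : u ≠ 0 := by
    rintro rfl
    simp at hu
  have hun : 0 < ‖u‖ := norm_pos_iff.2 hu0
  obtain ⟨C, T, hT, hk⟩ := exists_asymp_Fl hu hK h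
  choose! k hk0 hkC hkt using hk
  have hGc : ContinuousOn G K := fun y hy => (continuousAt_G (h y hy).1).continuousWithinAt
  obtain ⟨M', hM'⟩ := hK.exists_bound_of_continuousOn hGc
  set M : ℝ := max M' 0 with hMd
  have hM0 : 0 ≤ M := le_max_right _ _
  have hM : ∀ y ∈ K, ‖G y‖ ≤ M := fun y hy => (hM' y hy).trans (le_max_left _ _)
  set Λ : ℂ → ℂ := fun y0 => G y0 / (k y0 * Real.pi) with hΛ
  have hkn : ∀ y ∈ K, 1 ≤ ‖((k y : ℂ) * (Real.pi : ℂ))‖ := by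
    intro y hy
    rw [norm_mul, Complex.norm_real, Real.norm_of_nonneg Real.pi_pos.le, Complex.norm_intCast]
    have h1 : (1 : ℝ) ≤ |(k y : ℝ)| := by
      have := Int.one_le_abs (hk0 y hy)
      exact_mod_cast this
    have h2 := Real.pi_gt_three
    nlinarith
  have hΛn : ∀ y ∈ K, ‖Λ y‖ ≤ M := by
    intro y hy
    simp only [hΛ]
    rw [norm_div]
    exact (div_le_self (norm_nonneg _) (hkn y hy)).trans (hM y hy)
  have hmain : ∀ y0 ∈ K, ∀ t : ℝ, T ≤ t →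
      ‖G y0 / Fl y0 (u * t) - Λ y0 * (1 + 1 / (u * t))‖ ≤ M * C * (Real.log t / t ^ 2) := by
    intro y hy t ht
    have h1 := hkt y hy t ht
    have h2 : (k y : ℂ) * (Real.pi : ℂ) ≠ 0 := by
      rw [← norm_pos_iff]
      exact lt_of_lt_of_le one_pos (hkn y hy)
    have h3 : G y / Fl y (u * t) - Λ y * (1 + 1 / (u * t)) =
        Λ y * (k y * Real.pi / Fl y (u * t) - (1 + 1 / (u * t))) := by
      have h4 : Λ y * (k y * Real.pi / Fl y (u * t)) = G y / Fl y (u * t) := by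
        simp only [hΛ]
        rw [← mul_div_assoc, div_mul_cancel₀ _ h2]
      rw [mul_sub, h4]
    rw [h3, norm_mul, mul_assoc]
    exact mul_le_mul (hΛn y hy) h1 (norm_nonneg _) hM0
  refine ⟨Λ, ?_, fun y hy => ⟨k y, hk0 y hy, rfl⟩, M * C, T, hT, hmain⟩
  have hunif : TendstoUniformlyOn (fun (t : ℝ) (y : ℂ) => G y / Fl y (u * t)) Λ atTop K := by
    rw [Metric.tendstoUniformlyOn_iff]
    intro ε hε
    filter_upwards [eventually_ge_atTop T,
      eventually_gt_atTop ((|M * C| + M / ‖u‖) / ε)] with t ht htε y hy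
    have ht0 : 0 < t := by linarith
    have h1 := hmain y hy t ht
    have hlog : Real.log t / t ^ 2 ≤ 1 / t := by
      have h2 : Real.log t ≤ t := (Real.log_le_sub_one_of_pos ht0).trans (by linarith)
      rw [div_le_div_iff₀ (by positivity) ht0]
      nlinarith
    have hlog0 : 0 ≤ Real.log t / t ^ 2 :=
      div_nonneg (Real.log_nonneg (by linarith)) (by positivity)
    have h2 : M * C * (Real.log t / t ^ 2) ≤ |M * C| * (1 / t) :=
      mul_le_mul (le_abs_self _) hlog hlog0 (abs_nonneg _)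
    have h3 : ‖Λ y * (1 / (u * t))‖ ≤ M / ‖u‖ * (1 / t) := by
      have h6 : ‖(1 : ℂ) / (u * t)‖ = 1 / (‖u‖ * t) := by
        rw [norm_div, norm_one, norm_mul, Complex.norm_real, Real.norm_of_nonneg ht0.le]
      rw [norm_mul, h6]
      have h4 : ‖Λ y‖ * (1 / (‖u‖ * t)) = ‖Λ y‖ / ‖u‖ * (1 / t) := by
        field_simp
      rw [h4]
      have h5 := hΛn y hy
      gcongr
    rw [dist_comm, dist_eq_norm]
    have h4 : G y / Fl y (u * t) - Λ y =
        (G y / Fl y (u * t) - Λ y * (1 + 1 / (u * t))) + Λ y * (1 / (u * t)) := by ring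
    rw [h4]
    have h5 : (|M * C| + M / ‖u‖) * (1 / t) < ε := by
      rw [mul_one_div, div_lt_iff₀ ht0]
      rw [div_lt_iff₀ hε] at htε
      linarith
    calc _ ≤ _ := norm_add_le _ _
      _ ≤ |M * C| * (1 / t) + M / ‖u‖ * (1 / t) := add_le_add (h1.trans h2) h3
      _ < ε := by linarith
  refine hunif.continuousOn (Eventually.frequently ?_)
  filter_upwards [eventually_ge_atTop (0 : ℝ)] with t ht
  refine ContinuousOn.div hGc ?_ ?_
  · exact continuousOn_Fl.comp (f := fun y : ℂ => (y, u * (t : ℂ))) (by fun_prop)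
      (fun y hy => ⟨(h y hy).1, (h y hy).2.fwd ht⟩)
  · intro y hy
    exact Fl_ne_zero (h y hy).1 ((h y hy).2.fwd ht)

end Pool.Agent.MP_ae5b4e_an_WB
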