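import Pool.Agent.Lib.MP_ae5b4e_an_WB.SideDefs
import Pool.Agent.Lib.MP_ae5b4e_an_WB.Lam

/-!
# POR (iii), N2, Lemma B: the height function `ψ` on the upper side of a tip height
-/

namespace Pool.Agent.MP_ae5b4e_an_WB

open Complex Set Filter Topology MeasureTheory

private theorem tipc_ne : tipc ≠ 0 := by
  rw [tipc, neg_ne_zero]
  have : (Real.exp 2 / 4 : ℝ) ≠ 0 := by positivity
  exact_mod_cast this

/-- in the strip `|Im z| < d` (with `d |u|^2 ≤ 3 Re u`) the only solution of `e^(2uz) = 1` is `0`: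
`z = π i m/u`, `|Im z| = π |m| Re u/|u|^2`. -/
theorem exp_eq_one_strip {u z : ℂ} {d : ℝ} (hu : 0 < u.re) (hd : d * ‖u‖ ^ 2 ≤ 3 * u.re)
    (hz : |z.im| < d) (h : exp (2 * (u * z)) = 1) : z = 0 := by
  obtain ⟨n, hn⟩ := exp_eq_one_iff.1 h
  have h1 : u * z = n * (Real.pi * I) := by
    have h2 : (2 : ℂ) ≠ 0 := two_ne_zero
    apply mul_left_cancel₀ h2
    rw [hn]
    ring
  have hre : u.re * z.re - u.im * z.im = 0 := by
    have := congrArg Complex.re h1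
    simpa using this
  have him : u.re * z.im + u.im * z.re = n * Real.pi := by
    have := congrArg Complex.im h1
    simpa using this
  have hsq : ‖u‖ ^ 2 = u.re * u.re + u.im * u.im := by
    rw [← Complex.normSq_eq_norm_sq, Complex.normSq_apply]
  have h3 : ‖u‖ ^ 2 * z.im = u.re * (n * Real.pi) := by
    rw [hsq, ← him]
    have e : u.im * (u.re * z.re - u.im * z.im) = 0 := by rw [hre, mul_zero]
    linear_combination -e
  have hn0 : n = 0 := by
    by_contra hne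
    have h4 : (1 : ℝ) ≤ |(n : ℝ)| := by
      have := Int.one_le_abs hne
      exact_mod_cast this
    have h5 : ‖u‖ ^ 2 * |z.im| = u.re * (|(n : ℝ)| * Real.pi) := by
      have := congrArg abs h3
      rwa [abs_mul, abs_mul, abs_mul, abs_of_pos hu, abs_of_pos Real.pi_pos,
        abs_of_nonneg (sq_nonneg ‖u‖)] at this
    have h6 : ‖u‖ ^ 2 * |z.im| ≤ ‖u‖ ^ 2 * d := mul_le_mul_of_nonneg_left hz.le (sq_nonneg _)
    have h7 : u.re * Real.pi ≤ u.re * (|(n : ℝ)| * Real.pi) := by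
      refine mul_le_mul_of_nonneg_left ?_ hu.le
      nlinarith [Real.pi_pos]
    have h8 : u.re * 3 < u.re * Real.pi := mul_lt_mul_of_pos_left Real.pi_gt_three hu
    linarith
  have hune : u ≠ 0 := by
    rintro rfl
    simp at hu
  rw [hn0, Int.cast_zero, zero_mul] at h1
  rcases mul_eq_zero.1 h1 with h2 | h2
  · exact absurd h2 hune
  · exact h2

/-- the flow from `Ya` (height `e0 i`) reaches every height `ω` with `0 ≤ Im ω < d`, `ω ≠ r0` -/
theorem fwd_up {u W Ya : ℂ} {r0 d e0 : ℝ} (hu : 0 < u.re)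
    (hW : W ^ 2 * exp (2 * (u * r0)) = tipc) (he0 : 0 < e0) (hed : e0 < d)
    (hd : d * ‖u‖ ^ 2 ≤ 3 * u.re) (hG : G Ya = W * exp (u * (e0 * I))) {ω : ℂ}
    (h0 : 0 ≤ ω.im) (h1 : ω.im < d) (h2 : ω ≠ r0) : Fwd Ya (u * (ω - e0 * I)) := by
  intro r hr heq
  obtain ⟨hr0', hr1⟩ := hr
  have e1 : G Ya ^ 2 * exp (2 * ((r : ℂ) * (u * (ω - e0 * I))))
      = W ^ 2 * exp (2 * (u * r0)) * exp (2 * (u * ((1 - r) * (e0 * I) + r * ω - r0))) := by
    rw [hG, mul_pow, ← exp_nat_mul, mul_assoc, mul_assoc, ← exp_add, ← exp_add]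
    congr 2
    push_cast
    ring
  rw [e1, hW] at heq
  have e2 : exp (2 * (u * ((1 - r) * (e0 * I) + r * ω - r0))) = 1 :=
    mul_left_cancel₀ tipc_ne (heq.trans (mul_one _).symm)
  have him : (((1 - r) * (e0 * I) + r * ω - r0 : ℂ)).im = (1 - r) * e0 + r * ω.im := by
    simp
  have hz : |(((1 - r) * (e0 * I) + r * ω - r0 : ℂ)).im| < d := by
    rw [him, abs_of_nonneg (add_nonneg (mul_nonneg (by linarith) he0.le) (mul_nonneg hr0' h0))]
    rcases eq_or_lt_of_le hr0' with h | h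
    · rw [← h]; linarith
    · have h3 : r * ω.im < r * d := mul_lt_mul_of_pos_left h1 h
      have h4 : (1 - r) * e0 ≤ (1 - r) * d := mul_le_mul_of_nonneg_left hed.le (by linarith)
      linarith
  have hz0 := exp_eq_one_strip hu hd hz e2
  have h3 : (1 - r) * e0 + r * ω.im = 0 := by rw [← him, hz0, zero_im]
  have h4 : (1 - r) * e0 = 0 :=
    le_antisymm (by linarith [mul_nonneg hr0' h0]) (mul_nonneg (by linarith) he0.le)
  have h5 : r = 1 := by
    rcases mul_eq_zero.1 h4 with h | h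
    · linarith
    · exact absurd h he0.ne'
  apply h2
  rw [h5] at hz0
  have h6 : ω - r0 = 0 := by
    rw [← hz0]
    push_cast
    ring
  exact sub_eq_zero.1 h6

private theorem int_const {a b : ℝ} {g : ℝ → ℝ} (hg : ContinuousOn g (Icc a b))
    (hk : ∀ η ∈ Icc a b, ∃ k : ℤ, g η = k) {x y : ℝ} (hx : x ∈ Icc a b) (hy : y ∈ Icc a b) :
    g x ≤ g y := by
  by_contra hlt
  push Not at hlt
  obtain ⟨k, hk1⟩ := hk x hx
  obtain ⟨l, hl1⟩ := hk y hy
  have hlk : l < k := by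
    rw [hk1, hl1] at hlt
    exact_mod_cast hlt
  have hlk' : (l : ℝ) + 1 ≤ k := by exact_mod_cast hlk
  have hmem : (l : ℝ) + 1 / 2 ∈ Icc (g y) (g x) := by
    rw [hk1, hl1]
    constructor <;> linarith
  obtain ⟨z, hz, hgz⟩ := isPreconnected_Icc.intermediate_value hy hx hg hmem
  obtain ⟨m, hm⟩ := hk z hz
  rw [hm] at hgz
  have h2 : (2 * m : ℤ) = 2 * l + 1 := by
    have : (2 : ℝ) * m = 2 * l + 1 := by rw [hgz]; ring
    exact_mod_cast this
  omega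

private theorem G_mul_exp {u W Ya : ℂ} {e0 : ℝ} (hG : G Ya = W * exp (u * (e0 * I))) (ω : ℂ) :
    G Ya * exp (u * (ω - e0 * I)) = W * exp (u * ω) := by
  rw [hG, mul_assoc, ← exp_add]
  congr 2
  ring

private theorem diff_psi {u W Ya : ℂ} {r0 d e0 : ℝ} (hu : 0 < u.re)
    (hW : W ^ 2 * exp (2 * (u * r0)) = tipc) (he0 : 0 < e0) (hed : e0 < d)
    (hd : d * ‖u‖ ^ 2 ≤ 3 * u.re) (hYa : sin Ya ≠ 0) (hG : G Ya = W * exp (u * (e0 * I)))
    {ω : ℂ} (h0 : 0 ≤ ω.im) (h1 : ω.im < d) (h2 : ω ≠ r0) :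
    DifferentiableAt ℂ (fun ω => Fl Ya (u * (ω - e0 * I))) ω := by
  have hF := fwd_up hu hW he0 hed hd hG h0 h1 h2
  exact DifferentiableAt.comp (g := Fl Ya) (f := fun ω : ℂ => u * (ω - e0 * I)) ω
    (hasDerivAt_Fl hYa hF).differentiableAt (by fun_prop)

private theorem arith_bound {Λ A Φ u E : ℂ} {C M r τ : ℝ} (hr : 0 ≤ r) (hτ2 : 2 * (r + 1) ≤ τ)
    (hτ3 : 3 ≤ τ) (hu : u ≠ 0)
    (hA : ‖A - Λ * (1 + 1 / (u * ((τ - r - 1 : ℝ) : ℂ)))‖
      ≤ C * (Real.log (τ - r - 1) / (τ - r - 1) ^ 2))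
    (hE : ‖E‖ ≤ M) (hΦ : E * Λ = Φ) :
    ‖E * A - Φ * (1 + 1 / (u * τ))‖
      ≤ (4 * M * |C| + 2 * ‖Φ‖ * (r + 1) / ‖u‖) * (Real.log τ / τ ^ 2) := by
  have hτ0 : 0 < τ := by linarith
  set s : ℝ := τ - r - 1 with hs
  have hs0 : 0 < s := by linarith
  have hsτ : s ≤ τ := by linarith
  have hs2 : τ ≤ 2 * s := by linarith
  have hM : 0 ≤ M := (norm_nonneg _).trans hE
  have hun : 0 < ‖u‖ := norm_pos_iff.2 hu
  have hs1 : 1 ≤ s := by linarith
  have hls : 0 ≤ Real.log s := Real.log_nonneg hs1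
  have hll : Real.log s ≤ Real.log τ := Real.log_le_log hs0 hsτ
  have hl1 : 1 ≤ Real.log τ := by
    rw [Real.le_log_iff_exp_le hτ0]
    linarith [Real.exp_one_lt_d9]
  have hsC : (s : ℂ) ≠ 0 := by exact_mod_cast hs0.ne'
  have hτC : (τ : ℂ) ≠ 0 := by exact_mod_cast hτ0.ne'
  have e1 : E * A - Φ * (1 + 1 / (u * τ))
      = E * (A - Λ * (1 + 1 / (u * s))) + Φ * (((r + 1 : ℝ) : ℂ) / (u * s * τ)) := by
    have e2 : ((r + 1 : ℝ) : ℂ) = τ - s := by
      rw [hs]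
      push_cast
      ring
    rw [e2, ← hΦ]
    field_simp
    ring
  have b1 : ‖E * (A - Λ * (1 + 1 / (u * s)))‖ ≤ 4 * M * |C| * (Real.log τ / τ ^ 2) := by
    rw [norm_mul]
    have b2 : Real.log s / s ^ 2 ≤ 4 * (Real.log τ / τ ^ 2) := by
      rw [← mul_div_assoc, div_le_div_iff₀ (by positivity) (by positivity)]
      have b3 : τ ^ 2 ≤ 4 * s ^ 2 := by nlinarith
      calc Real.log s * τ ^ 2 ≤ Real.log τ * (4 * s ^ 2) := by
            apply mul_le_mul hll b3 (by positivity) (by linarith)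
        _ = 4 * Real.log τ * s ^ 2 := by ring
    have b4 : 0 ≤ Real.log s / s ^ 2 := by positivity
    calc ‖E‖ * ‖A - Λ * (1 + 1 / (u * s))‖ ≤ M * (|C| * (4 * (Real.log τ / τ ^ 2))) := by
          refine mul_le_mul hE (hA.trans ?_) (norm_nonneg _) hM
          calc C * (Real.log s / s ^ 2) ≤ |C| * (Real.log s / s ^ 2) :=
                mul_le_mul_of_nonneg_right (le_abs_self _) b4
            _ ≤ |C| * (4 * (Real.log τ / τ ^ 2)) :=
                mul_le_mul_of_nonneg_left b2 (abs_nonneg _)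
      _ = 4 * M * |C| * (Real.log τ / τ ^ 2) := by ring
  have b5 : ‖Φ * (((r + 1 : ℝ) : ℂ) / (u * s * τ))‖
      ≤ 2 * ‖Φ‖ * (r + 1) / ‖u‖ * (Real.log τ / τ ^ 2) := by
    rw [norm_mul, norm_div, norm_mul, norm_mul, norm_real, norm_real, norm_real, Real.norm_eq_abs,
      Real.norm_eq_abs, Real.norm_eq_abs, abs_of_pos hs0, abs_of_pos hτ0,
      abs_of_nonneg (by linarith : 0 ≤ r + 1)]
    have b6 : (r + 1) / (‖u‖ * s * τ) ≤ 2 * (r + 1) / ‖u‖ * (Real.log τ / τ ^ 2) := by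
      rw [div_mul_div_comm, div_le_div_iff₀ (by positivity) (by positivity)]
      have b7 : τ ^ 2 ≤ 2 * (s * τ) := by nlinarith
      calc (r + 1) * (‖u‖ * τ ^ 2) ≤ (r + 1) * (‖u‖ * (2 * (s * τ))) := by gcongr
        _ = 2 * (r + 1) * 1 * (‖u‖ * s * τ) := by ring
        _ ≤ 2 * (r + 1) * Real.log τ * (‖u‖ * s * τ) := by gcongr
    calc ‖Φ‖ * ((r + 1) / (‖u‖ * s * τ))
        ≤ ‖Φ‖ * (2 * (r + 1) / ‖u‖ * (Real.log τ / τ ^ 2)) :=
          mul_le_mul_of_nonneg_left b6 (norm_nonneg _)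
      _ = 2 * ‖Φ‖ * (r + 1) / ‖u‖ * (Real.log τ / τ ^ 2) := by ring
  rw [e1]
  refine (norm_add_le _ _).trans ?_
  rw [add_mul]
  exact add_le_add b1 b5

private theorem asym_psi {u W Ya : ℂ} {r0 d e0 : ℝ} (hu : 0 < u.re) (hr0 : 0 ≤ r0)
    (hW : W ^ 2 * exp (2 * (u * r0)) = tipc) (he0 : 0 < e0) (hed : e0 < d)
    (hd : d * ‖u‖ ^ 2 ≤ 3 * u.re) (hYa : sin Ya ≠ 0) (hG : G Ya = W * exp (u * (e0 * I))) :
    ∃ Φ : ℂ, ∃ C T : ℝ, 1 < T ∧ ∀ η ∈ Icc (0 : ℝ) e0, ∀ τ : ℝ, T ≤ τ →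
    ‖W * exp (u * (τ + η * I)) / Fl Ya (u * (τ + η * I - e0 * I)) * exp (-(u * (τ + η * I)))
      - Φ * (1 + 1 / (u * τ))‖ ≤ C * (Real.log τ / τ ^ 2) := by
  have hune : u ≠ 0 := by
    rintro rfl
    simp at hu
  have hWne : W ≠ 0 := by
    rintro rfl
    apply tipc_ne
    rw [← hW]
    simp
  have hπ : (Real.pi : ℂ) ≠ 0 := by exact_mod_cast Real.pi_ne_zero
  -- the points
  set P : ℝ → ℂ := fun η => r0 + 1 + η * I with hP
  have him : ∀ (η t : ℝ), ((P η : ℂ) + t).im = η := fun η t => by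
    rw [hP]
    simp
  have hre : ∀ (η t : ℝ), ((P η : ℂ) + t).re = r0 + 1 + t := fun η t => by
    rw [hP]
    simp
  have hFw : ∀ η ∈ Icc (0 : ℝ) e0, ∀ t : ℝ, 0 ≤ t → Fwd Ya (u * (P η + t - e0 * I)) := by
    intro η hη t ht
    refine fwd_up hu hW he0 hed hd hG ?_ ?_ ?_
    · rw [him]; exact hη.1
    · rw [him]; exact lt_of_le_of_lt hη.2 hed
    · intro h
      have h1 := congrArg Complex.re h
      rw [hre, ofReal_re] at h1
      linarith
  have hFw0 : ∀ η ∈ Icc (0 : ℝ) e0, Fwd Ya (u * (P η - e0 * I)) := by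
    intro η hη
    have h1 := hFw η hη 0 le_rfl
    rwa [ofReal_zero, add_zero] at h1
  set Y : ℝ → ℂ := fun η => Fl Ya (u * (P η - e0 * I)) with hY
  have hYsin : ∀ η ∈ Icc (0 : ℝ) e0, sin (Y η) ≠ 0 := fun η hη => sin_Fl_ne_zero hYa (hFw0 η hη)
  have hYG : ∀ η ∈ Icc (0 : ℝ) e0, G (Y η) = W * exp (u * P η) := fun η hη => by
    rw [hY]
    simp only
    rw [G_Fl hYa (hFw0 η hη), G_mul_exp hG]
  have hYall : ∀ η ∈ Icc (0 : ℝ) e0, FwdAll u (Y η) := by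
    intro η hη t ht
    have h1 := hFw η hη t ht 1 ⟨zero_le_one, le_rfl⟩
    rw [hYG η hη]
    rw [hG] at h1
    intro h2
    apply h1
    rw [← h2, mul_pow, mul_pow, ← exp_nat_mul, ← exp_nat_mul, mul_assoc, mul_assoc, ← exp_add,
      ← exp_add]
    congr 2
    push_cast
    ring
  have hYadd : ∀ η ∈ Icc (0 : ℝ) e0, ∀ t : ℝ, 0 ≤ t →
      Fl (Y η) (u * t) = Fl Ya (u * (P η + t - e0 * I)) := by
    intro η hη t ht
    have h1 := Fl_add (t := u * (P η - e0 * I)) (s := u * t) hYa (hFw0 η hη)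
      ((hYall η hη).fwd ht) (fun r hr => by
        have h2 := hFw η hη (r * t) (mul_nonneg hr.1 ht)
        have e : u * (P η - e0 * I) + r * (u * t) = u * (P η + ((r * t : ℝ) : ℂ) - e0 * I) := by
          push_cast
          ring
        rw [e]
        exact h2)
    rw [hY]
    simp only
    rw [h1]
    congr 1
    ring
  have hYc : ContinuousOn Y (Icc 0 e0) := by
    intro η hη
    have h2 : (P η : ℂ) ≠ r0 := by
      intro h
      have h1 := congrArg Complex.re h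
      have h3 := hre η 0
      rw [ofReal_zero, add_zero, h1, ofReal_re] at h3
      linarith
    have h3 := him η 0
    rw [ofReal_zero, add_zero] at h3
    have h4 := diff_psi hu hW he0 hed hd hYa hG (ω := P η) (by rw [h3]; exact hη.1)
      (by rw [h3]; exact lt_of_le_of_lt hη.2 hed) h2
    have h5 : ContinuousAt P η := by
      rw [hP]
      fun_prop
    exact (ContinuousAt.comp (g := fun ω => Fl Ya (u * (ω - e0 * I))) h4.continuousAt
      h5).continuousWithinAt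
  have hK : IsCompact (Y '' Icc 0 e0) := isCompact_Icc.image_of_continuousOn hYc
  obtain ⟨Λ, hΛc, hΛk, C, T, hT, hC⟩ := exists_Lam hu hK (by
    rintro _ ⟨η, hη, rfl⟩
    exact ⟨hYsin η hη, hYall η hη⟩)
  have hk : ∀ η ∈ Icc (0 : ℝ) e0, ∃ k : ℤ, k ≠ 0 ∧ exp (-(u * P η)) * Λ (Y η)
      = W / (k * Real.pi) := by
    intro η hη
    obtain ⟨k, hk0, hk1⟩ := hΛk (Y η) ⟨η, hη, rfl⟩
    refine ⟨k, hk0, ?_⟩
    rw [hk1, hYG η hη, ← mul_div_assoc, mul_left_comm, ← exp_add, neg_add_cancel, exp_zero,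
      mul_one]
  have hΦc : ContinuousOn (fun η => exp (-(u * P η)) * Λ (Y η)) (Icc 0 e0) := by
    refine ContinuousOn.mul ?_ (hΛc.comp hYc fun η hη => ⟨η, hη, rfl⟩)
    rw [hP]
    fun_prop
  have hΦne : ∀ η ∈ Icc (0 : ℝ) e0, exp (-(u * P η)) * Λ (Y η) ≠ 0 := by
    intro η hη
    obtain ⟨k, hk0, hk1⟩ := hk η hη
    rw [hk1]
    exact div_ne_zero hWne (mul_ne_zero (by exact_mod_cast hk0) hπ)
  have hgc : ContinuousOn (fun η => (W / (exp (-(u * P η)) * Λ (Y η) * Real.pi)).re)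
      (Icc 0 e0) := by
    refine Complex.continuous_re.comp_continuousOn ?_
    exact ContinuousOn.div continuousOn_const (hΦc.mul continuousOn_const)
      fun η hη => mul_ne_zero (hΦne η hη) hπ
  have hgv : ∀ η ∈ Icc (0 : ℝ) e0, ∀ k : ℤ, k ≠ 0 → exp (-(u * P η)) * Λ (Y η)
      = W / (k * Real.pi) → (W / (exp (-(u * P η)) * Λ (Y η) * Real.pi)).re = k := by
    intro η hη k hk0 hk1
    have hk0' : (k : ℂ) ≠ 0 := by exact_mod_cast hk0
    have e : W / (exp (-(u * P η)) * Λ (Y η) * Real.pi) = k := by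
      rw [hk1]
      field_simp
    rw [e, Complex.intCast_re]
  have hgi : ∀ η ∈ Icc (0 : ℝ) e0, ∃ k : ℤ,
      (W / (exp (-(u * P η)) * Λ (Y η) * Real.pi)).re = k := by
    intro η hη
    obtain ⟨k, hk0, hk1⟩ := hk η hη
    exact ⟨k, hgv η hη k hk0 hk1⟩
  have h00 : (0 : ℝ) ∈ Icc (0 : ℝ) e0 := ⟨le_rfl, he0.le⟩
  have hconst : ∀ η ∈ Icc (0 : ℝ) e0, exp (-(u * P η)) * Λ (Y η)
      = exp (-(u * P 0)) * Λ (Y 0) := by
    intro η hη
    obtain ⟨k, hk0, hk1⟩ := hk η hη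
    obtain ⟨l, hl0, hl1⟩ := hk 0 h00
    have h1 := le_antisymm (int_const hgc hgi hη h00) (int_const hgc hgi h00 hη)
    have h2 := hgv η hη k hk0 hk1
    have h3 := hgv 0 h00 l hl0 hl1
    rw [h2, h3] at h1
    have h4 : k = l := by exact_mod_cast h1
    rw [hk1, hl1, h4]
  refine ⟨exp (-(u * P 0)) * Λ (Y 0), 4 * Real.exp (‖u‖ * (r0 + 1 + e0)) * |C|
    + 2 * ‖exp (-(u * P 0)) * Λ (Y 0)‖ * (r0 + 1) / ‖u‖,
    max (T + r0 + 1) (max (2 * (r0 + 1)) 3), ?_, ?_⟩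
  · exact lt_max_of_lt_left (by linarith)
  · intro η hη τ hτ
    have hτ1 : T + r0 + 1 ≤ τ := (le_max_left _ _).trans hτ
    have hτ2 : 2 * (r0 + 1) ≤ τ := ((le_max_left _ _).trans (le_max_right _ _)).trans hτ
    have hτ3 : 3 ≤ τ := ((le_max_right _ _).trans (le_max_right _ _)).trans hτ
    have hA := hC (Y η) ⟨η, hη, rfl⟩ (τ - r0 - 1) (by linarith)
    have hE : ‖exp (-(u * P η))‖ ≤ Real.exp (‖u‖ * (r0 + 1 + e0)) := by
      rw [norm_exp]
      refine Real.exp_le_exp.2 ((re_le_norm _).trans ?_)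
      rw [norm_neg, norm_mul]
      refine mul_le_mul_of_nonneg_left ?_ (norm_nonneg _)
      rw [hP]
      refine (norm_add_le _ _).trans ?_
      have n1 : ‖(r0 : ℂ) + 1‖ = r0 + 1 := by
        have : (r0 : ℂ) + 1 = ((r0 + 1 : ℝ) : ℂ) := by push_cast; rfl
        rw [this, norm_real, Real.norm_eq_abs, abs_of_nonneg (by linarith)]
      have n2 : ‖(η : ℂ) * I‖ = η := by
        rw [norm_mul, norm_I, mul_one, norm_real, Real.norm_eq_abs, abs_of_nonneg hη.1]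
      rw [n1, n2]
      linarith [hη.2]
    have h1 := arith_bound hr0 hτ2 hτ3 hune hA hE (hconst η hη)
    have e : W * exp (u * (τ + η * I)) / Fl Ya (u * (τ + η * I - e0 * I))
        * exp (-(u * (τ + η * I)))
        = exp (-(u * P η)) * (G (Y η) / Fl (Y η) (u * ((τ - r0 - 1 : ℝ) : ℂ))) := by
      rw [hYadd η hη (τ - r0 - 1) (by linarith), hYG η hη]
      have e2 : P η + ((τ - r0 - 1 : ℝ) : ℂ) = τ + η * I := by
        rw [hP]
        push_cast
        ring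
      rw [e2]
      have e3 : exp (u * (τ + η * I)) * exp (-(u * (τ + η * I))) = 1 := by
        rw [← exp_add, add_neg_cancel, exp_zero]
      have e4 : exp (-(u * P η)) * exp (u * P η) = 1 := by
        rw [← exp_add, neg_add_cancel, exp_zero]
      rw [div_mul_eq_mul_div, mul_assoc, e3, ← mul_div_assoc, mul_left_comm, e4]
    rw [e]
    exact h1

/-- `SideP` for `ψ ω = W e^(uω) / Fl Ya (u (ω - i e0))`.
`hol`, `cont`: `fwd_up`, `hasDerivAt_Fl`, `Fl_ne_zero` (at real `τ ≠ r0` the function is even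
differentiable). `bound`: `exists_norm_psi_le`: `‖ψ ω‖ ≤ C (1 + |W| e^(Re (uω)))` and
`Re (uω) ≤ u.re Re ω + |u.im| d`, `1 ≤ e^(u.re (1 + Re ω))`.
`asym`: `K = {Fl Ya (u (r0 + 1 + ηi - e0 i)) : 0 ≤ η ≤ e0}` is compact, its points `Y_η` satisfy
`FwdAll` (`G (Y_η)^2 e^(2ut) = tipc e^(2u(1 + t + ηi)) ≠ tipc`), `Fl Y_η (uτ') = Fl Ya (u (r0+1+τ'+ηi - e0 i))`
(`Fl_add`); `exists_Lam`: `ψ(τ + ηi) e^(-u(τ+ηi)) = e^(-u(r0+1+ηi)) G Y_η / Fl Y_η (uτ')`,
`τ' = τ - r0 - 1`, tends to `Φ_η = W/(k_η π)`; `Φ_η` is continuous in `η` with values in the discrete set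
`{W/(kπ)}`, so it does not depend on `η`; `1/(uτ') - 1/(uτ) = O(τ^-2)` and `log τ'/τ'^2 ≤ C log τ/τ^2`. -/
theorem sideP_psi {u W Ya : ℂ} {r0 d e0 : ℝ} (hu : 0 < u.re) (hr0 : 0 ≤ r0)
    (hW : W ^ 2 * exp (2 * (u * r0)) = tipc) (he0 : 0 < e0) (hed : e0 < d)
    (hd : d * ‖u‖ ^ 2 ≤ 3 * u.re) (hYa : sin Ya ≠ 0) (hG : G Ya = W * exp (u * (e0 * I))) :
    SideP u r0 d e0 (fun ω => W * exp (u * ω) / Fl Ya (u * (ω - e0 * I))) := by
  have hFne : ∀ ω : ℂ, 0 ≤ ω.im → ω.im < d → ω ≠ r0 → Fl Ya (u * (ω - e0 * I)) ≠ 0 :=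
    fun ω h0 h1 h2 => Fl_ne_zero hYa (fwd_up hu hW he0 hed hd hG h0 h1 h2)
  have hdiff : ∀ ω : ℂ, 0 ≤ ω.im → ω.im < d → ω ≠ r0 →
      DifferentiableAt ℂ (fun ω => W * exp (u * ω) / Fl Ya (u * (ω - e0 * I))) ω := by
    intro ω h0 h1 h2
    exact DifferentiableAt.div (by fun_prop) (diff_psi hu hW he0 hed hd hYa hG h0 h1 h2)
      (hFne ω h0 h1 h2)
  refine ⟨hu, hr0, he0, hed, ?_, ?_, ?_, ?_⟩
  · rintro ω ⟨h0, h1⟩
    refine (hdiff ω h0.le h1 ?_).differentiableWithinAt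
    rintro rfl
    rw [ofReal_im] at h0
    exact lt_irrefl _ h0
  · intro τ hτ
    refine (hdiff τ ?_ ?_ ?_).continuousAt.continuousWithinAt
    · rw [ofReal_im]
    · rw [ofReal_im]; linarith
    · intro h
      exact hτ (by exact_mod_cast h)
  · obtain ⟨C, hC, hCb⟩ := exists_norm_psi_le
    refine ⟨C * (Real.exp u.re + ‖W‖ * Real.exp (|u.im| * d)), ?_⟩
    intro ω h1 h2 h3
    have h4 := hCb Ya (u * (ω - e0 * I))
    rw [G_mul_exp hG] at h4
    refine h4.trans ?_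
    rw [mul_assoc]
    refine mul_le_mul_of_nonneg_left ?_ hC.le
    rw [add_mul]
    have h5 : 1 ≤ Real.exp u.re * Real.exp (u.re * ω.re) := by
      rw [← Real.exp_add]
      refine Real.one_le_exp ?_
      nlinarith
    have h6 : ‖W * exp (u * ω)‖ ≤ ‖W‖ * Real.exp (|u.im| * d) * Real.exp (u.re * ω.re) := by
      rw [norm_mul, norm_exp, mul_assoc, ← Real.exp_add]
      refine mul_le_mul_of_nonneg_left (Real.exp_le_exp.2 ?_) (norm_nonneg _)
      rw [mul_re]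
      have h7 : -(u.im * ω.im) ≤ |u.im| * d := by
        calc -(u.im * ω.im) ≤ |u.im * ω.im| := neg_le_abs _
          _ = |u.im| * ω.im := by rw [abs_mul, abs_of_nonneg h2]
          _ ≤ |u.im| * d := mul_le_mul_of_nonneg_left h3.le (abs_nonneg _)
      linarith
    exact add_le_add h5 h6
  · exact asym_psi hu hr0 hW he0 hed hd hYa hG

end Pool.Agent.MP_ae5b4e_an_WB
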