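import Pool.Agent.Lib.MP_ae5b4e_an_WB.SideC
import Pool.Agent.Lib.MP_ae5b4e_an_WB.Conv

/-!
# POR (iii), N2, Lemma B: `sideE` is good
-/

namespace Pool.Agent.MP_ae5b4e_an_WB

open Complex Set Filter Topology MeasureTheory

private lemma SideD_d_pos {u : ℂ} {r0 d e0 : ℝ} {ψ : ℂ → ℂ} (hψ : SideP u r0 d e0 ψ) : 0 < d :=
  hψ.e0_pos.trans hψ.e0_lt

/-- `g` is continuous on the nonpositive real axis. -/
private lemma SideD_g_cont {u : ℂ} {e0 : ℝ} {g : ℂ → ℂ} (hg0 : SideG u e0 g) :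
    ContinuousOn (fun s : ℝ => g (-(s : ℂ))) (Ioi 0) := by
  intro s hs
  have hs' : (0 : ℝ) < s := hs
  rcases hg0.hol s hs' with ⟨δ, hδ, hg⟩
  have hmem : -(s : ℂ) ∈ Rc s δ := by
    refine ⟨?_, ?_, ?_⟩
    · rw [Complex.neg_re, Complex.ofReal_re]
      linarith
    · rw [Complex.neg_re, Complex.ofReal_re]
      linarith
    · rw [Complex.neg_im, Complex.ofReal_im, neg_zero, abs_zero]
      exact hδ
  have hopen : IsOpen (Rc s δ) := by
    have h1 : Rc s δ = {ω : ℂ | -s - δ < ω.re} ∩ ({ω : ℂ | ω.re < δ} ∩ {ω : ℂ | |ω.im| < δ}) := by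
      rfl
    rw [h1]
    exact (isOpen_lt continuous_const Complex.continuous_re).inter
      ((isOpen_lt Complex.continuous_re continuous_const).inter
        (isOpen_lt Complex.continuous_im.abs continuous_const))
  have h1 : ContinuousAt g (-(s : ℂ)) := (hg.differentiableAt (hopen.mem_nhds hmem)).continuousAt
  have h2 : ContinuousAt (fun s : ℝ => -(s : ℂ)) s := by fun_prop
  exact (ContinuousAt.comp (f := fun s : ℝ => -(s : ℂ)) (x := s) h1 h2).continuousWithinAt

/-- the horizontal part: `s = t - τ`, `exp(-(ut)) ψ(t-s) g(-s) = φ(t-s) m(s)` with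
`φ τ = ψ τ exp(-(uτ))` (bounded on `[x, oo)` by `SideP.bound`: `|exp(-(uτ))| = e^(-u.re τ)`; continuous at
`τ ≠ r0`: restriction of `SideP.cont` to the real axis) and `m s = exp(-(us)) g(-s)`:
`tendsto_conv`. `ρ = Φ ∫_0^oo exp(-(us)) g(-s) ds`. -/
theorem tendsto_sideE_hor {u : ℂ} {x r0 d e0 : ℝ} {ψ g : ℂ → ℂ} (hψ : SideP u r0 d e0 ψ)
    (hg0 : SideG u e0 g) (hx : -1 ≤ x) (hx0 : x ≤ 0) :
    ∃ ρ : ℂ, Tendsto (fun t : ℝ => (t : ℂ) * ((∫ τ in x..t, ψ τ * g (τ - t)) * exp (-(u * t)) -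
      ρ * (1 + 1 / (u * t)))) atTop (𝓝 0) := by
  rcases hψ.bound with ⟨C1, hC1⟩
  rcases hψ.asym with ⟨Φ, C2, T, hT, hΦ⟩
  have hd := SideD_d_pos hψ
  set φ : ℝ → ℂ := fun τ => ψ τ * exp (-(u * τ)) with hφdef
  set m : ℝ → ℂ := fun s => exp (-(u * s)) * g (-(s : ℂ)) with hmdef
  have hexp : ∀ s : ℝ, ‖exp (-(u * s))‖ = Real.exp (-(u.re * s)) := by
    intro s
    rw [Complex.norm_exp]
    simp
  have hnm : ∀ s : ℝ, ‖m s‖ = Real.exp (-(u.re * s)) * ‖g (-(s : ℂ))‖ := by
    intro s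
    rw [hmdef]
    beta_reduce
    rw [norm_mul, hexp]
  have hφb : ∀ τ : ℝ, x ≤ τ → ‖φ τ‖ ≤ max C1 C2 := by
    intro τ hτ
    refine le_trans ?_ (le_max_left _ _)
    have h1 := hC1 (τ : ℂ) (by rw [Complex.ofReal_re]; linarith) (by rw [Complex.ofReal_im])
      (by rw [Complex.ofReal_im]; exact hd)
    rw [Complex.ofReal_re] at h1
    rw [hφdef]
    beta_reduce
    rw [norm_mul, hexp]
    calc ‖ψ τ‖ * Real.exp (-(u.re * τ)) ≤ C1 * Real.exp (u.re * τ) * Real.exp (-(u.re * τ)) :=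
          mul_le_mul_of_nonneg_right h1 (Real.exp_pos _).le
      _ = C1 := by rw [mul_assoc, ← Real.exp_add, add_neg_cancel, Real.exp_zero, mul_one]
  have hφc : ∀ τ : ℝ, x < τ → τ ≠ r0 → ContinuousAt φ τ := by
    intro τ _ hτ
    have h1 : ContinuousAt (fun τ : ℝ => ψ τ) τ := by
      have h2 := hψ.cont τ hτ
      have h3 : Tendsto (fun τ : ℝ => (τ : ℂ)) (𝓝 τ) (𝓝[{ω : ℂ | 0 ≤ ω.im}] (τ : ℂ)) := by
        refine tendsto_nhdsWithin_iff.2 ⟨Complex.continuous_ofReal.tendsto τ, ?_⟩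
        refine Eventually.of_forall fun s => ?_
        change 0 ≤ ((s : ℂ)).im
        rw [Complex.ofReal_im]
      exact Tendsto.comp (f := fun τ : ℝ => (τ : ℂ)) h2 h3
    have h2 : ContinuousAt (fun τ : ℝ => exp (-(u * τ))) τ := by fun_prop
    exact h1.mul h2
  have hφ : ∀ τ : ℝ, T ≤ τ →
      ‖φ τ - Φ * (1 + 1 / (u * τ))‖ ≤ max C1 C2 * (Real.log τ / τ ^ 2) := by
    intro τ hτ
    have h1 := hΦ 0 ⟨le_rfl, hψ.e0_pos.le⟩ τ hτ
    rw [Complex.ofReal_zero, zero_mul, add_zero] at h1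
    refine h1.trans (mul_le_mul_of_nonneg_right (le_max_right _ _) ?_)
    exact div_nonneg (Real.log_nonneg (by linarith)) (sq_nonneg _)
  have hm1 : IntegrableOn (fun s : ℝ => (1 + s) * ‖m s‖) (Ioi 0) := by
    refine hg0.int.congr_fun (fun s _ => ?_) measurableSet_Ioi
    beta_reduce
    rw [hnm]
    ring
  have hmc : ContinuousOn m (Ioi 0) := by
    refine ContinuousOn.mul ?_ (SideD_g_cont hg0)
    exact Continuous.continuousOn (by fun_prop)
  have hm : IntegrableOn m (Ioi 0) := by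
    refine Integrable.mono' hm1 (hmc.aestronglyMeasurable measurableSet_Ioi) ?_
    refine (ae_restrict_iff' measurableSet_Ioi).2 (Eventually.of_forall fun s hs => ?_)
    have hs' : (0 : ℝ) < s := hs
    exact le_mul_of_one_le_left (norm_nonneg _) (by linarith)
  refine ⟨Φ * ∫ s in Ioi (0 : ℝ), m s, ?_⟩
  refine (tendsto_conv hψ.u_pos (C := max C1 C2) hφc hφb hT hφ hm hm1).congr fun t => ?_
  have h1 : (∫ τ in x..t, ψ τ * g (τ - t)) = ∫ s in (0 : ℝ)..(t - x), ψ ((t - s : ℝ) : ℂ) *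
      g (((t - s : ℝ) : ℂ) - t) := by
    rw [intervalIntegral.integral_comp_sub_left (fun τ : ℝ => ψ τ * g (τ - t)) t]
    congr 1
    · ring
    · ring
  have h2 : (∫ τ in x..t, ψ τ * g (τ - t)) * exp (-(u * t)) =
      ∫ s in (0 : ℝ)..(t - x), φ (t - s) * m s := by
    rw [h1, ← intervalIntegral.integral_mul_const]
    refine intervalIntegral.integral_congr fun s _ => ?_
    beta_reduce
    have h3 : ((t - s : ℝ) : ℂ) - t = -(s : ℂ) := by
      push_cast
      ring
    have h4 : exp (-(u * t)) = exp (-(u * ((t - s : ℝ) : ℂ))) * exp (-(u * s)) := by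
      rw [← Complex.exp_add]
      congr 1
      push_cast
      ring
    rw [h3, h4, hφdef, hmdef]
    ring
  rw [h2]
  ring

/-- the vertical part: `exp(-(ut)) ψ(t + ηi) = exp(u ηi) (Φ (1 + 1/(ut)) + O(log t/t^2))` uniformly in
`η`; `ρ = Φ ∫_0^(e0) exp(uηi) g(ηi) i dη`. -/
theorem tendsto_sideE_ver {u : ℂ} {r0 d e0 : ℝ} {ψ g : ℂ → ℂ} (hψ : SideP u r0 d e0 ψ)
    (hg0 : SideG u e0 g) :
    ∃ ρ : ℂ, Tendsto (fun t : ℝ => (t : ℂ) * ((∫ η in (0 : ℝ)..e0, ψ (t + η * I) * g (η * I) * I) *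
      exp (-(u * t)) - ρ * (1 + 1 / (u * t)))) atTop (𝓝 0) := by
  rcases hψ.asym with ⟨Φ, C, T, hT, hΦ⟩
  rcases hg0.first with ⟨e1, he1, hg⟩
  have he0 := hψ.e0_pos
  have hd := SideD_d_pos hψ
  set m : ℝ → ℂ := fun η => exp (u * (η * I)) * g (η * I) * I with hmdef
  have hopen : IsOpen (Rc 1 e1) := by
    have h1 : Rc 1 e1 = {ω : ℂ | -1 - e1 < ω.re} ∩ ({ω : ℂ | ω.re < e1} ∩ {ω : ℂ | |ω.im| < e1}) := by
      rfl
    rw [h1]
    exact (isOpen_lt continuous_const Complex.continuous_re).inter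
      ((isOpen_lt Complex.continuous_re continuous_const).inter
        (isOpen_lt Complex.continuous_im.abs continuous_const))
  have hmc : ContinuousOn m (Icc 0 e0) := by
    have h1 : ContinuousOn (fun η : ℝ => g (η * I)) (Icc 0 e0) := by
      intro η hη
      have hmem : (η * I : ℂ) ∈ Rc 1 e1 := by
        refine ⟨?_, ?_, ?_⟩
        · simp
          linarith
        · simp
          linarith
        · simp
          rw [abs_of_nonneg hη.1]
          linarith [hη.2]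
      have h1 : ContinuousAt g (η * I : ℂ) :=
        (hg.differentiableAt (hopen.mem_nhds hmem)).continuousAt
      have h2 : ContinuousAt (fun η : ℝ => (η * I : ℂ)) η := by fun_prop
      exact (ContinuousAt.comp (f := fun η : ℝ => (η * I : ℂ)) (x := η) h1 h2).continuousWithinAt
    have h2 : ContinuousOn (fun η : ℝ => exp (u * (η * I))) (Icc 0 e0) :=
      Continuous.continuousOn (by fun_prop)
    exact (h2.mul h1).mul continuousOn_const
  have hmi : IntervalIntegrable m volume 0 e0 := hmc.intervalIntegrable_of_Icc he0.le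
  rcases isCompact_Icc.exists_bound_of_continuousOn hmc with ⟨K, hK⟩
  have hK0 : 0 ≤ K := (norm_nonneg _).trans (hK 0 ⟨le_rfl, he0.le⟩)
  have hC0 : 0 ≤ C := by
    have h1 := (norm_nonneg _).trans (hΦ 0 ⟨le_rfl, he0.le⟩ T le_rfl)
    have h2 : 0 < Real.log T / T ^ 2 := div_pos (Real.log_pos hT) (by positivity)
    exact le_of_mul_le_mul_right (by rw [zero_mul]; exact h1) h2
  refine ⟨Φ * ∫ η in (0 : ℝ)..e0, m η, ?_⟩
  -- the error
  have key : ∀ t : ℝ, T ≤ t → r0 < t →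
      ‖(t : ℂ) * ((∫ η in (0 : ℝ)..e0, ψ (t + η * I) * g (η * I) * I) *
      exp (-(u * t)) - (Φ * ∫ η in (0 : ℝ)..e0, m η) * (1 + 1 / (u * t)))‖ ≤
      C * K * e0 * (Real.log t / t) := by
    intro t ht htr
    have ht1 : 1 < t := lt_of_lt_of_le hT ht
    have hA : ContinuousOn (fun η : ℝ => ψ (t + η * I) * exp (-(u * (t + η * I)))) (Icc 0 e0) := by
      refine ContinuousOn.mul ?_ (Continuous.continuousOn (by fun_prop))
      intro η hη
      have h2 : Tendsto (fun η : ℝ => (t + η * I : ℂ)) (𝓝[Icc 0 e0] η)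
          (𝓝[{ω : ℂ | 0 ≤ ω.im}] (t + η * I : ℂ)) := by
        refine tendsto_nhdsWithin_iff.2 ⟨?_, ?_⟩
        · have : Continuous fun η : ℝ => (t + η * I : ℂ) := by fun_prop
          exact this.continuousAt.continuousWithinAt
        · filter_upwards [self_mem_nhdsWithin] with s hs
          change 0 ≤ (t + s * I : ℂ).im
          simp
          exact hs.1
      have h3 : ContinuousWithinAt ψ {ω : ℂ | 0 ≤ ω.im} (t + η * I : ℂ) := by
        rcases eq_or_lt_of_le hη.1 with h4 | h4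
        · rw [← h4, Complex.ofReal_zero, zero_mul, add_zero]
          exact hψ.cont t htr.ne'
        · have hop : IsOpen {ω : ℂ | 0 < ω.im ∧ ω.im < d} :=
            (isOpen_lt continuous_const Complex.continuous_im).inter
              (isOpen_lt Complex.continuous_im continuous_const)
          have hmem : (t + η * I : ℂ) ∈ {ω : ℂ | 0 < ω.im ∧ ω.im < d} := by
            have h5 : (t + η * I : ℂ).im = η := by simp
            change 0 < (t + η * I : ℂ).im ∧ (t + η * I : ℂ).im < d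
            rw [h5]
            exact ⟨h4, by linarith [hη.2, hψ.e0_lt]⟩
          exact (hψ.hol.differentiableAt (hop.mem_nhds hmem)).continuousAt.continuousWithinAt
      exact Tendsto.comp (f := fun η : ℝ => (t + η * I : ℂ)) h3 h2
    have hAm : IntervalIntegrable (fun η : ℝ => ψ (t + η * I) * exp (-(u * (t + η * I))) * m η)
        volume 0 e0 := (hA.mul hmc).intervalIntegrable_of_Icc he0.le
    have h1 : (∫ η in (0 : ℝ)..e0, ψ (t + η * I) * g (η * I) * I) * exp (-(u * t)) -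
        (Φ * ∫ η in (0 : ℝ)..e0, m η) * (1 + 1 / (u * t)) =
        ∫ η in (0 : ℝ)..e0, (ψ (t + η * I) * exp (-(u * (t + η * I))) -
          Φ * (1 + 1 / (u * t))) * m η := by
      have h2 : (∫ η in (0 : ℝ)..e0, ψ (t + η * I) * g (η * I) * I) * exp (-(u * t)) =
          ∫ η in (0 : ℝ)..e0, ψ (t + η * I) * exp (-(u * (t + η * I))) * m η := by
        rw [← intervalIntegral.integral_mul_const]
        refine intervalIntegral.integral_congr fun η _ => ?_
        beta_reduce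
        have h4 : exp (-(u * t)) = exp (-(u * (t + η * I))) * exp (u * (η * I)) := by
          rw [← Complex.exp_add]
          congr 1
          ring
        rw [h4, hmdef]
        ring
      have h3 : (Φ * ∫ η in (0 : ℝ)..e0, m η) * (1 + 1 / (u * t)) =
          ∫ η in (0 : ℝ)..e0, Φ * (1 + 1 / (u * t)) * m η := by
        rw [intervalIntegral.integral_const_mul]
        ring
      rw [h2, h3, ← intervalIntegral.integral_sub hAm (hmi.const_mul _)]
      refine intervalIntegral.integral_congr fun η _ => ?_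
      beta_reduce
      ring
    rw [h1, norm_mul, Complex.norm_real, Real.norm_eq_abs, abs_of_pos (by linarith : 0 < t)]
    have h2 : ‖∫ η in (0 : ℝ)..e0, (ψ (t + η * I) * exp (-(u * (t + η * I))) -
          Φ * (1 + 1 / (u * t))) * m η‖ ≤ C * (Real.log t / t ^ 2) * K * |e0 - 0| := by
      refine intervalIntegral.norm_integral_le_of_norm_le_const fun η hη => ?_
      rw [uIoc_of_le he0.le] at hη
      have hη' : η ∈ Icc (0 : ℝ) e0 := ⟨hη.1.le, hη.2⟩
      rw [norm_mul]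
      refine mul_le_mul (hΦ η hη' t ht) (hK η hη') (norm_nonneg _) ?_
      exact mul_nonneg hC0 (div_nonneg (Real.log_nonneg ht1.le) (sq_nonneg _))
    rw [sub_zero, abs_of_pos he0] at h2
    calc t * ‖∫ η in (0 : ℝ)..e0, (ψ (t + η * I) * exp (-(u * (t + η * I))) -
          Φ * (1 + 1 / (u * t))) * m η‖ ≤ t * (C * (Real.log t / t ^ 2) * K * e0) :=
          mul_le_mul_of_nonneg_left h2 (by linarith)
      _ = C * K * e0 * (Real.log t / t) := by
        field_simp
  have hlog : Tendsto (fun t : ℝ => C * K * e0 * (Real.log t / t)) atTop (𝓝 0) := by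
    have h1 : Tendsto (fun t : ℝ => Real.log t / t) atTop (𝓝 0) := by
      have h2 := Real.isLittleO_log_id_atTop.tendsto_div_nhds_zero
      simpa using h2
    have h2 := h1.const_mul (C * K * e0)
    rwa [mul_zero] at h2
  refine squeeze_zero_norm' ?_ hlog
  filter_upwards [eventually_ge_atTop T, eventually_gt_atTop r0] with t ht1 ht2
  exact key t ht1 ht2

/-- THE SIDE LEMMA -/
theorem good_sideE {u : ℂ} {x r0 d e0 : ℝ} {ψ g : ℂ → ℂ} (hψ : SideP u r0 d e0 ψ)
    (hg0 : SideG u e0 g) (hx : -1 ≤ x) (hx0 : x ≤ 0) : Good u (sideE x e0 ψ g) := by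
  refine ⟨analyticOnNhd_sideE hψ hg0 hx hx0, ?_⟩
  rcases tendsto_sideE_hor hψ hg0 hx hx0 with ⟨ρ1, h1⟩
  rcases tendsto_sideE_ver hψ hg0 with ⟨ρ2, h2⟩
  refine ⟨ρ1 + ρ2, ?_⟩
  have h3 := h1.add h2
  rw [add_zero] at h3
  refine h3.congr fun t => ?_
  unfold sideE
  ring

/-- and for small `t` the path at height `e0` can be used (`t - x ≤ 1`) -/
theorem sideE_eq_e0 {u : ℂ} {x r0 d e0 t : ℝ} {ψ g : ℂ → ℂ} (hψ : SideP u r0 d e0 ψ)
    (hg0 : SideG u e0 g) (hx : -1 ≤ x) (hxt : x ≤ t) (ht : t - x ≤ 1) :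
    sideE x e0 ψ g t = (∫ η in (0 : ℝ)..e0, ψ (x + η * I) * g (x + η * I - t) * I) +
      ∫ τ in x..t, ψ (τ + e0 * I) * g (τ - t + e0 * I) := by
  rcases hg0.first with ⟨e1, he1, hg⟩
  rw [sideE_eq hψ hg0 hg hx hψ.e0_pos le_rfl he1 hxt ht, sideEe_real,
    intervalIntegral.integral_same, add_zero]

end Pool.Agent.MP_ae5b4e_an_WB
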