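import Pool.Agent.Lib.MP_ae5b4e_an_WB.LocH
import Pool.Agent.Lib.MP_ae5b4e_an_WB.SideD
import Pool.Agent.Lib.MP_ae5b4e_an_WB.Psi

/-!
# POR (iii), N2, Lemma B: crossing a trajectory
-/

namespace Pool.Agent.MP_ae5b4e_an_WB

open Complex Set Filter Topology MeasureTheory Metric

/-- `sideE` at small times, if `ψ ω g (ω - t)` has the primitive `H` near the path -/
private theorem Cross_ftc {u : ℂ} {r0 d e0 t r : ℝ} {ψ g H : ℂ → ℂ} (hψ : SideP u r0 d e0 ψ)
    (hg : SideG u e0 g) (hr : r ≤ 1) (he : e0 < r / 4) (ht0 : 0 < t) (ht : t < r / 4)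
    (hH : ∀ ω ∈ ball (0 : ℂ) r, ω - t ∈ ball (0 : ℂ) r → HasDerivAt H (ψ ω * g (ω - t)) ω)
    (hψc : ContinuousOn ψ (ball 0 r)) (hgc : ContinuousOn g (ball 0 r)) :
    sideE (-e0) e0 ψ g t = H (t + e0 * I) - H (-e0) := by
  have he0 := hψ.e0_pos
  have hmem : ∀ x y : ℝ, |x| ≤ e0 + t → |y| ≤ e0 → (x : ℂ) + y * I ∈ ball (0 : ℂ) r := by
    intro x y hx hy
    rw [mem_ball_zero_iff]
    calc ‖(x : ℂ) + y * I‖ ≤ ‖(x : ℂ)‖ + ‖(y : ℂ) * I‖ := norm_add_le _ _
      _ = |x| + |y| := by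
        rw [norm_mul, Complex.norm_I, mul_one, Complex.norm_real, Complex.norm_real,
          Real.norm_eq_abs, Real.norm_eq_abs]
      _ ≤ (e0 + t) + e0 := add_le_add hx hy
      _ < r := by linarith
  rw [sideE_eq_e0 hψ hg (by linarith) (by linarith) (by linarith)]
  -- the vertical segment
  have hv : ∀ η ∈ Set.uIcc (0 : ℝ) e0,
      ((-e0 : ℝ) : ℂ) + η * I ∈ ball (0 : ℂ) r ∧ ((-e0 : ℝ) : ℂ) + η * I - t ∈ ball (0 : ℂ) r := by
    intro η hη
    rw [Set.uIcc_of_le he0.le] at hη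
    have h1 : |η| ≤ e0 := by
      rw [abs_of_nonneg hη.1]
      exact hη.2
    refine ⟨hmem _ _ ?_ h1, ?_⟩
    · rw [abs_neg, abs_of_pos he0]
      linarith
    · have e : ((-e0 : ℝ) : ℂ) + η * I - t = ((-e0 - t : ℝ) : ℂ) + η * I := by
        push_cast
        ring
      rw [e]
      refine hmem _ _ ?_ h1
      rw [abs_le]
      constructor <;> linarith
  have I1 : ∫ η in (0 : ℝ)..e0, ψ (((-e0 : ℝ) : ℂ) + η * I) *
      g (((-e0 : ℝ) : ℂ) + η * I - t) * I =
      H (((-e0 : ℝ) : ℂ) + e0 * I) - H (((-e0 : ℝ) : ℂ) + (0 : ℝ) * I) := by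
    refine intervalIntegral.integral_eq_sub_of_hasDerivAt
      (f := fun η : ℝ => H (((-e0 : ℝ) : ℂ) + η * I)) (fun η hη => ?_) ?_
    · have h1 : HasDerivAt (fun η : ℝ => ((-e0 : ℝ) : ℂ) + η * I) I η := by
        have h2 := ((hasDerivAt_id η).ofReal_comp.mul_const I).const_add ((-e0 : ℝ) : ℂ)
        simpa using h2
      exact (hH _ (hv η hη).1 (hv η hη).2).comp_of_eq η h1 rfl
    · refine ContinuousOn.intervalIntegrable ?_
      refine ContinuousOn.mul (ContinuousOn.mul ?_ ?_) continuousOn_const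
      · exact hψc.comp (by fun_prop) (fun η hη => (hv η hη).1)
      · exact hgc.comp (by fun_prop) (fun η hη => (hv η hη).2)
  -- the horizontal segment
  have hh : ∀ τ ∈ Set.uIcc (-e0) t,
      (τ : ℂ) + e0 * I ∈ ball (0 : ℂ) r ∧ (τ : ℂ) - t + e0 * I ∈ ball (0 : ℂ) r := by
    intro τ hτ
    rw [Set.uIcc_of_le (by linarith)] at hτ
    have h1 : |e0| ≤ e0 := (abs_of_pos he0).le
    refine ⟨hmem _ _ ?_ h1, ?_⟩
    · rw [abs_le]
      constructor <;> linarith [hτ.1, hτ.2]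
    · have e : (τ : ℂ) - t + e0 * I = ((τ - t : ℝ) : ℂ) + e0 * I := by
        push_cast
        ring
      rw [e]
      refine hmem _ _ ?_ h1
      rw [abs_le]
      constructor <;> linarith [hτ.1, hτ.2]
  have I2 : ∫ τ in (-e0)..t, ψ (τ + e0 * I) * g (τ - t + e0 * I) =
      H ((t : ℂ) + e0 * I) - H (((-e0 : ℝ) : ℂ) + e0 * I) := by
    refine intervalIntegral.integral_eq_sub_of_hasDerivAt
      (f := fun τ : ℝ => H ((τ : ℂ) + e0 * I)) (fun τ hτ => ?_) ?_
    · have h1 : HasDerivAt (fun τ : ℝ => (τ : ℂ) + e0 * I) 1 τ := by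
        have h2 := (hasDerivAt_id τ).ofReal_comp.add_const ((e0 : ℂ) * I)
        simpa using h2
      have e : (τ : ℂ) - t + e0 * I = (τ : ℂ) + e0 * I - t := by ring
      have h3 := hh τ hτ
      rw [e] at h3 ⊢
      have h4 := (hH _ h3.1 h3.2).comp_of_eq τ h1 rfl
      rwa [mul_one] at h4
    · refine ContinuousOn.intervalIntegrable ?_
      refine ContinuousOn.mul ?_ ?_
      · exact hψc.comp (by fun_prop) (fun η hη => (hh η hη).1)
      · exact hgc.comp (by fun_prop) (fun η hη => (hh η hη).2)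
  rw [I2, I1]
  have e1 : ((-e0 : ℝ) : ℂ) + (0 : ℝ) * I = -(e0 : ℂ) := by
    push_cast
    ring
  rw [e1]
  ring

private theorem Cross_isOpen_Rc (T δ : ℝ) : IsOpen (Rc T δ) := by
  have h1 : IsOpen {ω : ℂ | -T - δ < ω.re} := isOpen_lt continuous_const continuous_re
  have h2 : IsOpen {ω : ℂ | ω.re < δ} := isOpen_lt continuous_re continuous_const
  have h3 : IsOpen {ω : ℂ | |ω.im| < δ} := isOpen_lt continuous_im.abs continuous_const
  exact h1.inter (h2.inter h3)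

private theorem Cross_width {u : ℂ} (hu : 0 < u.re) :
    ∃ d : ℝ, 0 < d ∧ d * ‖u‖ ^ 2 ≤ 3 * u.re := by
  have hu0 : 0 < ‖u‖ := by
    rw [norm_pos_iff]
    rintro rfl
    simp at hu
  refine ⟨3 * u.re / ‖u‖ ^ 2, by positivity, ?_⟩
  rw [div_mul_cancel₀ _ (by positivity)]

/-- UPPER SIDE. `W = G (Y P)`, `W^2 e^(2u r0) = gs^2 q P e^(2u r0) = tipc`. `e0` small (`2 e0 < r` of `exists_locH`,
`e0 < e1` of `sideG_chart`, `e0 < d`), `Ya = Y (lam (i e0))`, `ψ ω = W e^(uω)/Fl Ya (u(ω - i e0))`,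
`f = sideE (-e0) e0 ψ (lam')` is good (`sideP_psi`, `good_sideE`). For small `t > 0`, by `sideE_eq_e0`,
`f t = ∫_0^(e0) ψ(x+ηi) lam'(x+ηi-t) i dη + ∫_x^t ψ(τ+i e0) lam'(τ-t+i e0) dτ`, `x = - e0`; all heights are in
`ball 0 r`, where `ψ ω = W e^(uω)/Y (lam ω)` (`exists_locH`), and
`d/dω F (lam (ω - t)) t = (W e^(u(ω-t)) e^(ut) / Fl (Y (lam (ω-t))) (ut)) lam'(ω-t) = ψ(ω) lam'(ω-t)`. So
`f t = F (lam (i e0)) t - F (lam (-e0-t)) t` (fundamental theorem of calculus on the two segments). -/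
theorem germ_up {u gs : ℂ} (hu : 0 < u.re) {q : ℂ → ℂ} {P : ℂ} {ρ τ r0 : ℝ}
    {Y lam : ℂ → ℂ} {F : ℂ → ℝ → ℂ} (hρ : 0 < ρ) (hτ : 0 < τ)
    (hL : LocPrim u gs q (ball P ρ) τ Y F) (hlam : IsChart u q P lam) (hr0 : 0 ≤ r0)
    (hW : gs ^ 2 * q P * exp (2 * (u * r0)) = tipc) :
    ∃ ε : ℝ, 0 < ε ∧ ∀ e0 ∈ Ioo (0 : ℝ) ε, ∃ f : ℝ → ℂ, Good u f ∧ ∃ τ' : ℝ, 0 < τ' ∧
      ∀ t ∈ Ioo (0 : ℝ) τ', F (lam (e0 * I)) t - F (lam (-e0 - t)) t = f t := by
  obtain ⟨r, hr0', hr1, hlamd, hloc, hfl⟩ := exists_locH hρ hL hlam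
  obtain ⟨e1, he1, hlamR, hgT⟩ := sideG_chart hlam
  obtain ⟨d, hd0, hd⟩ := Cross_width hu
  obtain ⟨hYd, hYB, hF⟩ := hL
  have hP := hYB P (mem_ball_self hρ)
  have hW' : G (Y P) ^ 2 * exp (2 * (u * r0)) = tipc := by
    rw [hP.2.2]
    exact hW
  have hYlam : ∀ ω ∈ ball (0 : ℂ) r, sin (Y (lam ω)) ≠ 0 ∧ Y (lam ω) ≠ 0 := by
    intro ω hω
    have h1 := (hYB _ (hloc ω hω).1).2.1
    refine ⟨h1, fun h0 => h1 ?_⟩
    rw [h0, sin_zero]
  refine ⟨min (r / 4) (min e1 d), by positivity, ?_⟩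
  rintro e0 ⟨he0, hlt⟩
  have her : e0 < r / 4 := lt_of_lt_of_le hlt (min_le_left _ _)
  have hee1 : e0 < e1 := lt_of_lt_of_le hlt ((min_le_right _ _).trans (min_le_left _ _))
  have hed : e0 < d := lt_of_lt_of_le hlt ((min_le_right _ _).trans (min_le_right _ _))
  have hmem0 : (e0 : ℂ) * I ∈ ball (0 : ℂ) r := by
    rw [mem_ball_zero_iff, norm_mul, Complex.norm_I, mul_one, Complex.norm_real,
      Real.norm_eq_abs, abs_of_pos he0]
    linarith
  have hψP : SideP u r0 d e0 (fun ω => G (Y P) * exp (u * ω) /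
      Fl (Y (lam (e0 * I))) (u * (ω - e0 * I))) :=
    sideP_psi hu hr0 hW' he0 hed hd (hYlam _ hmem0).1 (hloc _ hmem0).2.2
  have hgG : SideG u e0 (deriv lam) :=
    ⟨hgT, ⟨e1, hee1, hlamR.deriv (Cross_isOpen_Rc 1 e1)⟩, hlam.int⟩
  refine ⟨_, good_sideE hψP hgG (x := -e0) (by linarith) (by linarith), min τ (r / 4),
    lt_min hτ (by positivity), ?_⟩
  rintro t ⟨ht0, ht⟩
  have htτ : t < τ := lt_of_lt_of_le ht (min_le_left _ _)
  have htr : t < r / 4 := lt_of_lt_of_le ht (min_le_right _ _)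
  have hψeq : ∀ ω ∈ ball (0 : ℂ) r, G (Y P) * exp (u * ω) /
      Fl (Y (lam (e0 * I))) (u * (ω - e0 * I)) = G (Y P) * exp (u * ω) / Y (lam ω) := by
    intro ω hω
    rw [hfl _ hmem0 ω hω]
  have hYc : ContinuousOn (fun ω => Y (lam ω)) (ball (0 : ℂ) r) :=
    (hYd.comp hlamd (fun ω hω => (hloc ω hω).1)).continuousOn
  have hmain := Cross_ftc (H := fun ω => F (lam (ω - t)) t) hψP hgG hr1 her ht0 htr
    (fun ω hω hωt => by
      have h1 := hF t ⟨ht0, htτ⟩ (lam (ω - t)) (hloc _ hωt).1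
      have h2 : HasDerivAt lam (deriv lam (ω - t)) (ω - t) :=
        (hlamd.differentiableAt (isOpen_ball.mem_nhds hωt)).hasDerivAt
      have h3 : HasDerivAt (fun ω : ℂ => ω - t) 1 ω := (hasDerivAt_id ω).sub_const _
      have h4 : HasDerivAt (fun ω : ℂ => lam (ω - t)) (deriv lam (ω - t)) ω := by
        have := h2.comp_of_eq ω h3 rfl
        rwa [mul_one] at this
      have h5 := h1.comp_of_eq ω h4 rfl
      have h6 : G (Y (lam (ω - t))) * exp (u * t) / Fl (Y (lam (ω - t))) (u * t) =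
          G (Y P) * exp (u * ω) / Fl (Y (lam (e0 * I))) (u * (ω - e0 * I)) := by
        rw [hψeq ω hω]
        have h7 := hfl (ω - t) hωt ω hω
        have h8 : u * (ω - (ω - t)) = u * t := by ring
        rw [h8] at h7
        rw [h7, (hloc _ hωt).2.2, mul_assoc, ← Complex.exp_add]
        congr 3
        ring
      rw [h6] at h5
      exact h5)
    (by
      refine ContinuousOn.congr ?_ hψeq
      refine ContinuousOn.div ?_ hYc (fun ω hω => (hYlam ω hω).2)
      fun_prop)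
    (hlamd.deriv isOpen_ball).continuousOn
  rw [hmain]
  have e1 : (t : ℂ) + e0 * I - t = e0 * I := by ring
  rw [e1]

open scoped ComplexConjugate in
/-- the conjugate function of the conjugate variable -/
private noncomputable def Cross_cj (g : ℂ → ℂ) : ℂ → ℂ := fun ω => conj (g (conj ω))

open scoped ComplexConjugate in
private theorem Cross_cj_diff {g : ℂ → ℂ} {T δ : ℝ} (hg : DifferentiableOn ℂ g (Rc T δ)) :
    DifferentiableOn ℂ (Cross_cj g) (Rc T δ) := by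
  intro ω hω
  have h1 : conj ω ∈ Rc T δ := by
    obtain ⟨h1, h2, h3⟩ := hω
    refine ⟨?_, ?_, ?_⟩
    · rwa [Complex.conj_re]
    · rwa [Complex.conj_re]
    · rwa [Complex.conj_im, abs_neg]
  have h2 := (hg.differentiableAt ((Cross_isOpen_Rc T δ).mem_nhds h1)).conj_conj
  rw [Complex.conj_conj] at h2
  exact h2.differentiableWithinAt

open scoped ComplexConjugate in
private theorem Cross_cj_ball {ω : ℂ} {r : ℝ} (h : ω ∈ ball (0 : ℂ) r) :
    conj ω ∈ ball (0 : ℂ) r := by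
  rw [mem_ball_zero_iff] at h ⊢
  rwa [RCLike.norm_conj]

open scoped ComplexConjugate in
/-- LOWER SIDE: the same with `-i e0`. Apply `sideP_psi`, `good_sideE`, `sideE_eq_e0` to the conjugate
data `conj u`, `conj W`, `conj Yb` (`Yb = Y (lam (-i e0))`), `ψ' ω = conj (ψ (conj ω))`,
`g' ω = conj (g (conj ω))`, with `Fl_conj`; `Good.conj`. -/
theorem germ_dn {u gs : ℂ} (hu : 0 < u.re) {q : ℂ → ℂ} {P : ℂ} {ρ τ r0 : ℝ}
    {Y lam : ℂ → ℂ} {F : ℂ → ℝ → ℂ} (hρ : 0 < ρ) (hτ : 0 < τ)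
    (hL : LocPrim u gs q (ball P ρ) τ Y F) (hlam : IsChart u q P lam) (hr0 : 0 ≤ r0)
    (hW : gs ^ 2 * q P * exp (2 * (u * r0)) = tipc) :
    ∃ ε : ℝ, 0 < ε ∧ ∀ e0 ∈ Ioo (0 : ℝ) ε, ∃ f : ℝ → ℂ, Good u f ∧ ∃ τ' : ℝ, 0 < τ' ∧
      ∀ t ∈ Ioo (0 : ℝ) τ', F (lam (-(e0 * I))) t - F (lam (-e0 - t)) t = f t := by
  obtain ⟨r, hr0', hr1, hlamd, hloc, hfl⟩ := exists_locH hρ hL hlam
  obtain ⟨e1, he1, hlamR, hgT⟩ := sideG_chart hlam
  obtain ⟨d, hd0, hd⟩ := Cross_width hu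
  obtain ⟨hYd, hYB, hF⟩ := hL
  have hP := hYB P (mem_ball_self hρ)
  have hW' : G (Y P) ^ 2 * exp (2 * (u * r0)) = tipc := by
    rw [hP.2.2]
    exact hW
  have hYlam : ∀ ω ∈ ball (0 : ℂ) r, sin (Y (lam ω)) ≠ 0 ∧ Y (lam ω) ≠ 0 := by
    intro ω hω
    have h1 := (hYB _ (hloc ω hω).1).2.1
    refine ⟨h1, fun h0 => h1 ?_⟩
    rw [h0, sin_zero]
  refine ⟨min (r / 4) (min e1 d), by positivity, ?_⟩
  rintro e0 ⟨he0, hlt⟩
  have her : e0 < r / 4 := lt_of_lt_of_le hlt (min_le_left _ _)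
  have hee1 : e0 < e1 := lt_of_lt_of_le hlt ((min_le_right _ _).trans (min_le_left _ _))
  have hed : e0 < d := lt_of_lt_of_le hlt ((min_le_right _ _).trans (min_le_right _ _))
  have hmem0 : -((e0 : ℂ) * I) ∈ ball (0 : ℂ) r := by
    rw [mem_ball_zero_iff, norm_neg, norm_mul, Complex.norm_I, mul_one, Complex.norm_real,
      Real.norm_eq_abs, abs_of_pos he0]
    linarith
  have htip : conj tipc = tipc := by
    unfold tipc
    rw [map_neg, Complex.conj_ofReal]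
  have hWc : (conj (G (Y P))) ^ 2 * exp (2 * (conj u * r0)) = tipc := by
    have h1 := congrArg conj hW'
    rw [htip, map_mul, map_pow, ← Complex.exp_conj, map_mul, map_mul, Complex.conj_ofReal] at h1
    have h2 : conj (2 : ℂ) = 2 := Complex.conj_ofNat 2
    rwa [h2] at h1
  have hGc : G (conj (Y (lam (-(e0 * I))))) = conj (G (Y P)) * exp (conj u * (e0 * I)) := by
    rw [G_conj, (hloc _ hmem0).2.2, map_mul, ← Complex.exp_conj]
    congr 2
    simp only [map_neg, map_mul, Complex.conj_ofReal, Complex.conj_I]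
    ring
  have hsc : sin (conj (Y (lam (-(e0 * I))))) ≠ 0 := by
    rw [Complex.sin_conj]
    exact (map_ne_zero _).2 (hYlam _ hmem0).1
  have hnu : ‖(conj u : ℂ)‖ = ‖u‖ := RCLike.norm_conj u
  have hψP : SideP (conj u) r0 d e0 (fun ω => conj (G (Y P)) * exp (conj u * ω) /
      Fl (conj (Y (lam (-(e0 * I))))) (conj u * (ω - e0 * I))) :=
    sideP_psi (by rwa [Complex.conj_re]) hr0 hWc he0 hed (by rwa [hnu, Complex.conj_re]) hsc hGc
  have hgG : SideG (conj u) e0 (Cross_cj (deriv lam)) := by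
    refine ⟨fun T hT => ?_, ⟨e1, hee1, Cross_cj_diff (hlamR.deriv (Cross_isOpen_Rc 1 e1))⟩, ?_⟩
    · obtain ⟨δ, hδ, hδd⟩ := hgT T hT
      exact ⟨δ, hδ, Cross_cj_diff hδd⟩
    · refine hlam.int.congr_fun (fun s _ => ?_) measurableSet_Ioi
      simp only [Cross_cj, Complex.conj_re, map_neg, Complex.conj_ofReal, RCLike.norm_conj]
  have hgood := (good_sideE hψP hgG (x := -e0) (by linarith) (by linarith)).conj
  rw [Complex.conj_conj] at hgood
  refine ⟨_, hgood, min τ (r / 4), lt_min hτ (by positivity), ?_⟩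
  rintro t ⟨ht0, ht⟩
  have htτ : t < τ := lt_of_lt_of_le ht (min_le_left _ _)
  have htr : t < r / 4 := lt_of_lt_of_le ht (min_le_right _ _)
  have hψeq : ∀ ω ∈ ball (0 : ℂ) r, conj (G (Y P)) * exp (conj u * ω) /
      Fl (conj (Y (lam (-(e0 * I))))) (conj u * (ω - e0 * I)) =
      conj (G (Y P) * exp (u * conj ω) / Y (lam (conj ω))) := by
    intro ω hω
    have h1 : conj u * (ω - e0 * I) = conj (u * (conj ω - -(e0 * I))) := by
      simp only [map_mul, map_sub, map_neg, Complex.conj_conj, Complex.conj_ofReal,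
        Complex.conj_I]
      ring
    rw [h1, Fl_conj, hfl _ hmem0 (conj ω) (Cross_cj_ball hω), map_div₀, map_mul,
      ← Complex.exp_conj, map_mul, Complex.conj_conj]
  have hYc : ContinuousOn (fun ω => Y (lam ω)) (ball (0 : ℂ) r) :=
    (hYd.comp hlamd (fun ω hω => (hloc ω hω).1)).continuousOn
  have hH : ∀ ω ∈ ball (0 : ℂ) r, ω - t ∈ ball (0 : ℂ) r →
      HasDerivAt (fun ω => F (lam (ω - t)) t)
        (G (Y P) * exp (u * ω) / Y (lam ω) * deriv lam (ω - t)) ω := by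
    intro ω hω hωt
    have h1 := hF t ⟨ht0, htτ⟩ (lam (ω - t)) (hloc _ hωt).1
    have h2 : HasDerivAt lam (deriv lam (ω - t)) (ω - t) :=
      (hlamd.differentiableAt (isOpen_ball.mem_nhds hωt)).hasDerivAt
    have h3 : HasDerivAt (fun ω : ℂ => ω - t) 1 ω := (hasDerivAt_id ω).sub_const _
    have h4 : HasDerivAt (fun ω : ℂ => lam (ω - t)) (deriv lam (ω - t)) ω := by
      have := h2.comp_of_eq ω h3 rfl
      rwa [mul_one] at this
    have h5 := h1.comp_of_eq ω h4 rfl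
    have h6 : G (Y (lam (ω - t))) * exp (u * t) / Fl (Y (lam (ω - t))) (u * t) =
        G (Y P) * exp (u * ω) / Y (lam ω) := by
      have h7 := hfl (ω - t) hωt ω hω
      have h8 : u * (ω - (ω - t)) = u * t := by ring
      rw [h8] at h7
      rw [h7, (hloc _ hωt).2.2, mul_assoc, ← Complex.exp_add]
      congr 3
      ring
    rw [h6] at h5
    exact h5
  have hmain := Cross_ftc (H := conj ∘ (fun ω => F (lam (ω - t)) t) ∘ conj) hψP hgG hr1 her
    ht0 htr
    (fun ω hω hωt => by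
      have h0 : conj ω - t = conj (ω - t) := by
        rw [map_sub, Complex.conj_ofReal]
      have h1 := (hH (conj ω) (Cross_cj_ball hω) (by
        rw [h0]
        exact Cross_cj_ball hωt)).conj_conj
      rw [Complex.conj_conj, map_mul, ← hψeq ω hω, h0] at h1
      exact h1)
    (by
      refine ContinuousOn.congr (f := fun ω : ℂ =>
        conj (G (Y P) * exp (u * conj ω) / Y (lam (conj ω)))) ?_ hψeq
      refine Complex.continuous_conj.comp_continuousOn ?_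
      refine ContinuousOn.div ?_ ?_ (fun ω hω => (hYlam _ (Cross_cj_ball hω)).2)
      · exact (continuous_const.mul (Complex.continuous_exp.comp
          (continuous_const.mul Complex.continuous_conj))).continuousOn
      · exact hYc.comp Complex.continuous_conj.continuousOn (fun ω hω => Cross_cj_ball hω))
    (Complex.continuous_conj.comp_continuousOn ((hlamd.deriv isOpen_ball).continuousOn.comp
      Complex.continuous_conj.continuousOn (fun ω hω => Cross_cj_ball hω)))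
  beta_reduce
  rw [hmain]
  simp only [Function.comp_apply, map_sub, Complex.conj_conj, map_add, map_mul,
    Complex.conj_ofReal, Complex.conj_I, map_neg]
  have e1 : (t : ℂ) + e0 * -I - t = -(e0 * I) := by ring
  rw [e1]

end Pool.Agent.MP_ae5b4e_an_WB
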