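import Pool.Agent.Lib.MP_ae5b4e_an_WB.GA

/-!
# POR (iii), N2, Lemma B: interface of the flow `Fl`

Everything that the geometric part of Lemma B uses about `G`, `V`, `Fl` (all proved):

* `GB`: `hasDerivAt_G`, `hasStrictDerivAt_G`, `G_ne_zero`, `ne_zero_of_sin`, `continuousAt_G`, `G_neg`
* `GL`: `exists_isLift`, `isLift_unique`
* `GU`: `Fl_eq`, `Fl_mul_eq`, `Fl_zero`, `sin_Fl_ne_zero`, `Fl_ne_zero`, `G_Fl`, `isLift_Fl`, `Fwd.mul`
* `GC`: `isOpen_Dom`, `continuousOn_Fl`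
* `GD`: `hasDerivAt_Fl`, `differentiableAt_Fl_left`, `differentiableAt_Fl₂`, `Fl_add`,
  `exists_norm_G_div_Fl_le'`
* `GE`: `exists_norm_G_div_le`, `Fl_dich`, `Fl_conj`, `exists_local_inverse`
* `GA`: `FwdAll.fwd`, `hasDerivAt_Fl_real`, `norm_G_Fl`, `exists_trap`, `exists_asymp_Fl`
-/
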