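import Pool.Agent.Lib.MP_ae5b4e_an_WB.Defs

/-!
# POR (iii), N2, Lemma B: algebra of good functions, and the contradiction
-/

namespace Pool.Agent.MP_ae5b4e_an_WB

open Complex Set Filter Topology MeasureTheory

theorem Good.zero (u : ℂ) : Good u (fun _ => 0) := by
  refine ⟨analyticOnNhd_const, 0, ?_⟩
  simp

/-- `ρ = ρ_1 + ρ_2` -/
theorem Good.add {u : ℂ} {f g : ℝ → ℂ} (hf : Good u f) (hg : Good u g) :
    Good u (fun t => f t + g t) := by
  obtain ⟨hf1, ρ, hf2⟩ := hf
  obtain ⟨hg1, ρ', hg2⟩ := hg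
  refine ⟨fun t ht => (hf1 t ht).add (hg1 t ht), ρ + ρ', ?_⟩
  have h := hf2.add hg2
  rw [add_zero] at h
  refine h.congr fun t => ?_
  ring

theorem Good.neg {u : ℂ} {f : ℝ → ℂ} (hf : Good u f) : Good u (fun t => -f t) := by
  obtain ⟨hf1, ρ, hf2⟩ := hf
  refine ⟨fun t ht => (hf1 t ht).neg, -ρ, ?_⟩
  have h := hf2.neg
  rw [neg_zero] at h
  refine h.congr fun t => ?_
  ring

theorem Good.sub {u : ℂ} {f g : ℝ → ℂ} (hf : Good u f) (hg : Good u g) :
    Good u (fun t => f t - g t) := by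
  have h := hf.add hg.neg
  simpa only [← sub_eq_add_neg] using h

theorem Good.congr {u : ℂ} {f g : ℝ → ℂ} (hf : Good u f) (h : ∀ t : ℝ, 0 < t → f t = g t) :
    Good u g := by
  obtain ⟨hf1, ρ, hf2⟩ := hf
  refine ⟨hf1.congr isOpen_Ioi (fun t ht => h t ht), ρ, ?_⟩
  refine hf2.congr' ?_
  filter_upwards [eventually_gt_atTop 0] with t ht
  rw [h t ht]

/-- `conj (exp (-(u t))) = exp (-(conj u t))`; real analyticity is preserved by the real linear map
`conj` (`Complex.conjCLE`). -/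
theorem Good.conj {u : ℂ} {f : ℝ → ℂ} (hf : Good u f) :
    Good ((starRingEnd ℂ) u) (fun t => (starRingEnd ℂ) (f t)) := by
  obtain ⟨hf1, ρ, hf2⟩ := hf
  refine ⟨fun t ht => ?_, (starRingEnd ℂ) ρ, ?_⟩
  · exact (Complex.conjCLE.toContinuousLinearMap.analyticAt (f t)).comp (hf1 t ht)
  · have h := (Complex.continuous_conj.tendsto 0).comp hf2
    rw [map_zero] at h
    refine h.congr fun t => ?_
    simp only [Function.comp_apply, map_mul, map_sub, map_add, map_div₀, map_one,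
      Complex.conj_ofReal, ← Complex.exp_conj, map_neg]

/-- THE CONTRADICTION: if a good function is `c exp (u t)` on `(0, δ)` then `c = 0`. Proof: both
sides
are real analytic on `(0, oo)`, so they agree on `(0, oo)` (identity theorem); hence
`t (c - ρ (1 + 1/(ut))) → 0`; dividing by `t`: `c = ρ`; then `t ρ/(ut) = ρ/u → 0`, so `ρ = 0`. -/
theorem Good.eq_zero {u : ℂ} (hu : 0 < u.re) {f : ℝ → ℂ} (hf : Good u f) {c : ℂ} {δ : ℝ}
    (hδ : 0 < δ) (h : ∀ t ∈ Ioo (0 : ℝ) δ, f t = c * exp (u * t)) : c = 0 := by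
  obtain ⟨hf1, ρ, hf2⟩ := hf
  have hu0 : u ≠ 0 := by
    rintro rfl
    simp at hu
  have hg : AnalyticOnNhd ℝ (fun t : ℝ => c * exp (u * t)) (Ioi 0) := by
    intro t _
    have h1 : AnalyticAt ℝ (fun t : ℝ => u * (t : ℂ)) t :=
      analyticAt_const.mul (Complex.ofRealCLM.analyticAt t)
    have h2 : AnalyticAt ℝ (fun t : ℝ => exp (u * (t : ℂ))) t :=
      ((Complex.differentiable_exp.analyticAt (u * t)).restrictScalars (𝕜 := ℝ)).comp
        (f := fun t : ℝ => u * (t : ℂ)) h1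
    exact analyticAt_const.mul h2
  have heq : EqOn f (fun t : ℝ => c * exp (u * t)) (Ioi 0) := by
    refine hf1.eqOn_of_preconnected_of_eventuallyEq hg isPreconnected_Ioi
      (z₀ := δ / 2) (half_pos hδ) ?_
    filter_upwards [Ioo_mem_nhds (half_pos hδ) (half_lt_self hδ)] with t ht
    exact h t ht
  have h2 : Tendsto (fun t : ℝ => (t : ℂ) * (c - ρ) - ρ / u) atTop (𝓝 0) := by
    refine hf2.congr' ?_
    filter_upwards [eventually_gt_atTop 0] with t ht
    have ht' : (t : ℂ) ≠ 0 := Complex.ofReal_ne_zero.2 ht.ne'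
    have h3 : f t = c * exp (u * t) := heq ht
    have h4 : exp (u * t) * exp (-(u * t)) = 1 := by
      rw [← Complex.exp_add, add_neg_cancel, Complex.exp_zero]
    rw [h3, mul_assoc, h4, mul_one]
    field_simp
    ring
  have h3 : Tendsto (fun t : ℝ => (t : ℂ) * (c - ρ)) atTop (𝓝 (ρ / u)) := by
    have h4 := h2.add_const (ρ / u)
    rw [zero_add] at h4
    refine h4.congr fun t => ?_
    ring
  have h4 : Tendsto (fun t : ℝ => ((t : ℂ))⁻¹) atTop (𝓝 0) := by
    have h5 := (Complex.continuous_ofReal.tendsto 0).comp tendsto_inv_atTop_zero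
    rw [Complex.ofReal_zero] at h5
    refine h5.congr fun t => ?_
    rw [Function.comp_apply, Complex.ofReal_inv]
  have h5 : c - ρ = 0 := by
    have h6 := h3.mul h4
    rw [mul_zero] at h6
    have h7 : Tendsto (fun t : ℝ => (t : ℂ) * (c - ρ) * (t : ℂ)⁻¹) atTop (𝓝 (c - ρ)) := by
      refine tendsto_const_nhds.congr' ?_
      filter_upwards [eventually_gt_atTop 0] with t ht
      have ht' : (t : ℂ) ≠ 0 := Complex.ofReal_ne_zero.2 ht.ne'
      field_simp
    exact tendsto_nhds_unique h7 h6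
  rw [h5] at h3
  simp only [mul_zero] at h3
  have h8 := tendsto_nhds_unique h3 tendsto_const_nhds
  have h9 : ρ = 0 := (div_eq_zero_iff.1 h8).resolve_right hu0
  rw [h9, sub_zero] at h5
  exact h5

/-- holomorphic near `t` implies real analytic at `t` -/
theorem analyticAt_real_of_complex {f : ℝ → ℂ} {F : ℂ → ℂ} {U : Set ℂ} (hU : IsOpen U) {t : ℝ}
    (ht : (t : ℂ) ∈ U) (hF : DifferentiableOn ℂ F U) (h : ∀ᶠ s : ℝ in 𝓝 t, f s = F s) :
    AnalyticAt ℝ f t := by
  have h1 : AnalyticAt ℂ F t := hF.analyticAt (hU.mem_nhds ht)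
  have h2 : AnalyticAt ℝ (fun s : ℝ => F s) t :=
    (h1.restrictScalars (𝕜 := ℝ)).comp (f := fun s : ℝ => (s : ℂ))
      (Complex.ofRealCLM.analyticAt t)
  exact h2.congr (h.mono fun s hs => hs.symm)

end Pool.Agent.MP_ae5b4e_an_WB
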