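import Pool.Agent.Lib.MP_ae5b4e_an_WB.Lam
import Pool.Agent.Lib.MP_ae5b4e_an_WB.ParamInt
import Pool.Agent.Lib.MP_ae5b4e_an_WB.GoodL

/-!
# POR (iii), N2, Lemma B: forward pieces are good
-/

namespace Pool.Agent.MP_ae5b4e_an_WB

open Complex Set Filter Topology MeasureTheory

private theorem fwdP_cont {u : ℂ} {Yc : ℝ → ℂ} (hY : ContinuousOn Yc (Icc 0 1))
    (hs : ∀ s ∈ Icc (0 : ℝ) 1, sin (Yc s) ≠ 0) {z : ℂ}
    (hz : ∀ s ∈ Icc (0 : ℝ) 1, (Yc s, u * z) ∈ Dom) :
    ContinuousOn (fun s => G (Yc s) / Fl (Yc s) (u * z)) (Icc 0 1) := by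
  have h1 : ContinuousOn (fun s => G (Yc s)) (Icc 0 1) := fun s hsI =>
    (continuousAt_G (hs s hsI)).comp_continuousWithinAt (hY s hsI)
  have h2 : ContinuousOn (fun s => Fl (Yc s) (u * z)) (Icc 0 1) :=
    continuousOn_Fl.comp (f := fun s : ℝ => (Yc s, u * z)) (hY.prodMk continuousOn_const)
      (fun s hsI => hz s hsI)
  exact h1.div h2 fun s hsI => Fl_ne_zero (hz s hsI).1 (hz s hsI).2

private theorem fwdP_analytic {u : ℂ} {Yc m : ℝ → ℂ} (hY : ContinuousOn Yc (Icc 0 1))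
    (hs : ∀ s ∈ Icc (0 : ℝ) 1, sin (Yc s) ≠ 0 ∧ FwdAll u (Yc s)) (hm : ContinuousOn m (Icc 0 1))
    {t0 : ℝ} (ht0 : 0 < t0) :
    AnalyticAt ℝ (fun t : ℝ => ∫ s in (0 : ℝ)..1, G (Yc s) * exp (u * t) / Fl (Yc s) (u * t) * m s)
      t0 := by
  obtain ⟨C, hC, hCb⟩ := exists_norm_psi_le
  have hev : ∀ᶠ z : ℂ in 𝓝 (t0 : ℂ), ∀ s ∈ Icc (0 : ℝ) 1, (Yc s, u * z) ∈ Dom := by
    have h1 : Continuous (IccExtend (zero_le_one (α := ℝ)) ((Icc (0 : ℝ) 1).restrict Yc)) :=
      (continuousOn_iff_continuous_restrict.1 hY).Icc_extend'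
    have h2 : ∀ᶠ z : ℂ in 𝓝 (t0 : ℂ), ∀ s ∈ Icc (0 : ℝ) 1,
        (IccExtend (zero_le_one (α := ℝ)) ((Icc (0 : ℝ) 1).restrict Yc) s, u * z) ∈ Dom := by
      refine isCompact_Icc.eventually_forall_of_forall_eventually fun s hsI => ?_
      have h3 : Continuous fun p : ℂ × ℝ =>
          (IccExtend (zero_le_one (α := ℝ)) ((Icc (0 : ℝ) 1).restrict Yc) p.2, u * p.1) :=
        (h1.comp continuous_snd).prodMk (by fun_prop)
      refine h3.continuousAt.eventually (isOpen_Dom.mem_nhds ?_)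
      have h4 : IccExtend (zero_le_one (α := ℝ)) ((Icc (0 : ℝ) 1).restrict Yc) s = Yc s :=
        IccExtend_of_mem _ _ hsI
      refine ⟨?_, ?_⟩
      · change sin (IccExtend (zero_le_one (α := ℝ)) ((Icc (0 : ℝ) 1).restrict Yc) s) ≠ 0
        rw [h4]
        exact (hs s hsI).1
      · change Fwd (IccExtend (zero_le_one (α := ℝ)) ((Icc (0 : ℝ) 1).restrict Yc) s)
          (u * (t0 : ℂ))
        rw [h4]
        exact (hs s hsI).2.fwd ht0.le
    filter_upwards [h2] with z hz s hsI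
    have h4 := hz s hsI
    rwa [IccExtend_of_mem _ _ hsI] at h4
  obtain ⟨ε, hε, hball⟩ := Metric.eventually_nhds_iff_ball.1 hev
  have hGc : ContinuousOn (fun s => G (Yc s)) (Icc (0 : ℝ) 1) := fun s hsI =>
    (continuousAt_G (hs s hsI).1).comp_continuousWithinAt (hY s hsI)
  obtain ⟨MG, hMG⟩ := isCompact_Icc.exists_bound_of_continuousOn hGc
  obtain ⟨Mm, hMm⟩ := isCompact_Icc.exists_bound_of_continuousOn hm
  have hMG0 : 0 ≤ MG := (norm_nonneg _).trans (hMG 0 ⟨le_rfl, zero_le_one⟩)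
  have hMm0 : 0 ≤ Mm := (norm_nonneg _).trans (hMm 0 ⟨le_rfl, zero_le_one⟩)
  have hF : DifferentiableOn ℂ (fun z : ℂ => ∫ s in (0 : ℝ)..1,
      G (Yc s) * exp (u * z) / Fl (Yc s) (u * z) * m s) (Metric.ball (t0 : ℂ) ε) := by
    refine differentiableOn_paramInt Metric.isOpen_ball zero_le_one
      (f := fun z s => G (Yc s) * exp (u * z) / Fl (Yc s) (u * z) * m s) ?_ ?_ ?_
    · intro s hsI z hz
      have hD := hball z hz s (Ioo_subset_Icc_self hsI)
      have h1 : DifferentiableAt ℂ (fun z : ℂ => Fl (Yc s) (u * z)) z :=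
        DifferentiableAt.comp (g := Fl (Yc s)) (f := fun z : ℂ => u * z) z
          (hasDerivAt_Fl hD.1 hD.2).differentiableAt (by fun_prop)
      refine DifferentiableAt.differentiableWithinAt ?_
      exact ((DifferentiableAt.div (by fun_prop) h1 (Fl_ne_zero hD.1 hD.2)).mul_const _)
    · intro z hz
      have h1 := fwdP_cont hY (fun s hsI => (hs s hsI).1) (hball z hz)
      have h2 : ContinuousOn (fun s => exp (u * z) * (G (Yc s) / Fl (Yc s) (u * z)) * m s)
          (Icc 0 1) := (continuousOn_const.mul h1).mul hm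
      refine (h2.congr fun s _ => ?_).mono Ioo_subset_Icc_self
      ring
    · intro z0 hz0
      refine ⟨C * (1 + MG * Real.exp (‖u‖ * (‖(t0 : ℂ)‖ + ε))) * Mm, ?_⟩
      filter_upwards [Metric.isOpen_ball.mem_nhds hz0] with z hz s hsI
      have hsI' := Ioo_subset_Icc_self hsI
      rw [norm_mul]
      refine mul_le_mul ((hCb (Yc s) (u * z)).trans ?_) (hMm s hsI') (norm_nonneg _) ?_
      · refine mul_le_mul_of_nonneg_left (add_le_add_right ?_ 1) hC.le
        rw [norm_mul]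
        refine mul_le_mul (hMG s hsI') ?_ (norm_nonneg _) hMG0
        rw [norm_exp]
        refine Real.exp_le_exp.2 ((re_le_norm _).trans ?_)
        rw [norm_mul]
        refine mul_le_mul_of_nonneg_left ?_ (norm_nonneg _)
        have h5 : ‖z - t0‖ < ε := by simpa [dist_eq_norm] using hz
        calc ‖z‖ = ‖(t0 : ℂ) + (z - t0)‖ := by ring_nf
          _ ≤ ‖(t0 : ℂ)‖ + ‖z - t0‖ := norm_add_le _ _
          _ ≤ ‖(t0 : ℂ)‖ + ε := by linarith
      · positivity
  exact analyticAt_real_of_complex Metric.isOpen_ball (Metric.mem_ball_self hε) hF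
    (Eventually.of_forall fun _ => rfl)

/-- A piece of path all of whose labels can be continued for all times.
Analytic: at `t0 > 0` all `(Yc s, u t0)`, `s ∈ [0,1]`, are in the open set `Dom`; by compactness
there is `ε > 0` with `(Yc s, u z) ∈ Dom` for `z ∈ ball t0 ε`, `s ∈ [0,1]` (generalized tube lemma);
`differentiableOn_paramInt` (bound `exists_norm_psi_le`), `analyticAt_real_of_complex`.
Asymptotics: `exists_Lam` with `K = Yc '' [0,1]`, `ρ = ∫_0^1 Λ (Yc s) m s ds`. -/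
theorem good_fwd {u : ℂ} (hu : 0 < u.re) {Yc m : ℝ → ℂ} (hY : ContinuousOn Yc (Icc 0 1))
    (hs : ∀ s ∈ Icc (0 : ℝ) 1, sin (Yc s) ≠ 0 ∧ FwdAll u (Yc s)) (hm : ContinuousOn m (Icc 0 1)) :
    Good u (fun t : ℝ => ∫ s in (0 : ℝ)..1, G (Yc s) * exp (u * t) / Fl (Yc s) (u * t) * m s) := by
  refine ⟨fun t0 ht0 => fwdP_analytic hY hs hm ht0, ?_⟩
  obtain ⟨Λ, hΛ, -, C, T, hT, hb⟩ := exists_Lam hu (isCompact_Icc.image_of_continuousOn hY)
    (by rintro _ ⟨s, hsI, rfl⟩; exact hs s hsI)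
  refine ⟨∫ s in (0 : ℝ)..1, Λ (Yc s) * m s, ?_⟩
  obtain ⟨Mm, hMm⟩ := isCompact_Icc.exists_bound_of_continuousOn hm
  have hMm0 : 0 ≤ Mm := (norm_nonneg _).trans (hMm 0 ⟨le_rfl, zero_le_one⟩)
  have hΛc : ContinuousOn (fun s => Λ (Yc s) * m s) (Icc 0 1) :=
    (hΛ.comp hY (mapsTo_image _ _)).mul hm
  have key : ∀ t : ℝ, T ≤ t → ‖(t : ℂ) * ((∫ s in (0 : ℝ)..1,
      G (Yc s) * exp (u * t) / Fl (Yc s) (u * t) * m s) * exp (-(u * t)) -
        (∫ s in (0 : ℝ)..1, Λ (Yc s) * m s) * (1 + 1 / (u * t)))‖ ≤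
      C * Mm * (Real.log t / t) := by
    intro t ht
    have ht0 : 0 < t := by linarith
    have hfw : ∀ s ∈ Icc (0 : ℝ) 1, (Yc s, u * (t : ℂ)) ∈ Dom := fun s hsI =>
      ⟨(hs s hsI).1, (hs s hsI).2.fwd ht0.le⟩
    have hc1 := fwdP_cont hY (fun s hsI => (hs s hsI).1) hfw
    have e1 : (∫ s in (0 : ℝ)..1, G (Yc s) * exp (u * t) / Fl (Yc s) (u * t) * m s) *
        exp (-(u * t)) = ∫ s in (0 : ℝ)..1, G (Yc s) / Fl (Yc s) (u * t) * m s := by
      rw [← intervalIntegral.integral_mul_const]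
      refine intervalIntegral.integral_congr fun s _ => ?_
      have h1 : exp (u * t) * exp (-(u * t)) = 1 := by rw [← exp_add]; simp
      change G (Yc s) * exp (u * t) / Fl (Yc s) (u * t) * m s * exp (-(u * t)) =
        G (Yc s) / Fl (Yc s) (u * t) * m s
      calc G (Yc s) * exp (u * t) / Fl (Yc s) (u * t) * m s * exp (-(u * t))
          = G (Yc s) / Fl (Yc s) (u * t) * m s * (exp (u * t) * exp (-(u * t))) := by ring
        _ = _ := by rw [h1, mul_one]
    have e2 : (∫ s in (0 : ℝ)..1, Λ (Yc s) * m s) * (1 + 1 / (u * t)) =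
        ∫ s in (0 : ℝ)..1, Λ (Yc s) * m s * (1 + 1 / (u * t)) := by
      rw [← intervalIntegral.integral_mul_const]
    have i1 : IntervalIntegrable (fun s => G (Yc s) / Fl (Yc s) (u * t) * m s) volume 0 1 :=
      ContinuousOn.intervalIntegrable_of_Icc zero_le_one (hc1.mul hm)
    have i2 : IntervalIntegrable (fun s => Λ (Yc s) * m s * (1 + 1 / (u * t))) volume 0 1 :=
      ContinuousOn.intervalIntegrable_of_Icc zero_le_one (hΛc.mul continuousOn_const)
    rw [e1, e2, ← intervalIntegral.integral_sub i1 i2, norm_mul]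
    have h3 : ‖∫ s in (0 : ℝ)..1, (G (Yc s) / Fl (Yc s) (u * t) * m s -
        Λ (Yc s) * m s * (1 + 1 / (u * t)))‖ ≤ C * (Real.log t / t ^ 2) * Mm * |1 - 0| := by
      refine intervalIntegral.norm_integral_le_of_norm_le_const fun s hsI => ?_
      rw [uIoc_of_le zero_le_one] at hsI
      have hsI' := Ioc_subset_Icc_self hsI
      have h4 := hb (Yc s) (mem_image_of_mem _ hsI') t ht
      have h5 : G (Yc s) / Fl (Yc s) (u * t) * m s - Λ (Yc s) * m s * (1 + 1 / (u * t)) =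
          (G (Yc s) / Fl (Yc s) (u * t) - Λ (Yc s) * (1 + 1 / (u * t))) * m s := by ring
      rw [h5, norm_mul]
      exact mul_le_mul h4 (hMm s hsI') (norm_nonneg _) ((norm_nonneg _).trans h4)
    rw [sub_zero, abs_one, mul_one] at h3
    have h6 : ‖(t : ℂ)‖ = t := by rw [norm_real, Real.norm_of_nonneg ht0.le]
    rw [h6]
    refine (mul_le_mul_of_nonneg_left h3 ht0.le).trans (le_of_eq ?_)
    field_simp
  have hlim : Tendsto (fun t : ℝ => C * Mm * (Real.log t / t)) atTop (𝓝 0) := by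
    have h1 : Tendsto (fun t : ℝ => Real.log t / t) atTop (𝓝 0) :=
      Real.isLittleO_log_id_atTop.tendsto_div_nhds_zero
    simpa using h1.const_mul (C * Mm)
  refine squeeze_zero_norm' ?_ hlim
  filter_upwards [eventually_ge_atTop T] with t ht
  exact key t ht

end Pool.Agent.MP_ae5b4e_an_WB
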