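import Pool.Agent.Lib.MP_ae5b4e_an_WB.GB

/-!
# POR (iii), N2, Lemma B, flow of `G`: asymptotics of a trapped solution
-/

namespace Pool.Agent.MP_ae5b4e_an_WB

open Complex Set Filter Topology

/-- `‖cot ν - 1 / ν‖ ≤ 1` for `0 < ‖ν‖ ≤ 1 / 2`.

Proof. `cos ν / sin ν - 1 / ν = (ν cos ν - sin ν) / (ν sin ν)`. `‖sin ν - ν‖ ≤ ‖ν‖ ^ 3 / 4`,
`‖cos ν - 1‖ ≤ ‖ν‖ ^ 2 * (3 / 5)` (`Complex.sin_bound`, `Complex.cos_bound`, or the power series), so
`‖sin ν‖ ≥ (15 / 16) ‖ν‖` and the quotient is at most `‖ν‖ ^ 3 (3 / 5 + 1 / 4) / ((15 / 16) ‖ν‖ ^ 2) ≤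
‖ν‖ ≤ 1`. -/
theorem norm_cot_sub_inv_le {ν : ℂ} (h0 : ν ≠ 0) (h : ‖ν‖ ≤ 1 / 2) :
    ‖cos ν / sin ν - 1 / ν‖ ≤ 1 := by
  have hr : 0 < ‖ν‖ := norm_pos_iff.mpr h0
  have hs := sin_bound (x := ν) (by linarith)
  have hc := cos_bound (x := ν) (by linarith)
  set r := ‖ν‖ with hrd
  have hr2 : r ^ 2 ≤ 1 / 4 := by nlinarith
  have hr4 : r ^ 4 ≤ 1 / 16 := by nlinarith [sq_nonneg r]
  -- lower bound for `sin`
  have h1 : r * (9 / 10) ≤ ‖sin ν‖ := by
    have e1 : ν = (sin ν + ν ^ 3 / 6) - (sin ν - (ν - ν ^ 3 / 6)) := by ring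
    have e2 : r ≤ ‖sin ν + ν ^ 3 / 6‖ + ‖sin ν - (ν - ν ^ 3 / 6)‖ := by
      conv_lhs => rw [hrd, e1]
      exact norm_sub_le _ _
    have e3 : ‖sin ν + ν ^ 3 / 6‖ ≤ ‖sin ν‖ + r ^ 3 / 6 := by
      refine (norm_add_le _ _).trans ?_
      rw [norm_div, norm_pow, ← hrd]
      norm_num
    have e4 : r ^ 3 ≤ r * (1 / 4) := by nlinarith
    have e5 : r ^ 5 ≤ r * (1 / 16) := by nlinarith
    linarith
  have h2 : sin ν ≠ 0 := by
    intro h3
    rw [h3, norm_zero] at h1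
    linarith
  have h3 : ‖ν * cos ν - sin ν‖ ≤ r ^ 2 * (1 / 2) := by
    have e1 : ν * cos ν - sin ν = -(ν ^ 3 / 3) + ν * (cos ν - (1 - ν ^ 2 / 2)) -
        (sin ν - (ν - ν ^ 3 / 6)) := by ring
    rw [e1]
    have e2 : ‖-(ν ^ 3 / 3) + ν * (cos ν - (1 - ν ^ 2 / 2)) - (sin ν - (ν - ν ^ 3 / 6))‖ ≤
        r ^ 3 / 3 + r * (r ^ 4 * (5 / 96)) + r ^ 5 / 100 := by
      refine (norm_sub_le _ _).trans (add_le_add ((norm_add_le _ _).trans (add_le_add ?_ ?_)) hs)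
      · rw [norm_neg, norm_div, norm_pow, ← hrd]
        norm_num
      · rw [norm_mul]
        exact mul_le_mul_of_nonneg_left hc hr.le
    have e4 : r ^ 3 ≤ r ^ 2 * (1 / 2) := by nlinarith
    have e5 : r ^ 5 ≤ r ^ 2 * (1 / 8) := by nlinarith
    nlinarith
  have h4 : cos ν / sin ν - 1 / ν = (ν * cos ν - sin ν) / (ν * sin ν) := by
    field_simp
  rw [h4, norm_div, norm_mul, div_le_one (mul_pos hr (norm_pos_iff.mpr h2))]
  nlinarith

private theorem GO_sin (x : ℂ) (n : ℤ) : sin (x + n * Real.pi) = (-1) ^ n * sin x :=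
  n.cast_negOnePow ℂ ▸ sin_antiperiodic.add_int_mul_eq n

private theorem GO_cos (x : ℂ) (n : ℤ) : cos (x + n * Real.pi) = (-1) ^ n * cos x :=
  n.cast_negOnePow ℂ ▸ cos_antiperiodic.add_int_mul_eq n

/-- Asymptotics of a solution of `f' = u V (f)` which is trapped near `j π`, with explicit dependence of
the constants.

Proof. Put `c t := cos (f t) / sin (f t)`, `ν t := f t - j π ≠ 0`; by periodicity
`c t = cos (ν t) / sin (ν t)`; `c' = - u / f` (`hasStrictDerivAt_ctg`, chain rule, `V = sin ^ 2 / y`).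
`‖j π‖ ≥ π`, `‖f t‖ ≥ π - 1 / 2`.
Step 1. `‖c' + u / (j π)‖ = ‖u‖ ‖ν‖ / (‖f‖ ‖j π‖) ≤ ‖u‖ / (4 ‖j π‖)`, so (mean value inequality on
`Icc t1 t`) `‖c t - c t1 + u (t - t1) / (j π)‖ ≤ ‖u‖ (t - t1) / (4 ‖j π‖)` and
`‖c t‖ ≥ (3 / 4) ‖u‖ (t - t1) / ‖j π‖ - B ≥ a t` for `t ≥ T0`, `a := ‖u‖ / (4 ‖j π‖)`.
Step 2. `norm_cot_sub_inv_le`: `‖1 / ν‖ ≥ a t - 1 ≥ a t / 2`, `‖ν t‖ ≤ 2 / (a t)` for `t ≥ T1`.
Step 3. `‖c' + u / (j π)‖ ≤ A / t` on `[T1, ∞)`, so `‖c t + u t / (j π)‖ ≤ A' + A log t`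
(`Real.log` has derivative `1 / t`; `image_norm_le_of_norm_deriv_right_le_deriv_boundary` or
integrate); the value at `T1` is bounded by Step 1.
Step 4. `1 / ν = c + δ`, `‖δ‖ ≤ 1`: `- f / ν = - j π / ν - 1 = u t + E`, `‖E‖ ≤ A'' (1 + log t) ≤
2 A'' log t` for `t ≥ e`. `j π / f - 1 = - ν / f = 1 / (u t + E)`, and
`‖1 / (u t + E) - 1 / (u t)‖ = ‖E‖ / (‖u t‖ ‖u t + E‖) ≤ C log t / t ^ 2` once `‖E‖ ≤ ‖u‖ t / 2`. -/
theorem asymp_aux {u : ℂ} (hu : u ≠ 0) {j : ℤ} (hj : j ≠ 0) {t1 : ℝ} (ht1 : 0 < t1) (B : ℝ) :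
    ∃ C T : ℝ, 1 < T ∧ t1 ≤ T ∧ ∀ f : ℝ → ℂ,
      (∀ t, t1 ≤ t → sin (f t) ≠ 0 ∧ ‖f t - j * Real.pi‖ ≤ 1 / 2 ∧
        HasDerivAt f (u * V (f t)) t) →
      ‖cos (f t1) / sin (f t1)‖ ≤ B →
      ∀ t, T ≤ t → ‖j * Real.pi / f t - (1 + 1 / (u * t))‖ ≤ C * (Real.log t / t ^ 2) := by
  have hU : 0 < ‖u‖ := norm_pos_iff.mpr hu
  obtain ⟨p, hp⟩ : ∃ p : ℂ, p = j * Real.pi := ⟨_, rfl⟩
  have hP : 3 ≤ ‖p‖ := by
    rw [hp, norm_mul, norm_intCast, norm_real, Real.norm_eq_abs, abs_of_pos Real.pi_pos]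
    have h1 : (1 : ℝ) ≤ |(j : ℝ)| := by exact_mod_cast Int.one_le_abs hj
    nlinarith [Real.pi_gt_three]
  have hp0 : p ≠ 0 := norm_pos_iff.mp (by linarith)
  obtain ⟨U, hUd⟩ : ∃ U, U = ‖u‖ := ⟨_, rfl⟩
  obtain ⟨P, hPd⟩ : ∃ P, P = ‖p‖ := ⟨_, rfl⟩
  rw [← hUd] at hU
  rw [← hPd] at hP
  have hP0 : 0 < P := by linarith
  obtain ⟨a, had⟩ : ∃ a, a = U / (4 * P) := ⟨_, rfl⟩
  have ha : 0 < a := by rw [had]; positivity
  have haU : U = 4 * a * P := by rw [had]; field_simp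
  obtain ⟨T1, hT1d⟩ : ∃ T1, T1 = max (max t1 1) (max ((|B| + 4 * a * t1) / a) (1 / a)) := ⟨_, rfl⟩
  have h11 : t1 ≤ T1 := by rw [hT1d]; exact (le_max_left _ _).trans (le_max_left _ _)
  have h12 : 1 ≤ T1 := by rw [hT1d]; exact (le_max_right _ _).trans (le_max_left _ _)
  have h13 : |B| + 4 * a * t1 ≤ a * T1 := by
    have : (|B| + 4 * a * t1) / a ≤ T1 := by
      rw [hT1d]; exact (le_max_left _ _).trans (le_max_right _ _)
    rw [div_le_iff₀ ha] at this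
    linarith
  have h14 : 1 ≤ a * T1 := by
    have : 1 / a ≤ T1 := by
      rw [hT1d]; exact (le_max_right _ _).trans (le_max_right _ _)
    rw [div_le_iff₀ ha] at this
    linarith
  obtain ⟨A, hAd⟩ : ∃ A, A = |B| + 4 * a * t1 + a * T1 := ⟨_, rfl⟩
  have hA : 0 ≤ A := by rw [hAd]; positivity
  obtain ⟨K, hKd⟩ : ∃ K, K = 1 + P + P * A + 2 * P := ⟨_, rfl⟩
  have hK : 0 < K := by rw [hKd]; positivity
  obtain ⟨T2, hT2⟩ := eventually_atTop.mp
    (Real.isLittleO_log_id_atTop.def (c := U / (2 * K)) (by positivity))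
  refine ⟨2 * K / U ^ 2, max T1 (max T2 3), ?_, le_max_of_le_left h11, ?_⟩
  · have : (3 : ℝ) ≤ max T1 (max T2 3) := (le_max_right _ _).trans (le_max_right _ _)
    linarith
  intro f hf hB t ht
  rw [← hp] at hf ⊢
  have htT1 : T1 ≤ t := (le_max_left _ _).trans ht
  have htT2 : T2 ≤ t := (le_max_left _ _).trans ((le_max_right _ _).trans ht)
  have ht3 : 3 ≤ t := (le_max_right _ _).trans ((le_max_right _ _).trans ht)
  have ht0 : 0 < t := by linarith
  -- the function `g`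
  obtain ⟨g, hg⟩ : ∃ g : ℝ → ℂ, g = fun s : ℝ => cos (f s) / sin (f s) + u * s / p := ⟨_, rfl⟩
  have hfn : ∀ s, t1 ≤ s → 2 ≤ ‖f s‖ := by
    intro s hs
    have h1 := (hf s hs).2.1
    have h2 : ‖p‖ ≤ ‖f s‖ + ‖f s - p‖ := by
      have h3 := norm_sub_le (f s) (f s - p)
      rwa [sub_sub_cancel] at h3
    linarith
  have hder : ∀ s, t1 ≤ s → HasDerivAt g (u * (f s - p) / (f s * p)) s := by
    intro s hs
    obtain ⟨h1, h2, h3⟩ := hf s hs
    have hf0 : f s ≠ 0 := ne_zero_of_sin h1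
    have h4 := (hasStrictDerivAt_ctg h1).hasDerivAt.comp s h3
    have h5 : HasDerivAt (fun s : ℝ => u * (s : ℂ) / p) (u * 1 / p) s :=
      ((Complex.ofRealCLM.hasDerivAt (x := s)).const_mul u).div_const p
    rw [hg]
    refine (h4.add h5).congr_deriv ?_
    unfold V
    field_simp
    ring
  have hdn : ∀ s, t1 ≤ s → ‖u * (f s - p) / (f s * p)‖ ≤ 2 * a * ‖f s - p‖ := by
    intro s hs
    rw [norm_div, norm_mul, norm_mul, ← hUd, ← hPd, div_le_iff₀ (by nlinarith [hfn s hs])]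
    rw [haU]
    have h1 := hfn s hs
    have h2 : 0 ≤ ‖f s - p‖ := norm_nonneg _
    nlinarith [mul_nonneg (mul_nonneg ha.le hP0.le) h2]
  have hg1 : ‖g t1‖ ≤ |B| + 4 * a * t1 := by
    rw [hg]
    refine (norm_add_le _ _).trans (add_le_add (hB.trans (le_abs_self B)) ?_)
    rw [norm_div, norm_mul, ← hUd, ← hPd, norm_real, Real.norm_eq_abs, abs_of_pos ht1, haU]
    apply le_of_eq
    field_simp
  have hmv : ∀ s, t1 ≤ s → ‖g s - g t1‖ ≤ a * (s - t1) := by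
    intro s hs
    refine norm_image_sub_le_of_norm_deriv_le_segment'
      (fun x hx => (hder x hx.1).hasDerivWithinAt) (fun x hx => ?_) s ⟨hs, le_rfl⟩
    refine (hdn x hx.1).trans ?_
    have h1 := (hf x hx.1).2.1
    nlinarith
  have hgs : ∀ s, t1 ≤ s → ‖g s‖ ≤ |B| + 4 * a * t1 + a * (s - t1) := by
    intro s hs
    have h1 : ‖g s‖ ≤ ‖g t1‖ + ‖g s - g t1‖ := by
      have h3 := norm_add_le (g t1) (g s - g t1)
      rwa [add_sub_cancel] at h3
    linarith [hmv s hs]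
  have hcot : ∀ s, t1 ≤ s → f s - p ≠ 0 ∧ ‖cos (f s) / sin (f s) - 1 / (f s - p)‖ ≤ 1 := by
    intro s hs
    obtain ⟨h1, h2, h3⟩ := hf s hs
    have e1 : sin (f s) = (-1) ^ j * sin (f s - p) := by
      have := GO_sin (f s - p) j
      rw [← hp, sub_add_cancel] at this
      exact this
    have e2 : cos (f s) = (-1) ^ j * cos (f s - p) := by
      have := GO_cos (f s - p) j
      rw [← hp, sub_add_cancel] at this
      exact this
    have h0 : f s - p ≠ 0 := by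
      intro h4
      rw [e1, h4, sin_zero, mul_zero] at h1
      exact h1 rfl
    refine ⟨h0, ?_⟩
    have e3 : ((-1 : ℂ)) ^ j ≠ 0 := zpow_ne_zero _ (by norm_num)
    rw [e1, e2, mul_div_mul_left _ _ e3]
    exact norm_cot_sub_inv_le h0 h2
  have hnu : ∀ s, T1 ≤ s → ‖f s - p‖ ≤ 1 / (a * s) := by
    intro s hs
    have hs1 : t1 ≤ s := h11.trans hs
    obtain ⟨h0, h1⟩ := hcot s hs1
    have has : a * T1 ≤ a * s := mul_le_mul_of_nonneg_left hs ha.le
    have h2 : 4 * a * s ≤ ‖cos (f s) / sin (f s)‖ + ‖g s‖ := by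
      have e1 : u * s / p = g s - cos (f s) / sin (f s) := by
        rw [hg]
        ring
      have e2 : ‖u * s / p‖ = 4 * a * s := by
        rw [norm_div, norm_mul, ← hUd, ← hPd, norm_real, Real.norm_eq_abs,
          abs_of_pos (by linarith), haU]
        field_simp
      rw [← e2, e1, add_comm]
      exact norm_sub_le _ _
    have h3 := hgs s hs1
    have h4 : ‖cos (f s) / sin (f s)‖ ≤ 1 + ‖1 / (f s - p)‖ := by
      have h5 := norm_add_le (cos (f s) / sin (f s) - 1 / (f s - p)) (1 / (f s - p))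
      rw [sub_add_cancel] at h5
      linarith
    have h5 : a * s ≤ ‖1 / (f s - p)‖ := by
      have : 0 < a * t1 := mul_pos ha ht1
      nlinarith
    rw [norm_div, norm_one, le_div_iff₀ (norm_pos_iff.mpr h0)] at h5
    rw [le_div_iff₀ (by nlinarith)]
    linarith
  have hgT : ‖g t‖ ≤ A + 2 * Real.log t := by
    have hgT1 : ‖g T1‖ ≤ A + 2 * Real.log T1 := by
      have h1 := hgs T1 h11
      have h2 := Real.log_nonneg h12
      have h3 : 0 < a * t1 := mul_pos ha ht1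
      rw [hAd]
      nlinarith
    refine image_norm_le_of_norm_deriv_right_le_deriv_boundary' (a := T1) (b := t)
      (f := g) (f' := fun s => u * (f s - p) / (f s * p)) (B := fun s => A + 2 * Real.log s)
      (B' := fun s => 2 * s⁻¹) (fun x hx => ?_) (fun x hx => ?_) hgT1 (fun x hx => ?_)
      (fun x hx => ?_) (fun x hx => ?_) ⟨htT1, le_rfl⟩
    · exact (hder x (h11.trans hx.1)).continuousAt.continuousWithinAt
    · exact (hder x (h11.trans hx.1)).hasDerivWithinAt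
    · exact ((Real.continuousAt_log (by linarith [hx.1])).const_mul 2).const_add A
        |>.continuousWithinAt
    · exact (((Real.hasDerivAt_log (by linarith [hx.1])).const_mul 2).const_add A).hasDerivWithinAt
    · refine (hdn x (h11.trans hx.1)).trans ?_
      have h1 := hnu x hx.1
      have hx0 : 0 < x := by linarith [hx.1]
      have h2 : 2 * a * ‖f x - p‖ ≤ 2 * a * (1 / (a * x)) :=
        mul_le_mul_of_nonneg_left h1 (by positivity)
      refine h2.trans (le_of_eq ?_)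
      field_simp
  -- conclusion
  have hlog : 1 ≤ Real.log t := by
    rw [Real.le_log_iff_exp_le ht0]
    exact (Real.exp_one_lt_d9.le.trans (by norm_num)).trans ht3
  obtain ⟨h0, hδ⟩ := hcot t (h11.trans htT1)
  obtain ⟨δ, hδd⟩ : ∃ δ, δ = 1 / (f t - p) - cos (f t) / sin (f t) := ⟨_, rfl⟩
  rw [← norm_neg, neg_sub, ← hδd] at hδ
  obtain ⟨E, hE⟩ : ∃ E, E = -1 - p * δ - p * g t := ⟨_, rfl⟩
  have hEn : ‖E‖ ≤ K * Real.log t := by
    have h1 : ‖E‖ ≤ 1 + P * 1 + P * (A + 2 * Real.log t) := by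
      rw [hE]
      refine (norm_sub_le _ _).trans (add_le_add ((norm_sub_le _ _).trans (add_le_add ?_ ?_)) ?_)
      · rw [norm_neg, norm_one]
      · rw [norm_mul, ← hPd]
        exact mul_le_mul_of_nonneg_left hδ hP0.le
      · rw [norm_mul, ← hPd]
        exact mul_le_mul_of_nonneg_left hgT hP0.le
    have h2 : 0 ≤ P * A := mul_nonneg hP0.le hA
    rw [hKd]
    nlinarith
  have hEU : ‖E‖ ≤ U * t / 2 := by
    refine hEn.trans ?_
    have h1 := hT2 t htT2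
    rw [Real.norm_eq_abs, abs_of_nonneg (by linarith), id, Real.norm_eq_abs, abs_of_pos ht0] at h1
    have h2 := mul_le_mul_of_nonneg_left h1 hK.le
    refine h2.trans (le_of_eq ?_)
    field_simp
  have hf0 : f t ≠ 0 := ne_zero_of_sin (hf t (h11.trans htT1)).1
  have hut : ‖u * (t : ℂ)‖ = U * t := by
    rw [norm_mul, ← hUd, norm_real, Real.norm_eq_abs, abs_of_pos ht0]
  have hsum : u * t + E = -(f t / (f t - p)) := by
    have e1 : p * g t = p * (cos (f t) / sin (f t)) + u * t := by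
      rw [hg]
      change p * (cos (f t) / sin (f t) + u * t / p) = _
      field_simp
    rw [hE, hδd, e1]
    have e2 : f t / (f t - p) = 1 + p * (1 / (f t - p)) := by
      field_simp
      ring
    rw [e2]
    ring
  have hsn : U * t / 2 ≤ ‖u * t + E‖ := by
    have h1 := norm_sub_le (u * t + E) E
    rw [add_sub_cancel_right, hut] at h1
    linarith
  have hs0 : u * t + E ≠ 0 := norm_pos_iff.mp (lt_of_lt_of_le (by positivity) hsn)
  have hu0 : u * (t : ℂ) ≠ 0 := norm_pos_iff.mp (by rw [hut]; positivity)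
  have hfin : p / f t - (1 + 1 / (u * t)) = -(E / ((u * t + E) * (u * t))) := by
    have e1 : p / f t - 1 = 1 / (u * t + E) := by
      rw [hsum]
      field_simp
      ring
    have e2 : p / f t - (1 + 1 / (u * t)) = (p / f t - 1) - 1 / (u * t) := by ring
    rw [e2, e1, div_sub_div _ _ hs0 hu0]
    rw [← neg_div]
    congr 1
    ring
  rw [hfin, norm_neg, norm_div, norm_mul, hut]
  have hlt : 0 ≤ Real.log t := by linarith
  calc ‖E‖ / (‖u * t + E‖ * (U * t)) ≤ (K * Real.log t) / ((U * t / 2) * (U * t)) := by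
        apply div_le_div₀ (by positivity) hEn (by positivity)
        exact mul_le_mul_of_nonneg_right hsn (by positivity)
    _ = 2 * K / U ^ 2 * (Real.log t / t ^ 2) := by
        field_simp

end Pool.Agent.MP_ae5b4e_an_WB
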