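import Pool.Agent.Lib.MP_ae5b4e_an_WB.GB

/-!
# POR (iii), N2, Lemma B, flow of `G`: `G` near `0`
-/

namespace Pool.Agent.MP_ae5b4e_an_WB

open Complex Set Filter Topology

/-- `‖G y‖ ≤ C ‖y‖` for `‖y‖ ≤ 1`.

Proof. On the closed unit disc the function `sinc z := if z = 0 then 1 else sin z / z` is continuous
and has no zero (`sin z = 0` only for `z = k π`, `|k π| > 1` for `k ≠ 0`: `Complex.sin_eq_zero_iff`),
so `0 < c ≤ ‖sin y / y‖ ≤ C'` on it (compactness; or elementary: the power series gives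
`‖sin y - y‖ ≤ ‖y‖ / 4`, e.g. from `Complex.norm_sin_sub_...`/`Complex.sin_bound`). Hence
`‖y * (cos y / sin y)‖ ≤ ‖cos y‖ / c ≤ C''` and
`‖G y‖ = ‖sin y‖ exp (Re (1 - y cos y / sin y)) ≤ C' ‖y‖ exp (1 + C'')`. -/
theorem exists_G_small : ∃ C : ℝ, 0 < C ∧ ∀ y : ℂ, ‖y‖ ≤ 1 → sin y ≠ 0 → ‖G y‖ ≤ C * ‖y‖ := by
  refine ⟨5 / 4 * Real.exp 5, by positivity, fun y hy hs => ?_⟩
  have hn := norm_nonneg y
  have hy0 : y ≠ 0 := ne_zero_of_sin hs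
  have hyp : 0 < ‖y‖ := norm_pos_iff.mpr hy0
  have h1 := Complex.sin_bound hy
  have h2 := Complex.cos_bound hy
  have hp5 : ‖y‖ ^ 5 ≤ ‖y‖ := by
    calc ‖y‖ ^ 5 ≤ ‖y‖ ^ 1 := pow_le_pow_of_le_one hn hy (by norm_num)
      _ = ‖y‖ := pow_one _
  have hp3 : ‖y‖ ^ 3 ≤ ‖y‖ := by
    calc ‖y‖ ^ 3 ≤ ‖y‖ ^ 1 := pow_le_pow_of_le_one hn hy (by norm_num)
      _ = ‖y‖ := pow_one _
  have hp4 : ‖y‖ ^ 4 ≤ 1 := pow_le_one₀ hn hy
  have hp2 : ‖y‖ ^ 2 ≤ 1 := pow_le_one₀ hn hy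
  have h3 : ‖sin y - y‖ ≤ ‖y‖ / 4 := by
    have e : sin y - y = (sin y - (y - y ^ 3 / 6)) - y ^ 3 / 6 := by ring
    rw [e]
    refine (norm_sub_le _ _).trans ?_
    rw [norm_div, norm_pow]
    have h6 : ‖(6 : ℂ)‖ = 6 := by norm_num
    rw [h6]
    linarith
  have h4 : ‖cos y‖ ≤ 2 := by
    have e : cos y = (cos y - (1 - y ^ 2 / 2)) + 1 - y ^ 2 / 2 := by ring
    rw [e]
    refine (norm_sub_le _ _).trans ?_
    have h7 := norm_add_le (cos y - (1 - y ^ 2 / 2)) 1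
    rw [norm_one] at h7
    rw [norm_div, norm_pow]
    have h6 : ‖(2 : ℂ)‖ = 2 := by norm_num
    rw [h6]
    linarith
  have h5 : ‖sin y‖ ≤ 5 / 4 * ‖y‖ := by
    have e : sin y = (sin y - y) + y := by ring
    rw [e]
    refine (norm_add_le _ _).trans ?_
    linarith
  have h6 : 3 / 4 * ‖y‖ ≤ ‖sin y‖ := by
    have e : y = sin y - (sin y - y) := by ring
    have h7 : ‖y‖ ≤ ‖sin y‖ + ‖sin y - y‖ := by
      calc ‖y‖ = ‖sin y - (sin y - y)‖ := by rw [← e]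
        _ ≤ _ := norm_sub_le _ _
    linarith
  have h7 : ‖y * (cos y / sin y)‖ ≤ 4 := by
    rw [norm_mul, norm_div]
    have h8 : 0 < ‖sin y‖ := norm_pos_iff.mpr hs
    rw [← mul_div_assoc, div_le_iff₀ h8]
    nlinarith
  rw [G, norm_mul, Complex.norm_exp]
  have h9 : (1 - y * (cos y / sin y)).re ≤ 5 := by
    rw [Complex.sub_re, Complex.one_re]
    have := (abs_le.mp ((Complex.abs_re_le_norm (y * (cos y / sin y))).trans h7)).1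
    linarith
  calc ‖sin y‖ * Real.exp (1 - y * (cos y / sin y)).re ≤ (5 / 4 * ‖y‖) * Real.exp 5 := by
        gcongr
    _ = 5 / 4 * Real.exp 5 * ‖y‖ := by ring

/-- `‖G y‖ ≤ C (1 + ‖G y‖) ‖y‖` for all `y` (with `sin y ≠ 0`).

Proof. For `‖y‖ ≤ 1` from `exists_G_small`, for `‖y‖ ≥ 1` trivial with `C ≥ 1`. -/
theorem exists_G_le :
    ∃ C : ℝ, 0 < C ∧ ∀ y : ℂ, sin y ≠ 0 → ‖G y‖ ≤ C * (1 + ‖G y‖) * ‖y‖ := by
  obtain ⟨C, hC, h⟩ := exists_G_small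
  refine ⟨max C 1, lt_max_of_lt_left hC, fun y hs => ?_⟩
  have hG := norm_nonneg (G y)
  have h1 : (1 : ℝ) ≤ max C 1 := le_max_right _ _
  have h2 : C ≤ max C 1 := le_max_left _ _
  rcases le_total ‖y‖ 1 with hy | hy
  · calc ‖G y‖ ≤ C * ‖y‖ := h y hy hs
      _ ≤ max C 1 * ‖y‖ := by gcongr
      _ = max C 1 * 1 * ‖y‖ := by ring
      _ ≤ max C 1 * (1 + ‖G y‖) * ‖y‖ := by gcongr; linarith
  · calc ‖G y‖ ≤ 1 * (1 + ‖G y‖) * 1 := by linarith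
      _ ≤ max C 1 * (1 + ‖G y‖) * ‖y‖ := by gcongr

end Pool.Agent.MP_ae5b4e_an_WB
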