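import Pool.Agent.Lib.MP_ae5b4e_an_WB.GV
import Pool.Agent.Lib.MP_ae5b4e_an_WB.GS

/-!
# POR (iii), N2, Lemma B, flow of `G`: large values of `G` in a strip
-/

namespace Pool.Agent.MP_ae5b4e_an_WB

open Complex Set Filter Topology

private theorem GM_upper {R : ℝ} {y : ℂ} (hre : |y.re| ≤ R) (him : 1 ≤ y.im) :
    ‖G y‖ ≤ 1 + ‖tipc‖ * (4 * Real.exp (5 * (R + 1))) := by
  have hR : 0 ≤ R := (abs_nonneg _).trans hre
  have hE : ‖exp (2 * I * y)‖ = Real.exp (-(2 * y.im)) := by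
    rw [norm_exp]
    congr 1
    simp
  have hE5 : ‖exp (2 * I * y)‖ ≤ 1 / 5 := by
    rw [hE, Real.exp_neg, one_div]
    refine inv_anti₀ (by norm_num) ?_
    have h1 : Real.exp 2 ≤ Real.exp (2 * y.im) := Real.exp_le_exp.2 (by linarith)
    have h2 : (5 : ℝ) ≤ Real.exp 2 := by
      have h3 : Real.exp 2 = Real.exp 1 * Real.exp 1 := by rw [← Real.exp_add]; norm_num
      have h4 := Real.exp_one_gt_d9
      rw [h3]
      nlinarith
    linarith
  have hlow : 4 / 5 ≤ ‖1 - exp (2 * I * y)‖ := by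
    have h1 := norm_sub_norm_le (1 : ℂ) (exp (2 * I * y))
    rw [norm_one] at h1
    linarith
  have hup : ‖1 - exp (2 * I * y)‖ ≤ 2 := by
    have h1 := norm_sub_le (1 : ℂ) (exp (2 * I * y))
    rw [norm_one] at h1
    linarith
  have hyE : ‖y‖ * ‖exp (2 * I * y)‖ ≤ R + 1 := by
    have h1 : ‖y‖ ≤ R + y.im := by
      have h2 := Complex.norm_le_abs_re_add_abs_im y
      rw [abs_of_nonneg (show 0 ≤ y.im by linarith)] at h2
      linarith
    have h3 : y.im * Real.exp (-(2 * y.im)) ≤ 1 := by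
      have h4 : y.im ≤ Real.exp (2 * y.im) := by
        have h5 := Real.add_one_le_exp (2 * y.im)
        linarith
      have h6 : 0 < Real.exp (-(2 * y.im)) := Real.exp_pos _
      have h7 : Real.exp (2 * y.im) * Real.exp (-(2 * y.im)) = 1 := by
        rw [← Real.exp_add, add_neg_cancel, Real.exp_zero]
      nlinarith
    have h8 : Real.exp (-(2 * y.im)) ≤ 1 := by
      rw [Real.exp_le_one_iff]
      linarith
    rw [hE]
    have h9 : 0 < Real.exp (-(2 * y.im)) := Real.exp_pos _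
    nlinarith
  have hz : ‖4 * I * y * exp (2 * I * y) / (1 - exp (2 * I * y))‖ ≤ 5 * (R + 1) := by
    rw [norm_div, norm_mul, norm_mul, norm_mul, norm_I, Complex.norm_ofNat, mul_one,
      div_le_iff₀ (by linarith)]
    have h1 : 0 ≤ ‖y‖ * ‖exp (2 * I * y)‖ := by positivity
    nlinarith
  have hsq : ‖G y‖ ^ 2 ≤ ‖tipc‖ * (4 * Real.exp (5 * (R + 1))) := by
    rw [← norm_pow, G_sq_upper (by linarith), norm_mul, norm_mul, norm_pow]
    refine mul_le_mul_of_nonneg_left ?_ (norm_nonneg _)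
    refine mul_le_mul ?_ ?_ (norm_nonneg _) (by norm_num)
    · nlinarith [norm_nonneg (1 - exp (2 * I * y))]
    · rw [norm_exp]
      exact Real.exp_le_exp.2 ((Complex.re_le_norm _).trans hz)
  nlinarith [sq_nonneg (‖G y‖ - 1)]

/-- For large `‖Im y‖` in a vertical strip `G` is bounded.

Proof. By `G_neg` let `Im y ≥ 1`. With `E = exp (2 i y)`, `‖E‖ = exp (- 2 Im y) ≤ 1 / 5`,
`‖y‖ ‖E‖ ≤ (R + Im y) exp (- 2 Im y) ≤ R + 1`, `G_sq_upper`:
`‖G y‖ ^ 2 ≤ ‖tipc‖ * 4 * exp (5 (R + 1))`. -/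
theorem exists_G_bound_im (R : ℝ) :
    ∃ M : ℝ, ∀ y : ℂ, |y.re| ≤ R → 1 ≤ |y.im| → ‖G y‖ ≤ M := by
  refine ⟨1 + ‖tipc‖ * (4 * Real.exp (5 * (R + 1))), fun y hre him => ?_⟩
  rcases le_abs.1 him with h | h
  · exact GM_upper hre h
  · have h1 : |(-y).re| ≤ R := by
      rw [neg_re, abs_neg]
      exact hre
    have h2 := GM_upper h1 (by rw [neg_im]; exact h)
    rw [G_neg, norm_neg] at h2
    exact h2

private theorem GM_ne {m : ℤ} {ε : ℝ} (hε : 0 < ε) {y : ℂ} (h1 : m * Real.pi ≤ y.re)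
    (h2 : y.re ≤ (m + 1) * Real.pi) (h3 : ε ≤ ‖y - m * Real.pi‖)
    (h4 : ε ≤ ‖y - (m + 1) * Real.pi‖) : sin y ≠ 0 := by
  intro h
  obtain ⟨k, hk⟩ := Complex.sin_eq_zero_iff.1 h
  have hre : y.re = k * Real.pi := by
    rw [hk]
    have : ((k : ℂ) * (Real.pi : ℂ)) = ((k * Real.pi : ℝ) : ℂ) := by push_cast; ring
    rw [this, ofReal_re]
  rw [hre] at h1 h2
  have h5 : (m : ℝ) ≤ k := le_of_mul_le_mul_right h1 Real.pi_pos
  have h6 : (k : ℝ) ≤ m + 1 := le_of_mul_le_mul_right h2 Real.pi_pos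
  have h7 : m ≤ k := by exact_mod_cast h5
  have h8 : k ≤ m + 1 := by exact_mod_cast h6
  rcases (show k = m ∨ k = m + 1 by omega) with h9 | h9
  · rw [hk, h9, sub_self, norm_zero] at h3
    linarith
  · rw [hk, h9] at h4
    push_cast at h4
    rw [sub_self, norm_zero] at h4
    linarith

private theorem GM_cpt (m : ℤ) (ε : ℝ) : IsCompact {y : ℂ | m * Real.pi ≤ y.re ∧
    y.re ≤ (m + 1) * Real.pi ∧ |y.im| ≤ 1 ∧ ε ≤ ‖y - m * Real.pi‖ ∧
    ε ≤ ‖y - (m + 1) * Real.pi‖} := by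
  refine Metric.isCompact_of_isClosed_isBounded ?_ ?_
  · have c1 : Continuous fun y : ℂ => ‖y - m * Real.pi‖ := by fun_prop
    have c2 : Continuous fun y : ℂ => ‖y - (m + 1) * Real.pi‖ := by fun_prop
    exact (isClosed_le continuous_const continuous_re).inter
      ((isClosed_le continuous_re continuous_const).inter
      ((isClosed_le continuous_im.abs continuous_const).inter
      ((isClosed_le continuous_const c1).inter (isClosed_le continuous_const c2))))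
  · refine (Metric.isBounded_closedBall (x := (0 : ℂ)) (r := (|(m : ℝ)| + 1) * Real.pi + 1)).subset
      fun y hy => ?_
    obtain ⟨h1, h2, h3, -, -⟩ := hy
    rw [mem_closedBall_zero_iff]
    have h4 := Complex.norm_le_abs_re_add_abs_im y
    have h5 : |y.re| ≤ (|(m : ℝ)| + 1) * Real.pi := by
      rw [abs_le]
      have h6 := neg_abs_le (m : ℝ)
      have h7 := le_abs_self (m : ℝ)
      have h8 := Real.pi_pos
      constructor <;> nlinarith
    linarith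

/-- In the closed strip `m π ≤ Re y ≤ (m + 1) π` large values of `G` are taken only near the two
corners `j π`, `j = m` or `j = m + 1`, `j ≠ 0`.

Proof. `R := (|m| + 1) π`. Let `M` be larger than the bound of `exists_G_bound_im R`, than the bound
`C` of `exists_G_small`, and than the maximum of `‖G‖` on the compact set
`{y | m π ≤ Re y ≤ (m + 1) π, |Im y| ≤ 1, ε ≤ ‖y - m π‖, ε ≤ ‖y - (m + 1) π‖}`, on which `sin y ≠ 0`
(zeros of `sin` are the `k π`, `Complex.sin_eq_zero_iff`) and `G` is continuous (`continuousAt_G`).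
If `M < ‖G y‖` then `|Im y| < 1`, so `‖y - j π‖ < ε` for `j = m` or `j = m + 1`; and `j ≠ 0`,
because otherwise `‖y‖ < ε ≤ 1` and `‖G y‖ ≤ C ‖y‖ ≤ C`. -/
theorem exists_large (m : ℤ) {ε : ℝ} (hε : 0 < ε) (hε1 : ε ≤ 1) :
    ∃ M : ℝ, Real.exp 1 / 2 ≤ M ∧ ∀ y : ℂ, m * Real.pi ≤ y.re → y.re ≤ (m + 1) * Real.pi →
      sin y ≠ 0 → M < ‖G y‖ → ∃ j : ℤ, j ≠ 0 ∧ (j = m ∨ j = m + 1) ∧ ‖y - j * Real.pi‖ < ε := by
  obtain ⟨M1, hM1⟩ := exists_G_bound_im ((|(m : ℝ)| + 1) * Real.pi)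
  obtain ⟨Cs, hCs, hCs2⟩ := exists_G_small
  obtain ⟨C0, hC0⟩ := (GM_cpt m ε).exists_bound_of_continuousOn (f := G)
    (fun y hy => (continuousAt_G (GM_ne hε hy.1 hy.2.1 hy.2.2.2.1
      hy.2.2.2.2)).continuousWithinAt)
  refine ⟨max (Real.exp 1 / 2) (max M1 (max Cs C0)), le_max_left _ _, ?_⟩
  intro y h1 h2 hs hM
  have hb := max_lt_iff.1 hM
  have hb2 := max_lt_iff.1 hb.2
  have hb3 := max_lt_iff.1 hb2.2
  have hre : |y.re| ≤ (|(m : ℝ)| + 1) * Real.pi := by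
    rw [abs_le]
    have h6 := neg_abs_le (m : ℝ)
    have h7 := le_abs_self (m : ℝ)
    have h8 := Real.pi_pos
    constructor <;> nlinarith
  have him : |y.im| < 1 := by
    by_contra h
    push Not at h
    exact absurd (hM1 y hre h) (not_le.2 hb2.1)
  have hout : ¬ (ε ≤ ‖y - m * Real.pi‖ ∧ ε ≤ ‖y - (m + 1) * Real.pi‖) := by
    intro h
    exact absurd (hC0 y ⟨h1, h2, him.le, h.1, h.2⟩) (not_le.2 hb3.2)
  have hj : ∃ j : ℤ, (j = m ∨ j = m + 1) ∧ ‖y - j * Real.pi‖ < ε := by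
    by_cases h : ε ≤ ‖y - m * Real.pi‖
    · refine ⟨m + 1, Or.inr rfl, ?_⟩
      push_cast
      exact not_le.1 fun h' => hout ⟨h, h'⟩
    · exact ⟨m, Or.inl rfl, not_le.1 h⟩
  obtain ⟨j, hj1, hj2⟩ := hj
  refine ⟨j, ?_, hj1, hj2⟩
  intro h0
  rw [h0, Int.cast_zero, zero_mul, sub_zero] at hj2
  have h3 := hCs2 y (by linarith) hs
  have h4 : Cs * ‖y‖ ≤ Cs := by nlinarith
  linarith [hb3.1]

end Pool.Agent.MP_ae5b4e_an_WB
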