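import Pool.Agent.Lib.MP_ae5b4e_an_WB.GT
import Pool.Agent.Lib.MP_ae5b4e_an_WB.GM

/-!
# POR (iii), N2, Lemma B, flow of `G`: trapping
-/

namespace Pool.Agent.MP_ae5b4e_an_WB

open Complex Set Filter Topology

/-- A path with `‖G‖ > e / 2` stays in one open strip `m π < Re y < (m + 1) π`.

Proof. `Re (f t)` is continuous on the interval and is never `k π` (`norm_G_lt_of_re`), so by the
intermediate value theorem it does not leave `(m π, (m + 1) π)`. -/
theorem stay_strip {f : ℝ → ℂ} {t1 : ℝ} (hf : ContinuousOn f (Ici t1))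
    (hs : ∀ t, t1 ≤ t → sin (f t) ≠ 0) (hG : ∀ t, t1 ≤ t → Real.exp 1 / 2 ≤ ‖G (f t)‖) {m : ℤ}
    (h1 : m * Real.pi < (f t1).re) (h2 : (f t1).re < (m + 1) * Real.pi) :
    ∀ t, t1 ≤ t → m * Real.pi < (f t).re ∧ (f t).re < (m + 1) * Real.pi := by
  intro t ht
  have hre : ContinuousOn (fun s => (f s).re) (Icc t1 t) :=
    Complex.continuous_re.comp_continuousOn (hf.mono Icc_subset_Ici_self)
  have hno : ∀ s, t1 ≤ s → ∀ k : ℤ, (f s).re ≠ k * Real.pi := by
    intro s hs' k hk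
    have h3 := norm_G_lt_of_re k hk (hs s hs')
    exact absurd (hG s hs') (not_le.mpr h3)
  constructor
  · by_contra hcon
    push Not at hcon
    obtain ⟨s, hs', he⟩ := intermediate_value_Icc' ht hre ⟨hcon, h1.le⟩
    exact hno s hs'.1 m he
  · by_contra hcon
    push Not at hcon
    obtain ⟨s, hs', he⟩ := intermediate_value_Icc ht hre ⟨h2.le, hcon⟩
    refine hno s hs'.1 (m + 1) ?_
    push_cast
    exact he

/-- A path with `‖G‖ > M` (`M` from `exists_large`) which starts near the corner `j π` stays there.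

Proof. By `stay_strip` and the property of `M`, for every `t ≥ t1` the point `f t` is in one of the two
open discs of radius `ε ≤ 1` around `m π` and `(m + 1) π`; they are disjoint (`π > 2`). The set of
`t ∈ Ici t1` with `‖f t - j π‖ < ε` is open and closed in `Ici t1`, and contains `t1`:
`isPreconnected_Ici`. -/
theorem stay_corner {m : ℤ} {ε M : ℝ} (hε1 : ε ≤ 1) (hM : Real.exp 1 / 2 ≤ M)
    (hL : ∀ y : ℂ, m * Real.pi ≤ y.re → y.re ≤ (m + 1) * Real.pi →
      sin y ≠ 0 → M < ‖G y‖ → ∃ j : ℤ, j ≠ 0 ∧ (j = m ∨ j = m + 1) ∧ ‖y - j * Real.pi‖ < ε)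
    {f : ℝ → ℂ} {t1 : ℝ} (hf : ContinuousOn f (Ici t1))
    (hs : ∀ t, t1 ≤ t → sin (f t) ≠ 0) (hG : ∀ t, t1 ≤ t → M < ‖G (f t)‖)
    (h1 : m * Real.pi < (f t1).re) (h2 : (f t1).re < (m + 1) * Real.pi) {j : ℤ}
    (hj : j = m ∨ j = m + 1) (h3 : ‖f t1 - j * Real.pi‖ < ε) :
    ∀ t, t1 ≤ t → ‖f t - j * Real.pi‖ < ε := by
  intro t ht
  by_contra hcon
  push Not at hcon
  have hstrip := stay_strip hf hs (fun t ht => hM.trans (hG t ht).le) h1 h2
  have hg : ContinuousOn (fun s => ‖f s - j * Real.pi‖) (Icc t1 t) :=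
    ((hf.mono Icc_subset_Ici_self).sub continuousOn_const).norm
  obtain ⟨s, hs', he⟩ := intermediate_value_Icc ht hg ⟨h3.le, hcon⟩
  have he' : ‖f s - j * Real.pi‖ = ε := he
  obtain ⟨h4, h5⟩ := hstrip s hs'.1
  obtain ⟨k, -, hk, hkn⟩ := hL (f s) h4.le h5.le (hs s hs'.1) (hG s hs'.1)
  by_cases hkj : k = j
  · rw [hkj, he'] at hkn
    exact lt_irrefl _ hkn
  · have h6 : Real.pi ≤ ‖((j : ℂ) * Real.pi - k * Real.pi)‖ := by
      rw [← sub_mul, norm_mul, Complex.norm_real, Real.norm_of_nonneg Real.pi_pos.le]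
      have h7 : (1 : ℝ) ≤ ‖((j : ℂ) - k)‖ := by
        rw [← Int.cast_sub, Complex.norm_intCast]
        have h8 : (1 : ℤ) ≤ |j - k| := Int.one_le_abs (sub_ne_zero.mpr (Ne.symm hkj))
        exact_mod_cast h8
      nlinarith [Real.pi_pos]
    have h7 : ‖((j : ℂ) * Real.pi - k * Real.pi)‖ ≤ ‖f s - j * Real.pi‖ + ‖f s - k * Real.pi‖ := by
      have e : ((j : ℂ) * Real.pi - k * Real.pi) =
          (f s - k * Real.pi) - (f s - j * Real.pi) := by ring
      rw [e, add_comm]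
      exact norm_sub_le _ _
    have := Real.pi_gt_three
    linarith

end Pool.Agent.MP_ae5b4e_an_WB
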