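import Pool.Agent.Lib.MP_ae5b4e_an_WB.GE
import Pool.Agent.Lib.MP_ae5b4e_an_WB.GR
import Pool.Agent.Lib.MP_ae5b4e_an_WB.GO

/-!
# POR (iii), N2, Lemma B, flow of `G`: uniform asymptotics
-/

namespace Pool.Agent.MP_ae5b4e_an_WB

open Complex Set Filter Topology

theorem FwdAll.fwd {u y0 : ℂ} (h : FwdAll u y0) {t : ℝ} (ht : 0 ≤ t) : Fwd y0 (u * t) := by
  intro r hr
  have := h (r * t) (mul_nonneg hr.1 ht)
  push_cast at this
  rwa [show u * ((r : ℂ) * t) = r * (u * t) by ring] at this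

theorem hasDerivAt_Fl_real {u y0 : ℂ} (h : sin y0 ≠ 0) (hF : FwdAll u y0) {t : ℝ} (ht : 0 ≤ t) :
    HasDerivAt (fun s : ℝ => Fl y0 (u * s)) (u * V (Fl y0 (u * t))) t := by
  have h1 := hasDerivAt_Fl h (hF.fwd ht)
  have h2 : HasDerivAt (fun s : ℝ => u * (s : ℂ)) u t := by
    simpa using (HasDerivAt.ofReal_comp (hasDerivAt_id t)).const_mul u
  have h3 := HasDerivAt.comp t (h₂ := Fl y0) h1 h2
  rw [mul_comm] at h3
  exact h3

theorem norm_G_Fl {u y0 : ℂ} (h : sin y0 ≠ 0) (hF : FwdAll u y0) {t : ℝ} (ht : 0 ≤ t) :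
    ‖G (Fl y0 (u * t))‖ = ‖G y0‖ * Real.exp (u.re * t) := by
  rw [G_Fl h (hF.fwd ht), norm_mul, norm_exp]
  simp

/-- near `y0` all solutions are trapped near the same point `j π` after a common time -/
theorem exists_trap {u : ℂ} (hu : 0 < u.re) {y0 : ℂ} (h : sin y0 ≠ 0) (hF : FwdAll u y0) :
    ∃ j : ℤ, j ≠ 0 ∧ ∃ t1 : ℝ, 0 < t1 ∧ ∃ B : ℝ, ∀ᶠ y in 𝓝 y0, sin y ≠ 0 → FwdAll u y →
      (∀ t, t1 ≤ t → ‖Fl y (u * t) - j * Real.pi‖ ≤ 1 / 2) ∧
      ‖cos (Fl y (u * t1)) / sin (Fl y (u * t1))‖ ≤ B := by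
  have hG0 : 0 < ‖G y0‖ := norm_pos_iff.2 (G_ne_zero h)
  have hgrow : Tendsto (fun t : ℝ => ‖G y0‖ * Real.exp (u.re * t)) atTop atTop :=
    (Real.tendsto_exp_atTop.comp (tendsto_id.const_mul_atTop hu)).const_mul_atTop hG0
  have hmono : ∀ y : ℂ, ∀ s t : ℝ, s ≤ t →
      ‖G y‖ * Real.exp (u.re * s) ≤ ‖G y‖ * Real.exp (u.re * t) := by
    intro y s t hst
    have : u.re * s ≤ u.re * t := mul_le_mul_of_nonneg_left hst hu.le
    gcongr
  have hcont : ∀ y : ℂ, sin y ≠ 0 → FwdAll u y → ∀ t1 : ℝ, 0 ≤ t1 →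
      ContinuousOn (fun t : ℝ => Fl y (u * t)) (Ici t1) := by
    intro y hy hFy t1 ht1 t ht
    exact (hasDerivAt_Fl_real hy hFy (ht1.trans ht)).continuousAt.continuousWithinAt
  -- the strip
  obtain ⟨t0, ht0, hGt0⟩ := ((eventually_gt_atTop (0 : ℝ)).and
    (hgrow.eventually_ge_atTop (Real.exp 1 / 2))).exists
  have hs0 := sin_Fl_ne_zero h (hF.fwd ht0.le)
  have hne : ∀ k : ℤ, (Fl y0 (u * t0)).re ≠ k * Real.pi := by
    intro k hk
    have h1 := norm_G_lt_of_re k hk hs0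
    rw [norm_G_Fl h hF ht0.le] at h1
    linarith
  set m : ℤ := ⌊(Fl y0 (u * t0)).re / Real.pi⌋ with hm
  have hm1 : m * Real.pi < (Fl y0 (u * t0)).re := by
    refine lt_of_le_of_ne ?_ (hne m).symm
    have := Int.floor_le ((Fl y0 (u * t0)).re / Real.pi)
    rw [← hm, le_div_iff₀ Real.pi_pos] at this
    exact this
  have hm2 : (Fl y0 (u * t0)).re < (m + 1) * Real.pi := by
    have := Int.lt_floor_add_one ((Fl y0 (u * t0)).re / Real.pi)
    rw [← hm, div_lt_iff₀ Real.pi_pos] at this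
    exact this
  obtain ⟨M, hM, hL⟩ := exists_large m (ε := 1 / 2) (by norm_num) (by norm_num)
  obtain ⟨t1, ht1, hGt1⟩ := ((eventually_ge_atTop t0).and (hgrow.eventually_gt_atTop M)).exists
  have ht1' : 0 < t1 := ht0.trans_le ht1
  have hst := stay_strip (hcont y0 h hF t0 ht0.le)
    (fun t ht => sin_Fl_ne_zero h (hF.fwd (ht0.le.trans ht)))
    (fun t ht => by
      rw [norm_G_Fl h hF (ht0.le.trans ht)]
      exact hGt0.trans (hmono y0 t0 t ht)) hm1 hm2 t1 ht1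
  have hs1 := sin_Fl_ne_zero h (hF.fwd ht1'.le)
  obtain ⟨j, hj0, hj, hjd⟩ := hL (Fl y0 (u * t1)) hst.1.le hst.2.le hs1
    (by rw [norm_G_Fl h hF ht1'.le]; exact hGt1)
  refine ⟨j, hj0, t1, ht1', ‖cos (Fl y0 (u * t1)) / sin (Fl y0 (u * t1))‖ + 1, ?_⟩
  -- continuity in the initial value
  have hc : ContinuousAt (fun y => Fl y (u * t1)) y0 :=
    (differentiableAt_Fl_left h (hF.fwd ht1'.le)).continuousAt
  have hcre : ContinuousAt (fun y => (Fl y (u * t1)).re) y0 := continuous_re.continuousAt.comp hc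
  have e1 : ∀ᶠ y in 𝓝 y0, m * Real.pi < (Fl y (u * t1)).re :=
    hcre.eventually (lt_mem_nhds hst.1)
  have e2 : ∀ᶠ y in 𝓝 y0, (Fl y (u * t1)).re < (m + 1) * Real.pi :=
    hcre.eventually (gt_mem_nhds hst.2)
  have e3 : ∀ᶠ y in 𝓝 y0, ‖Fl y (u * t1) - j * Real.pi‖ < 1 / 2 :=
    ((hc.sub continuousAt_const).norm).eventually (gt_mem_nhds hjd)
  have e4 : ∀ᶠ y in 𝓝 y0, M < ‖G y‖ * Real.exp (u.re * t1) :=
    (((continuousAt_G h).norm).mul continuousAt_const).eventually (lt_mem_nhds hGt1)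
  have e5 : ∀ᶠ y in 𝓝 y0, ‖cos (Fl y (u * t1)) / sin (Fl y (u * t1))‖ <
      ‖cos (Fl y0 (u * t1)) / sin (Fl y0 (u * t1))‖ + 1 := by
    have hcc : ContinuousAt (fun y => ‖cos (Fl y (u * t1)) / sin (Fl y (u * t1))‖) y0 := by
      refine ContinuousAt.norm (ContinuousAt.div ?_ ?_ hs1)
      · exact continuous_cos.continuousAt.comp hc
      · exact continuous_sin.continuousAt.comp hc
    exact hcc.eventually (gt_mem_nhds (by linarith))
  filter_upwards [e1, e2, e3, e4, e5] with y h1 h2 h3 h4 h5 hsy hFy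
  refine ⟨fun t ht => ?_, h5.le⟩
  refine (stay_corner (by norm_num) hM hL (hcont y hsy hFy t1 ht1'.le)
    (fun t ht => sin_Fl_ne_zero hsy (hFy.fwd (ht1'.le.trans ht)))
    (fun t ht => ?_) h1 h2 hj h3 t ht).le
  rw [norm_G_Fl hsy hFy (ht1'.le.trans ht)]
  exact h4.trans_le (hmono y t1 t ht)

/-- asymptotics for `t → + oo`, uniformly on compact sets: `k π / Fl y0 (ut) = 1 + 1/(ut) +
O(log t/t^2)` with an integer `k ≠ 0` (which depends on `y0`). -/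
theorem exists_asymp_Fl {u : ℂ} (hu : 0 < u.re) {K : Set ℂ} (hK : IsCompact K)
    (h : ∀ y0 ∈ K, sin y0 ≠ 0 ∧ FwdAll u y0) :
    ∃ C T : ℝ, 1 < T ∧ ∀ y0 ∈ K, ∃ k : ℤ, k ≠ 0 ∧ (|k| : ℝ) ≤ C ∧ ∀ t : ℝ, T ≤ t →
      ‖k * Real.pi / Fl y0 (u * t) - (1 + 1 / (u * t))‖ ≤ C * (Real.log t / t ^ 2) := by
  have hune : u ≠ 0 := by rintro rfl; simp at hu
  have key : ∃ C T : ℝ, 1 < T ∧ ∀ y0 ∈ K, y0 ∈ K → ∃ k : ℤ, k ≠ 0 ∧ (|k| : ℝ) ≤ C ∧ ∀ t : ℝ, T ≤ t →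
      ‖k * Real.pi / Fl y0 (u * t) - (1 + 1 / (u * t))‖ ≤ C * (Real.log t / t ^ 2) := by
    refine hK.induction_on (p := fun s => ∃ C T : ℝ, 1 < T ∧ ∀ y0 ∈ s, y0 ∈ K →
      ∃ k : ℤ, k ≠ 0 ∧ (|k| : ℝ) ≤ C ∧ ∀ t : ℝ, T ≤ t →
      ‖k * Real.pi / Fl y0 (u * t) - (1 + 1 / (u * t))‖ ≤ C * (Real.log t / t ^ 2)) ?_ ?_ ?_ ?_
    · exact ⟨0, 2, by norm_num, fun y hy => absurd hy (notMem_empty y)⟩
    · rintro s s' hss ⟨C, T, hT, hC⟩
      exact ⟨C, T, hT, fun y hy => hC y (hss hy)⟩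
    · rintro s s' ⟨C, T, hT, hC⟩ ⟨C', T', hT', hC'⟩
      refine ⟨max C C', max T T', lt_max_of_lt_left hT, fun y hy hyK => ?_⟩
      rcases hy with hy | hy
      · obtain ⟨k, hk, hkC, hkt⟩ := hC y hy hyK
        refine ⟨k, hk, hkC.trans (le_max_left _ _), fun t ht => ?_⟩
        have ht' := (le_max_left T T').trans ht
        have hnn : 0 ≤ Real.log t / t ^ 2 :=
          div_nonneg (Real.log_nonneg (hT.le.trans ht')) (by positivity)
        exact (hkt t ht').trans (mul_le_mul_of_nonneg_right (le_max_left _ _) hnn)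
      · obtain ⟨k, hk, hkC, hkt⟩ := hC' y hy hyK
        refine ⟨k, hk, hkC.trans (le_max_right _ _), fun t ht => ?_⟩
        have ht' := (le_max_right T T').trans ht
        have hnn : 0 ≤ Real.log t / t ^ 2 :=
          div_nonneg (Real.log_nonneg (hT'.le.trans ht')) (by positivity)
        exact (hkt t ht').trans (mul_le_mul_of_nonneg_right (le_max_right _ _) hnn)
    · intro y0 hy0
      obtain ⟨hs, hF⟩ := h y0 hy0
      obtain ⟨j, hj, t1, ht1, B, hev⟩ := exists_trap hu hs hF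
      obtain ⟨C, T, hT, htT, hC⟩ := asymp_aux hune hj ht1 B
      refine ⟨{y | sin y ≠ 0 → FwdAll u y →
        (∀ t, t1 ≤ t → ‖Fl y (u * t) - j * Real.pi‖ ≤ 1 / 2) ∧
        ‖cos (Fl y (u * t1)) / sin (Fl y (u * t1))‖ ≤ B}, mem_nhdsWithin_of_mem_nhds hev,
        max C |(j : ℝ)|, T, hT, fun y hy hyK => ?_⟩
      obtain ⟨hsy, hFy⟩ := h y hyK
      obtain ⟨h1, h2⟩ := hy hsy hFy
      refine ⟨j, hj, ?_, fun t ht => ?_⟩
      · push_cast
        exact le_max_right _ _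
      · have h3 := hC (fun t => Fl y (u * t)) (fun t ht =>
          ⟨sin_Fl_ne_zero hsy (hFy.fwd (ht1.le.trans ht)), h1 t ht,
            hasDerivAt_Fl_real hsy hFy (ht1.le.trans ht)⟩) h2 t ht
        have hnn : 0 ≤ Real.log t / t ^ 2 :=
          div_nonneg (Real.log_nonneg (hT.le.trans ht)) (by positivity)
        exact h3.trans (mul_le_mul_of_nonneg_right (le_max_left _ _) hnn)
  obtain ⟨C, T, hT, hC⟩ := key
  exact ⟨C, T, hT, fun y hy => hC y hy hy⟩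

end Pool.Agent.MP_ae5b4e_an_WB
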