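import Pool.Agent.Lib.MP_ae5b4e_an_WB.Defs

/-!
# POR (iii), N2, Lemma B: elementary facts about `G`, `V`, `cot`
-/

namespace Pool.Agent.MP_ae5b4e_an_WB

open Complex Set Filter Topology

theorem ne_zero_of_sin {y : ℂ} (h : sin y ≠ 0) : y ≠ 0 := by
  rintro rfl
  simp at h

theorem G_ne_zero {y : ℂ} (h : sin y ≠ 0) : G y ≠ 0 :=
  mul_ne_zero h (exp_ne_zero _)

/-- derivative of the cotangent (written `cos z / sin z`) -/
theorem hasStrictDerivAt_ctg {y : ℂ} (h : sin y ≠ 0) :
    HasStrictDerivAt (fun z : ℂ => cos z / sin z) (-1 / sin y ^ 2) y := by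
  have h1 := (hasStrictDerivAt_cos y).div (hasStrictDerivAt_sin y) h
  refine h1.congr_deriv ?_
  have h2 := sin_sq_add_cos_sq y
  have : -sin y * sin y - cos y * cos y = -1 := by linear_combination -h2
  rw [this]

theorem hasStrictDerivAt_G {y : ℂ} (h : sin y ≠ 0) :
    HasStrictDerivAt G (G y * (y / sin y ^ 2)) y := by
  have h1 := hasStrictDerivAt_ctg h
  have h2 : HasStrictDerivAt (fun z : ℂ => 1 - z * (cos z / sin z))
      (-(1 * (cos y / sin y) + y * (-1 / sin y ^ 2))) y :=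
    ((hasStrictDerivAt_id y).mul h1).const_sub 1
  have h3 := (hasStrictDerivAt_sin y).mul h2.cexp
  refine h3.congr_deriv ?_
  unfold G
  field_simp
  ring

theorem hasDerivAt_G {y : ℂ} (h : sin y ≠ 0) : HasDerivAt G (G y * (y / sin y ^ 2)) y :=
  (hasStrictDerivAt_G h).hasDerivAt

theorem dG_ne_zero {y : ℂ} (h : sin y ≠ 0) : G y * (y / sin y ^ 2) ≠ 0 :=
  mul_ne_zero (G_ne_zero h) (div_ne_zero (ne_zero_of_sin h) (pow_ne_zero 2 h))

theorem continuousAt_G {y : ℂ} (h : sin y ≠ 0) : ContinuousAt G y :=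
  (hasDerivAt_G h).continuousAt

theorem continuousAt_V {y : ℂ} (h : y ≠ 0) : ContinuousAt V y := by
  unfold V
  exact (continuous_sin.continuousAt.pow 2).div continuousAt_id h

theorem G_neg (y : ℂ) : G (-y) = -G y := by
  unfold G
  rw [sin_neg, cos_neg]
  have : -y * (cos y / -sin y) = y * (cos y / sin y) := by
    rw [div_neg]; ring
  rw [this]; ring

theorem V_neg (y : ℂ) : V (-y) = -V y := by
  unfold V
  rw [sin_neg, div_neg]; ring

theorem isOpen_sin_ne_zero : IsOpen {y : ℂ | sin y ≠ 0} :=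
  isOpen_ne_fun continuous_sin continuous_const

end Pool.Agent.MP_ae5b4e_an_WB
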