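import Pool.Agent.Lib.MP_ae5b4e_an_WB.GU

/-!
# POR (iii), N2, Lemma B, flow of `G`: joint continuity
-/

namespace Pool.Agent.MP_ae5b4e_an_WB

open Complex Set Filter Topology unitInterval

theorem isOpen_Dom : IsOpen Dom := by
  rw [isOpen_iff_mem_nhds]
  rintro ⟨y0, t⟩ ⟨hs, hF⟩
  have h1 : ∀ᶠ z : ℂ × ℂ in 𝓝 (y0, t), sin z.1 ≠ 0 :=
    (continuous_fst.continuousAt (x := (y0, t))).eventually (isOpen_sin_ne_zero.mem_nhds hs)
  have h2 : ∀ᶠ z : ℂ × ℂ in 𝓝 (y0, t), ∀ r ∈ Icc (0 : ℝ) 1,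
      G z.1 ^ 2 * exp (2 * (r * z.2)) ≠ tipc := by
    refine isCompact_Icc.eventually_forall_of_forall_eventually fun r hr => ?_
    have hc : ContinuousAt (fun w : (ℂ × ℂ) × ℝ => G w.1.1 ^ 2 * exp (2 * (w.2 * w.1.2)))
        ((y0, t), r) := by
      have hG : ContinuousAt (fun w : (ℂ × ℂ) × ℝ => G w.1.1) ((y0, t), r) :=
        ContinuousAt.comp (g := G) (continuousAt_G hs) (by fun_prop)
      exact (hG.pow 2).mul (by fun_prop)
    exact hc.eventually_ne (hF r hr)
  filter_upwards [h1, h2] with z hz1 hz2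
  exact ⟨hz1, hz2⟩

theorem continuousOn_Fl : ContinuousOn (fun z : ℂ × ℂ => Fl z.1 z.2) Dom := by
  rw [continuousOn_iff_continuous_restrict]
  set f : C(I × Dom, ℂ) := ⟨fun x => G x.2.1.1 * exp ((x.1 : ℝ) * x.2.1.2), by
    refine Continuous.mul ?_ (by fun_prop)
    rw [continuous_iff_continuousAt]
    intro x
    exact ContinuousAt.comp (g := G) (continuousAt_G x.2.2.1) (by fun_prop)⟩ with hf
  set g : I × Dom → {y : ℂ // sin y ≠ 0} := fun x =>
    ⟨Fl x.2.1.1 ((x.1 : ℝ) * x.2.1.2), sin_Fl_ne_zero x.2.2.1 (x.2.2.2.mul x.1.2)⟩ with hg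
  have hlift : (fun y : {y : ℂ // sin y ≠ 0} => G y) ∘ g = f := by
    ext x
    simp only [hg, hf, Function.comp_apply, ContinuousMap.coe_mk]
    exact G_Fl x.2.2.1 (x.2.2.2.mul x.1.2)
  have h0 : Continuous (fun a => g ⟨0, a⟩) := by
    refine Continuous.subtype_mk ?_ _
    have : (fun a : Dom => Fl a.1.1 (((0 : I) : ℝ) * a.1.2)) = fun a : Dom => a.1.1 := by
      funext a
      simp only [Icc.coe_zero, ofReal_zero, zero_mul]
      exact Fl_zero a.2.1
    rw [this]
    fun_prop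
  have hA : ∀ a, Continuous (fun t => g ⟨t, a⟩) := by
    intro a
    refine Continuous.subtype_mk ?_ _
    have h1 := (isLift_Fl a.2.1 a.2.2).1
    rw [continuousOn_iff_continuous_restrict] at h1
    exact h1
  have hc := isLocalHomeomorph_G.continuous_lift (T2Space.isSeparatedMap _) f hlift h0 hA
  have h1 : Continuous (fun a : Dom => (g (1, a) : ℂ)) :=
    continuous_subtype_val.comp (hc.comp (by fun_prop))
  refine h1.congr fun a => ?_
  simp [hg, Set.restrict]

end Pool.Agent.MP_ae5b4e_an_WB
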