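import Pool.Agent.Lib.MP_ae5b4e_an_WB.GC

/-!
# POR (iii), N2, Lemma B, flow of `G`: holomorphy, additivity, lower bound
-/

namespace Pool.Agent.MP_ae5b4e_an_WB

open Complex Set Filter Topology

theorem Dom_mem_nhds {y0 t : ℂ} (h : sin y0 ≠ 0) (hF : Fwd y0 t) : Dom ∈ 𝓝 (y0, t) :=
  isOpen_Dom.mem_nhds ⟨h, hF⟩

theorem continuousAt_Fl₂ {y0 t : ℂ} (h : sin y0 ≠ 0) (hF : Fwd y0 t) :
    ContinuousAt (fun z : ℂ × ℂ => Fl z.1 z.2) (y0, t) :=
  continuousOn_Fl.continuousAt (Dom_mem_nhds h hF)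

/-- the flow is holomorphic in both variables -/
theorem differentiableAt_Fl₂ {y0 t : ℂ} (h : sin y0 ≠ 0) (hF : Fwd y0 t) :
    DifferentiableAt ℂ (fun z : ℂ × ℂ => Fl z.1 z.2) (y0, t) := by
  obtain ⟨g, hg1, -, hg2, hg3⟩ := exists_local_inv (sin_Fl_ne_zero h hF)
  have hc := continuousAt_Fl₂ h hF
  have h1 : (fun z : ℂ × ℂ => Fl z.1 z.2) =ᶠ[𝓝 (y0, t)] fun z => g (G z.1 * exp z.2) := by
    filter_upwards [hc.eventually hg2, Dom_mem_nhds h hF] with z hz1 hz2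
    rw [← G_Fl hz2.1 hz2.2, hz1]
  have h2 : DifferentiableAt ℂ (fun z : ℂ × ℂ => G z.1 * exp z.2) (y0, t) := by
    have hG : DifferentiableAt ℂ (fun z : ℂ × ℂ => G z.1) (y0, t) :=
      DifferentiableAt.comp (g := G) (y0, t) (hasDerivAt_G h).differentiableAt
        differentiableAt_fst
    exact hG.mul (differentiableAt_snd.cexp)
  have h3 : DifferentiableAt ℂ (fun z : ℂ × ℂ => g (G z.1 * exp z.2)) (y0, t) := by
    refine DifferentiableAt.comp (g := g) (y0, t) ?_ h2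
    have := hg3.hasDerivAt.differentiableAt
    rwa [G_Fl h hF] at this
  exact h3.congr_of_eventuallyEq h1

/-- `t ↦ Fl y0 t` is holomorphic, with derivative `V (Fl y0 t)` -/
theorem hasDerivAt_Fl {y0 t : ℂ} (h : sin y0 ≠ 0) (hF : Fwd y0 t) :
    HasDerivAt (Fl y0) (V (Fl y0 t)) t := by
  have hp : ContinuousAt (fun t' : ℂ => (y0, t')) t := by fun_prop
  refine hasDerivAt_lift (a := G y0) ?_ (sin_Fl_ne_zero h hF) ?_
  · exact ContinuousAt.comp (g := fun z : ℂ × ℂ => Fl z.1 z.2) (f := fun t' : ℂ => (y0, t'))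
      (continuousAt_Fl₂ h hF) hp
  · filter_upwards [hp.eventually (Dom_mem_nhds h hF)] with s hs
    exact G_Fl hs.1 hs.2

/-- `y ↦ Fl y t` is holomorphic (continuity and the inverse function theorem for `G`) -/
theorem differentiableAt_Fl_left {y0 t : ℂ} (h : sin y0 ≠ 0) (hF : Fwd y0 t) :
    DifferentiableAt ℂ (fun y => Fl y t) y0 :=
  DifferentiableAt.comp (g := fun z : ℂ × ℂ => Fl z.1 z.2) (f := fun y : ℂ => (y, t)) y0
    (differentiableAt_Fl₂ h hF) (by fun_prop)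

/-- additivity in time -/
theorem Fl_add {y0 t s : ℂ} (h : sin y0 ≠ 0) (hF : Fwd y0 t) (hs : Fwd (Fl y0 t) s)
    (hts : ∀ r ∈ Icc (0 : ℝ) 1, Fwd y0 (t + r * s)) :
    Fl (Fl y0 t) s = Fl y0 (t + s) := by
  have hl : IsLift (Fl y0 t) s (fun r => Fl y0 (t + r * s)) := by
    refine ⟨?_, by simp, fun r hr => ⟨sin_Fl_ne_zero h (hts r hr), ?_⟩⟩
    · exact continuousOn_Fl.comp (f := fun r : ℝ => (y0, t + r * s)) (by fun_prop)
        (fun r hr => ⟨h, hts r hr⟩)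
    · rw [G_Fl h (hts r hr), G_Fl h hF, exp_add, mul_assoc]
  rw [Fl_eq hl]
  simp

/-- lower bound for the flow: `‖G y0 / Fl y0 t‖ ≤ C (exp (- Re t) + ‖G y0‖)` -/
theorem exists_norm_G_div_Fl_le' : ∃ C : ℝ, 0 < C ∧ ∀ y0 t : ℂ, sin y0 ≠ 0 → Fwd y0 t →
    ‖G y0 / Fl y0 t‖ ≤ C * (Real.exp (-t.re) + ‖G y0‖) := by
  obtain ⟨C, hC, hCG⟩ := exists_G_le
  refine ⟨C, hC, fun y0 t h hF => ?_⟩
  have h1 := hCG _ (sin_Fl_ne_zero h hF)
  have hpos : 0 < ‖Fl y0 t‖ := norm_pos_iff.2 (Fl_ne_zero h hF)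
  rw [G_Fl h hF, norm_mul, norm_exp] at h1
  rw [norm_div, div_le_iff₀ hpos]
  have he : Real.exp (-t.re) * Real.exp t.re = 1 := by
    rw [← Real.exp_add]; simp
  have h2 := mul_le_mul_of_nonneg_left h1 (Real.exp_pos (-t.re)).le
  calc ‖G y0‖ = Real.exp (-t.re) * (‖G y0‖ * Real.exp t.re) := by
        rw [mul_comm ‖G y0‖, ← mul_assoc, he, one_mul]
    _ ≤ _ := h2
    _ = C * (Real.exp (-t.re) + ‖G y0‖ * (Real.exp (-t.re) * Real.exp t.re)) * ‖Fl y0 t‖ := by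
        ring
    _ = _ := by rw [he, mul_one]

end Pool.Agent.MP_ae5b4e_an_WB
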