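import Pool.Agent.Lib.MP_ae5b4e_an_WB.GD

/-!
# POR (iii), N2, Lemma B, flow of `G`: bound of `w / y`, dichotomy, conjugation, local inverse
-/

namespace Pool.Agent.MP_ae5b4e_an_WB

open Complex Set Filter Topology

/-- global bound of `w / y` (for `|y| ≤ 1` the function `G y / y` is bounded, for `|y| ≥ 1` it is
at most `|G y|`) -/
theorem exists_norm_G_div_le : ∃ C : ℝ, 0 < C ∧ ∀ y : ℂ, sin y ≠ 0 → ‖G y / y‖ ≤ C * (1 + ‖G y‖) := by
  obtain ⟨C, hC, h⟩ := exists_G_le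
  refine ⟨C, hC, fun y hy => ?_⟩
  rw [norm_div, div_le_iff₀ (norm_pos_iff.2 (ne_zero_of_sin hy))]
  exact h y hy

/-- without any hypothesis: either there is a lift or the value is `0` -/
theorem Fl_dich (y0 t : ℂ) : Fl y0 t = 0 ∨ (sin (Fl y0 t) ≠ 0 ∧ G (Fl y0 t) = G y0 * exp t) := by
  by_cases hex : ∃ η, IsLift y0 t η
  · obtain ⟨η, hη⟩ := hex
    right
    rw [Fl_eq hη]
    have := hη.2.2 1 ⟨zero_le_one, le_rfl⟩
    refine ⟨this.1, ?_⟩
    rw [this.2]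
    simp
  · left
    unfold Fl
    rw [dif_neg hex]

theorem G_conj (y : ℂ) : G ((starRingEnd ℂ) y) = (starRingEnd ℂ) (G y) := by
  unfold G
  rw [sin_conj, cos_conj, map_mul, ← exp_conj, map_sub, map_one, map_mul, map_div₀]

theorem IsLift.conj {y0 t : ℂ} {η : ℝ → ℂ} (h : IsLift y0 t η) :
    IsLift ((starRingEnd ℂ) y0) ((starRingEnd ℂ) t) (fun r => (starRingEnd ℂ) (η r)) := by
  refine ⟨continuous_conj.comp_continuousOn h.1, by simp [h.2.1], fun r hr => ?_⟩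
  have := h.2.2 r hr
  refine ⟨?_, ?_⟩
  · rw [sin_conj]
    exact (map_ne_zero _).2 this.1
  · rw [G_conj, this.2, G_conj, map_mul, ← exp_conj, map_mul, conj_ofReal]

/-- symmetry under complex conjugation -/
theorem Fl_conj (y0 t : ℂ) :
    Fl ((starRingEnd ℂ) y0) ((starRingEnd ℂ) t) = (starRingEnd ℂ) (Fl y0 t) := by
  by_cases hex : ∃ η, IsLift y0 t η
  · obtain ⟨η, hη⟩ := hex
    rw [Fl_eq hη, Fl_eq hη.conj]
  · have hex' : ¬ ∃ η, IsLift ((starRingEnd ℂ) y0) ((starRingEnd ℂ) t) η := by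
      rintro ⟨η, hη⟩
      have := hη.conj
      rw [conj_conj, conj_conj] at this
      exact hex ⟨_, this⟩
    unfold Fl
    rw [dif_neg hex, dif_neg hex', map_zero]

/-- local inverse of `G` (also at points with `G y0 ^ 2 = tipc`) -/
theorem exists_local_inverse {y0 : ℂ} (h : sin y0 ≠ 0) :
    ∃ ρ : ℝ, 0 < ρ ∧ ∃ H : ℂ → ℂ, DifferentiableOn ℂ H (Metric.ball (G y0) ρ) ∧ H (G y0) = y0 ∧
      (∀ w ∈ Metric.ball (G y0) ρ, sin (H w) ≠ 0 ∧ G (H w) = w) ∧
      ∃ ρ' : ℝ, 0 < ρ' ∧ ∀ y ∈ Metric.ball y0 ρ', G y ∈ Metric.ball (G y0) ρ ∧ H (G y) = y := by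
  have hd := hasStrictDerivAt_G h
  have hne := dG_ne_zero h
  have hf := hd.hasStrictFDerivAt_equiv hne
  set e := hf.toOpenPartialHomeomorph G with he
  have hy : y0 ∈ e.source := hf.mem_toOpenPartialHomeomorph_source
  have hw : G y0 ∈ e.target := hf.image_mem_toOpenPartialHomeomorph_target
  have hce : ∀ z, e z = G z := fun z => rfl
  have hg1 : e.symm (G y0) = y0 := by
    rw [← hce]; exact e.left_inv hy
  have hcont : ContinuousAt e.symm (G y0) := e.continuousAt_symm hw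
  have h1 : ∀ᶠ w in 𝓝 (G y0), w ∈ e.target := e.open_target.mem_nhds hw
  have h2 : ∀ᶠ w in 𝓝 (G y0), sin (e.symm w) ≠ 0 := by
    have : Tendsto e.symm (𝓝 (G y0)) (𝓝 y0) := by
      have := hcont.tendsto
      rwa [hg1] at this
    exact this.eventually (isOpen_sin_ne_zero.mem_nhds h)
  obtain ⟨ρ, hρ, hball⟩ := Metric.eventually_nhds_iff_ball.1 (h1.and h2)
  refine ⟨ρ, hρ, e.symm, ?_, hg1, ?_, ?_⟩
  · intro w hwb
    obtain ⟨hw1, hw2⟩ := hball w hwb
    have hG : HasDerivAt e (G (e.symm w) * (e.symm w / sin (e.symm w) ^ 2)) (e.symm w) :=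
      hasDerivAt_G hw2
    exact (e.hasDerivAt_symm hw1 (dG_ne_zero hw2) hG).differentiableAt.differentiableWithinAt
  · intro w hwb
    obtain ⟨hw1, hw2⟩ := hball w hwb
    refine ⟨hw2, ?_⟩
    rw [← hce]; exact e.right_inv hw1
  · have h3 : ∀ᶠ y in 𝓝 y0, G y ∈ Metric.ball (G y0) ρ :=
      (continuousAt_G h).eventually (Metric.ball_mem_nhds _ hρ)
    have h4 : ∀ᶠ y in 𝓝 y0, e.symm (G y) = y := by
      filter_upwards [e.open_source.mem_nhds hy] with y hy1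
      rw [← hce]; exact e.left_inv hy1
    obtain ⟨ρ', hρ', hb'⟩ := Metric.eventually_nhds_iff_ball.1 (h3.and h4)
    exact ⟨ρ', hρ', hb'⟩

end Pool.Agent.MP_ae5b4e_an_WB
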