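import Pool.Agent.Lib.MP_ae5b4e_an_WB.GB

/-!
# POR (iii), N2, Lemma B, flow of `G`: local inverse of `G`, derivative of a lift
-/

namespace Pool.Agent.MP_ae5b4e_an_WB

open Complex Set Filter Topology

/-- Local inverse of `G` at a point with `sin ≠ 0`. -/
theorem exists_local_inv {y1 : ℂ} (h : sin y1 ≠ 0) : ∃ g : ℂ → ℂ, g (G y1) = y1 ∧
    (∀ᶠ w in 𝓝 (G y1), G (g w) = w ∧ sin (g w) ≠ 0 ∧ ContinuousAt g w) ∧
    (∀ᶠ y in 𝓝 y1, g (G y) = y) ∧
    HasStrictDerivAt g ((G y1 * (y1 / sin y1 ^ 2))⁻¹) (G y1) := by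
  have hd := hasStrictDerivAt_G h
  have hne := dG_ne_zero h
  have hf := hd.hasStrictFDerivAt_equiv hne
  set e := hf.toOpenPartialHomeomorph G with he
  have hy : y1 ∈ e.source := hf.mem_toOpenPartialHomeomorph_source
  have hw : G y1 ∈ e.target := hf.image_mem_toOpenPartialHomeomorph_target
  have hce : ∀ z, e z = G z := fun z => rfl
  have hg1 : e.symm (G y1) = y1 := by
    rw [← hce]; exact e.left_inv hy
  have hcont : ContinuousAt e.symm (G y1) := e.continuousAt_symm hw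
  refine ⟨e.symm, hg1, ?_, ?_, ?_⟩
  · have h1 : ∀ᶠ w in 𝓝 (G y1), w ∈ e.target := e.open_target.mem_nhds hw
    have h2 : ∀ᶠ w in 𝓝 (G y1), sin (e.symm w) ≠ 0 := by
      have : Tendsto e.symm (𝓝 (G y1)) (𝓝 y1) := by
        have := hcont.tendsto
        rwa [hg1] at this
      exact this.eventually (isOpen_sin_ne_zero.mem_nhds h)
    filter_upwards [h1, h2] with w hw1 hw2
    refine ⟨?_, hw2, e.continuousAt_symm hw1⟩
    rw [← hce]; exact e.right_inv hw1
  · filter_upwards [e.open_source.mem_nhds hy] with y hy1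
    rw [← hce]; exact e.left_inv hy1
  · exact hd.to_localInverse hne

/-- two maps with the same `G`-values which are close to the same regular value coincide -/
theorem eventually_eq_of_G_eq {X : Type*} {l : Filter X} {f g : X → ℂ} {y1 : ℂ} (h : sin y1 ≠ 0)
    (hf : Tendsto f l (𝓝 y1)) (hg : Tendsto g l (𝓝 y1)) (hG : ∀ᶠ x in l, G (f x) = G (g x)) :
    ∀ᶠ x in l, f x = g x := by
  obtain ⟨φ, -, -, hφ, -⟩ := exists_local_inv h
  filter_upwards [hf.eventually hφ, hg.eventually hφ, hG] with x h1 h2 h3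
  rw [← h1, ← h2, h3]

/-- `G` is a local homeomorphism on `{sin ≠ 0}` -/
theorem isLocalHomeomorphOn_G : IsLocalHomeomorphOn G {y : ℂ | sin y ≠ 0} := by
  intro y hy
  have hf := (hasStrictDerivAt_G hy).hasStrictFDerivAt_equiv (dG_ne_zero hy)
  exact ⟨hf.toOpenPartialHomeomorph G, hf.mem_toOpenPartialHomeomorph_source, rfl⟩

/-- `G` is a local homeomorphism on `{sin ≠ 0}` -/
theorem isLocalHomeomorph_G : IsLocalHomeomorph (fun y : {y : ℂ // sin y ≠ 0} => G y) := by
  have h1 : IsLocalHomeomorph (Subtype.val : {y : ℂ // sin y ≠ 0} → ℂ) :=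
    (isOpen_sin_ne_zero.isOpenEmbedding_subtypeVal).isLocalHomeomorph
  rw [isLocalHomeomorph_iff_isLocalHomeomorphOn_univ] at h1 ⊢
  exact (isLocalHomeomorphOn_G.comp h1 (fun y _ => y.2))

/-- derivative of a holomorphic lift -/
theorem hasDerivAt_lift {η : ℂ → ℂ} {a t0 : ℂ} (hc : ContinuousAt η t0) (h : sin (η t0) ≠ 0)
    (hG : ∀ᶠ t in 𝓝 t0, G (η t) = a * exp t) : HasDerivAt η (V (η t0)) t0 := by
  obtain ⟨g, hg1, -, hg2, hg3⟩ := exists_local_inv h
  have h0 : G (η t0) = a * exp t0 := hG.self_of_nhds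
  have h1 : η =ᶠ[𝓝 t0] fun t => g (a * exp t) := by
    filter_upwards [hc.eventually hg2, hG] with t ht1 ht2
    rw [← ht2, ht1]
  have h2 : HasDerivAt (fun t : ℂ => a * exp t) (a * exp t0) t0 := (hasDerivAt_exp t0).const_mul a
  have h3 : HasDerivAt (fun t : ℂ => g (a * exp t))
      ((G (η t0) * (η t0 / sin (η t0) ^ 2))⁻¹ * (a * exp t0)) t0 := by
    have h4 := hg3.hasDerivAt
    rw [h0] at h4
    exact HasDerivAt.comp t0 (h₂ := g) (by rw [h0]; exact h4) h2
  refine (h3.congr_of_eventuallyEq h1).congr_deriv ?_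
  rw [← h0]
  have := G_ne_zero h
  have h5 := ne_zero_of_sin h
  unfold V
  field_simp

/-- derivative of a lift of a ray -/
theorem hasDerivAt_lift_real {η : ℝ → ℂ} {a t : ℂ} {r : ℝ} (hc : ContinuousAt η r)
    (h : sin (η r) ≠ 0) (hG : ∀ᶠ s in 𝓝 r, G (η s) = a * exp (s * t)) :
    HasDerivAt η (t * V (η r)) r := by
  obtain ⟨g, hg1, -, hg2, hg3⟩ := exists_local_inv h
  have h0 : G (η r) = a * exp (r * t) := hG.self_of_nhds
  have h1 : η =ᶠ[𝓝 r] fun s : ℝ => g (a * exp (s * t)) := by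
    filter_upwards [hc.eventually hg2, hG] with s hs1 hs2
    rw [← hs2, hs1]
  have h2 : HasDerivAt (fun s : ℝ => a * exp (s * t)) (a * (exp (r * t) * t)) r := by
    have : HasDerivAt (fun s : ℝ => (s : ℂ) * t) t r := by
      simpa using (HasDerivAt.ofReal_comp (hasDerivAt_id r)).mul_const t
    exact (this.cexp).const_mul a
  have h3 : HasDerivAt (fun s : ℝ => g (a * exp (s * t)))
      ((G (η r) * (η r / sin (η r) ^ 2))⁻¹ * (a * (exp (r * t) * t))) r := by
    have h4 := hg3.hasDerivAt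
    rw [h0] at h4
    exact HasDerivAt.comp r (h₂ := g) (by rw [h0]; exact h4) h2
  refine (h3.congr_of_eventuallyEq h1).congr_deriv ?_
  rw [← mul_assoc a, ← h0]
  have := G_ne_zero h
  have h5 := ne_zero_of_sin h
  unfold V
  field_simp

end Pool.Agent.MP_ae5b4e_an_WB
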