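import Pool.Agent.Lib.MP_ae5b4e_an_WB.GB

/-!
# POR (iii), N2, Lemma B, flow of `G`: bound for `V` away from the asymptotic value
-/

namespace Pool.Agent.MP_ae5b4e_an_WB

open Complex Set Filter Topology

/-- Representation of `G ^ 2` in the open upper half plane: with `E = exp (2 i y)` (`‖E‖ < 1`)
`G y ^ 2 = tipc * (1 - E) ^ 2 * exp (4 i y E / (1 - E))`.

Proof. `sin y = (i / 2) exp (- i y) (1 - E)`, `cos y / sin y = - i (1 + E) / (1 - E)`
(`Complex.sin`, `Complex.cos` in exponential form, `E = exp (i y) ^ 2`, `1 - E ≠ 0` because `‖E‖ < 1`),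
so `y * (cos y / sin y) = - i y - 2 i y E / (1 - E)` and
`G y = (i / 2) exp (- i y) (1 - E) exp (1 + i y + 2 i y E / (1 - E))
     = (i e / 2) (1 - E) exp (2 i y E / (1 - E))`. Square; `tipc = - e ^ 2 / 4`, `e ^ 2 = exp 2`. -/
theorem G_sq_upper {y : ℂ} (hy : 0 < y.im) :
    G y ^ 2 = tipc * ((1 - exp (2 * I * y)) ^ 2 *
      exp (4 * I * y * exp (2 * I * y) / (1 - exp (2 * I * y)))) := by
  have hp0 : exp (y * I) ≠ 0 := exp_ne_zero _
  have hE : exp (2 * I * y) = exp (y * I) ^ 2 := by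
    rw [← exp_nat_mul]
    congr 1
    push_cast
    ring
  have hn : exp (-y * I) = (exp (y * I))⁻¹ := by
    rw [← exp_neg]
    congr 1
    ring
  have h1E : 1 - exp (y * I) ^ 2 ≠ 0 := by
    intro h
    have h2 : ‖exp (y * I) ^ 2‖ = 1 := by
      rw [← sub_eq_zero.1 h, norm_one]
    rw [← hE, norm_exp] at h2
    have h3 : (2 * I * y).re = -(2 * y.im) := by simp
    rw [h3] at h2
    have h4 := Real.exp_lt_exp.2 (show -(2 * y.im) < 0 by linarith)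
    rw [Real.exp_zero] at h4
    linarith
  have hsin : sin y = (exp (y * I))⁻¹ * (1 - exp (y * I) ^ 2) * I / 2 := by
    rw [Complex.sin, hn]
    field_simp
  have hcos : cos y = (exp (y * I))⁻¹ * (1 + exp (y * I) ^ 2) / 2 := by
    rw [Complex.cos, hn]
    field_simp
    ring
  have hq : 1 - y * (cos y / sin y) =
      1 + y * I + 2 * I * y * exp (y * I) ^ 2 / (1 - exp (y * I) ^ 2) := by
    have h2 : cos y / sin y = -I * ((1 + exp (y * I) ^ 2) / (1 - exp (y * I) ^ 2)) := by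
      rw [hsin, hcos]
      have hI : (I : ℂ) ≠ 0 := I_ne_zero
      rw [div_eq_iff (by
        refine div_ne_zero (mul_ne_zero (mul_ne_zero (inv_ne_zero hp0) h1E) hI) two_ne_zero)]
      have hI2 : I * I = -1 := I_mul_I
      field_simp
      linear_combination (1 + exp (y * I) ^ 2) * hI2
    rw [h2]
    field_simp
    ring
  unfold G
  rw [hE, hq, mul_pow, ← exp_nat_mul, hsin]
  have h3 : ((2 : ℕ) : ℂ) * (1 + y * I + 2 * I * y * exp (y * I) ^ 2 / (1 - exp (y * I) ^ 2)) =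
      2 + ((2 : ℕ) : ℂ) * (y * I) + 4 * I * y * exp (y * I) ^ 2 / (1 - exp (y * I) ^ 2) := by
    push_cast
    ring
  rw [h3, exp_add, exp_add, exp_nat_mul]
  have ht : tipc = -(exp 2 / 4) := by
    unfold tipc
    push_cast
    rfl
  rw [ht]
  have hI2 : I ^ 2 = -1 := I_sq
  generalize exp (4 * I * y * exp (y * I) ^ 2 / (1 - exp (y * I) ^ 2)) = w
  generalize exp (y * I) = p at *
  generalize exp (2 : ℂ) = a
  field_simp
  linear_combination (4 * a * w) * hI2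

private theorem GV_sin (y : ℂ) : ‖sin y‖ ≤ Real.exp |y.im| := by
  rw [Complex.sin, norm_div, norm_mul, norm_I, mul_one]
  have h2 : ‖(2 : ℂ)‖ = 2 := by simp
  rw [h2, div_le_iff₀ (by norm_num)]
  refine (norm_sub_le _ _).trans ?_
  rw [norm_exp, norm_exp]
  have h3 : (-y * I).re = y.im := by simp
  have h4 : (y * I).re = -y.im := by simp
  rw [h3, h4]
  have h5 := Real.exp_le_exp.2 (le_abs_self y.im)
  have h6 := Real.exp_le_exp.2 (neg_le_abs y.im)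
  linarith

private theorem GV_small {y : ℂ} (h : ‖y‖ ≤ 1) : ‖sin y‖ ≤ 2 * ‖y‖ := by
  have h1 : sin y = ((exp (-y * I) - 1) - (exp (y * I) - 1)) * I / 2 := by
    rw [Complex.sin]
    ring
  have h2 : ‖(2 : ℂ)‖ = 2 := by simp
  have h3 : ‖-y * I‖ = ‖y‖ := by rw [norm_mul, norm_I, mul_one, norm_neg]
  have h4 : ‖y * I‖ = ‖y‖ := by rw [norm_mul, norm_I, mul_one]
  rw [h1, norm_div, norm_mul, norm_I, mul_one, h2, div_le_iff₀ (by norm_num)]
  refine (norm_sub_le _ _).trans ?_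
  have h5 := norm_exp_sub_one_le (x := -y * I) (by rw [h3]; exact h)
  have h6 := norm_exp_sub_one_le (x := y * I) (by rw [h4]; exact h)
  rw [h3] at h5
  rw [h4] at h6
  linarith

private theorem GV_V (y : ℂ) : ‖V y‖ = ‖sin y‖ ^ 2 / ‖y‖ := by
  unfold V
  rw [norm_div, norm_pow]

private theorem GV_up {c : ℝ} (hc : 0 < c) : ∃ δ : ℝ, 0 < δ ∧ ∀ y : ℂ, 1 ≤ y.im →
    c ≤ ‖G y ^ 2 - tipc‖ → ‖V y‖ ≤ 1 / δ := by
  have hA : 0 < Real.exp 2 / 4 * (8 * Real.exp 5) := by positivity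
  refine ⟨min 1 (c / (2 * (Real.exp 2 / 4 * (8 * Real.exp 5)))), lt_min one_pos (by positivity),
    fun y hy hcy => ?_⟩
  set A : ℝ := Real.exp 2 / 4 * (8 * Real.exp 5) with hAdef
  set δ : ℝ := min 1 (c / (2 * A)) with hδ
  have hδ0 : 0 < δ := lt_min one_pos (by positivity)
  set E : ℂ := exp (2 * I * y) with hE
  have hEn : ‖E‖ = Real.exp (-(2 * y.im)) := by
    rw [hE, norm_exp]
    congr 1
    simp
  have hE0 : 0 < ‖E‖ := by rw [hEn]; exact Real.exp_pos _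
  have hE5 : ‖E‖ ≤ 1 / 5 := by
    have h1 : ‖E‖ ≤ Real.exp (-2) := by
      rw [hEn]
      exact Real.exp_le_exp.2 (by linarith)
    have h2 : (5 : ℝ) ≤ Real.exp 2 := by
      have h3 : Real.exp 2 = Real.exp 1 ^ 2 := by
        rw [← Real.exp_nat_mul]
        norm_num
      have h4 := Real.exp_one_gt_d9
      rw [h3]
      nlinarith
    have h3 : Real.exp (-2) ≤ 1 / 5 := by
      rw [Real.exp_neg, one_div]
      exact inv_anti₀ (by norm_num) h2
    linarith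
  have hyn : 1 ≤ ‖y‖ := hy.trans ((le_abs_self _).trans (abs_im_le_norm y))
  have hy0 : 0 < ‖y‖ := by linarith
  set s : ℝ := ‖y‖ * ‖E‖ with hs
  have hs0 : 0 < s := mul_pos hy0 hE0
  have hEs : ‖E‖ ≤ s := le_mul_of_one_le_left hE0.le hyn
  have h1E : 4 / 5 ≤ ‖1 - E‖ := by
    have h1 := norm_sub_norm_le (1 : ℂ) E
    rw [norm_one] at h1
    linarith
  set z : ℂ := 4 * I * y * E / (1 - E) with hz
  have hzn : ‖z‖ ≤ 5 * s := by
    rw [hz, norm_div, norm_mul, norm_mul, norm_mul, norm_I, mul_one]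
    have h4 : ‖(4 : ℂ)‖ = 4 := by simp
    rw [h4, div_le_iff₀ (by linarith)]
    have h5 : 5 * s * (4 / 5) ≤ 5 * s * ‖1 - E‖ :=
      mul_le_mul_of_nonneg_left h1E (by positivity)
    have h6 : 5 * s * (4 / 5) = 4 * ‖y‖ * ‖E‖ := by
      rw [hs]
      ring
    linarith
  have hexp : ‖exp z‖ ≤ Real.exp (5 * s) := by
    rw [norm_exp]
    exact Real.exp_le_exp.2 ((re_le_norm z).trans hzn)
  have hexp1 : ‖exp z - 1‖ ≤ 5 * s * Real.exp (5 * s) := by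
    have h1 := norm_exp_sub_sum_le_norm_mul_exp z 1
    have h2 : ∑ m ∈ Finset.range 1, z ^ m / (m.factorial : ℂ) = 1 := by simp
    rw [h2, pow_one] at h1
    refine h1.trans ?_
    exact mul_le_mul hzn (Real.exp_le_exp.2 hzn) (Real.exp_pos _).le (by positivity)
  have hE2 : ‖(1 - E) ^ 2 - 1‖ ≤ 3 * s := by
    have h1 : (1 - E) ^ 2 - 1 = E * (E - 2) := by ring
    rw [h1, norm_mul]
    have h2 : ‖E - 2‖ ≤ 3 := by
      refine (norm_sub_le _ _).trans ?_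
      have h4 : ‖(2 : ℂ)‖ = 2 := by simp
      rw [h4]
      linarith
    calc ‖E‖ * ‖E - 2‖ ≤ s * 3 := mul_le_mul hEs h2 (norm_nonneg _) hs0.le
      _ = 3 * s := by ring
  have hmain : ‖(1 - E) ^ 2 * exp z - 1‖ ≤ 8 * s * Real.exp (5 * s) := by
    have h1 : (1 - E) ^ 2 * exp z - 1 = ((1 - E) ^ 2 - 1) * exp z + (exp z - 1) := by ring
    rw [h1]
    refine (norm_add_le _ _).trans ?_
    rw [norm_mul]
    have h2 : ‖(1 - E) ^ 2 - 1‖ * ‖exp z‖ ≤ 3 * s * Real.exp (5 * s) :=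
      mul_le_mul hE2 hexp (norm_nonneg _) (by positivity)
    linarith
  have hG : ‖G y ^ 2 - tipc‖ ≤ Real.exp 2 / 4 * (8 * s * Real.exp (5 * s)) := by
    have h1 : G y ^ 2 - tipc = tipc * ((1 - E) ^ 2 * exp z - 1) := by
      rw [G_sq_upper (by linarith : 0 < y.im)]
      ring
    have h2 : ‖tipc‖ = Real.exp 2 / 4 := by
      unfold tipc
      rw [norm_neg, norm_real, Real.norm_of_nonneg (by positivity)]
    rw [h1, norm_mul, h2]
    exact mul_le_mul_of_nonneg_left hmain (by positivity)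
  have hsδ : δ < s := by
    by_contra hcon
    have hle := not_lt.1 hcon
    have h1 : s ≤ 1 := hle.trans (min_le_left _ _)
    have h2 : s ≤ c / (2 * A) := hle.trans (min_le_right _ _)
    have h3 : Real.exp (5 * s) ≤ Real.exp 5 := Real.exp_le_exp.2 (by linarith)
    have h4 : Real.exp 2 / 4 * (8 * s * Real.exp (5 * s)) ≤ A * s := by
      have h5 : 8 * s * Real.exp (5 * s) ≤ 8 * s * Real.exp 5 :=
        mul_le_mul_of_nonneg_left h3 (by positivity)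
      have h6 := mul_le_mul_of_nonneg_left h5 (show 0 ≤ Real.exp 2 / 4 by positivity)
      refine h6.trans (le_of_eq ?_)
      rw [hAdef]
      ring
    have h5 : A * s ≤ c / 2 := by
      have h6 := mul_le_mul_of_nonneg_left h2 hA.le
      refine h6.trans (le_of_eq ?_)
      field_simp
    linarith
  rw [GV_V]
  have h1 := GV_sin y
  rw [abs_of_nonneg (by linarith : 0 ≤ y.im)] at h1
  have h2 : ‖sin y‖ ^ 2 ≤ ‖E‖⁻¹ := by
    rw [hEn, ← Real.exp_neg, neg_neg]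
    calc ‖sin y‖ ^ 2 ≤ Real.exp y.im ^ 2 := pow_le_pow_left₀ (norm_nonneg _) h1 2
      _ = Real.exp (2 * y.im) := by
        rw [← Real.exp_nat_mul]
        norm_num
  calc ‖sin y‖ ^ 2 / ‖y‖ ≤ ‖E‖⁻¹ / ‖y‖ := div_le_div_of_nonneg_right h2 hy0.le
    _ = 1 / s := by
      rw [hs]
      field_simp
    _ ≤ 1 / δ := one_div_le_one_div_of_le hδ0 hsδ.le

/-- Away from the asymptotic value the vector field `V = sin ^ 2 y / y` is bounded.

Proof. (a) `‖y‖ ≤ 1`: `‖sin y‖ ≤ C ‖y‖`, so `‖V y‖ ≤ C ^ 2`. (b) `‖y‖ ≥ 1`, `|Im y| ≤ 1`: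
`‖sin y‖ ≤ exp |Im y| ≤ e`, so `‖V y‖ ≤ e ^ 2`. (c) `|Im y| ≥ 1`; by `G_neg`, `V_neg` (replace `y` by
`- y`) let `Im y ≥ 1`. `E := exp (2 i y)`, `‖E‖ = exp (- 2 Im y) ≤ exp (- 2) ≤ 1 / 5`,
`z := 4 i y E / (1 - E)`, `‖z‖ ≤ 5 ‖y‖ ‖E‖` as `‖1 - E‖ ≥ 4 / 5`. By `G_sq_upper`
`G y ^ 2 - tipc = tipc * ((1 - E) ^ 2 * exp z - 1)`, and `‖(1 - E) ^ 2 * exp z - 1‖ ≤
‖(1 - E) ^ 2 - 1‖ exp ‖z‖ + (exp ‖z‖ - 1) ≤ 3 ‖E‖ exp ‖z‖ + ‖z‖ exp ‖z‖ ≤
8 (‖y‖ ‖E‖) exp (5 ‖y‖ ‖E‖)` (`‖y‖ ≥ 1`; `Complex.norm_exp_sub_one_le`-type bound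
`‖exp z - 1‖ ≤ ‖z‖ exp ‖z‖`, e.g. from `Real`/`Complex` mean value or `norm_exp_sub_one_le_...`).
The function `x ↦ ‖tipc‖ * 8 * x * exp (5 * x)` tends to `0` for `x → 0+`: choose `δ > 0` with value
`< c` for `0 ≤ x ≤ δ`. So `c ≤ ‖G y ^ 2 - tipc‖` implies `‖y‖ ‖E‖ > δ`, and
`‖sin y‖ ^ 2 ≤ exp (2 Im y) = 1 / ‖E‖ < ‖y‖ / δ`: `‖V y‖ ≤ 1 / δ`. -/
theorem exists_V_bound {c : ℝ} (hc : 0 < c) :
    ∃ K : ℝ, 0 < K ∧ ∀ y : ℂ, sin y ≠ 0 → c ≤ ‖G y ^ 2 - tipc‖ → ‖V y‖ ≤ K := by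
  obtain ⟨δ, hδ, hup⟩ := GV_up hc
  have hd : 0 < 1 / δ := by positivity
  have he : 0 < Real.exp 2 := Real.exp_pos 2
  refine ⟨4 + Real.exp 2 + 1 / δ, by positivity, fun y hy hcy => ?_⟩
  have hy0 : 0 < ‖y‖ := norm_pos_iff.2 (ne_zero_of_sin hy)
  by_cases h1 : ‖y‖ ≤ 1
  · have h2 := GV_small h1
    have h3 : ‖V y‖ ≤ 4 := by
      rw [GV_V, div_le_iff₀ hy0]
      calc ‖sin y‖ ^ 2 ≤ (2 * ‖y‖) ^ 2 := pow_le_pow_left₀ (norm_nonneg _) h2 2
        _ ≤ 4 * ‖y‖ := by nlinarith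
    linarith
  · have h1' : 1 < ‖y‖ := not_le.1 h1
    by_cases h2 : |y.im| ≤ 1
    · have h3 : ‖V y‖ ≤ Real.exp 2 := by
        rw [GV_V, div_le_iff₀ hy0]
        have h4 : ‖sin y‖ ≤ Real.exp 1 := (GV_sin y).trans (Real.exp_le_exp.2 h2)
        calc ‖sin y‖ ^ 2 ≤ Real.exp 1 ^ 2 := pow_le_pow_left₀ (norm_nonneg _) h4 2
          _ = Real.exp 2 := by
            rw [← Real.exp_nat_mul]
            norm_num
          _ ≤ Real.exp 2 * ‖y‖ := le_mul_of_one_le_right he.le h1'.le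
      linarith
    · have h2' : 1 < |y.im| := not_le.1 h2
      have h3 : ‖V y‖ ≤ 1 / δ := by
        rcases lt_abs.1 h2' with h4 | h4
        · exact hup y h4.le hcy
        · have h5 := hup (-y) (by rw [neg_im]; exact h4.le) (by
            rw [G_neg, neg_sq]
            exact hcy)
          rw [V_neg, norm_neg] at h5
          exact h5
      linarith

end Pool.Agent.MP_ae5b4e_an_WB
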