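import Pool.Agent.Lib.MP_ae5b4e_an_WB.GI
import Pool.Agent.Lib.MP_ae5b4e_an_WB.GV
import Pool.Agent.Lib.MP_ae5b4e_an_WB.GS

/-!
# POR (iii), N2, Lemma B, flow of `G`: existence and uniqueness of lifts
-/

namespace Pool.Agent.MP_ae5b4e_an_WB

open Complex Set Filter Topology

/-- partial lift on `[0, T]` -/
def PL (y0 t : ℂ) (T : ℝ) (η : ℝ → ℂ) : Prop :=
  ContinuousOn η (Icc 0 T) ∧ η 0 = y0 ∧
    ∀ r ∈ Icc (0 : ℝ) T, sin (η r) ≠ 0 ∧ G (η r) = G y0 * exp (r * t)

theorem PL.mono {y0 t : ℂ} {T T' : ℝ} {η : ℝ → ℂ} (h : PL y0 t T η) (hT : T' ≤ T) :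
    PL y0 t T' η :=
  ⟨h.1.mono (Icc_subset_Icc_right hT), h.2.1, fun r hr => h.2.2 r ⟨hr.1, hr.2.trans hT⟩⟩

/-- uniqueness of lifts through `G` -/
theorem eqOn_of_G_eq {T : ℝ} {η η' : ℝ → ℂ} (hc : ContinuousOn η (Icc 0 T))
    (hc' : ContinuousOn η' (Icc 0 T)) (hs : ∀ r ∈ Icc (0 : ℝ) T, sin (η r) ≠ 0)
    (hG : ∀ r ∈ Icc (0 : ℝ) T, G (η r) = G (η' r)) (h0 : η 0 = η' 0) : EqOn η η' (Icc 0 T) := by
  have hcl : IsClosed ({r | η r = η' r} ∩ Icc (0 : ℝ) T) := by
    have := (hc.prodMk hc').preimage_isClosed_of_isClosed isClosed_Icc isClosed_diagonal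
    convert! this using 1
    ext r
    simp [and_comm]
  refine hcl.Icc_subset_of_forall_mem_nhdsWithin h0 ?_
  rintro x ⟨hx, hxT⟩
  have hxI : x ∈ Icc (0 : ℝ) T := ⟨hxT.1, hxT.2.le⟩
  have hle : 𝓝[>] x ≤ 𝓝[Icc 0 T] x :=
    nhdsWithin_le_iff.2 (mem_of_superset (Ioc_mem_nhdsGT hxT.2) fun r hr =>
      ⟨hxT.1.trans hr.1.le, hr.2⟩)
  have h1 : Tendsto η (𝓝[>] x) (𝓝 (η x)) := (hc x hxI).mono_left hle
  have h2 : Tendsto η' (𝓝[>] x) (𝓝 (η x)) := by
    have hx' : η x = η' x := hx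
    rw [hx']
    exact (hc' x hxI).mono_left hle
  exact eventually_eq_of_G_eq (hs x hxI) h1 h2
    (mem_of_superset (Ioc_mem_nhdsGT hxT.2) fun r hr => hG r ⟨hxT.1.trans hr.1.le, hr.2⟩)

theorem PL.unique {y0 t : ℂ} {T : ℝ} {η η' : ℝ → ℂ} (h : PL y0 t T η) (h' : PL y0 t T η') :
    EqOn η η' (Icc 0 T) :=
  eqOn_of_G_eq h.1 h'.1 (fun r hr => (h.2.2 r hr).1)
    (fun r hr => (h.2.2 r hr).2.trans (h'.2.2 r hr).2.symm) (h.2.1.trans h'.2.1.symm)

/-- extension of a partial lift beyond `T` -/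
theorem PL.extend {y0 t : ℂ} {T : ℝ} {η : ℝ → ℂ} (hT : 0 ≤ T) (h : PL y0 t T η) :
    ∃ ε : ℝ, 0 < ε ∧ ∃ η', PL y0 t (T + ε) η' := by
  have hTI : T ∈ Icc (0 : ℝ) T := ⟨hT, le_rfl⟩
  obtain ⟨hsT, hGT⟩ := h.2.2 T hTI
  obtain ⟨g, hg1, hg2, -, -⟩ := exists_local_inv hsT
  have hγ : Continuous (fun r : ℝ => G y0 * exp (r * t)) := by fun_prop
  have h1 : ∀ᶠ r : ℝ in 𝓝 T, G (g (G y0 * exp (r * t))) = G y0 * exp (r * t) ∧
      sin (g (G y0 * exp (r * t))) ≠ 0 ∧ ContinuousAt g (G y0 * exp (r * t)) := by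
    have := hγ.continuousAt (x := T)
    rw [hGT] at hg2
    exact this.eventually hg2
  obtain ⟨ε, hε, hball⟩ := Metric.eventually_nhds_iff.1 h1
  have hmem : ∀ r ∈ Icc T (T + ε / 2), dist r T < ε := by
    intro r hr
    rw [Real.dist_eq, abs_of_nonneg (by linarith [hr.1])]
    linarith [hr.2]
  refine ⟨ε / 2, by positivity, fun r => if r ≤ T then η r else g (G y0 * exp (r * t)), ?_, ?_, ?_⟩
  · have e1 : EqOn (fun r : ℝ => if r ≤ T then η r else g (G y0 * exp (r * t))) η (Icc 0 T) :=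
      fun r hr => by simp only [if_pos hr.2]
    have e2 : EqOn (fun r : ℝ => if r ≤ T then η r else g (G y0 * exp (r * t)))
        (fun r => g (G y0 * exp (r * t))) (Icc T (T + ε / 2)) := by
      intro r hr
      rcases eq_or_lt_of_le hr.1 with he | hl
      · subst he
        simp only [le_refl, if_true]
        rw [← hGT, hg1]
      · simp only [if_neg (not_le.2 hl)]
    have c1 := (continuousOn_congr e1).2 h.1
    have c2 : ContinuousOn (fun r : ℝ => g (G y0 * exp (r * t))) (Icc T (T + ε / 2)) := by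
      intro r hr
      have := (hball (hmem r hr)).2.2
      exact (ContinuousAt.comp (f := fun r : ℝ => G y0 * exp (r * t)) this
        hγ.continuousAt).continuousWithinAt
    have c3 := (continuousOn_congr e2).2 c2
    have := c1.union_of_isClosed c3 isClosed_Icc isClosed_Icc
    rwa [Icc_union_Icc_eq_Icc hT (by linarith)] at this
  · simp only [if_pos hT]
    exact h.2.1
  · intro r hr
    by_cases hrT : r ≤ T
    · simp only [if_pos hrT]
      exact h.2.2 r ⟨hr.1, hrT⟩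
    · simp only [if_neg hrT]
      have := hball (hmem r ⟨(not_le.1 hrT).le, hr.2⟩)
      exact ⟨this.2.1, this.1⟩

/-- the limit of a partial lift on `[0, T)`, `T ≤ 1` -/
theorem PL.limit {y0 t : ℂ} (h : sin y0 ≠ 0) (hF : Fwd y0 t) {T : ℝ} (hT : 0 < T) (hT1 : T ≤ 1)
    (hex : ∀ T' : ℝ, 0 ≤ T' → T' < T → ∃ η, PL y0 t T' η) : ∃ η, PL y0 t T η := by
  classical
  -- the union of the partial lifts
  choose! L hL using hex
  set F : ℝ → ℂ := fun r => L r r with hFd
  have hFL : ∀ T' : ℝ, 0 ≤ T' → T' < T → EqOn F (L T') (Icc 0 T') := by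
    intro T' h0 h1 r hr
    have hr1 : r < T := hr.2.trans_lt h1
    exact (hL r hr.1 hr1).unique ((hL T' h0 h1).mono hr.2) ⟨hr.1, le_rfl⟩
  have hFG : ∀ r : ℝ, 0 ≤ r → r < T → sin (F r) ≠ 0 ∧ G (F r) = G y0 * exp (r * t) :=
    fun r h0 h1 => (hL r h0 h1).2.2 r ⟨h0, le_rfl⟩
  have hF0 : F 0 = y0 := (hL 0 le_rfl hT).2.1
  have hFc : ∀ T' : ℝ, T' < T → ContinuousOn F (Icc 0 T') := by
    intro T' h1
    rcases lt_or_ge T' 0 with h0 | h0
    · rw [Icc_eq_empty (not_le.2 h0)]; exact continuousOn_empty F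
    · exact (continuousOn_congr (hFL T' h0 h1)).2 (hL T' h0 h1).1
  have hFat : ∀ r ∈ Ioo (0 : ℝ) T, ContinuousAt F r := by
    intro r hr
    have h1 : (r + T) / 2 < T := by linarith [hr.2]
    exact (hFc _ h1).continuousAt (Icc_mem_nhds hr.1 (by linarith [hr.2]))
  have hFd' : ∀ r ∈ Ioo (0 : ℝ) T, HasDerivAt F (t * V (F r)) r := by
    intro r hr
    refine hasDerivAt_lift_real (a := G y0) (hFat r hr) (hFG r hr.1.le hr.2).1 ?_
    filter_upwards [Ioo_mem_nhds hr.1 hr.2] with s hs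
    exact (hFG s hs.1.le hs.2).2
  -- the distance to the asymptotic value
  obtain ⟨c, hc, hcd⟩ : ∃ c : ℝ, 0 < c ∧ ∀ r ∈ Icc (0 : ℝ) 1,
      c ≤ ‖G y0 ^ 2 * exp (2 * (r * t)) - tipc‖ := by
    have hcont : ContinuousOn (fun r : ℝ => ‖G y0 ^ 2 * exp (2 * (r * t)) - tipc‖) (Icc 0 1) := by
      fun_prop
    obtain ⟨r0, hr0, hmin⟩ := isCompact_Icc.exists_isMinOn (nonempty_Icc.2 zero_le_one) hcont
    refine ⟨_, norm_pos_iff.2 (sub_ne_zero.2 (hF r0 hr0)), fun r hr => hmin hr⟩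
  obtain ⟨K, hK, hKV⟩ := exists_V_bound hc
  have hV : ∀ r : ℝ, 0 ≤ r → r < T → ‖V (F r)‖ ≤ K := by
    intro r h0 h1
    refine hKV _ (hFG r h0 h1).1 ?_
    have h2 := (hFG r h0 h1).2
    have h3 : G (F r) ^ 2 = G y0 ^ 2 * exp (2 * (r * t)) := by
      rw [h2, mul_pow, ← Complex.exp_nat_mul]; norm_num
    rw [h3]
    exact hcd r ⟨h0, h1.le.trans hT1⟩
  have hlip : LipschitzOnWith (Real.toNNReal (‖t‖ * K)) F (Ioo 0 T) := by
    refine LipschitzOnWith.of_dist_le_mul fun x hx y hy => ?_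
    rw [Real.coe_toNNReal _ (by positivity), dist_eq_norm, dist_eq_norm]
    refine (convex_Ioo (0 : ℝ) T).norm_image_sub_le_of_norm_hasDerivWithin_le
      (f' := fun r => t * V (F r)) (fun r hr => (hFd' r hr).hasDerivWithinAt) (fun r hr => ?_) hy hx
    rw [norm_mul]
    exact mul_le_mul_of_nonneg_left (hV r hr.1.le hr.2) (norm_nonneg _)
  obtain ⟨g, hg, hgF⟩ := hlip.extend_finite_dimension
  have hgc : Continuous g := hg.continuous
  set y1 := g T with hy1
  have hlim : Tendsto F (𝓝[<] T) (𝓝 y1) := by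
    have h1 : Tendsto g (𝓝[<] T) (𝓝 y1) := hgc.continuousAt.tendsto.mono_left nhdsWithin_le_nhds
    refine h1.congr' ?_
    filter_upwards [Ioo_mem_nhdsLT hT] with r hr
    exact (hgF hr).symm
  -- `sin y1 ≠ 0`
  have hsin : sin y1 ≠ 0 := by
    intro hs0
    by_cases hy0 : y1 = 0
    · -- `G (F r) → 0`
      obtain ⟨C, hC, hCG⟩ := exists_G_small
      have h1 : ∀ᶠ r in 𝓝[<] T, ‖G (F r)‖ ≤ C * ‖F r‖ := by
        have h2 : ∀ᶠ r in 𝓝[<] T, ‖F r‖ < 1 := by
          have := hlim.norm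
          rw [hy0, norm_zero] at this
          exact this.eventually (gt_mem_nhds one_pos)
        filter_upwards [h2, Ioo_mem_nhdsLT hT] with r hr1 hr2
        exact hCG _ hr1.le (hFG r hr2.1.le hr2.2).1
      have h3 : Tendsto (fun r => C * ‖F r‖) (𝓝[<] T) (𝓝 0) := by
        have := hlim.norm.const_mul C
        rwa [hy0, norm_zero, mul_zero] at this
      have h4 : Tendsto (fun r : ℝ => ‖G (F r)‖) (𝓝[<] T) (𝓝 ‖G y0 * exp (T * t)‖) := by
        have h5 : Tendsto (fun r : ℝ => ‖G y0 * exp (r * t)‖) (𝓝[<] T)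
            (𝓝 ‖G y0 * exp (T * t)‖) := by
          have : Continuous (fun r : ℝ => ‖G y0 * exp (r * t)‖) := by fun_prop
          exact this.continuousAt.tendsto.mono_left nhdsWithin_le_nhds
        refine h5.congr' ?_
        filter_upwards [Ioo_mem_nhdsLT hT] with r hr
        rw [(hFG r hr.1.le hr.2).2]
      have h6 := le_of_tendsto_of_tendsto h4 h3 h1
      have h7 : 0 < ‖G y0 * exp (T * t)‖ :=
        norm_pos_iff.2 (mul_ne_zero (G_ne_zero h) (exp_ne_zero _))
      linarith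
    · -- the cotangent stays bounded
      have hpos : 0 < ‖y1‖ := norm_pos_iff.2 hy0
      have h1 : ∀ᶠ r in 𝓝[<] T, ‖y1‖ / 2 < ‖F r‖ :=
        hlim.norm.eventually (lt_mem_nhds (by linarith))
      obtain ⟨a, ha, haT⟩ := (mem_nhdsLT_iff_exists_Ioo_subset' hT).1
        (Filter.inter_mem h1 (Ioo_mem_nhdsLT hT))
      have ha' : a < T := ha
      set b := (a + T) / 2 with hb
      have hbm : b ∈ Ioo a T := ⟨by rw [hb]; linarith, by rw [hb]; linarith⟩
      have hcot : ∀ r ∈ Ioo a T, HasDerivAt (fun s => cos (F s) / sin (F s)) (-(t / F r)) r := by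
        intro r hr
        have hr1 := (haT hr).2
        have hs1 := (hFG r hr1.1.le hr1.2).1
        have h2 := ((hasStrictDerivAt_ctg hs1).hasDerivAt).comp r (hFd' r hr1)
        refine h2.congr_deriv ?_
        have := ne_zero_of_sin hs1
        unfold V
        field_simp
      set B : ℝ := ‖cos (F b) / sin (F b)‖ + ‖t‖ / (‖y1‖ / 2) * T with hB
      have hbd : ∀ r ∈ Ioo a T, ‖cos (F r) / sin (F r)‖ ≤ B := by
        intro r hr
        have h3 := (convex_Ioo a T).norm_image_sub_le_of_norm_hasDerivWithin_le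
          (f := fun s => cos (F s) / sin (F s)) (f' := fun r => -(t / F r))
          (C := ‖t‖ / (‖y1‖ / 2))
          (fun r hr => (hcot r hr).hasDerivWithinAt) (fun s hs => by
            rw [norm_neg, norm_div]
            exact div_le_div_of_nonneg_left (norm_nonneg _) (by positivity) (haT hs).1.le) hbm hr
        have h4 : ‖r - b‖ ≤ T := by
          rw [Real.norm_eq_abs, abs_le]
          have := (haT hr).2
          have := (haT hbm).2
          constructor <;> linarith [(haT hr).2.1, (haT hr).2.2, (haT hbm).2.1, (haT hbm).2.2]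
        have h5 : ‖cos (F r) / sin (F r)‖ ≤ ‖cos (F b) / sin (F b)‖ +
            ‖cos (F r) / sin (F r) - cos (F b) / sin (F b)‖ := by
          have := norm_add_le (cos (F b) / sin (F b))
            (cos (F r) / sin (F r) - cos (F b) / sin (F b))
          rwa [add_sub_cancel] at this
        calc ‖cos (F r) / sin (F r)‖ ≤ _ := h5
          _ ≤ ‖cos (F b) / sin (F b)‖ + ‖t‖ / (‖y1‖ / 2) * ‖r - b‖ := by gcongr
          _ ≤ B := by rw [hB]; gcongr
      have h6 : ∀ᶠ r in 𝓝[<] T, ‖cos (F r)‖ ≤ B * ‖sin (F r)‖ := by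
        filter_upwards [Ioo_mem_nhdsLT ha'] with r hr
        have hr1 := (haT hr).2
        have hs1 := (hFG r hr1.1.le hr1.2).1
        have := hbd r hr
        rw [norm_div, div_le_iff₀ (norm_pos_iff.2 hs1)] at this
        exact this
      have h7 : Tendsto (fun r => ‖cos (F r)‖) (𝓝[<] T) (𝓝 ‖cos y1‖) :=
        ((continuous_cos.continuousAt.tendsto).comp hlim).norm
      have h8 : Tendsto (fun r => B * ‖sin (F r)‖) (𝓝[<] T) (𝓝 (B * ‖sin y1‖)) :=
        (((continuous_sin.continuousAt.tendsto).comp hlim).norm).const_mul B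
      have h9 := le_of_tendsto_of_tendsto h7 h8 h6
      rw [hs0, norm_zero, mul_zero] at h9
      have h10 : cos y1 = 0 := norm_le_zero_iff.1 h9
      have := sin_sq_add_cos_sq y1
      rw [hs0, h10] at this
      simp at this
  -- the extension by `y1`
  refine ⟨fun r => if r < T then F r else y1, ?_, ?_, ?_⟩
  · have e1 : EqOn (fun r : ℝ => if r < T then F r else y1) F (Icc 0 (T / 2)) :=
      fun r hr => by simp only [if_pos (show r < T by linarith [hr.2])]
    have e2 : EqOn (fun r : ℝ => if r < T then F r else y1) g (Icc (T / 2) T) := by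
      intro r hr
      by_cases hrT : r < T
      · simp only [if_pos hrT]
        exact hgF ⟨by linarith [hr.1], hrT⟩
      · simp only [if_neg hrT]
        rw [hy1, le_antisymm hr.2 (not_lt.1 hrT)]
    have c1 := (continuousOn_congr e1).2 (hFc (T / 2) (by linarith))
    have c3 := (continuousOn_congr e2).2 hgc.continuousOn
    have := c1.union_of_isClosed c3 isClosed_Icc isClosed_Icc
    rwa [Icc_union_Icc_eq_Icc (by linarith) (by linarith)] at this
  · simp only [if_pos hT]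
    exact hF0
  · intro r hr
    by_cases hrT : r < T
    · simp only [if_pos hrT]
      exact hFG r hr.1 hrT
    · simp only [if_neg hrT]
      refine ⟨hsin, ?_⟩
      have hrT' : r = T := le_antisymm hr.2 (not_lt.1 hrT)
      rw [hrT']
      have h1 : Tendsto (fun r => G (F r)) (𝓝[<] T) (𝓝 (G y1)) :=
        ((continuousAt_G hsin).tendsto).comp hlim
      have h2 : Tendsto (fun r : ℝ => G (F r)) (𝓝[<] T) (𝓝 (G y0 * exp (T * t))) := by
        have h5 : Tendsto (fun r : ℝ => G y0 * exp (r * t)) (𝓝[<] T)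
            (𝓝 (G y0 * exp (T * t))) := by
          have : Continuous (fun r : ℝ => G y0 * exp (r * t)) := by fun_prop
          exact this.continuousAt.tendsto.mono_left nhdsWithin_le_nhds
        refine h5.congr' ?_
        filter_upwards [Ioo_mem_nhdsLT hT] with r hr
        rw [(hFG r hr.1.le hr.2).2]
      exact tendsto_nhds_unique h1 h2

/-- lifts exist as long as the path avoids `tipc` -/
theorem exists_isLift {y0 t : ℂ} (h : sin y0 ≠ 0) (hF : Fwd y0 t) : ∃ η, IsLift y0 t η := by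
  set S : Set ℝ := {T | ∃ η, PL y0 t T η} with hS
  have h0 : (0 : ℝ) ∈ S := by
    refine ⟨fun _ => y0, continuousOn_const, rfl, fun r hr => ⟨h, ?_⟩⟩
    have : r = 0 := le_antisymm hr.2 hr.1
    simp [this]
  have hdown : ∀ T ∈ S, ∀ T', T' ≤ T → T' ∈ S := by
    rintro T ⟨η, hη⟩ T' hT'
    exact ⟨η, hη.mono hT'⟩
  have hcl : IsClosed (S ∩ Icc (0 : ℝ) 1) := by
    refine isClosed_of_closure_subset fun T hT => ?_
    have hTI : T ∈ Icc (0 : ℝ) 1 :=
      closure_minimal inter_subset_right isClosed_Icc hT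
    refine ⟨?_, hTI⟩
    rcases eq_or_lt_of_le hTI.1 with he | hl
    · rw [← he]; exact h0
    · refine PL.limit h hF hl hTI.2 fun T' h0' h1 => ?_
      obtain ⟨x, hx, hxS⟩ := mem_closure_iff.1 hT (Ioi T') isOpen_Ioi h1
      exact hdown x hxS.1 T' (le_of_lt hx)
  have h1 : (1 : ℝ) ∈ S := by
    refine hcl.mem_of_ge_of_forall_exists_gt h0 zero_le_one ?_
    rintro T ⟨⟨η, hη⟩, hTI⟩
    obtain ⟨ε, hε, η', hη'⟩ := hη.extend hTI.1
    refine ⟨min (T + ε) 1, ⟨η', hη'.mono (min_le_left _ _)⟩, ?_, min_le_right _ _⟩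
    exact lt_min (by linarith) hTI.2
  obtain ⟨η, hη⟩ := h1
  exact ⟨η, hη.1, hη.2.1, hη.2.2⟩

/-- lifts are unique -/
theorem isLift_unique {y0 t : ℂ} {η η' : ℝ → ℂ} (h : IsLift y0 t η) (h' : IsLift y0 t η') :
    EqOn η η' (Icc 0 1) :=
  PL.unique (t := t) (y0 := y0) h h'

end Pool.Agent.MP_ae5b4e_an_WB
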