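import Pool.Agent.Lib.MP_ae5b4e_an_WB.GB

/-!
# POR (iii), N2, Lemma B, flow of `G`: the lines `Re y = m π`
-/

namespace Pool.Agent.MP_ae5b4e_an_WB

open Complex Set Filter Topology

theorem sin_add_int_mul_pi' (x : ℂ) (m : ℤ) :
    sin (x + m * Real.pi) = (-1) ^ m * sin x := by
  have h := Complex.sin_antiperiodic.add_int_mul_eq (x := x) m
  rw [h, Int.cast_negOnePow]

theorem cos_add_int_mul_pi' (x : ℂ) (m : ℤ) :
    cos (x + m * Real.pi) = (-1) ^ m * cos x := by
  have h := Complex.cos_antiperiodic.add_int_mul_eq (x := x) m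
  rw [h, Int.cast_negOnePow]

/-- On the lines `Re y = m π` one has `‖G y‖ < e / 2`.

Proof. Put `y = m π + i η`, `η ≠ 0` (because `sin y ≠ 0`). `sin y = (-1) ^ m * i sinh η`,
`cos y = (-1) ^ m cosh η`, `cos y / sin y = - i cosh η / sinh η`, so
`Re (y * (cos y / sin y)) = η cosh η / sinh η`, and
`‖G y‖ = |sinh η| exp (1 - η cosh η / sinh η)`. Both factors are even in `η`; let `η > 0`:
`2 sinh η < exp η ≤ exp (η cosh η / sinh η)` since `cosh η ≥ sinh η > 0`. So
`‖G y‖ < (1 / 2) exp (1) `. (Periodicity: `Complex.sin_add_int_mul_pi`, `Complex.cos_add_int_mul_pi`;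
`sin (η * I) = sinh η * I`, `cos (η * I) = cosh η`.) -/
theorem norm_G_lt_of_re {y : ℂ} (m : ℤ) (hy : y.re = m * Real.pi) (h : sin y ≠ 0) :
    ‖G y‖ < Real.exp 1 / 2 := by
  obtain ⟨η, hη⟩ : ∃ η : ℝ, y = (η : ℂ) * I + m * Real.pi := by
    refine ⟨y.im, ?_⟩
    apply Complex.ext <;> simp [hy]
  have hsin : sin y = (-1) ^ m * (Complex.sinh η * I) := by
    rw [hη, sin_add_int_mul_pi', sin_mul_I]
  have hcos : cos y = (-1) ^ m * Complex.cosh η := by
    rw [hη, cos_add_int_mul_pi', cos_mul_I]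
  have hm1 : ((-1 : ℂ)) ^ m ≠ 0 := zpow_ne_zero _ (by norm_num)
  have hsh : Complex.sinh η ≠ 0 := by
    intro h0
    apply h
    rw [hsin, h0]
    simp
  have hshR : Real.sinh η ≠ 0 := by
    intro h0
    apply hsh
    rw [← Complex.ofReal_sinh, h0, Complex.ofReal_zero]
  have hη0 : η ≠ 0 := by
    rintro rfl
    simp at hshR
  have hnorm1 : ‖((-1 : ℂ)) ^ m‖ = 1 := by
    rw [norm_zpow, norm_neg, norm_one, one_zpow]
  have hquot : y * (cos y / sin y) =
      ((η * (Real.cosh η / Real.sinh η) : ℝ) : ℂ) +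
        ((-(m * Real.pi * (Real.cosh η / Real.sinh η)) : ℝ) : ℂ) * I := by
    have h1 : cos y / sin y = -(((Real.cosh η / Real.sinh η : ℝ) : ℂ) * I) := by
      rw [hsin, hcos, mul_div_mul_left _ _ hm1]
      push_cast
      rw [div_mul_eq_div_div, div_I]
    rw [h1]
    nth_rewrite 1 [hη]
    push_cast
    linear_combination (-(η : ℂ) * (Complex.cosh η / Complex.sinh η)) * I_sq
  have hG : ‖G y‖ = |Real.sinh η| * Real.exp (1 - η * (Real.cosh η / Real.sinh η)) := by
    rw [G, norm_mul, Complex.norm_exp, hquot, hsin, norm_mul, norm_mul, hnorm1, norm_I, mul_one,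
      one_mul, ← Complex.ofReal_sinh, Complex.norm_real, Real.norm_eq_abs]
    congr 2
    rw [Complex.sub_re, Complex.one_re, Complex.add_re, Complex.ofReal_re, Complex.mul_I_re,
      Complex.ofReal_im, neg_zero, add_zero]
  rw [hG]
  -- evenness
  have ha : 0 < |η| := abs_pos.mpr hη0
  have e1 : |Real.sinh η| = Real.sinh |η| := by
    rw [Real.abs_sinh]
  have e2 : η * (Real.cosh η / Real.sinh η) = |η| * (Real.cosh |η| / Real.sinh |η|) := by
    rcases abs_choice η with h1 | h1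
    · rw [h1]
    · rw [h1, Real.cosh_neg, Real.sinh_neg, div_neg]
      ring
  rw [e1, e2]
  have hs0 : 0 < Real.sinh |η| := Real.sinh_pos_iff.mpr ha
  have h2 : Real.sinh |η| < Real.exp |η| / 2 := by
    rw [Real.sinh_eq]
    have := Real.exp_pos (-|η|)
    linarith
  have h3 : 1 ≤ Real.cosh |η| / Real.sinh |η| := by
    rw [le_div_iff₀ hs0, one_mul]
    exact (Real.sinh_lt_cosh _).le
  have h4 : Real.exp (1 - |η| * (Real.cosh |η| / Real.sinh |η|)) ≤ Real.exp (1 - |η|) := by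
    apply Real.exp_le_exp.mpr
    nlinarith
  calc Real.sinh |η| * Real.exp (1 - |η| * (Real.cosh |η| / Real.sinh |η|))
      ≤ Real.sinh |η| * Real.exp (1 - |η|) := mul_le_mul_of_nonneg_left h4 hs0.le
    _ < Real.exp |η| / 2 * Real.exp (1 - |η|) := mul_lt_mul_of_pos_right h2 (Real.exp_pos _)
    _ = Real.exp 1 / 2 := by
      rw [div_mul_eq_mul_div, ← Real.exp_add]
      congr 2
      ring

end Pool.Agent.MP_ae5b4e_an_WB
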