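import Pool.Agent.Lib.MP_ae5b4e_an_WB.GL

/-!
# POR (iii), N2, Lemma B, flow of `G`: the end point of the lift
-/

namespace Pool.Agent.MP_ae5b4e_an_WB

open Complex Set Filter Topology

theorem Fl_eq {y0 t : ℂ} {η : ℝ → ℂ} (h : IsLift y0 t η) : Fl y0 t = η 1 := by
  have hex : ∃ η, IsLift y0 t η := ⟨η, h⟩
  unfold Fl
  rw [dif_pos hex]
  exact isLift_unique (Classical.choose_spec hex) h ⟨zero_le_one, le_rfl⟩

/-- restriction of a lift -/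
theorem IsLift.restrict {y0 t : ℂ} {η : ℝ → ℂ} (h : IsLift y0 t η) {r : ℝ}
    (hr : r ∈ Icc (0 : ℝ) 1) : IsLift y0 (r * t) (fun s => η (s * r)) := by
  have hm : MapsTo (fun s : ℝ => s * r) (Icc 0 1) (Icc 0 1) := fun s hs =>
    ⟨mul_nonneg hs.1 hr.1, mul_le_one₀ hs.2 hr.1 hr.2⟩
  refine ⟨h.1.comp (by fun_prop) hm, by simp [h.2.1], fun s hs => ?_⟩
  have := h.2.2 _ (hm hs)
  refine ⟨this.1, ?_⟩
  rw [this.2]
  push_cast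
  rw [mul_assoc]

/-- intermediate points -/
theorem Fl_mul_eq {y0 t : ℂ} {η : ℝ → ℂ} (h : IsLift y0 t η) {r : ℝ} (hr : r ∈ Icc (0 : ℝ) 1) :
    Fl y0 (r * t) = η r := by
  rw [Fl_eq (h.restrict hr), one_mul]

theorem Fwd_zero {y0 : ℂ} (h : sin y0 ≠ 0) (h2 : G y0 ^ 2 ≠ tipc) : Fwd y0 0 := by
  intro r _
  simpa using h2

theorem isLift_zero {y0 : ℂ} (h : sin y0 ≠ 0) : IsLift y0 0 (fun _ => y0) :=
  ⟨continuousOn_const, rfl, fun r _ => ⟨h, by simp⟩⟩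

theorem Fl_zero {y0 : ℂ} (h : sin y0 ≠ 0) : Fl y0 0 = y0 :=
  Fl_eq (isLift_zero h)

theorem sin_Fl_ne_zero {y0 t : ℂ} (h : sin y0 ≠ 0) (hF : Fwd y0 t) : sin (Fl y0 t) ≠ 0 := by
  obtain ⟨η, hη⟩ := exists_isLift h hF
  rw [Fl_eq hη]
  exact (hη.2.2 1 ⟨zero_le_one, le_rfl⟩).1

theorem Fl_ne_zero {y0 t : ℂ} (h : sin y0 ≠ 0) (hF : Fwd y0 t) : Fl y0 t ≠ 0 :=
  ne_zero_of_sin (sin_Fl_ne_zero h hF)

theorem G_Fl {y0 t : ℂ} (h : sin y0 ≠ 0) (hF : Fwd y0 t) : G (Fl y0 t) = G y0 * exp t := by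
  obtain ⟨η, hη⟩ := exists_isLift h hF
  rw [Fl_eq hη, (hη.2.2 1 ⟨zero_le_one, le_rfl⟩).2]
  simp

theorem Fwd.mul {y0 t : ℂ} (hF : Fwd y0 t) {r : ℝ} (hr : r ∈ Icc (0 : ℝ) 1) : Fwd y0 (r * t) := by
  intro s hs
  have := hF (s * r) ⟨mul_nonneg hs.1 hr.1, mul_le_one₀ hs.2 hr.1 hr.2⟩
  push_cast at this
  rwa [mul_assoc (s : ℂ)] at this

theorem Fwd.ne {y0 t : ℂ} (hF : Fwd y0 t) : G y0 ^ 2 ≠ tipc := by
  have := hF 0 ⟨le_rfl, zero_le_one⟩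
  simpa using this

/-- the flow along the segment is a lift -/
theorem isLift_Fl {y0 t : ℂ} (h : sin y0 ≠ 0) (hF : Fwd y0 t) :
    IsLift y0 t (fun r => Fl y0 (r * t)) := by
  obtain ⟨η, hη⟩ := exists_isLift h hF
  have he : EqOn (fun r : ℝ => Fl y0 (r * t)) η (Icc 0 1) := fun r hr => Fl_mul_eq hη hr
  refine ⟨(continuousOn_congr he).2 hη.1, ?_, fun r hr => ?_⟩
  · have := he ⟨le_rfl, zero_le_one⟩
    rw [this, hη.2.1]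
  · have h1 := he hr
    simp only at h1
    simp only [h1]
    exact hη.2.2 r hr

end Pool.Agent.MP_ae5b4e_an_WB
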