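import Pool.Agent.Lib.MP_ae5b4e_an_WB.GoodL
import Pool.Agent.Lib.MP_ae5b4e_an_WB.Flow

/-!
# POR (iii), N2, Lemma B: functions that are equal to a good function for small `t > 0`; labels off
the tip heights
-/

namespace Pool.Agent.MP_ae5b4e_an_WB

open Complex Set Filter Topology MeasureTheory Metric

/-- `f` agrees with a good function for small `t > 0` -/
def GermGood (u : ℂ) (f : ℝ → ℂ) : Prop :=
  ∃ g : ℝ → ℂ, Good u g ∧ ∃ τ : ℝ, 0 < τ ∧ ∀ t ∈ Ioo (0 : ℝ) τ, f t = g t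

/-- the label `l` is not met by a tip of the family at any time `t ≥ 0` -/
def Off (u gs : ℂ) (q : ℂ → ℂ) (l : ℂ) : Prop :=
  ∀ t : ℝ, 0 ≤ t → gs ^ 2 * q l * exp (2 * (u * t)) ≠ tipc

theorem GermGood.zero (u : ℂ) : GermGood u (fun _ => 0) := by
  exact ⟨fun _ => 0, Good.zero u, 1, one_pos, fun _ _ => rfl⟩

theorem GermGood.add {u : ℂ} {f g : ℝ → ℂ} (hf : GermGood u f) (hg : GermGood u g) :
    GermGood u (fun t => f t + g t) := by
  obtain ⟨f', hf', τ, hτ, h⟩ := hf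
  obtain ⟨g', hg', σ, hσ, h'⟩ := hg
  refine ⟨fun t => f' t + g' t, hf'.add hg', min τ σ, lt_min hτ hσ, fun t ht => ?_⟩
  change f t + g t = f' t + g' t
  rw [h t ⟨ht.1, ht.2.trans_le (min_le_left _ _)⟩, h' t ⟨ht.1, ht.2.trans_le (min_le_right _ _)⟩]

theorem GermGood.neg {u : ℂ} {f : ℝ → ℂ} (hf : GermGood u f) : GermGood u (fun t => -f t) := by
  obtain ⟨f', hf', τ, hτ, h⟩ := hf
  refine ⟨fun t => -f' t, hf'.neg, τ, hτ, fun t ht => ?_⟩
  change -f t = -f' t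
  rw [h t ht]

theorem GermGood.sub {u : ℂ} {f g : ℝ → ℂ} (hf : GermGood u f) (hg : GermGood u g) :
    GermGood u (fun t => f t - g t) := by
  obtain ⟨f', hf', τ, hτ, h⟩ := hf
  obtain ⟨g', hg', σ, hσ, h'⟩ := hg
  refine ⟨fun t => f' t - g' t, hf'.sub hg', min τ σ, lt_min hτ hσ, fun t ht => ?_⟩
  change f t - g t = f' t - g' t
  rw [h t ⟨ht.1, ht.2.trans_le (min_le_left _ _)⟩, h' t ⟨ht.1, ht.2.trans_le (min_le_right _ _)⟩]

theorem GermGood.congr {u : ℂ} {f g : ℝ → ℂ} (hf : GermGood u f) {τ : ℝ} (hτ : 0 < τ)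
    (h : ∀ t ∈ Ioo (0 : ℝ) τ, f t = g t) : GermGood u g := by
  obtain ⟨f', hf', σ, hσ, h'⟩ := hf
  refine ⟨f', hf', min τ σ, lt_min hτ hσ, fun t ht => ?_⟩
  rw [← h t ⟨ht.1, ht.2.trans_le (min_le_left _ _)⟩,
    h' t ⟨ht.1, ht.2.trans_le (min_le_right _ _)⟩]

theorem Off.fwdAll {u gs : ℂ} {q : ℂ → ℂ} {l y : ℂ} (h : Off u gs q l)
    (hy : G y ^ 2 = gs ^ 2 * q l) : FwdAll u y := by
  intro t ht
  rw [hy]
  exact h t ht

/-- `Off` is an open condition (at labels with `q ≠ 0`): the set `tipc exp (-2 u [0, oo)) ∪ {0}` is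
closed. -/
theorem Off.eventually {u gs : ℂ} (hu : 0 < u.re) (hgs : gs ≠ 0) {q : ℂ → ℂ} {P : ℂ}
    (hq : ContinuousAt q P) (hP : q P ≠ 0) (h : Off u gs q P) : ∀ᶠ l in 𝓝 P, Off u gs q l := by
  have hz : gs ^ 2 * q P ≠ 0 := mul_ne_zero (pow_ne_zero 2 hgs) hP
  have hcont : Tendsto (fun l => gs ^ 2 * q l) (𝓝 P) (𝓝 (gs ^ 2 * q P)) :=
    (continuousAt_const.mul hq)
  have hO : ∀ t : ℝ, 0 ≤ t → (gs ^ 2 * q P) * exp (2 * (u * t)) ≠ tipc := h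
  generalize gs ^ 2 * q P = z₀ at hz hcont hO
  have H : ∀ᶠ z in 𝓝 z₀, ∀ t : ℝ, 0 ≤ t → z * exp (2 * (u * t)) ≠ tipc := by
    have hz0 : 0 < ‖z₀‖ := norm_pos_iff.2 hz
    have h1 : ∀ᶠ z in 𝓝 z₀, ‖z₀‖ / 2 < ‖z‖ :=
      continuous_norm.continuousAt.eventually (lt_mem_nhds (half_lt_self hz0))
    have h2 : ∀ᶠ z in 𝓝 z₀, ∀ t ∈ Icc (0 : ℝ) (‖tipc‖ / (‖z₀‖ * u.re)),
        z * exp (2 * (u * (t : ℂ))) ≠ tipc := by
      refine isCompact_Icc.eventually_forall_of_forall_eventually (fun t ht => ?_)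
      have hc : ContinuousAt (fun z : ℂ × ℝ => z.1 * exp (2 * (u * (z.2 : ℂ)))) (z₀, t) := by
        fun_prop
      exact hc.eventually_ne (hO t ht.1)
    filter_upwards [h1, h2] with z hz1 hz2 t ht
    rcases le_or_gt t (‖tipc‖ / (‖z₀‖ * u.re)) with hle | hgt
    · exact hz2 t ⟨ht, hle⟩
    · intro heq
      have h3 : ‖z‖ * Real.exp (2 * (u.re * t)) = ‖tipc‖ := by
        rw [← heq, norm_mul, Complex.norm_exp]
        congr 2
        simp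
      have h4 : ‖tipc‖ < t * (‖z₀‖ * u.re) := by
        rwa [div_lt_iff₀ (mul_pos hz0 hu)] at hgt
      have h5 : 2 * (u.re * t) + 1 ≤ Real.exp (2 * (u.re * t)) := Real.add_one_le_exp _
      have h6 : 0 ≤ 2 * (u.re * t) := mul_nonneg zero_le_two (mul_nonneg hu.le ht)
      have h7 : ‖z₀‖ / 2 * (2 * (u.re * t)) ≤ ‖z‖ * Real.exp (2 * (u.re * t)) :=
        mul_le_mul hz1.le (by linarith) h6 (norm_nonneg _)
      rw [h3] at h7
      nlinarith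
  exact hcont.eventually H

end Pool.Agent.MP_ae5b4e_an_WB
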