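import Pool.Agent.Lib.MP_ae5b4e_an_WB.ChartB
import Pool.Agent.Lib.MP_ae5b4e_an_WB.FwdP
import Pool.Agent.Lib.MP_ae5b4e_an_WB.Germ

/-!
# POR (iii), N2, Lemma B: local facts about a local primitive
-/

namespace Pool.Agent.MP_ae5b4e_an_WB

open Complex Set Filter Topology MeasureTheory Metric

/-- the rectangle is open -/
theorem LocH_isOpen_Rc (T δ : ℝ) : IsOpen (Rc T δ) := by
  have h1 : IsOpen {ω : ℂ | -T - δ < ω.re} := isOpen_lt continuous_const continuous_re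
  have h2 : IsOpen {ω : ℂ | ω.re < δ} := isOpen_lt continuous_re continuous_const
  have h3 : IsOpen {ω : ℂ | |ω.im| < δ} := isOpen_lt continuous_im.abs continuous_const
  exact h1.inter (h2.inter h3)

/-- Sheet in the chart. `G (Y (lam ω)) = W e^(uω)`, `W = G (Y P)`: both squares agree
(`G (Y l)^2 = gs^2 q l`, `q (lam ω) = q P e^(2uω)`), the quotient is continuous on the ball `= ± 1`, and `1` at
`0`. Flow: `η r = Y (lam (ω1 + r (ω2 - ω1)))` is a lift, `Fl_eq`. -/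
theorem exists_locH {u gs : ℂ} {q : ℂ → ℂ} {P : ℂ} {ρ τ : ℝ} {Y lam : ℂ → ℂ} {F : ℂ → ℝ → ℂ}
    (hρ : 0 < ρ) (hL : LocPrim u gs q (ball P ρ) τ Y F) (hlam : IsChart u q P lam) :
    ∃ r : ℝ, 0 < r ∧ r ≤ 1 ∧ DifferentiableOn ℂ lam (ball 0 r) ∧
      (∀ ω ∈ ball (0 : ℂ) r, lam ω ∈ ball P ρ ∧ q (lam ω) = q P * exp (2 * (u * ω)) ∧
        G (Y (lam ω)) = G (Y P) * exp (u * ω)) ∧
      ∀ ω1 ∈ ball (0 : ℂ) r, ∀ ω2 ∈ ball (0 : ℂ) r,
        Fl (Y (lam ω1)) (u * (ω2 - ω1)) = Y (lam ω2) := by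
  obtain ⟨δ, hδ, hd, hq⟩ := hlam.hol 1 one_pos
  have hop := LocH_isOpen_Rc 1 δ
  have h0 : (0 : ℂ) ∈ Rc 1 δ := by
    refine ⟨?_, ?_, ?_⟩
    · simp only [zero_re]; linarith
    · simpa using hδ
    · simpa using hδ
  have hc0 : ContinuousAt lam 0 := (hd.differentiableAt (hop.mem_nhds h0)).continuousAt
  have hev1 : ∀ᶠ ω in 𝓝 (0 : ℂ), ω ∈ Rc 1 δ := hop.mem_nhds h0
  have hev : ∀ᶠ ω in 𝓝 (0 : ℂ), ω ∈ Rc 1 δ ∧ lam ω ∈ ball P ρ :=
    hev1.and (hc0.eventually (by rw [hlam.zero]; exact ball_mem_nhds _ hρ))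
  obtain ⟨r0, hr0, hb⟩ := Metric.eventually_nhds_iff_ball.1 hev
  have hb' : ∀ ω ∈ ball (0 : ℂ) (min r0 1), ω ∈ Rc 1 δ ∧ lam ω ∈ ball P ρ := fun ω hω =>
    hb ω (ball_subset_ball (min_le_left _ _) hω)
  have hd' : DifferentiableOn ℂ lam (ball 0 (min r0 1)) := hd.mono fun ω hω => (hb' ω hω).1
  have hPb : P ∈ ball P ρ := mem_ball_self hρ
  have hcY : ContinuousOn (fun ω => Y (lam ω)) (ball 0 (min r0 1)) :=
    hL.1.continuousOn.comp hd'.continuousOn fun ω hω => (hb' ω hω).2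
  have hcG : ContinuousOn (fun ω => G (Y (lam ω))) (ball 0 (min r0 1)) := fun ω hω =>
    ContinuousAt.comp_continuousWithinAt (g := G)
      (continuousAt_G (hL.2.1 _ (hb' ω hω).2).2.1) (hcY ω hω)
  have hGP : G (Y P) ≠ 0 := G_ne_zero (hL.2.1 _ hPb).2.1
  have hG : EqOn (fun ω => G (Y (lam ω))) (fun ω => G (Y P) * exp (u * ω))
      (ball 0 (min r0 1)) := by
    refine IsPreconnected.eq_of_sq_eq (convex_ball _ _).isPreconnected hcG (by fun_prop) ?_ ?_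
      (y := 0) (mem_ball_self (lt_min hr0 one_pos)) ?_
    · intro ω hω
      have h1 := (hL.2.1 _ (hb' ω hω).2).2.2
      have h2 := (hL.2.1 _ hPb).2.2
      have h3 := (hq ω (hb' ω hω).1).2
      simp only [Pi.pow_apply]
      rw [h1, h3, mul_pow, h2, ← exp_nat_mul]
      push_cast
      ring
    · intro ω _
      exact mul_ne_zero hGP (exp_ne_zero _)
    · simp [hlam.zero]
  refine ⟨min r0 1, lt_min hr0 one_pos, min_le_right _ _, hd',
    fun ω hω => ⟨(hb' ω hω).2, (hq ω (hb' ω hω).1).2, hG hω⟩, ?_⟩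
  intro ω1 h1 ω2 h2
  have hseg : ∀ r ∈ Icc (0 : ℝ) 1, ω1 + r * (ω2 - ω1) ∈ ball (0 : ℂ) (min r0 1) := by
    intro r hr
    have := (convex_ball (0 : ℂ) (min r0 1)) h1 h2 (a := 1 - r) (b := r)
      (by linarith [hr.2]) hr.1 (by ring)
    have he : (1 - r) • ω1 + r • ω2 = ω1 + r * (ω2 - ω1) := by
      simp only [real_smul]
      push_cast
      ring
    rwa [he] at this
  have hl : IsLift (Y (lam ω1)) (u * (ω2 - ω1)) (fun r : ℝ => Y (lam (ω1 + r * (ω2 - ω1)))) := by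
    refine ⟨?_, by simp, fun r hr => ⟨(hL.2.1 _ (hb' _ (hseg r hr)).2).2.1, ?_⟩⟩
    · exact hcY.comp (f := fun r : ℝ => ω1 + r * (ω2 - ω1)) (by fun_prop) hseg
    · have e1 := hG (hseg r hr)
      have e2 := hG h1
      simp only at e1 e2
      rw [e1, e2, mul_assoc, ← exp_add]
      congr 2
      ring
  rw [Fl_eq hl]
  simp

/-- Forward piece in a local primitive. For `0 < t < τ`: `F (c 1) t - F (c 0) t = ∫_0^1 Psi_t (c s) c' s ds`
(fundamental theorem of calculus; the integrand is continuous in `s` by `continuousOn_Fl`);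
`good_fwd` with `Yc = Y ∘ c`, `m = c'`. -/
theorem germ_fwd {u gs : ℂ} (hu : 0 < u.re) {q : ℂ → ℂ} {B : Set ℂ} {τ : ℝ} (hτ : 0 < τ)
    {Y : ℂ → ℂ} {F : ℂ → ℝ → ℂ} (hL : LocPrim u gs q B τ Y F) (hB : IsOpen B) {c c' : ℝ → ℂ}
    (hc : ∀ s ∈ Icc (0 : ℝ) 1, c s ∈ B ∧ HasDerivAt c (c' s) s ∧ Off u gs q (c s))
    (hc' : ContinuousOn c' (Icc 0 1)) :
    GermGood u (fun t => F (c 1) t - F (c 0) t) := by
  have hYc : ContinuousOn (fun s => Y (c s)) (Icc 0 1) := fun s hs =>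
    (ContinuousAt.comp (g := Y) (hL.1.differentiableAt (hB.mem_nhds (hc s hs).1)).continuousAt
      (hc s hs).2.1.continuousAt).continuousWithinAt
  have hs : ∀ s ∈ Icc (0 : ℝ) 1, sin (Y (c s)) ≠ 0 ∧ FwdAll u (Y (c s)) := fun s hs =>
    ⟨(hL.2.1 _ (hc s hs).1).2.1, (hc s hs).2.2.fwdAll (hL.2.1 _ (hc s hs).1).2.2⟩
  refine ⟨_, good_fwd hu hYc hs hc', τ, hτ, fun t ht => ?_⟩
  have hder : ∀ s ∈ uIcc (0 : ℝ) 1, HasDerivAt (fun s => F (c s) t)
      (G (Y (c s)) * exp (u * t) / Fl (Y (c s)) (u * t) * c' s) s := by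
    intro s hs'
    rw [uIcc_of_le zero_le_one] at hs'
    exact HasDerivAt.comp s (h₂ := fun l' => F l' t) (hL.2.2 t ht _ (hc s hs').1) (hc s hs').2.1
  have hint : IntervalIntegrable
      (fun s => G (Y (c s)) * exp (u * t) / Fl (Y (c s)) (u * t) * c' s) volume 0 1 := by
    refine ContinuousOn.intervalIntegrable ?_
    rw [uIcc_of_le zero_le_one]
    have hGc : ContinuousOn (fun s => G (Y (c s))) (Icc 0 1) := fun s hs' =>
      ContinuousAt.comp_continuousWithinAt (g := G) (continuousAt_G (hs s hs').1) (hYc s hs')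
    have hFc : ContinuousOn (fun s => Fl (Y (c s)) (u * t)) (Icc 0 1) :=
      continuousOn_Fl.comp (f := fun s : ℝ => (Y (c s), u * (t : ℂ)))
        (hYc.prodMk continuousOn_const) fun s hs' => ⟨(hs s hs').1, (hs s hs').2.fwd ht.1.le⟩
    exact ((hGc.mul continuousOn_const).div hFc fun s hs' =>
      Fl_ne_zero (hs s hs').1 ((hs s hs').2.fwd ht.1.le)).mul hc'
  exact (intervalIntegral.integral_eq_sub_of_hasDerivAt hder hint).symm

/-- `g = lam'` has the properties `SideG`, for `e0` smaller than the width of the first rectangle -/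
theorem sideG_chart {u : ℂ} {q : ℂ → ℂ} {P : ℂ} {lam : ℂ → ℂ} (hlam : IsChart u q P lam) :
    ∃ e1 : ℝ, 0 < e1 ∧ DifferentiableOn ℂ lam (Rc 1 e1) ∧
      ∀ T : ℝ, 0 < T → ∃ δ : ℝ, 0 < δ ∧ DifferentiableOn ℂ (deriv lam) (Rc T δ) := by
  obtain ⟨δ, hδ, hd, -⟩ := hlam.hol 1 one_pos
  refine ⟨δ, hδ, hd, fun T hT => ?_⟩
  obtain ⟨δ', hδ', hd', -⟩ := hlam.hol T hT
  exact ⟨δ', hδ', hd'.deriv (LocH_isOpen_Rc T δ')⟩

end Pool.Agent.MP_ae5b4e_an_WB
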