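import Pool.Agent.Lib.MP_ae5b4e_an_WB.Cross

/-!
# POR (iii), N2, Lemma B: local representation near every label of the path
-/

namespace Pool.Agent.MP_ae5b4e_an_WB

open Complex Set Filter Topology MeasureTheory Metric

private theorem LocRep_tipc : tipc ≠ 0 := by
  unfold tipc
  rw [Ne, neg_eq_zero, Complex.ofReal_eq_zero]
  have := Real.exp_pos 2
  intro h
  linarith

private theorem LocRep_q {u gs : ℂ} {q : ℂ → ℂ} {B : Set ℂ} {τ : ℝ} {Y : ℂ → ℂ} {F : ℂ → ℝ → ℂ}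
    (hL : LocPrim u gs q B τ Y F) {l : ℂ} (hl : l ∈ B) : q l ≠ 0 := by
  intro h
  obtain ⟨-, h1, h2⟩ := hL.2.1 l hl
  rw [h, mul_zero] at h2
  exact G_ne_zero h1 (pow_eq_zero_iff two_ne_zero |>.1 h2)

private theorem LocRep_isOpen_Hm : IsOpen Hm := isOpen_lt Complex.continuous_im continuous_const

private theorem LocRep_off {u gs : ℂ} (hu : 0 < u.re) {q : ℂ → ℂ} {P : ℂ} {r0 : ℝ}
    (hW : gs ^ 2 * q P * exp (2 * (u * r0)) = tipc) {d : ℝ} (hd : d * ‖u‖ ^ 2 ≤ 3 * u.re)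
    {l ω : ℂ} (hq : q l = q P * exp (2 * (u * ω))) (hω : |ω.im| < d) (h : ω.im ≠ 0) :
    Off u gs q l := by
  intro t ht heq
  rw [hq, ← hW] at heq
  have hA : gs ^ 2 * q P ≠ 0 := by
    intro h0
    rw [h0, zero_mul] at hW
    exact LocRep_tipc hW.symm
  have h1 : exp (2 * (u * ω)) * exp (2 * (u * t)) = exp (2 * (u * r0)) := by
    have : gs ^ 2 * q P * (exp (2 * (u * ω)) * exp (2 * (u * t))) =
        gs ^ 2 * q P * exp (2 * (u * r0)) := by
      rw [← heq]
      ring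
    exact mul_left_cancel₀ hA this
  have h2 : exp (2 * (u * (ω + t - r0))) = 1 := by
    have h3 : 2 * (u * (ω + t - r0)) = 2 * (u * ω) + 2 * (u * t) - 2 * (u * r0) := by ring
    rw [h3, Complex.exp_sub, Complex.exp_add, h1, div_self (Complex.exp_ne_zero _)]
  have him : (ω + t - r0 : ℂ).im = ω.im := by simp
  have h4 := exp_eq_one_strip hu hd (by rw [him]; exact hω) h2
  apply h
  rw [← him, h4]
  simp

private theorem LocRep_d {u : ℂ} (hu : 0 < u.re) :
    ∃ d : ℝ, 0 < d ∧ d * ‖u‖ ^ 2 ≤ 3 * u.re := by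
  have hn : 0 < ‖u‖ ^ 2 := by
    have : u ≠ 0 := by
      rintro rfl
      simp at hu
    positivity
  refine ⟨3 * u.re / ‖u‖ ^ 2, by positivity, ?_⟩
  rw [div_mul_cancel₀ _ hn.ne']

/-- a segment in the chart -/
private theorem LocRep_seg {u gs : ℂ} (hu : 0 < u.re) {q : ℂ → ℂ} {B : Set ℂ} {τ : ℝ} (hτ : 0 < τ)
    {Y : ℂ → ℂ} {F : ℂ → ℝ → ℂ} (hL : LocPrim u gs q B τ Y F) (hB : IsOpen B) {lam : ℂ → ℂ}
    {D : Set ℂ} (hD : IsOpen D) (hlam : DifferentiableOn ℂ lam D) (hDB : ∀ ω ∈ D, lam ω ∈ B)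
    {ω0 ω1 : ℂ} (hseg : ∀ s ∈ Icc (0 : ℝ) 1, ω0 + s * (ω1 - ω0) ∈ D ∧
      Off u gs q (lam (ω0 + s * (ω1 - ω0)))) :
    GermGood u (fun t => F (lam ω1) t - F (lam ω0) t) := by
  have h := germ_fwd hu hτ hL hB (c := fun s => lam (ω0 + s * (ω1 - ω0)))
    (c' := fun s => deriv lam (ω0 + s * (ω1 - ω0)) * (ω1 - ω0)) ?_ ?_
  · have h1 : ω0 + ((1 : ℝ) : ℂ) * (ω1 - ω0) = ω1 := by
      rw [Complex.ofReal_one]
      ring
    have h0 : ω0 + ((0 : ℝ) : ℂ) * (ω1 - ω0) = ω0 := by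
      rw [Complex.ofReal_zero]
      ring
    simp only [h1, h0] at h
    exact h
  · intro s hs
    obtain ⟨h1, h2⟩ := hseg s hs
    refine ⟨hDB _ h1, ?_, h2⟩
    have h3 : HasDerivAt lam (deriv lam (ω0 + s * (ω1 - ω0))) (ω0 + s * (ω1 - ω0)) :=
      (hlam.differentiableAt (hD.mem_nhds h1)).hasDerivAt
    have h4 : HasDerivAt (fun s : ℝ => ω0 + (s : ℂ) * (ω1 - ω0)) (ω1 - ω0) s := by
      have h5 : HasDerivAt (fun s : ℝ => (s : ℂ)) 1 s := Complex.ofRealCLM.hasDerivAt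
      have h6 := (h5.mul_const (ω1 - ω0)).const_add ω0
      rwa [one_mul] at h6
    exact h3.comp s h4
  · intro s hs
    obtain ⟨h1, -⟩ := hseg s hs
    have h2 : ContinuousAt (deriv lam) (ω0 + s * (ω1 - ω0)) :=
      ((hlam.deriv hD).differentiableAt (hD.mem_nhds h1)).continuousAt
    have h3 : ContinuousAt (fun s : ℝ => ω0 + (s : ℂ) * (ω1 - ω0)) s := by fun_prop
    have h4 : ContinuousAt (fun s : ℝ => deriv lam (ω0 + (s : ℂ) * (ω1 - ω0))) s :=
      ContinuousAt.comp (f := fun s : ℝ => ω0 + (s : ℂ) * (ω1 - ω0)) (g := deriv lam) h2 h3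
    exact (h4.mul continuousAt_const).continuousWithinAt

/-- LOCAL REPRESENTATION. If `P` is `Off`: all labels near `P` are `Off`, `germ_fwd` along the straight
segment. Otherwise `gs^2 q P e^(2u r0) = tipc`, `r0 ≥ 0`, `P` is good; take a chart `lam` (`exists_chart`), a
small ball `ball 0 r'` with `ball P ρ' ⊆ lam '' ball 0 r'` (`IsChart.cover`), `r' < e0`, `e0` from `germ_up`,
`germ_dn`. `Off` of `lam ω` means `ω ∉ (-oo, r0]` (`|ω|` small; `exp_eq_one_strip`). If `0 ≤ Im ω`, all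
points of the segment from `ω` to `i e0` are `Off`: `germ_fwd` with `c s = lam (ω + s (i e0 - ω))`; if
`Im ω < 0`: segment to `-i e0`. Finally
`F (lam (i e0)) - F (lam (-i e0)) = (F (lam (i e0)) - F (lam (-e0-t))) - (F (lam (-i e0)) - F (lam (-e0-t)))`. -/
theorem exists_locRep {u gs : ℂ} (hu : 0 < u.re) (hgs : gs ≠ 0) {q : ℂ → ℂ}
    (hq : DifferentiableOn ℂ q Hm) {P : ℂ} {ρ τ : ℝ} {Y : ℂ → ℂ} {F : ℂ → ℝ → ℂ} (hρ : 0 < ρ)
    (hτ : 0 < τ) (hL : LocPrim u gs q (ball P ρ) τ Y F) (hP : ¬ Off u gs q P → GoodP u q P) :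
    ∃ ρ' : ℝ, 0 < ρ' ∧ ρ' ≤ ρ ∧ ∀ l0 ∈ ball P ρ', ∀ l1 ∈ ball P ρ', Off u gs q l0 →
      Off u gs q l1 → GermGood u (fun t => F l1 t - F l0 t) := by
  have hPb : P ∈ ball P ρ := mem_ball_self hρ
  by_cases hoff : Off u gs q P
  · -- all labels near `P` are `Off`
    have hPm : P ∈ Hm := (hL.2.1 P hPb).1
    have hqc : ContinuousAt q P :=
      (hq.differentiableAt (LocRep_isOpen_Hm.mem_nhds hPm)).continuousAt
    have hev := hoff.eventually hu hgs hqc (LocRep_q hL hPb)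
    obtain ⟨ε, hε, hball⟩ := Metric.eventually_nhds_iff_ball.1 hev
    refine ⟨min ε ρ, lt_min hε hρ, min_le_right _ _, fun l0 hl0 l1 hl1 _ _ => ?_⟩
    refine LocRep_seg (lam := fun z => z) (D := ball P (min ε ρ)) hu hτ hL isOpen_ball isOpen_ball
      differentiableOn_id (fun ω hω => ball_subset_ball (min_le_right _ _) hω) ?_
    intro s hs
    have hmem : l0 + s * (l1 - l0) ∈ ball P (min ε ρ) := by
      have h1 := (convex_ball P (min ε ρ)).add_smul_sub_mem hl0 hl1 hs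
      rwa [Complex.real_smul] at h1
    exact ⟨hmem, hball _ (ball_subset_ball (min_le_left _ _) hmem)⟩
  · -- `P` is on a trajectory of a tip
    have hgood := hP hoff
    have hex : ∃ r0 : ℝ, 0 ≤ r0 ∧ gs ^ 2 * q P * exp (2 * (u * r0)) = tipc := by
      by_contra hcon
      push Not at hcon
      exact hoff hcon
    obtain ⟨r0, hr0, hW⟩ := hex
    obtain ⟨lam, hlam⟩ := exists_chart hu hq hgood
    obtain ⟨ε1, hε1, hup⟩ := germ_up hu hρ hτ hL hlam hr0 hW
    obtain ⟨ε2, hε2, hdn⟩ := germ_dn hu hρ hτ hL hlam hr0 hW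
    obtain ⟨r, hr, -, hdl, hloc, -⟩ := exists_locH hρ hL hlam
    obtain ⟨d, hd, hdu⟩ := LocRep_d hu
    obtain ⟨e0, he0, hm⟩ : ∃ e0 : ℝ, 0 < e0 ∧ e0 < min (min ε1 ε2) (min r d) :=
      exists_between (lt_min (lt_min hε1 hε2) (lt_min hr hd))
    have hm1 : e0 < ε1 := hm.trans_le ((min_le_left _ _).trans (min_le_left _ _))
    have hm2 : e0 < ε2 := hm.trans_le ((min_le_left _ _).trans (min_le_right _ _))
    have hm3 : e0 < r := hm.trans_le ((min_le_right _ _).trans (min_le_left _ _))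
    have hm4 : e0 < d := hm.trans_le ((min_le_right _ _).trans (min_le_right _ _))
    obtain ⟨f1, hf1, τ1, hτ1, hup'⟩ := hup e0 ⟨he0, hm1⟩
    obtain ⟨f2, hf2, τ2, hτ2, hdn'⟩ := hdn e0 ⟨he0, hm2⟩
    obtain ⟨ρ', hρ', hcov⟩ := hlam.cover e0 he0
    have hoffl : ∀ ω ∈ ball (0 : ℂ) r, |ω.im| < d → ω.im ≠ 0 → Off u gs q (lam ω) :=
      fun ω hω h1 h2 => LocRep_off hu hW hdu (hloc ω hω).2.1 h1 h2
    -- the two sides
    have hside : GermGood u (fun t => F (lam (e0 * I)) t - F (lam (-(e0 * I))) t) := by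
      have h1 : GermGood u f1 := ⟨f1, hf1, 1, one_pos, fun _ _ => rfl⟩
      have h2 : GermGood u f2 := ⟨f2, hf2, 1, one_pos, fun _ _ => rfl⟩
      refine (h1.sub h2).congr (lt_min hτ1 hτ2) fun t ht => ?_
      have h3 := hup' t ⟨ht.1, ht.2.trans_le (min_le_left _ _)⟩
      have h4 := hdn' t ⟨ht.1, ht.2.trans_le (min_le_right _ _)⟩
      rw [← h3, ← h4]
      ring
    have hcl : closedBall (0 : ℂ) e0 ⊆ ball 0 r := closedBall_subset_ball hm3
    have hmem : ∀ ω ∈ ball (0 : ℂ) e0, ∀ ζ ∈ closedBall (0 : ℂ) e0, ∀ s ∈ Icc (0 : ℝ) 1,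
        ω + s * (ζ - ω) ∈ closedBall (0 : ℂ) e0 := by
      intro ω hω ζ hζ s hs
      have h1 := (convex_closedBall (0 : ℂ) e0).add_smul_sub_mem (ball_subset_closedBall hω) hζ hs
      rwa [Complex.real_smul] at h1
    have hI1 : (e0 * I : ℂ) ∈ closedBall (0 : ℂ) e0 := by
      rw [mem_closedBall, dist_zero_right, norm_mul, Complex.norm_I, mul_one, Complex.norm_real,
        Real.norm_eq_abs, abs_of_pos he0]
    have hI2 : (-(e0 * I) : ℂ) ∈ closedBall (0 : ℂ) e0 := by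
      rw [mem_closedBall, dist_zero_right, norm_neg, norm_mul, Complex.norm_I, mul_one,
        Complex.norm_real, Real.norm_eq_abs, abs_of_pos he0]
    have him : ∀ z ∈ closedBall (0 : ℂ) e0, |z.im| < d := by
      intro z hz
      rw [mem_closedBall, dist_zero_right] at hz
      exact ((Complex.abs_im_le_norm z).trans hz).trans_lt hm4
    have himseg : ∀ (ω ζ : ℂ) (s : ℝ), (ω + s * (ζ - ω)).im = (1 - s) * ω.im + s * ζ.im := by
      intro ω ζ s
      simp only [Complex.add_im, Complex.mul_im, Complex.ofReal_re, Complex.ofReal_im,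
        Complex.sub_im, zero_mul, add_zero]
      ring
    -- every `Off` label is good relative to `lam (i e0)`
    have key : ∀ l ∈ ball P (min ρ' ρ), Off u gs q l →
        GermGood u (fun t => F (lam (e0 * I)) t - F l t) := by
      intro l hl hlo
      obtain ⟨ω, hω, rfl⟩ := hcov (ball_subset_ball (min_le_left _ _) hl)
      rcases le_or_gt 0 ω.im with h0 | h0
      · refine LocRep_seg hu hτ hL isOpen_ball isOpen_ball hdl (fun z hz => (hloc z hz).1) ?_
        intro s hs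
        have h1 := hmem ω hω _ hI1 s hs
        refine ⟨hcl h1, ?_⟩
        rcases eq_or_lt_of_le hs.1 with h2 | h2
        · rw [← h2, Complex.ofReal_zero, zero_mul, add_zero]
          exact hlo
        · refine hoffl _ (hcl h1) (him _ h1) ?_
          rw [himseg]
          have h3 : (e0 * I : ℂ).im = e0 := by simp
          rw [h3]
          have h4 : 0 ≤ (1 - s) * ω.im := mul_nonneg (by linarith [hs.2]) h0
          have h5 : 0 < s * e0 := mul_pos h2 he0
          linarith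
      · have h2 : GermGood u (fun t => F (lam (-(e0 * I))) t - F (lam ω) t) := by
          refine LocRep_seg hu hτ hL isOpen_ball isOpen_ball hdl (fun z hz => (hloc z hz).1) ?_
          intro s hs
          have h1 := hmem ω hω _ hI2 s hs
          refine ⟨hcl h1, ?_⟩
          refine hoffl _ (hcl h1) (him _ h1) ?_
          rw [himseg]
          have h3 : (-(e0 * I) : ℂ).im = -e0 := by simp
          rw [h3]
          rcases eq_or_lt_of_le hs.1 with h2 | h2
          · rw [← h2]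
            linarith
          · have h4 : 0 ≤ (1 - s) * (-ω.im) := mul_nonneg (by linarith [hs.2]) (by linarith)
            have h5 : 0 < s * e0 := mul_pos h2 he0
            linarith
        refine (hside.add h2).congr one_pos fun t _ => ?_
        ring
    refine ⟨min ρ' ρ, lt_min hρ' hρ, min_le_right _ _, fun l0 hl0 l1 hl1 ho0 ho1 => ?_⟩
    refine ((key l0 hl0 ho0).sub (key l1 hl1 ho1)).congr one_pos fun t _ => ?_
    ring

/-- `Off` labels are dense: `P` itself, or `lam (i η)` for small `η > 0` -/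
theorem exists_off {u gs : ℂ} (hu : 0 < u.re) {q : ℂ → ℂ}
    (hq : DifferentiableOn ℂ q Hm) {P : ℂ} (hP : ¬ Off u gs q P → GoodP u q P) {ε : ℝ}
    (hε : 0 < ε) : ∃ l ∈ ball P ε, Off u gs q l := by
  by_cases hoff : Off u gs q P
  · exact ⟨P, mem_ball_self hε, hoff⟩
  have hgood := hP hoff
  have hex : ∃ r0 : ℝ, 0 ≤ r0 ∧ gs ^ 2 * q P * exp (2 * (u * r0)) = tipc := by
    by_contra hcon
    push Not at hcon
    exact hoff hcon
  obtain ⟨r0, hr0, hW⟩ := hex
  obtain ⟨lam, hlam⟩ := exists_chart hu hq hgood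
  obtain ⟨d, hd, hdu⟩ := LocRep_d hu
  obtain ⟨δ, hδ, hdl, hql⟩ := hlam.hol 1 one_pos
  have hop : IsOpen (Rc 1 δ) := isOpen_Rc 1 δ
  have h0 : (0 : ℂ) ∈ Rc 1 δ := by
    refine ⟨?_, ?_, ?_⟩
    · rw [Complex.zero_re]
      linarith
    · rw [Complex.zero_re]
      exact hδ
    · rw [Complex.zero_im, abs_zero]
      exact hδ
  have hc : ContinuousAt lam 0 := (hdl.differentiableAt (hop.mem_nhds h0)).continuousAt
  have hev : ∀ᶠ ω in 𝓝 (0 : ℂ), lam ω ∈ ball P ε ∧ ω ∈ Rc 1 δ := by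
    refine (hc.eventually ?_).and (hop.mem_nhds h0)
    rw [hlam.zero]
    exact ball_mem_nhds P hε
  obtain ⟨r, hr, hball⟩ := Metric.eventually_nhds_iff_ball.1 hev
  obtain ⟨η, hη, hm⟩ : ∃ η : ℝ, 0 < η ∧ η < min r d := exists_between (lt_min hr hd)
  have hηr : η < r := hm.trans_le (min_le_left _ _)
  have hηd : η < d := hm.trans_le (min_le_right _ _)
  have hmem : (η * I : ℂ) ∈ ball (0 : ℂ) r := by
    rw [mem_ball, dist_zero_right, norm_mul, Complex.norm_I, mul_one, Complex.norm_real,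
      Real.norm_eq_abs, abs_of_pos hη]
    exact hηr
  have him : (η * I : ℂ).im = η := by simp
  refine ⟨lam (η * I), (hball _ hmem).1, LocRep_off hu hW hdu (hql _ (hball _ hmem).2).2 ?_ ?_⟩
  · rw [him, abs_of_pos hη]
    exact hηd
  · rw [him]
    exact hη.ne'

end Pool.Agent.MP_ae5b4e_an_WB
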