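import Pool.Agent.Lib.MP_ae5b4e_an_WB.SideDefs

/-!
# POR (iii), N2, Lemma B: shifting the contour
-/

namespace Pool.Agent.MP_ae5b4e_an_WB

open Complex Set Filter Topology MeasureTheory

/-- for real `t` the middle term of `sideEe` is an integral along a horizontal segment
(substitution `τ = x + θ (t - x)`) -/
theorem sideEe_real {x e0 e t : ℝ} (ψ g : ℂ → ℂ) :
    sideEe x e0 e ψ g t = (∫ η in (0 : ℝ)..e, ψ (x + η * I) * g (x + η * I - t) * I) +
      (∫ τ in x..t, ψ (τ + e * I) * g (τ - t + e * I)) +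
      ∫ η in e..e0, ψ (t + η * I) * g (η * I) * I := by
  have h := intervalIntegral.smul_integral_comp_add_mul (a := 0) (b := 1)
    (fun τ : ℝ => ψ (τ + e * I) * g (τ - t + e * I)) (t - x) x
  have e1 : ∀ θ : ℝ, ψ (x + θ * ((t : ℂ) - x) + e * I) * g ((1 - θ) * ((x : ℂ) - t) + e * I) =
      ψ (((x + (t - x) * θ : ℝ) : ℂ) + e * I) * g (((x + (t - x) * θ : ℝ) : ℂ) - t + e * I) := by
    intro θ
    congr 2
    · push_cast
      ring
    · push_cast
      ring
  rw [sideEe]
  simp only [e1]
  rw [show x + (t - x) * 0 = x by ring, show x + (t - x) * 1 = t by ring] at h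
  rw [← h, Complex.real_smul]
  push_cast
  rfl

/-- Independence of `e`. The function `h(ω) = ψ(ω) g(ω - t)` is holomorphic on a neighbourhood of the
closed rectangle `[x, t] × [e, e']` (strip `0 < Im < d` for `ψ`, `ω - t ∈ Rc T δ`): the boundary integral
vanishes (`Complex.integral_boundary_rect_eq_zero_of_differentiableOn`). -/
theorem sideEe_eq {u : ℂ} {x r0 d e0 e e' T δ t : ℝ} {ψ g : ℂ → ℂ} (hψ : SideP u r0 d e0 ψ)
    (hg : DifferentiableOn ℂ g (Rc T δ)) (he : 0 < e) (hee : e ≤ e') (he0 : e' ≤ e0) (heδ : e' < δ)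
    (hx : -1 ≤ x) (hxt : x ≤ t) (htT : t - x ≤ T) (hg0 : SideG u e0 g) :
    sideEe x e0 e ψ g t = sideEe x e0 e' ψ g t := by
  rw [sideEe_real, sideEe_real]
  have hδ : 0 < δ := by linarith
  have he0d : e0 < d := hψ.e0_lt
  have hψc : ContinuousOn ψ {ω | 0 < ω.im ∧ ω.im < d} := hψ.hol.continuousOn
  have hA1 : ContinuousOn (fun η : ℝ => ψ (x + η * I) * g (x + η * I - t) * I) (Ioc 0 e') := by
    refine ContinuousOn.mul (ContinuousOn.mul ?_ ?_) continuousOn_const
    · refine hψc.comp (by fun_prop) fun η hη => ?_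
      simp only [mem_ofPred_eq, add_im, ofReal_im, mul_im, ofReal_re, I_im, mul_one, I_re, mul_zero,
        add_zero, zero_add]
      exact ⟨hη.1, by linarith [hη.2]⟩
    · refine hg.continuousOn.comp (by fun_prop) fun η hη => ?_
      simp only [Rc, mem_ofPred_eq, add_im, sub_im, sub_re, add_re, ofReal_im, mul_im, mul_re,
        ofReal_re, I_im, mul_one, I_re, mul_zero, add_zero, zero_add, sub_zero]
      refine ⟨by linarith, by linarith, ?_⟩
      rw [abs_lt]
      constructor <;> linarith [hη.1, hη.2]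
  obtain ⟨C, hC⟩ := hψ.bound
  have hAg : ∃ C2 : ℝ, ∀ η ∈ Icc 0 e', ‖g (x + η * I - t)‖ ≤ C2 := by
    refine (isCompact_Icc.exists_bound_of_continuousOn (f := fun η : ℝ => g (x + η * I - t)) ?_)
    refine hg.continuousOn.comp (by fun_prop) fun η hη => ?_
    simp only [Rc, mem_ofPred_eq, add_im, sub_im, sub_re, add_re, ofReal_im, mul_im, mul_re,
      ofReal_re, I_im, mul_one, I_re, mul_zero, add_zero, zero_add, sub_zero]
    refine ⟨by linarith, by linarith, ?_⟩
    rw [abs_lt]
    constructor <;> linarith [hη.1, hη.2]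
  obtain ⟨C2, hC2⟩ := hAg
  have hAi : IntervalIntegrable (fun η : ℝ => ψ (x + η * I) * g (x + η * I - t) * I)
      volume 0 e' := by
    rw [intervalIntegrable_iff_integrableOn_Ioc_of_le (by linarith)]
    refine IntegrableOn.of_bound (by simp) (hA1.aestronglyMeasurable measurableSet_Ioc)
      (C * Real.exp (u.re * x) * C2) ?_
    refine (ae_restrict_iff' measurableSet_Ioc).2 (Filter.Eventually.of_forall fun η hη => ?_)
    rw [norm_mul, norm_mul, Complex.norm_I, mul_one]
    have h1 := hC (x + η * I) (by simpa using hx) (by simpa using hη.1.le)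
      (by simp; linarith [hη.2])
    have h2 := hC2 η ⟨hη.1.le, hη.2⟩
    have h3 : ((x : ℂ) + η * I).re = x := by simp
    rw [h3] at h1
    exact mul_le_mul h1 h2 (norm_nonneg _) ((norm_nonneg _).trans h1)
  have hA2 : (∫ η in (0 : ℝ)..e, ψ (x + η * I) * g (x + η * I - t) * I) +
      ∫ η in e..e', ψ (x + η * I) * g (x + η * I - t) * I =
      ∫ η in (0 : ℝ)..e', ψ (x + η * I) * g (x + η * I - t) * I := by
    refine intervalIntegral.integral_add_adjacent_intervals (hAi.mono_set ?_) (hAi.mono_set ?_)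
    · rw [uIcc_of_le he.le, uIcc_of_le (by linarith)]
      exact Icc_subset_Icc le_rfl hee
    · rw [uIcc_of_le hee, uIcc_of_le (by linarith)]
      exact Icc_subset_Icc he.le le_rfl
  obtain ⟨e1, he1, hg1⟩ := hg0.first
  have hB1 : ContinuousOn (fun η : ℝ => ψ (t + η * I) * g (η * I) * I) (Icc e e0) := by
    refine ContinuousOn.mul (ContinuousOn.mul ?_ ?_) continuousOn_const
    · refine hψc.comp (by fun_prop) fun η hη => ?_
      simp only [mem_ofPred_eq, add_im, ofReal_im, mul_im, ofReal_re, I_im, mul_one, I_re, mul_zero,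
        add_zero, zero_add]
      exact ⟨by linarith [hη.1], by linarith [hη.2]⟩
    · refine hg1.continuousOn.comp (by fun_prop) fun η hη => ?_
      simp only [Rc, mem_ofPred_eq, ofReal_im, mul_im, mul_re,
        ofReal_re, I_im, mul_one, I_re, mul_zero, add_zero, sub_zero]
      refine ⟨by linarith, by linarith, ?_⟩
      rw [abs_lt]
      constructor <;> linarith [hη.1, hη.2]
  have hB2 : (∫ η in e..e', ψ (t + η * I) * g (η * I) * I) +
      ∫ η in e'..e0, ψ (t + η * I) * g (η * I) * I =
      ∫ η in e..e0, ψ (t + η * I) * g (η * I) * I := by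
    refine intervalIntegral.integral_add_adjacent_intervals
      (ContinuousOn.intervalIntegrable (hB1.mono ?_))
      (ContinuousOn.intervalIntegrable (hB1.mono ?_))
    · rw [uIcc_of_le hee]
      exact Icc_subset_Icc le_rfl he0
    · rw [uIcc_of_le he0]
      exact Icc_subset_Icc hee le_rfl
  have hR := Complex.integral_boundary_rect_eq_zero_of_differentiableOn
    (fun ω : ℂ => ψ ω * g (ω - t)) ⟨x, e⟩ ⟨t, e'⟩ (by
      refine DifferentiableOn.mul (hψ.hol.mono ?_) (hg.comp (by fun_prop) ?_)
      · intro ω hω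
        rw [Complex.mem_reProdIm] at hω
        simp only [uIcc_of_le hxt, uIcc_of_le hee] at hω
        exact ⟨by linarith [hω.2.1], by linarith [hω.2.2]⟩
      · intro ω hω
        rw [Complex.mem_reProdIm] at hω
        simp only [uIcc_of_le hxt, uIcc_of_le hee] at hω
        simp only [Rc, mem_ofPred_eq, sub_re, sub_im, ofReal_re, ofReal_im, sub_zero]
        refine ⟨by linarith [hω.1.1], by linarith [hω.1.2], ?_⟩
        rw [abs_lt]
        constructor <;> linarith [hω.2.1, hω.2.2])
  simp only [smul_eq_mul] at hR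
  have c1 : (∫ η in e..e', ψ (t + η * I) * g (η * I) * I) =
      I * ∫ η in e..e', ψ (t + η * I) * g (t + η * I - t) := by
    rw [← intervalIntegral.integral_const_mul]
    refine intervalIntegral.integral_congr fun η _ => ?_
    rw [show (t : ℂ) + η * I - t = η * I by ring]
    ring
  have c2 : (∫ η in e..e', ψ (x + η * I) * g (x + η * I - t) * I) =
      I * ∫ η in e..e', ψ (x + η * I) * g (x + η * I - t) := by
    rw [← intervalIntegral.integral_const_mul]
    refine intervalIntegral.integral_congr fun η _ => ?_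
    ring
  have c3 : ∀ e2 : ℝ, (∫ τ in x..t, ψ (τ + e2 * I) * g (τ - t + e2 * I)) =
      ∫ τ in x..t, ψ (τ + e2 * I) * g (τ + e2 * I - t) := by
    intro e2
    refine intervalIntegral.integral_congr fun τ _ => ?_
    rw [show (τ : ℂ) - t + e2 * I = τ + e2 * I - t by ring]
  rw [c3, c3, ← hA2, ← hB2, c1, c2]
  linear_combination hR

end Pool.Agent.MP_ae5b4e_an_WB
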