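import Pool.Agent.Lib.MP_ae5b4e_an_WB.SideA

/-!
# POR (iii), N2, Lemma B: the limit `e → 0`
-/

namespace Pool.Agent.MP_ae5b4e_an_WB

open Complex Set Filter Topology MeasureTheory

private theorem SideB_bd {u : ℂ} {r0 d e0 : ℝ} {ψ : ℂ → ℂ} (hψ : SideP u r0 d e0 ψ) (t : ℝ) :
    ∃ C : ℝ, 0 ≤ C ∧ ∀ ω : ℂ, -1 ≤ ω.re → ω.re ≤ t → 0 ≤ ω.im → ω.im < d → ‖ψ ω‖ ≤ C := by
  obtain ⟨C, hC⟩ := hψ.bound
  refine ⟨max C 0 * Real.exp (u.re * t), by positivity, ?_⟩
  intro ω h1 h2 h3 h4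
  refine (hC ω h1 h3 h4).trans ?_
  have h5 : Real.exp (u.re * ω.re) ≤ Real.exp (u.re * t) :=
    Real.exp_le_exp.2 (mul_le_mul_of_nonneg_left h2 hψ.u_pos.le)
  exact mul_le_mul (le_max_left _ _) h5 (Real.exp_nonneg _) (le_max_right _ _)

private theorem SideB_gbd {T δ : ℝ} {g : ℂ → ℂ} (hδ : 0 < δ)
    (hg : DifferentiableOn ℂ g (Rc T δ)) :
    ∃ M : ℝ, 0 ≤ M ∧ ∀ ω : ℂ, -T ≤ ω.re → ω.re ≤ 0 → 0 ≤ ω.im → ω.im ≤ δ / 2 → ‖g ω‖ ≤ M := by
  have hK : IsCompact (Icc (-T) 0 ×ℂ Icc 0 (δ / 2)) := isCompact_Icc.reProdIm isCompact_Icc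
  have hsub : (Icc (-T) 0 ×ℂ Icc 0 (δ / 2)) ⊆ Rc T δ := by
    rintro ω ⟨h1, h2⟩
    have h1' : -T ≤ ω.re ∧ ω.re ≤ 0 := h1
    have h2' : 0 ≤ ω.im ∧ ω.im ≤ δ / 2 := h2
    refine ⟨by linarith [h1'.1], by linarith [h1'.2], ?_⟩
    rw [abs_of_nonneg h2'.1]
    linarith [h2'.2]
  obtain ⟨M, hM⟩ := hK.exists_bound_of_continuousOn (hg.continuousOn.mono hsub)
  refine ⟨max M 0, le_max_right _ _, fun ω h1 h2 h3 h4 => (hM ω ?_).trans (le_max_left _ _)⟩
  exact ⟨⟨h1, h2⟩, ⟨h3, h4⟩⟩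

private theorem SideB_open (T δ : ℝ) : IsOpen (Rc T δ) := by
  have h : Rc T δ = {ω : ℂ | -T - δ < ω.re} ∩ ({ω : ℂ | ω.re < δ} ∩ {ω : ℂ | |ω.im| < δ}) := rfl
  rw [h]
  exact (isOpen_lt continuous_const continuous_re).inter
    ((isOpen_lt continuous_re continuous_const).inter
      (isOpen_lt (continuous_abs.comp continuous_im) continuous_const))

/-- the integrand of the last term -/
private theorem SideB_last {u : ℂ} {r0 d e0 t : ℝ} {ψ g : ℂ → ℂ} (hψ : SideP u r0 d e0 ψ)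
    (hg0 : SideG u e0 g) (ht : -1 ≤ t) :
    (∃ M : ℝ, 0 ≤ M ∧ ∀ η ∈ Ioc (0 : ℝ) e0, ‖ψ (t + η * I) * g (η * I) * I‖ ≤ M) ∧
    IntervalIntegrable (fun η : ℝ => ψ (t + η * I) * g (η * I) * I) volume 0 e0 := by
  obtain ⟨C, hC0, hC⟩ := SideB_bd hψ t
  obtain ⟨e1, he1, hg1⟩ := hg0.first
  have hgc : ContinuousOn (fun η : ℝ => g (η * I)) (Icc 0 e0) := by
    refine hg1.continuousOn.comp (by fun_prop) ?_
    intro η hη
    have h1 : ((η : ℂ) * I).re = 0 := by simp
    have h2 : ((η : ℂ) * I).im = η := by simp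
    have h3 : (0 : ℝ) < e1 := lt_trans hψ.e0_pos he1
    refine ⟨by rw [h1]; linarith, by rw [h1]; linarith, ?_⟩
    rw [h2, abs_of_nonneg hη.1]
    exact lt_of_le_of_lt hη.2 he1
  obtain ⟨M, hM⟩ := isCompact_Icc.exists_bound_of_continuousOn hgc
  have hbd : ∀ η ∈ Ioc (0 : ℝ) e0, ‖ψ (t + η * I) * g (η * I) * I‖ ≤ C * max M 0 := by
    intro η hη
    rw [norm_mul, norm_mul, norm_I, mul_one]
    refine mul_le_mul (hC _ ?_ ?_ ?_ ?_) ((hM η ⟨hη.1.le, hη.2⟩).trans (le_max_left _ _))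
      (norm_nonneg _) hC0
    · simpa using ht
    · simp
    · simpa using hη.1.le
    · simpa using lt_of_le_of_lt hη.2 hψ.e0_lt
  refine ⟨⟨C * max M 0, by positivity, hbd⟩, ?_⟩
  rw [intervalIntegrable_iff_integrableOn_Ioc_of_le hψ.e0_pos.le]
  have hcont : ContinuousOn (fun η : ℝ => ψ (t + η * I) * g (η * I) * I) (Ioc 0 e0) := by
    refine (ContinuousOn.mul ?_ (hgc.mono Ioc_subset_Icc_self)).mul continuousOn_const
    refine hψ.hol.continuousOn.comp (by fun_prop) ?_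
    intro η hη
    have h2 : ((t : ℂ) + (η : ℂ) * I).im = η := by simp
    refine ⟨?_, ?_⟩
    · change 0 < ((t : ℂ) + (η : ℂ) * I).im
      rw [h2]
      exact hη.1
    · change ((t : ℂ) + (η : ℂ) * I).im < d
      rw [h2]
      exact lt_of_le_of_lt hη.2 hψ.e0_lt
  refine IntegrableOn.of_bound (by simp) (hcont.aestronglyMeasurable measurableSet_Ioc)
    (C * max M 0) ?_
  filter_upwards [ae_restrict_mem measurableSet_Ioc] with η hη
  exact hbd η hη

/-- `e → 0+`. First term: `≤ e * bound`. Middle term: dominated convergence on `[x, t]`; pointwise for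
`τ ≠ r0`: `ψ (τ + e i) → ψ τ` (`SideP.cont`), `g (τ - t + e i) → g (τ - t)` (`g` is continuous on
`Rc T δ`), bounds from `SideP.bound` and compactness. Last term: `∫_e^(e0) = ∫_0^(e0) - ∫_0^e`, the
integrand is bounded, and interval integrable on `[0, e0]` (continuous on `(0, e0]`). -/
theorem tendsto_sideEe {u : ℂ} {x r0 d e0 T δ t : ℝ} {ψ g : ℂ → ℂ} (hψ : SideP u r0 d e0 ψ)
    (hg0 : SideG u e0 g) (hδ : 0 < δ) (hg : DifferentiableOn ℂ g (Rc T δ)) (hx : -1 ≤ x)
    (hxt : x ≤ t) (htT : t - x ≤ T) :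
    Tendsto (fun e : ℝ => sideEe x e0 e ψ g t) (𝓝[>] 0) (𝓝 (sideE x e0 ψ g t)) := by
  obtain ⟨C, hC0, hC⟩ := SideB_bd hψ t
  obtain ⟨M, hM0, hM⟩ := SideB_gbd hδ hg
  have he0 := hψ.e0_pos
  have hd : 0 < d := lt_trans he0 hψ.e0_lt
  -- small `e`
  have hsmall : ∀ᶠ e : ℝ in 𝓝[>] 0, 0 < e ∧ e < e0 ∧ e < δ / 2 := by
    have h1 : ∀ᶠ e : ℝ in 𝓝[>] 0, e ∈ Ioo (0 : ℝ) (min e0 (δ / 2)) :=
      Ioo_mem_nhdsGT (lt_min he0 (by linarith))
    filter_upwards [h1] with e he
    exact ⟨he.1, lt_of_lt_of_le he.2 (min_le_left _ _), lt_of_lt_of_le he.2 (min_le_right _ _)⟩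
  have hto0 : Tendsto (fun e : ℝ => e) (𝓝[>] 0) (𝓝 0) := tendsto_id.mono_left nhdsWithin_le_nhds
  -- first term
  have hA : Tendsto (fun e : ℝ => ∫ η in (0 : ℝ)..e, ψ (x + η * I) * g (x + η * I - t) * I)
      (𝓝[>] 0) (𝓝 0) := by
    rw [tendsto_zero_iff_norm_tendsto_zero]
    have hz : Tendsto (fun e : ℝ => C * M * e) (𝓝[>] 0) (𝓝 0) := by
      have := hto0.const_mul (C * M)
      rwa [mul_zero] at this
    refine squeeze_zero' (Eventually.of_forall fun _ => norm_nonneg _) ?_ hz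
    filter_upwards [hsmall] with e he
    have h1 := intervalIntegral.norm_integral_le_of_norm_le_const (a := 0) (b := e)
      (f := fun η : ℝ => ψ (x + η * I) * g (x + η * I - t) * I) (C := C * M) (by
        intro η hη
        rw [uIoc_of_le he.1.le] at hη
        rw [norm_mul, norm_mul, norm_I, mul_one]
        refine mul_le_mul (hC _ ?_ ?_ ?_ ?_) (hM _ ?_ ?_ ?_ ?_) (norm_nonneg _) hC0
        · simpa using hx
        · simpa using hxt
        · simpa using hη.1.le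
        · have := hψ.e0_lt
          simp
          linarith [hη.2, he.2.1]
        · simp
          linarith
        · simp
          linarith
        · simpa using hη.1.le
        · simp
          linarith [hη.2, he.2.2])
    rwa [sub_zero, abs_of_pos he.1] at h1
  -- middle term
  have hB : Tendsto (fun e : ℝ => ∫ τ in x..t, ψ (τ + e * I) * g (τ - t + e * I))
      (𝓝[>] 0) (𝓝 (∫ τ in x..t, ψ τ * g (τ - t))) := by
    refine intervalIntegral.tendsto_integral_filter_of_dominated_convergence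
      (fun _ => C * M) ?_ ?_ intervalIntegrable_const ?_
    · filter_upwards [hsmall] with e he
      have hcont : ContinuousOn (fun τ : ℝ => ψ (τ + e * I) * g (τ - t + e * I)) (Icc x t) := by
        refine ContinuousOn.mul ?_ ?_
        · refine hψ.hol.continuousOn.comp (by fun_prop) ?_
          intro τ _
          have h2 : ((τ : ℂ) + (e : ℂ) * I).im = e := by simp
          refine ⟨?_, ?_⟩
          · change 0 < ((τ : ℂ) + (e : ℂ) * I).im
            rw [h2]
            exact he.1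
          · change ((τ : ℂ) + (e : ℂ) * I).im < d
            rw [h2]
            exact lt_trans he.2.1 hψ.e0_lt
        · refine hg.continuousOn.comp (by fun_prop) ?_
          intro τ hτ
          have h1 : ((τ : ℂ) - (t : ℂ) + (e : ℂ) * I).re = τ - t := by simp
          have h2 : ((τ : ℂ) - (t : ℂ) + (e : ℂ) * I).im = e := by simp
          refine ⟨by rw [h1]; linarith [hτ.1], by rw [h1]; linarith [hτ.2], ?_⟩
          rw [h2, abs_of_pos he.1]
          linarith [he.2.2]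
      rw [uIoc_of_le hxt]
      exact (hcont.mono Ioc_subset_Icc_self).aestronglyMeasurable measurableSet_Ioc
    · filter_upwards [hsmall] with e he
      refine Eventually.of_forall fun τ hτ => ?_
      rw [uIoc_of_le hxt] at hτ
      rw [norm_mul]
      refine mul_le_mul (hC _ ?_ ?_ ?_ ?_) (hM _ ?_ ?_ ?_ ?_) (norm_nonneg _) hC0
      · simp
        linarith [hτ.1]
      · simpa using hτ.2
      · simpa using he.1.le
      · simpa using lt_trans he.2.1 hψ.e0_lt
      · simp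
        linarith [hτ.1]
      · simpa using hτ.2
      · simpa using he.1.le
      · simpa using he.2.2.le
    · have hne : ∀ᵐ τ : ℝ, τ ≠ r0 := by
        rw [ae_iff]
        simp
      filter_upwards [hne] with τ hτr hτ
      rw [uIoc_of_le hxt] at hτ
      have h1 : Tendsto (fun e : ℝ => (τ : ℂ) + e * I) (𝓝[>] 0) (𝓝[{ω | 0 ≤ ω.im}] (τ : ℂ)) := by
        refine tendsto_nhdsWithin_iff.2 ⟨?_, ?_⟩
        · have h2 : Tendsto (fun e : ℝ => (τ : ℂ) + e * I) (𝓝 0) (𝓝 ((τ : ℂ) + (0 : ℝ) * I)) :=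
            Continuous.tendsto (by fun_prop) 0
          simp only [ofReal_zero, zero_mul, add_zero] at h2
          exact h2.mono_left nhdsWithin_le_nhds
        · filter_upwards [self_mem_nhdsWithin] with e he
          have he' : (0 : ℝ) < e := he
          change 0 ≤ ((τ : ℂ) + (e : ℂ) * I).im
          simpa using he'.le
      have h3 : Tendsto (fun e : ℝ => (τ : ℂ) - t + e * I) (𝓝[>] 0) (𝓝 ((τ : ℂ) - t)) := by
        have h2 : Tendsto (fun e : ℝ => (τ : ℂ) - t + e * I) (𝓝 0)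
            (𝓝 ((τ : ℂ) - t + (0 : ℝ) * I)) := Continuous.tendsto (by fun_prop) 0
        simp only [ofReal_zero, zero_mul, add_zero] at h2
        exact h2.mono_left nhdsWithin_le_nhds
      have h4 : ContinuousAt g ((τ : ℂ) - t) := by
        refine hg.continuousOn.continuousAt ((SideB_open T δ).mem_nhds ?_)
        have h5 : ((τ : ℂ) - (t : ℂ)).re = τ - t := by simp
        have h6 : ((τ : ℂ) - (t : ℂ)).im = 0 := by simp
        refine ⟨by rw [h5]; linarith [hτ.1], by rw [h5]; linarith [hτ.2], ?_⟩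
        rw [h6, abs_zero]
        exact hδ
      exact ((hψ.cont τ hτr).tendsto.comp h1).mul (h4.tendsto.comp h3)
  -- last term
  obtain ⟨⟨M', hM'0, hM'⟩, hint⟩ := SideB_last (t := t) hψ hg0 (hx.trans hxt)
  have hC' : Tendsto (fun e : ℝ => ∫ η in e..e0, ψ (t + η * I) * g (η * I) * I)
      (𝓝[>] 0) (𝓝 (∫ η in (0 : ℝ)..e0, ψ (t + η * I) * g (η * I) * I)) := by
    have hz : Tendsto (fun e : ℝ => ∫ η in (0 : ℝ)..e, ψ (t + η * I) * g (η * I) * I)
        (𝓝[>] 0) (𝓝 0) := by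
      rw [tendsto_zero_iff_norm_tendsto_zero]
      have hz : Tendsto (fun e : ℝ => M' * e) (𝓝[>] 0) (𝓝 0) := by
        have := hto0.const_mul M'
        rwa [mul_zero] at this
      refine squeeze_zero' (Eventually.of_forall fun _ => norm_nonneg _) ?_ hz
      filter_upwards [hsmall] with e he
      have h1 := intervalIntegral.norm_integral_le_of_norm_le_const (a := 0) (b := e)
        (f := fun η : ℝ => ψ (t + η * I) * g (η * I) * I) (C := M') (by
          intro η hη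
          rw [uIoc_of_le he.1.le] at hη
          exact hM' η ⟨hη.1, hη.2.trans he.2.1.le⟩)
      rwa [sub_zero, abs_of_pos he.1] at h1
    have h2 : (fun e : ℝ => ∫ η in e..e0, ψ (t + η * I) * g (η * I) * I) =ᶠ[𝓝[>] 0]
        fun e => (∫ η in (0 : ℝ)..e0, ψ (t + η * I) * g (η * I) * I) -
          ∫ η in (0 : ℝ)..e, ψ (t + η * I) * g (η * I) * I := by
      filter_upwards [hsmall] with e he
      rw [eq_comm, intervalIntegral.integral_interval_sub_left hint]
      refine hint.mono_set ?_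
      rw [uIcc_of_le he.1.le, uIcc_of_le he0.le]
      exact Icc_subset_Icc_right he.2.1.le
    refine Tendsto.congr' h2.symm ?_
    have h3 := (tendsto_const_nhds (x := ∫ η in (0 : ℝ)..e0, ψ (t + η * I) * g (η * I) * I)
      (f := 𝓝[>] (0 : ℝ))).sub hz
    rwa [sub_zero] at h3
  have hfun : (fun e : ℝ => sideEe x e0 e ψ g t) = fun e : ℝ =>
      (∫ η in (0 : ℝ)..e, ψ (x + η * I) * g (x + η * I - t) * I) +
      (∫ τ in x..t, ψ (τ + e * I) * g (τ - t + e * I)) +
      ∫ η in e..e0, ψ (t + η * I) * g (η * I) * I := by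
    funext e
    exact sideEe_real ψ g
  rw [hfun]
  have h5 := (hA.add hB).add hC'
  rw [zero_add] at h5
  exact h5

/-- hence equality for all small `e` (`sideEe_eq` and uniqueness of limits) -/
theorem sideE_eq {u : ℂ} {x r0 d e0 e T δ t : ℝ} {ψ g : ℂ → ℂ} (hψ : SideP u r0 d e0 ψ)
    (hg0 : SideG u e0 g) (hg : DifferentiableOn ℂ g (Rc T δ)) (hx : -1 ≤ x)
    (he : 0 < e) (he0 : e ≤ e0) (heδ : e < δ) (hxt : x ≤ t) (htT : t - x ≤ T) :
    sideE x e0 ψ g t = sideEe x e0 e ψ g t := by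
  have h1 := tendsto_sideEe hψ hg0 (he.trans heδ) hg hx hxt htT
  have h2 : (fun e' : ℝ => sideEe x e0 e' ψ g t) =ᶠ[𝓝[>] 0] fun _ => sideEe x e0 e ψ g t := by
    have h3 : ∀ᶠ e' : ℝ in 𝓝[>] 0, e' ∈ Ioo (0 : ℝ) e := Ioo_mem_nhdsGT he
    filter_upwards [h3] with e' he'
    exact sideEe_eq hψ hg he'.1 he'.2.le he0 heδ hx hxt htT hg0
  exact tendsto_nhds_unique h1 (tendsto_const_nhds.congr' h2.symm)

end Pool.Agent.MP_ae5b4e_an_WB
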