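import Pool.Agent.Lib.MP_ae5b4e_an_WB.SideB
import Pool.Agent.Lib.MP_ae5b4e_an_WB.ParamInt
import Pool.Agent.Lib.MP_ae5b4e_an_WB.GoodL

/-!
# POR (iii), N2, Lemma B: `sideE` is real analytic on `(0, oo)`
-/

namespace Pool.Agent.MP_ae5b4e_an_WB

open Complex Set Filter Topology MeasureTheory

private theorem SideC_bdd {U : Set ℂ} (hU : IsOpen U) {a b : ℝ} {f : ℂ → ℝ → ℂ}
    (hf : ContinuousOn (fun p : ℂ × ℝ => f p.1 p.2) (U ×ˢ Icc a b)) :
    ∀ z0 ∈ U, ∃ C : ℝ, ∀ᶠ z in 𝓝 z0, ∀ θ ∈ Icc a b, ‖f z θ‖ ≤ C := by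
  intro z0 hz0
  obtain ⟨ε, hε, hsub⟩ := Metric.isOpen_iff.1 hU z0 hz0
  have hK : IsCompact (Metric.closedBall z0 (ε / 2) ×ˢ Icc a b) :=
    (isCompact_closedBall z0 (ε / 2)).prod isCompact_Icc
  obtain ⟨C, hC⟩ := hK.exists_bound_of_continuousOn (hf.mono (Set.prod_mono
    ((Metric.closedBall_subset_ball (half_lt_self hε)).trans hsub) subset_rfl))
  refine ⟨C, ?_⟩
  filter_upwards [Metric.closedBall_mem_nhds z0 (half_pos hε)] with z hz θ hθ
  exact hC (z, θ) ⟨hz, hθ⟩

private theorem SideC_param {U : Set ℂ} (hU : IsOpen U) {a b : ℝ} (hab : a ≤ b)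
    {f : ℂ → ℝ → ℂ} (hd : ∀ θ ∈ Icc a b, DifferentiableOn ℂ (fun z => f z θ) U)
    (hf : ContinuousOn (fun p : ℂ × ℝ => f p.1 p.2) (U ×ˢ Icc a b)) :
    DifferentiableOn ℂ (fun z => ∫ θ in a..b, f z θ) U := by
  refine differentiableOn_paramInt hU hab (fun θ hθ => hd θ (Ioo_subset_Icc_self hθ))
    (fun z hz => ?_) (fun z0 hz0 => ?_)
  · exact hf.comp (f := fun θ : ℝ => (z, θ)) (by fun_prop)
      (fun θ hθ => ⟨hz, Ioo_subset_Icc_self hθ⟩)
  · obtain ⟨C, hC⟩ := SideC_bdd hU hf z0 hz0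
    refine ⟨C, ?_⟩
    filter_upwards [hC] with z hz θ hθ
    exact hz θ (Ioo_subset_Icc_self hθ)

private theorem SideC_open (T x κ : ℝ) :
    IsOpen {z : ℂ | 0 < z.re ∧ z.re < T + x ∧ |z.im| < κ} := by
  refine (isOpen_lt continuous_const Complex.continuous_re).inter
    ((isOpen_lt Complex.continuous_re continuous_const).inter
      (isOpen_lt (Complex.continuous_im.abs) continuous_const))

/-- Holomorphy of `sideEe` in `z`, for `0 < Re z < T + x`, `|Im z| < κ`, where `κ > 0` is such that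
`κ ≤ e/2`, `κ ≤ d - e0`, `e + κ ≤ δ`. Each of the three terms by `differentiableOn_paramInt`: the
arguments of `ψ` are `x + η i` (fixed), `x + θ (z - x) + e i` (imaginary part in `(0, d)`),
`z + η i` (`e ≤ η ≤ e0`: imaginary part in `(0, d)`), the arguments of `g` are `x + η i - z`,
`(1 - θ)(x - z) + e i`, both in `Rc T δ`, and `η i` (fixed, in `Rc 1 e1`). Local bounds: `SideP.bound`
(real parts `≥ -1`) and compactness for `g`. -/
theorem differentiableOn_sideEe {u : ℂ} {x r0 d e0 e T δ κ : ℝ} {ψ g : ℂ → ℂ}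
    (hψ : SideP u r0 d e0 ψ) (hg0 : SideG u e0 g) (hg : DifferentiableOn ℂ g (Rc T δ))
    (hx : -1 ≤ x) (hx0 : x ≤ 0) (he : 0 < e) (he0 : e ≤ e0) (hκ : 0 < κ) (hκe : κ ≤ e / 2)
    (hκd : κ ≤ d - e0) (hκδ : e + κ ≤ δ) :
    DifferentiableOn ℂ (sideEe x e0 e ψ g) {z | 0 < z.re ∧ z.re < T + x ∧ |z.im| < κ} := by
  have hU := SideC_open T x κ
  set U := {z : ℂ | 0 < z.re ∧ z.re < T + x ∧ |z.im| < κ} with hUdef
  have hδ : 0 < δ := by linarith
  have he0d := hψ.e0_lt
  -- the first term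
  have hA : DifferentiableOn ℂ (fun z : ℂ => ∫ η in (0 : ℝ)..e,
      ψ (x + η * I) * g (x + η * I - z) * I) U := by
    have hmap : ∀ z ∈ U, ∀ η ∈ Icc (0 : ℝ) e, (x + η * I - z : ℂ) ∈ Rc T δ := by
      intro z hz η hη
      obtain ⟨h1, h2, h3⟩ := hz
      rw [abs_lt] at h3
      refine ⟨?_, ?_, ?_⟩
      · simp only [sub_re, add_re, ofReal_re, mul_re, I_re, mul_zero, ofReal_im, I_im, mul_one,
          sub_self, add_zero]
        linarith
      · simp only [sub_re, add_re, ofReal_re, mul_re, I_re, mul_zero, ofReal_im, I_im, mul_one,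
          sub_self, add_zero]
        linarith
      · simp only [sub_im, add_im, ofReal_im, mul_im, I_re, mul_zero, ofReal_re, I_im, mul_one,
          add_zero, zero_add]
        rw [abs_lt]
        constructor <;> linarith [hη.1, hη.2]
    have hgc : ContinuousOn (fun p : ℂ × ℝ => g (x + p.2 * I - p.1)) (U ×ˢ Icc 0 e) :=
      hg.continuousOn.comp (by fun_prop) (fun p hp => hmap p.1 hp.1 p.2 hp.2)
    refine differentiableOn_paramInt hU he.le (fun η hη => ?_) (fun z hz => ?_) (fun z0 hz0 => ?_)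
    · refine DifferentiableOn.mul_const (DifferentiableOn.const_mul ?_ _) _
      exact hg.comp (by fun_prop) (fun z hz => hmap z hz η (Ioo_subset_Icc_self hη))
    · refine ContinuousOn.mul (ContinuousOn.mul ?_ ?_) continuousOn_const
      · refine hψ.hol.continuousOn.comp (by fun_prop) (fun η hη => ?_)
        have h1 : (x + η * I : ℂ).im = η := by simp
        show 0 < (x + η * I : ℂ).im ∧ (x + η * I : ℂ).im < d
        rw [h1]
        exact ⟨hη.1, by linarith [hη.2]⟩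
      · exact hgc.comp (f := fun η : ℝ => (z, η)) (by fun_prop)
          (fun η hη => ⟨hz, Ioo_subset_Icc_self hη⟩)
    · obtain ⟨C, hC⟩ := SideC_bdd (f := fun z η => g (x + η * I - z)) hU hgc z0 hz0
      obtain ⟨B, hB⟩ := hψ.bound
      refine ⟨|B * Real.exp (u.re * x)| * |C|, ?_⟩
      filter_upwards [hC] with z hz η hη
      rw [norm_mul, norm_I, mul_one, norm_mul]
      refine mul_le_mul ?_ ((hz η (Ioo_subset_Icc_self hη)).trans (le_abs_self _)) (norm_nonneg _)
        (abs_nonneg _)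
      have h1 : (x + η * I : ℂ).im = η := by simp
      have h2 : (x + η * I : ℂ).re = x := by simp
      have h3 := hB (x + η * I) (by rw [h2]; exact hx) (by rw [h1]; exact hη.1.le)
        (by rw [h1]; linarith [hη.2])
      rw [h2] at h3
      exact h3.trans (le_abs_self _)
  -- the second term
  have hB : DifferentiableOn ℂ (fun z : ℂ => ∫ θ in (0 : ℝ)..1,
      ψ (x + θ * (z - x) + e * I) * g ((1 - θ) * (x - z) + e * I)) U := by
    have hmap1 : ∀ z ∈ U, ∀ θ ∈ Icc (0 : ℝ) 1,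
        (x + θ * (z - x) + e * I : ℂ) ∈ {ω : ℂ | 0 < ω.im ∧ ω.im < d} := by
      intro z hz θ hθ
      obtain ⟨h1, h2, h3⟩ := hz
      rw [abs_lt] at h3
      have h4 : (x + θ * (z - x) + e * I : ℂ).im = θ * z.im + e := by simp
      show 0 < (x + θ * (z - x) + e * I : ℂ).im ∧ (x + θ * (z - x) + e * I : ℂ).im < d
      rw [h4]
      obtain ⟨h5, h6⟩ := hθ
      constructor <;> nlinarith
    have hmap2 : ∀ z ∈ U, ∀ θ ∈ Icc (0 : ℝ) 1,
        ((1 - θ) * (x - z) + e * I : ℂ) ∈ Rc T δ := by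
      intro z hz θ hθ
      obtain ⟨h1, h2, h3⟩ := hz
      rw [abs_lt] at h3
      have h4 : ((1 - θ) * (x - z) + e * I : ℂ).re = (1 - θ) * (x - z.re) := by simp
      have h5 : ((1 - θ) * (x - z) + e * I : ℂ).im = -((1 - θ) * z.im) + e := by simp
      obtain ⟨h6, h7⟩ := hθ
      refine ⟨?_, ?_, ?_⟩
      · rw [h4]
        nlinarith
      · rw [h4]
        nlinarith
      · rw [h5, abs_lt]
        constructor <;> nlinarith
    refine SideC_param hU zero_le_one (fun θ hθ => ?_) ?_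
    · refine DifferentiableOn.mul ?_ ?_
      · exact hψ.hol.comp (by fun_prop) (fun z hz => hmap1 z hz θ hθ)
      · exact hg.comp (by fun_prop) (fun z hz => hmap2 z hz θ hθ)
    · refine ContinuousOn.mul ?_ ?_
      · exact hψ.hol.continuousOn.comp (by fun_prop) (fun p hp => hmap1 p.1 hp.1 p.2 hp.2)
      · exact hg.continuousOn.comp (by fun_prop) (fun p hp => hmap2 p.1 hp.1 p.2 hp.2)
  -- the third term
  have hC : DifferentiableOn ℂ (fun z : ℂ => ∫ η in e..e0, ψ (z + η * I) * g (η * I) * I) U := by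
    have hmap1 : ∀ z ∈ U, ∀ η ∈ Icc e e0,
        (z + η * I : ℂ) ∈ {ω : ℂ | 0 < ω.im ∧ ω.im < d} := by
      intro z hz η hη
      obtain ⟨h1, h2, h3⟩ := hz
      rw [abs_lt] at h3
      have h4 : (z + η * I : ℂ).im = z.im + η := by simp
      show 0 < (z + η * I : ℂ).im ∧ (z + η * I : ℂ).im < d
      rw [h4]
      obtain ⟨h5, h6⟩ := hη
      constructor <;> linarith
    obtain ⟨e1, he1, hg1⟩ := hg0.first
    have hmap2 : ∀ η ∈ Icc e e0, (η * I : ℂ) ∈ Rc 1 e1 := by
      intro η hη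
      obtain ⟨h5, h6⟩ := hη
      refine ⟨?_, ?_, ?_⟩
      · simp only [mul_re, ofReal_re, I_re, mul_zero, ofReal_im, I_im, mul_one, sub_self]
        linarith
      · simp only [mul_re, ofReal_re, I_re, mul_zero, ofReal_im, I_im, mul_one, sub_self]
        linarith
      · simp only [mul_im, ofReal_re, I_im, mul_one, ofReal_im, I_re, mul_zero, add_zero]
        rw [abs_lt]
        constructor <;> linarith
    refine SideC_param hU he0 (fun η hη => ?_) ?_
    · refine DifferentiableOn.mul_const (DifferentiableOn.mul_const ?_ _) _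
      exact hψ.hol.comp (by fun_prop) (fun z hz => hmap1 z hz η hη)
    · refine ContinuousOn.mul (ContinuousOn.mul ?_ ?_) continuousOn_const
      · exact hψ.hol.continuousOn.comp (by fun_prop) (fun p hp => hmap1 p.1 hp.1 p.2 hp.2)
      · exact hg1.continuousOn.comp (by fun_prop) (fun p hp => hmap2 p.2 hp.2)
  exact (hA.add ((differentiableOn_id.sub_const _).mul hB)).add hC

/-- real analyticity: near `t0 > 0` take `T = t0 + 2`, `δ` from `SideG.hol`, `e` small, and use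
`sideE_eq` and `analyticAt_real_of_complex`. -/
theorem analyticOnNhd_sideE {u : ℂ} {x r0 d e0 : ℝ} {ψ g : ℂ → ℂ} (hψ : SideP u r0 d e0 ψ)
    (hg0 : SideG u e0 g) (hx : -1 ≤ x) (hx0 : x ≤ 0) :
    AnalyticOnNhd ℝ (sideE x e0 ψ g) (Ioi 0) := by
  intro t0 ht0
  rw [mem_Ioi] at ht0
  obtain ⟨δ, hδ, hg⟩ := hg0.hol (t0 + 2) (by linarith)
  have he0 := hψ.e0_pos
  have hd := hψ.e0_lt
  obtain ⟨e, he, hee, heδ⟩ : ∃ e : ℝ, 0 < e ∧ e ≤ e0 ∧ e ≤ δ / 2 :=
    ⟨min e0 (δ / 2), lt_min he0 (by linarith), min_le_left _ _, min_le_right _ _⟩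
  obtain ⟨κ, hκ, hκe, hκd⟩ : ∃ κ : ℝ, 0 < κ ∧ κ ≤ e / 2 ∧ κ ≤ d - e0 :=
    ⟨min (e / 2) (d - e0), lt_min (by linarith) (by linarith), min_le_left _ _, min_le_right _ _⟩
  have hF := differentiableOn_sideEe hψ hg0 hg hx hx0 he hee hκ hκe hκd (by linarith)
  refine analyticAt_real_of_complex (SideC_open (t0 + 2) x κ) ?_ hF ?_
  · refine ⟨?_, ?_, ?_⟩
    · rw [ofReal_re]
      exact ht0
    · rw [ofReal_re]
      linarith
    · rw [ofReal_im, abs_zero]
      exact hκ
  · filter_upwards [Ioo_mem_nhds (show t0 / 2 < t0 by linarith) (show t0 < t0 + 1 by linarith)]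
      with s hs
    exact sideE_eq hψ hg0 hg hx he hee (by linarith) (by linarith [hs.1]) (by linarith [hs.2])

end Pool.Agent.MP_ae5b4e_an_WB
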