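import Pool.Agent.Lib.MP_ae5b4e_an_WB.Defs

/-!
# POR (iii), N2, Lemma B: one side of a finger (definitions)

`ω' = ω + t` is the height coordinate, `ω` the label coordinate of the chart `lam`, `g = lam'`.
`ψ` = value of `w/y` as function of the height, holomorphic in the strip `0 < Im < d`, continuous up
to the real axis except at the tip height `r0`.
-/

namespace Pool.Agent.MP_ae5b4e_an_WB

open Complex Set Filter Topology MeasureTheory

/-- properties of `ψ` (height function on the upper side of the tip height `r0`) -/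
structure SideP (u : ℂ) (r0 d e0 : ℝ) (ψ : ℂ → ℂ) : Prop where
  u_pos : 0 < u.re
  r0_nonneg : 0 ≤ r0
  e0_pos : 0 < e0
  e0_lt : e0 < d
  hol : DifferentiableOn ℂ ψ {ω | 0 < ω.im ∧ ω.im < d}
  cont : ∀ τ : ℝ, τ ≠ r0 → ContinuousWithinAt ψ {ω | 0 ≤ ω.im} τ
  bound : ∃ C : ℝ, ∀ ω : ℂ, -1 ≤ ω.re → 0 ≤ ω.im → ω.im < d →
    ‖ψ ω‖ ≤ C * Real.exp (u.re * ω.re)
  asym : ∃ Φ : ℂ, ∃ C T : ℝ, 1 < T ∧ ∀ η ∈ Icc (0 : ℝ) e0, ∀ τ : ℝ, T ≤ τ →
    ‖ψ (τ + η * I) * exp (-(u * (τ + η * I))) - Φ * (1 + 1 / (u * τ))‖ ≤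
      C * (Real.log τ / τ ^ 2)

/-- properties of `g = lam'` (holomorphic near `(-oo, 0]`, with variable width) -/
structure SideG (u : ℂ) (e0 : ℝ) (g : ℂ → ℂ) : Prop where
  hol : ∀ T : ℝ, 0 < T → ∃ δ : ℝ, 0 < δ ∧ DifferentiableOn ℂ g (Rc T δ)
  first : ∃ e1 : ℝ, e0 < e1 ∧ DifferentiableOn ℂ g (Rc 1 e1)
  int : IntegrableOn (fun s : ℝ => Real.exp (-(u.re * s)) * (1 + s) * ‖g (-(s : ℂ))‖) (Ioi 0)

/-- contribution of the upper side, with a finger of width `0` (exact on the real axis):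
labels `lam (τ - t)`, `x ≤ τ ≤ t`, and the vertical piece from `lam 0` to `lam (i e0)` -/
noncomputable def sideE (x e0 : ℝ) (ψ g : ℂ → ℂ) (t : ℝ) : ℂ :=
  (∫ τ in x..t, ψ τ * g (τ - t)) + ∫ η in (0 : ℝ)..e0, ψ (t + η * I) * g (η * I) * I

/-- the same with the path at height `e > 0`: from `x` up to `x + i e`, to `t + i e`, up to
`t + i e0` (in the coordinate `ω'`; labels `ω' - t`), written such that it makes sense for complex `t`
near the real axis -/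
noncomputable def sideEe (x e0 e : ℝ) (ψ g : ℂ → ℂ) (z : ℂ) : ℂ :=
  (∫ η in (0 : ℝ)..e, ψ (x + η * I) * g (x + η * I - z) * I) +
  (z - x) * (∫ θ in (0 : ℝ)..1, ψ (x + θ * (z - x) + e * I) * g ((1 - θ) * (x - z) + e * I)) +
  ∫ η in e..e0, ψ (z + η * I) * g (η * I) * I

end Pool.Agent.MP_ae5b4e_an_WB
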