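import Pool.Agent.Lib.MP_ae5b4e_an_WB.LocH
import Pool.Agent.Lib.MP_ae5b4e_an_WB.SideD
import Pool.Agent.Lib.MP_ae5b4e_an_WB.Psi

/-!
# POR (iii), N2, Lemma B: contribution of an end of the path at a tip

`P` is the label of the tip (`gs^2 q P = tipc`), `lam` a chart, `a = ± i e0`, `Ya` the value of `y` at the
label `lam a` (height `a`). At `gam = gs exp (u z)` the tip has the label `lam (-z)`, and
`T(lam a, z) - T_b(z) = ∫_[0, a+z] ψ(ω) lam'(ω - z) dω`.
-/

namespace Pool.Agent.MP_ae5b4e_an_WB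

open Complex Set Filter Topology MeasureTheory Metric
open scoped ComplexConjugate

/-- `∫_[0, a+z] ψ(ω) g(ω - z) dω`, `ψ ω = W e^(uω) / Fl Ya (u (ω - a))` -/
noncomputable def tipE (u W a Ya : ℂ) (g : ℂ → ℂ) (z : ℂ) : ℂ :=
  (a + z) * ∫ θ in (0 : ℝ)..1, W * exp (u * (θ * (a + z))) / Fl Ya (u * (θ * (a + z) - a)) *
    g (θ * (a + z) - z)

private lemma TipEnd_tipc_ne : tipc ≠ 0 := by
  unfold tipc
  rw [neg_ne_zero, Complex.ofReal_ne_zero]
  positivity

private lemma TipEnd_open (T δ : ℝ) : IsOpen (Rc T δ) := by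
  have h1 : IsOpen {ω : ℂ | -T - δ < ω.re} := isOpen_lt continuous_const continuous_re
  have h2 : IsOpen {ω : ℂ | ω.re < δ} := isOpen_lt continuous_re continuous_const
  have h3 : IsOpen {ω : ℂ | |ω.im| < δ} := isOpen_lt continuous_im.abs continuous_const
  exact h1.inter (h2.inter h3)

/-- continuation from the height `a` to the height `θ (a + z)` -/
private lemma TipEnd_fwd {u W a Ya : ℂ} {r : ℝ} (hu : 0 < u.re) (hW : W ^ 2 = tipc)
    (hG : G Ya = W * exp (u * a)) (har : 4 * ‖a‖ < r) (hr : r * ‖u‖ ^ 2 ≤ u.re) {z : ℂ}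
    (hz : ‖z‖ < ‖a‖ / 4) {θ : ℝ} (h0 : 0 < θ) (h1 : θ ≤ 1) :
    Fwd Ya (u * (θ * (a + z) - a)) := by
  intro s hs heq
  have hs0 : 0 ≤ s := hs.1
  have hs1 : s ≤ 1 := hs.2
  have ha : 0 < ‖a‖ := by
    have := norm_nonneg z
    linarith
  set ω : ℂ := a + s * (θ * (a + z) - a) with hω
  have hωd : ω = ((1 - s + s * θ : ℝ) : ℂ) * a + ((s * θ : ℝ) : ℂ) * z := by
    rw [hω]
    push_cast
    ring
  have hc1 : 0 ≤ 1 - s + s * θ := by nlinarith
  have hc2 : 0 ≤ s * θ := mul_nonneg hs0 h0.le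
  have hc3 : s * θ ≤ 1 := mul_le_one₀ hs1 h0.le h1
  have he : tipc * exp (2 * (u * ω)) = tipc * 1 := by
    rw [mul_one]
    rw [hG, mul_pow, hW, ← Complex.exp_nat_mul, mul_assoc, ← Complex.exp_add] at heq
    rw [← heq]
    nth_rewrite 1 [heq]
    congr 2
    rw [hω]
    push_cast
    ring
  have he1 : exp (2 * (u * ω)) = 1 := mul_left_cancel₀ TipEnd_tipc_ne he
  have hn : ‖ω‖ ≤ 2 * ‖a‖ := by
    rw [hωd]
    refine (norm_add_le _ _).trans ?_
    rw [norm_mul, norm_mul, Complex.norm_real, Complex.norm_real, Real.norm_of_nonneg hc1,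
      Real.norm_of_nonneg hc2]
    have e1 : (1 - s + s * θ) * ‖a‖ ≤ 1 * ‖a‖ :=
      mul_le_mul_of_nonneg_right (by nlinarith) ha.le
    have e2 : s * θ * ‖z‖ ≤ 1 * ‖z‖ := mul_le_mul_of_nonneg_right hc3 (norm_nonneg _)
    linarith
  have him : |ω.im| < r := lt_of_le_of_lt (abs_im_le_norm ω) (by linarith)
  have hz0 := exp_eq_one_strip hu (d := r) (by linarith) him he1
  have h2 : ((1 - s + s * θ : ℝ) : ℂ) * a = -(((s * θ : ℝ) : ℂ) * z) := by
    rw [hωd] at hz0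
    exact eq_neg_of_add_eq_zero_left hz0
  have h3 : (1 - s + s * θ) * ‖a‖ = s * θ * ‖z‖ := by
    have := congrArg norm h2
    rwa [norm_neg, norm_mul, norm_mul, Complex.norm_real, Complex.norm_real,
      Real.norm_of_nonneg hc1, Real.norm_of_nonneg hc2] at this
  have h4 : s * θ * ‖z‖ ≤ s * θ * (‖a‖ / 4) := mul_le_mul_of_nonneg_left hz.le hc2
  have h5 : 0 < 1 - s + s * θ * (3 / 4) := by
    rcases lt_or_eq_of_le hs1 with h | h
    · have : 0 ≤ s * θ * (3 / 4) := by positivity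
      linarith
    · rw [h]
      linarith
  nlinarith

/-- bound of the height function -/
private lemma TipEnd_bd {u W a Ya : ℂ} (hG : G Ya = W * exp (u * a)) :
    ∃ C : ℝ, 0 < C ∧ ∀ ω : ℂ, ‖W * exp (u * ω) / Fl Ya (u * (ω - a))‖ ≤
      C * (1 + ‖W‖ * Real.exp (‖u‖ * ‖ω‖)) := by
  obtain ⟨C, hC, h⟩ := exists_norm_psi_le
  refine ⟨C, hC, fun ω => ?_⟩
  have h1 := h Ya (u * (ω - a))
  have h2 : G Ya * exp (u * (ω - a)) = W * exp (u * ω) := by
    rw [hG, mul_assoc, ← Complex.exp_add]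
    congr 2
    ring
  rw [h2] at h1
  refine h1.trans (mul_le_mul_of_nonneg_left ?_ hC.le)
  rw [norm_mul, Complex.norm_exp]
  have h3 : (u * ω).re ≤ ‖u‖ * ‖ω‖ := by
    rw [← norm_mul]
    exact Complex.re_le_norm _
  have h4 := mul_le_mul_of_nonneg_left (Real.exp_le_exp.2 h3) (norm_nonneg W)
  linarith

/-- analytic in `z` (any `a` with `a ≠ 0`, `|a|` small): `differentiableOn_paramInt`; for `θ ∈ (0,1]` and
`|z| < |a|/4` the flow from height `a` to height `θ (a + z)` avoids `0` (the segment from `a` to `θ (a+z)`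
does not contain `0`); `ψ` is bounded (`exists_norm_psi_le`). -/
theorem analyticAt_tipE {u W a Ya : ℂ} {g : ℂ → ℂ} {r : ℝ} (hu : 0 < u.re)
    (hW : W ^ 2 = tipc) (hYa : sin Ya ≠ 0) (hG : G Ya = W * exp (u * a)) (ha : a ≠ 0)
    (har : 4 * ‖a‖ < r) (hr : r * ‖u‖ ^ 2 ≤ u.re) (hr1 : r ≤ 1)
    (hg : DifferentiableOn ℂ g (ball 0 r)) : AnalyticAt ℂ (tipE u W a Ya g) 0 := by
  have ha0 : 0 < ‖a‖ := norm_pos_iff.2 ha
  have hb4 : 0 < ‖a‖ / 4 := by positivity
  obtain ⟨C, hC, hbd⟩ := TipEnd_bd hG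
  have hnorm : ∀ z ∈ ball (0 : ℂ) (‖a‖ / 4), ∀ θ ∈ Ioo (0 : ℝ) 1,
      ‖(θ : ℂ) * (a + z)‖ ≤ 2 * ‖a‖ ∧ ‖(θ : ℂ) * (a + z) - z‖ ≤ 2 * ‖a‖ := by
    intro z hz θ hθ
    rw [mem_ball_zero_iff] at hz
    have h1 : ‖(θ : ℂ) * (a + z)‖ ≤ ‖a‖ + ‖z‖ := by
      rw [norm_mul, Complex.norm_real, Real.norm_of_nonneg hθ.1.le]
      calc θ * ‖a + z‖ ≤ 1 * ‖a + z‖ := mul_le_mul_of_nonneg_right hθ.2.le (norm_nonneg _)
        _ ≤ ‖a‖ + ‖z‖ := by rw [one_mul]; exact norm_add_le _ _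
    refine ⟨by linarith, (norm_sub_le _ _).trans (by linarith)⟩
  have hgd : ∀ z ∈ ball (0 : ℂ) (‖a‖ / 4), ∀ θ ∈ Ioo (0 : ℝ) 1,
      DifferentiableAt ℂ g ((θ : ℂ) * (a + z) - z) := by
    intro z hz θ hθ
    refine hg.differentiableAt (isOpen_ball.mem_nhds ?_)
    rw [mem_ball_zero_iff]
    linarith [(hnorm z hz θ hθ).2]
  have hFd : ∀ z ∈ ball (0 : ℂ) (‖a‖ / 4), ∀ θ ∈ Ioo (0 : ℝ) 1,
      Fwd Ya (u * (θ * (a + z) - a)) := fun z hz θ hθ =>
    TipEnd_fwd hu hW hG har hr (by rwa [mem_ball_zero_iff] at hz) hθ.1 hθ.2.le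
  have hK : ContinuousOn g (closedBall 0 (2 * ‖a‖)) :=
    hg.continuousOn.mono (closedBall_subset_ball (by linarith))
  obtain ⟨M, hM⟩ := (isCompact_closedBall (0 : ℂ) (2 * ‖a‖)).exists_bound_of_continuousOn hK
  have hI : DifferentiableOn ℂ (fun z => ∫ θ in (0 : ℝ)..1, W * exp (u * (θ * (a + z))) /
      Fl Ya (u * (θ * (a + z) - a)) * g (θ * (a + z) - z)) (ball (0 : ℂ) (‖a‖ / 4)) := by
    refine differentiableOn_paramInt isOpen_ball zero_le_one ?_ ?_ ?_
    · intro θ hθ z hz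
      have h1 : DifferentiableAt ℂ (fun z => Fl Ya (u * (θ * (a + z) - a))) z :=
        DifferentiableAt.comp (g := Fl Ya) (f := fun z => u * (θ * (a + z) - a)) z
          (hasDerivAt_Fl hYa (hFd z hz θ hθ)).differentiableAt (by fun_prop)
      have h2 : DifferentiableAt ℂ (fun z => g (θ * (a + z) - z)) z :=
        DifferentiableAt.comp (g := g) (f := fun z => (θ : ℂ) * (a + z) - z) z
          (hgd z hz θ hθ) (by fun_prop)
      have h3 : DifferentiableAt ℂ (fun z => W * exp (u * (θ * (a + z)))) z := by fun_prop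
      exact ((h3.div h1 (Fl_ne_zero hYa (hFd z hz θ hθ))).mul h2).differentiableWithinAt
    · intro z hz θ hθ
      have h1 : ContinuousAt (fun θ : ℝ => Fl Ya (u * (θ * (a + z) - a))) θ :=
        ContinuousAt.comp (g := Fl Ya) (f := fun θ : ℝ => u * (θ * (a + z) - a))
          (hasDerivAt_Fl hYa (hFd z hz θ hθ)).continuousAt (by fun_prop)
      have h2 : ContinuousAt (fun θ : ℝ => g (θ * (a + z) - z)) θ :=
        ContinuousAt.comp (g := g) (f := fun θ : ℝ => (θ : ℂ) * (a + z) - z)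
          (hgd z hz θ hθ).continuousAt (by fun_prop)
      have h3 : ContinuousAt (fun θ : ℝ => W * exp (u * (θ * (a + z)))) θ := by fun_prop
      exact ((h3.div h1 (Fl_ne_zero hYa (hFd z hz θ hθ))).mul h2).continuousWithinAt
    · intro z0 hz0
      refine ⟨C * (1 + ‖W‖ * Real.exp (‖u‖ * (2 * ‖a‖))) * M, ?_⟩
      filter_upwards [isOpen_ball.mem_nhds hz0] with z hz θ hθ
      rw [norm_mul]
      obtain ⟨h1, h2⟩ := hnorm z hz θ hθ
      refine mul_le_mul ((hbd _).trans ?_) (hM _ (mem_closedBall_zero_iff.2 h2))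
        (norm_nonneg _) (by positivity)
      have h3 : Real.exp (‖u‖ * ‖(θ : ℂ) * (a + z)‖) ≤ Real.exp (‖u‖ * (2 * ‖a‖)) :=
        Real.exp_le_exp.2 (mul_le_mul_of_nonneg_left h1 (norm_nonneg _))
      have h4 := mul_le_mul_of_nonneg_left h3 (norm_nonneg W)
      exact mul_le_mul_of_nonneg_left (by linarith) hC.le
  have hD : DifferentiableOn ℂ (tipE u W a Ya g) (ball (0 : ℂ) (‖a‖ / 4)) := by
    have h1 : DifferentiableOn ℂ (fun z : ℂ => a + z) (ball (0 : ℂ) (‖a‖ / 4)) := by fun_prop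
    exact h1.mul hI
  exact hD.analyticAt (ball_mem_nhds _ hb4)

/-- integrals along segments that start at the boundary point `0` of a disc -/
private lemma TipEnd_tri {c : ℂ} {R M : ℝ} {f : ℂ → ℂ} (hR : 0 < R) (hc : ‖c‖ = R)
    (hf : DifferentiableOn ℂ f (ball c R)) (hM : ∀ z ∈ ball c R, ‖f z‖ ≤ M) :
    ∃ Φ : ℂ → ℂ, (∀ z ∈ ball c R, HasDerivAt Φ (f z) z) ∧
      ∀ z1 ∈ ball c R, ∀ z2 ∈ ball c R, z1 * (∫ θ in (0 : ℝ)..1, f (θ * z1)) -
        z2 * (∫ θ in (0 : ℝ)..1, f (θ * z2)) = Φ z1 - Φ z2 := by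
  obtain ⟨Φ, hΦ⟩ := hf.isExactOn_ball
  have hΦ' : ∀ z ∈ ball c R, HasDerivAt Φ (f z) z := fun z hz => hΦ z hz
  refine ⟨Φ, hΦ', ?_⟩
  have hseg : ∀ z ∈ ball c R, ∀ θ ∈ Ioc (0 : ℝ) 1, (θ : ℂ) * z ∈ ball c R := by
    intro z hz θ hθ
    rw [mem_ball_iff_norm] at hz ⊢
    have h1 : (θ : ℂ) * z - c = ((θ : ℝ) : ℂ) * (z - c) - ((1 - θ : ℝ) : ℂ) * c := by
      push_cast
      ring
    rw [h1]
    refine (norm_sub_le _ _).trans_lt ?_
    rw [norm_mul, norm_mul, Complex.norm_real, Complex.norm_real, Real.norm_of_nonneg hθ.1.le,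
      Real.norm_of_nonneg (by linarith [hθ.2]), hc]
    have h2 := mul_lt_mul_of_pos_left hz hθ.1
    nlinarith
  have hcont : ∀ z ∈ ball c R, ContinuousOn (fun θ : ℝ => f (θ * z)) (Ioc 0 1) := by
    intro z hz θ hθ
    have h1 : ContinuousAt f ((θ : ℂ) * z) :=
      (hf.differentiableAt (isOpen_ball.mem_nhds (hseg z hz θ hθ))).continuousAt
    exact (ContinuousAt.comp (g := f) (f := fun θ : ℝ => (θ : ℂ) * z) h1
      (by fun_prop)).continuousWithinAt
  have hint : ∀ z ∈ ball c R, IntervalIntegrable (fun θ : ℝ => f (θ * z)) volume 0 1 := by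
    intro z hz
    rw [intervalIntegrable_iff_integrableOn_Ioc_of_le zero_le_one]
    refine IntegrableOn.of_bound measure_Ioc_lt_top
      ((hcont z hz).aestronglyMeasurable measurableSet_Ioc) M ?_
    exact (ae_restrict_mem measurableSet_Ioc).mono fun θ hθ => hM _ (hseg z hz θ hθ)
  have hftc : ∀ z ∈ ball c R, ∀ s ∈ Ioc (0 : ℝ) 1,
      z * (∫ θ in s..1, f (θ * z)) = Φ z - Φ (s * z) := by
    intro z hz s hs
    have h1 : ∀ θ ∈ uIcc s 1, HasDerivAt (fun θ : ℝ => Φ (θ * z)) (f (θ * z) * z) θ := by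
      intro θ hθ
      rw [uIcc_of_le hs.2] at hθ
      have h2 := hΦ' _ (hseg z hz θ ⟨hs.1.trans_le hθ.1, hθ.2⟩)
      have h3 : HasDerivAt (fun θ : ℝ => (θ : ℂ) * z) z θ := by
        have := (Complex.ofRealCLM.hasDerivAt (x := θ)).mul_const z
        simpa using this
      exact HasDerivAt.comp θ (h₂ := Φ) h2 h3
    have h4 : IntervalIntegrable (fun θ : ℝ => f (θ * z) * z) volume s 1 := by
      refine ContinuousOn.intervalIntegrable ?_
      rw [uIcc_of_le hs.2]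
      exact ((hcont z hz).mono fun θ hθ => ⟨hs.1.trans_le hθ.1, hθ.2⟩).mul continuousOn_const
    have h5 := intervalIntegral.integral_eq_sub_of_hasDerivAt h1 h4
    rw [intervalIntegral.integral_mul_const] at h5
    rw [mul_comm, h5]
    simp
  intro z1 hz1 z2 hz2
  have hlim : ∀ z ∈ ball c R, Tendsto (fun s : ℝ => z * (∫ θ in s..1, f (θ * z))) (𝓝[>] 0)
      (𝓝 (z * (∫ θ in (0 : ℝ)..1, f (θ * z)))) := by
    intro z hz
    have h1 : IntegrableOn (fun θ : ℝ => f (θ * z)) (uIcc 0 1) := by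
      rw [uIcc_of_le zero_le_one, integrableOn_Icc_iff_integrableOn_Ioc]
      exact (intervalIntegrable_iff_integrableOn_Ioc_of_le zero_le_one).1 (hint z hz)
    have h2 := intervalIntegral.continuousOn_primitive_interval_left h1 0 left_mem_uIcc
    have h3 : Tendsto (fun s : ℝ => ∫ θ in s..1, f (θ * z)) (𝓝[>] 0)
        (𝓝 (∫ θ in (0 : ℝ)..1, f (θ * z))) := by
      refine Tendsto.mono_left h2 ?_
      rw [uIcc_of_le zero_le_one]
      refine nhdsWithin_le_of_mem ?_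
      exact Icc_mem_nhdsGT zero_lt_one
    exact h3.const_mul z
  have h1 := ((hlim z1 hz1).sub (hlim z2 hz2)).sub_const (Φ z1 - Φ z2)
  have h2 : Tendsto (fun s : ℝ => z1 * (∫ θ in s..1, f (θ * z1)) -
      z2 * (∫ θ in s..1, f (θ * z2)) - (Φ z1 - Φ z2)) (𝓝[>] 0) (𝓝 0) := by
    have hM0 : 0 ≤ M := (norm_nonneg _).trans (hM c (mem_ball_self hR))
    have h3 : Tendsto (fun s : ℝ => M * (s * ‖z2 - z1‖)) (𝓝[>] 0) (𝓝 0) := by
      have : Tendsto (fun s : ℝ => M * (s * ‖z2 - z1‖)) (𝓝 0) (𝓝 (M * (0 * ‖z2 - z1‖))) := by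
        have h : Continuous fun s : ℝ => M * (s * ‖z2 - z1‖) := by fun_prop
        exact h.tendsto 0
      rw [zero_mul, mul_zero] at this
      exact this.mono_left nhdsWithin_le_nhds
    refine squeeze_zero_norm' ?_ h3
    filter_upwards [Ioc_mem_nhdsGT zero_lt_one] with s hs
    rw [hftc z1 hz1 s hs, hftc z2 hz2 s hs]
    have h4 : Φ z1 - Φ (s * z1) - (Φ z2 - Φ (s * z2)) - (Φ z1 - Φ z2) =
        Φ (s * z2) - Φ (s * z1) := by ring
    rw [h4]
    refine ((convex_ball c R).norm_image_sub_le_of_norm_hasDerivWithin_le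
      (fun z hz => (hΦ' z hz).hasDerivWithinAt) hM (hseg z1 hz1 s hs)
      (hseg z2 hz2 s hs)).trans (le_of_eq ?_)
    rw [← mul_sub, norm_mul, Complex.norm_real, Real.norm_of_nonneg hs.1.le]
  have h3 := tendsto_nhds_unique h1 h2
  exact sub_eq_zero.1 h3

/-- the upper side, in terms of `g` only -/
private lemma TipEnd_core {u W : ℂ} (hu : 0 < u.re) (hW : W ^ 2 = tipc) {g : ℂ → ℂ} {e1 : ℝ}
    (he1 : 0 < e1) (hg1 : DifferentiableOn ℂ g (Rc 1 e1))
    (hg : ∀ T : ℝ, 0 < T → ∃ δ : ℝ, 0 < δ ∧ DifferentiableOn ℂ g (Rc T δ))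
    (hint : IntegrableOn (fun s : ℝ => Real.exp (-(u.re * s)) * (1 + s) * ‖g (-(s : ℂ))‖)
      (Ioi 0)) :
    ∃ ε : ℝ, 0 < ε ∧ ∀ e0 ∈ Ioo (0 : ℝ) ε, ∀ Ya : ℂ, sin Ya ≠ 0 →
      G Ya = W * exp (u * (e0 * I)) → GermGood u (fun t => tipE u W (e0 * I) Ya g t) := by
  have hu0 : u ≠ 0 := by
    rintro rfl
    simp at hu
  have hun : 0 < ‖u‖ ^ 2 := by
    have := norm_pos_iff.2 hu0
    positivity
  set d : ℝ := 3 * u.re / ‖u‖ ^ 2 with hd
  have hd0 : 0 < d := by positivity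
  have hdu : d * ‖u‖ ^ 2 ≤ 3 * u.re := by
    rw [hd, div_mul_cancel₀ _ hun.ne']
  refine ⟨min (min (e1 / 3) (1 / 3)) (d / 2), by positivity, ?_⟩
  intro e0 he0 Ya hYa hG
  have he00 : 0 < e0 := he0.1
  have hmin := he0.2
  rw [lt_min_iff, lt_min_iff] at hmin
  obtain ⟨⟨h1, h2⟩, h3⟩ := hmin
  set ψ : ℂ → ℂ := fun ω => W * exp (u * ω) / Fl Ya (u * (ω - e0 * I)) with hψd
  have hψ : SideP u 0 d e0 ψ := sideP_psi hu le_rfl (by simpa using hW) he00 (by linarith) hdu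
    hYa hG
  have hG0 : SideG u e0 g := ⟨hg, ⟨e1, by linarith, hg1⟩, hint⟩
  refine ⟨sideE 0 e0 ψ g, good_sideE hψ hG0 (by norm_num) le_rfl, e0, he00, fun t ht => ?_⟩
  have ht0 : 0 < t := ht.1
  have hte : t < e0 := ht.2
  have hI : ‖(e0 * I : ℂ)‖ = e0 := by
    rw [norm_mul, Complex.norm_real, Complex.norm_I, mul_one, Real.norm_of_nonneg he00.le]
  set f : ℂ → ℂ := fun ω => ψ ω * g (ω - t) with hfd
  have hB : ∀ ω ∈ ball (e0 * I : ℂ) e0, 0 < ω.im ∧ ω.im < d ∧ |ω.re| ≤ 1 ∧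
      ω - t ∈ closedBall (0 : ℂ) (3 * e0) := by
    intro ω hω
    rw [mem_ball_iff_norm] at hω
    have a1 := (abs_im_le_norm (ω - e0 * I)).trans_lt hω
    have a2 := (abs_re_le_norm (ω - e0 * I)).trans_lt hω
    simp only [sub_im, mul_im, ofReal_re, I_im, mul_one, ofReal_im, I_re, mul_zero, add_zero] at a1
    simp only [sub_re, mul_re, ofReal_re, I_re, mul_zero, ofReal_im, I_im, mul_one, sub_self,
      sub_zero] at a2
    rw [abs_lt] at a1
    refine ⟨by linarith, by linarith, by linarith, ?_⟩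
    rw [mem_closedBall_zero_iff]
    have a3 : ω - t = (ω - e0 * I) + e0 * I - t := by ring
    rw [a3]
    refine (norm_sub_le _ _).trans ?_
    have a4 := norm_add_le (ω - e0 * I) (e0 * I)
    rw [hI] at a4
    rw [Complex.norm_real, Real.norm_of_nonneg ht0.le]
    linarith
  have hcl : closedBall (0 : ℂ) (3 * e0) ⊆ Rc 1 e1 := by
    intro ω hω
    rw [mem_closedBall_zero_iff] at hω
    have a1 := (abs_im_le_norm ω).trans hω
    have a2 := (abs_re_le_norm ω).trans hω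
    rw [abs_le] at a2
    exact ⟨by linarith, by linarith, by linarith⟩
  obtain ⟨M, hM⟩ := (isCompact_closedBall (0 : ℂ) (3 * e0)).exists_bound_of_continuousOn
    (hg1.continuousOn.mono hcl)
  obtain ⟨C, hC⟩ := hψ.bound
  have hopen : IsOpen {ω : ℂ | 0 < ω.im ∧ ω.im < d} :=
    (isOpen_lt continuous_const continuous_im).inter (isOpen_lt continuous_im continuous_const)
  have hfdiff : DifferentiableOn ℂ f (ball (e0 * I : ℂ) e0) := by
    intro ω hω
    obtain ⟨b1, b2, b3, b4⟩ := hB ω hω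
    have c1 : DifferentiableAt ℂ ψ ω := hψ.hol.differentiableAt (hopen.mem_nhds ⟨b1, b2⟩)
    have c2 : DifferentiableAt ℂ (fun ω => g (ω - t)) ω :=
      DifferentiableAt.comp (g := g) (f := fun ω : ℂ => ω - t) ω
        (hg1.differentiableAt ((TipEnd_open 1 e1).mem_nhds (hcl b4))) (by fun_prop)
    exact (c1.mul c2).differentiableWithinAt
  have hC0 : 0 ≤ C := by
    have := (norm_nonneg _).trans (hC 0 (by simp) (by simp) (by simpa using hd0))
    simpa using this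
  have hfb : ∀ ω ∈ ball (e0 * I : ℂ) e0, ‖f ω‖ ≤ C * Real.exp u.re * M := by
    intro ω hω
    obtain ⟨b1, b2, b3, b4⟩ := hB ω hω
    rw [abs_le] at b3
    rw [hfd]
    simp only []
    rw [norm_mul]
    refine mul_le_mul ((hC ω b3.1 b1.le b2).trans ?_) (hM _ b4) (norm_nonneg _) (by positivity)
    refine mul_le_mul_of_nonneg_left (Real.exp_le_exp.2 ?_) hC0
    nlinarith
  obtain ⟨Φ, hΦ, htri⟩ := TipEnd_tri he00 hI hfdiff hfb
  have hz1 : (e0 * I + t : ℂ) ∈ ball (e0 * I : ℂ) e0 := by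
    rw [mem_ball_iff_norm]
    have : (e0 * I + t - e0 * I : ℂ) = t := by ring
    rw [this, Complex.norm_real, Real.norm_of_nonneg ht0.le]
    exact hte
  have key := htri _ hz1 _ (mem_ball_self he00)
  have hleft : tipE u W (e0 * I) Ya g t = (e0 * I + t) *
      (∫ θ in (0 : ℝ)..1, f (θ * (e0 * I + t))) := rfl
  have hvert : (e0 * I : ℂ) * (∫ θ in (0 : ℝ)..1, f (θ * (e0 * I))) =
      ∫ η in (0 : ℝ)..e0, ψ ((0 : ℝ) + η * I) * g ((0 : ℝ) + η * I - t) * I := by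
    have c1 := intervalIntegral.smul_integral_comp_mul_right (a := 0) (b := 1)
      (fun η : ℝ => f (η * I) * I) e0
    rw [zero_mul, one_mul] at c1
    have c2 : (∫ η in (0 : ℝ)..e0, ψ ((0 : ℝ) + η * I) * g ((0 : ℝ) + η * I - t) * I) =
        ∫ η in (0 : ℝ)..e0, f (η * I) * I := by
      refine intervalIntegral.integral_congr fun η _ => ?_
      simp only [hfd, ofReal_zero, zero_add]
    rw [c2, ← c1, intervalIntegral.integral_mul_const, Complex.real_smul]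
    have c3 : (∫ x in (0 : ℝ)..1, f ((x * e0 : ℝ) * I)) = ∫ θ in (0 : ℝ)..1, f (θ * (e0 * I)) := by
      refine intervalIntegral.integral_congr fun η _ => ?_
      beta_reduce
      congr 1
      push_cast
      ring
    rw [c3]
    ring
  have hhor : (∫ τ in (0 : ℝ)..t, ψ (τ + e0 * I) * g (τ - t + e0 * I)) =
      Φ (e0 * I + t) - Φ (e0 * I) := by
    have hmem : ∀ τ ∈ uIcc (0 : ℝ) t, (τ + e0 * I : ℂ) ∈ ball (e0 * I : ℂ) e0 := by
      intro τ hτ
      rw [uIcc_of_le ht0.le] at hτ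
      rw [mem_ball_iff_norm]
      have : (τ + e0 * I - e0 * I : ℂ) = τ := by ring
      rw [this, Complex.norm_real, Real.norm_of_nonneg hτ.1]
      exact lt_of_le_of_lt hτ.2 hte
    have c1 : ∀ τ ∈ uIcc (0 : ℝ) t, HasDerivAt (fun τ : ℝ => Φ (τ + e0 * I))
        (f (τ + e0 * I)) τ := by
      intro τ hτ
      have c3 : HasDerivAt (fun τ : ℝ => (τ : ℂ) + e0 * I) 1 τ := by
        have := (Complex.ofRealCLM.hasDerivAt (x := τ)).add_const (e0 * I : ℂ)
        simpa using this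
      have c4 := HasDerivAt.comp τ (h₂ := Φ) (hΦ _ (hmem τ hτ)) c3
      rw [mul_one] at c4
      exact c4
    have c2 : IntervalIntegrable (fun τ : ℝ => f (τ + e0 * I)) volume 0 t := by
      refine ContinuousOn.intervalIntegrable fun τ hτ => ?_
      have c3 : ContinuousAt f (τ + e0 * I : ℂ) :=
        (hfdiff.differentiableAt (isOpen_ball.mem_nhds (hmem τ hτ))).continuousAt
      exact (ContinuousAt.comp (g := f) (f := fun τ : ℝ => (τ : ℂ) + e0 * I) c3
        (by fun_prop)).continuousWithinAt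
    have c3 := intervalIntegral.integral_eq_sub_of_hasDerivAt c1 c2
    have c4 : (∫ τ in (0 : ℝ)..t, ψ (τ + e0 * I) * g (τ - t + e0 * I)) =
        ∫ τ in (0 : ℝ)..t, f (τ + e0 * I) := by
      refine intervalIntegral.integral_congr fun τ _ => ?_
      simp only [hfd]
      congr 2
      ring
    rw [c4, c3, ofReal_zero, zero_add, add_comm (t : ℂ)]
  beta_reduce
  rw [sideE_eq_e0 hψ hG0 (by norm_num) ht0.le (by linarith), hleft, ← hvert, hhor]
  linear_combination key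

private lemma TipEnd_chart {u : ℂ} {q : ℂ → ℂ} {P : ℂ} {lam : ℂ → ℂ} (hlam : IsChart u q P lam) :
    ∃ e1 : ℝ, 0 < e1 ∧ DifferentiableOn ℂ (deriv lam) (Rc 1 e1) ∧
      ∀ T : ℝ, 0 < T → ∃ δ : ℝ, 0 < δ ∧ DifferentiableOn ℂ (deriv lam) (Rc T δ) := by
  obtain ⟨e1, he1, hl, hg⟩ := sideG_chart hlam
  exact ⟨e1, he1, hl.deriv (TipEnd_open 1 e1), hg⟩

/-- UPPER SIDE: for small real `t > 0`, `tipE (i e0) = sideE 0 e0 ψ g` (path `0 → i e0 → t + i e0` against the
straight segment: `ψ(ω) g(ω-t)` is holomorphic in the open upper half disc and bounded, Cauchy for the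
triangle, limit at the vertex `0`), which is good by `good_sideE`. -/
theorem germ_tip_up {u gs W : ℂ} (hu : 0 < u.re) {q : ℂ → ℂ} {P : ℂ} {lam : ℂ → ℂ}
    (hlam : IsChart u q P lam) (hP : gs ^ 2 * q P = tipc) (hW : W ^ 2 = tipc) :
    ∃ ε : ℝ, 0 < ε ∧ ∀ e0 ∈ Ioo (0 : ℝ) ε, ∀ Ya : ℂ, sin Ya ≠ 0 →
      G Ya = W * exp (u * (e0 * I)) →
      GermGood u (fun t => tipE u W (e0 * I) Ya (deriv lam) t) := by
  obtain ⟨e1, he1, hg1, hg⟩ := TipEnd_chart hlam
  exact TipEnd_core hu hW he1 hg1 hg hlam.int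

/-- the conjugate function of the conjugate variable -/
private noncomputable def TipEnd_cj (g : ℂ → ℂ) : ℂ → ℂ := fun ω => conj (g (conj ω))

private lemma TipEnd_cj_diff {g : ℂ → ℂ} {T δ : ℝ} (hg : DifferentiableOn ℂ g (Rc T δ)) :
    DifferentiableOn ℂ (TipEnd_cj g) (Rc T δ) := by
  intro ω hω
  have h1 : conj ω ∈ Rc T δ := by
    obtain ⟨h1, h2, h3⟩ := hω
    refine ⟨?_, ?_, ?_⟩
    · rwa [Complex.conj_re]
    · rwa [Complex.conj_re]
    · rwa [Complex.conj_im, abs_neg]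
  have h2 := (hg.differentiableAt ((TipEnd_open T δ).mem_nhds h1)).conj_conj
  rw [Complex.conj_conj] at h2
  exact h2.differentiableWithinAt

private lemma TipEnd_conj_tipE (u W Ya : ℂ) (e0 : ℝ) (g : ℂ → ℂ) (t : ℝ) :
    tipE (conj u) (conj W) (e0 * I) (conj Ya) (TipEnd_cj g) t =
      conj (tipE u W (-(e0 * I)) Ya g t) := by
  unfold tipE
  rw [map_mul, ← intervalIntegral.intervalIntegral_conj]
  have h0 : ∀ θ : ℝ, conj ((θ : ℂ) * (-(e0 * I) + t)) = (θ : ℂ) * (e0 * I + t) := by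
    intro θ
    simp only [map_mul, map_add, map_neg, Complex.conj_ofReal, Complex.conj_I]
    ring
  congr 1
  · simp only [map_add, map_neg, map_mul, Complex.conj_ofReal, Complex.conj_I]
    ring
  · refine intervalIntegral.integral_congr fun θ _ => ?_
    simp only [TipEnd_cj]
    have h1 : (conj u : ℂ) * ((θ : ℂ) * (e0 * I + t) - e0 * I) =
        conj (u * ((θ : ℂ) * (-(e0 * I) + t) - -(e0 * I))) := by
      rw [map_mul, map_sub, h0]
      simp only [map_neg, map_mul, Complex.conj_ofReal, Complex.conj_I]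
      ring
    have h2 : conj ((θ : ℂ) * (e0 * I + t) - t) = (θ : ℂ) * (-(e0 * I) + t) - t := by
      rw [← h0, map_sub, Complex.conj_conj, Complex.conj_ofReal]
    have h3 : (conj u : ℂ) * ((θ : ℂ) * (e0 * I + t)) = conj (u * ((θ : ℂ) * (-(e0 * I) + t))) := by
      rw [map_mul, h0]
    rw [h1, Fl_conj, h2, h3, Complex.exp_conj, map_mul, map_div₀, map_mul]

/-- LOWER SIDE: conjugation -/
theorem germ_tip_dn {u gs W : ℂ} (hu : 0 < u.re) {q : ℂ → ℂ} {P : ℂ} {lam : ℂ → ℂ}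
    (hlam : IsChart u q P lam) (hP : gs ^ 2 * q P = tipc) (hW : W ^ 2 = tipc) :
    ∃ ε : ℝ, 0 < ε ∧ ∀ e0 ∈ Ioo (0 : ℝ) ε, ∀ Ya : ℂ, sin Ya ≠ 0 →
      G Ya = W * exp (-(u * (e0 * I))) →
      GermGood u (fun t => tipE u W (-(e0 * I)) Ya (deriv lam) t) := by
  obtain ⟨e1, he1, hg1, hg⟩ := TipEnd_chart hlam
  have hW' : (conj W) ^ 2 = tipc := by
    rw [← map_pow, hW]
    unfold tipc
    rw [map_neg, Complex.conj_ofReal]
  obtain ⟨ε, hε, h⟩ := TipEnd_core (u := conj u) (W := conj W) (g := TipEnd_cj (deriv lam))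
    (by rwa [Complex.conj_re]) hW' he1 (TipEnd_cj_diff hg1)
    (fun T hT => by
      obtain ⟨δ, hδ, hd⟩ := hg T hT
      exact ⟨δ, hδ, TipEnd_cj_diff hd⟩)
    (by
      refine hlam.int.congr_fun (fun s _ => ?_) measurableSet_Ioi
      simp only [TipEnd_cj, Complex.conj_re, map_neg, Complex.conj_ofReal, RCLike.norm_conj])
  refine ⟨ε, hε, fun e0 he0 Ya hYa hG => ?_⟩
  obtain ⟨f, hf, τ, hτ, hft⟩ := h e0 he0 (conj Ya)
    (by rw [Complex.sin_conj]; exact (map_ne_zero _).2 hYa)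
    (by
      rw [G_conj, hG, map_mul, ← Complex.exp_conj]
      congr 2
      simp only [map_neg, map_mul, Complex.conj_ofReal, Complex.conj_I]
      ring)
  refine ⟨fun t => conj (f t), ?_, τ, hτ, fun t ht => ?_⟩
  · have := hf.conj
    rwa [Complex.conj_conj] at this
  · have h1 := hft t ht
    simp only [] at h1
    rw [TipEnd_conj_tipE] at h1
    beta_reduce
    rw [← h1, Complex.conj_conj]

end Pool.Agent.MP_ae5b4e_an_WB
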