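import Pool.Agent.Lib.MP_ae5b4e_an_WB.Lam
import Pool.Agent.Lib.MP_ae5b4e_an_WB.ParamInt
import Pool.Agent.Lib.MP_ae5b4e_an_WB.GoodL
import Pool.Agent.Lib.MP_ae5b4e_an_WB.Conv

/-!
# POR (iii), N2, Lemma B: end of type Z (arc of constant log-direction into a zero of `q`)
-/

namespace Pool.Agent.MP_ae5b4e_an_WB

open Complex Set Filter Topology MeasureTheory

/-- uniform width of the strip of heights that avoid the tip value: if `c e^(2uτ) ≠ 1` for all real
`τ` (`c ≠ 0`), then `c e^(2uz) ≠ 1` for all `z` with `|Im z| < d0`, some `d0 > 0`: the solutions are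
`z = -(log c + 2 π i m)/(2u)`, with imaginary parts `α - π m Re u/|u|^2`, a discrete set without `0`. -/
theorem exists_strip {u c : ℂ} (hu : 0 < u.re) (hc : c ≠ 0)
    (h : ∀ τ : ℝ, c * exp (2 * (u * τ)) ≠ 1) :
    ∃ d0 : ℝ, 0 < d0 ∧ ∀ z : ℂ, |z.im| < d0 → c * exp (2 * (u * z)) ≠ 1 := by
  have hu0 : u ≠ 0 := by
    rintro rfl
    simp at hu
  obtain ⟨L, hL⟩ : ∃ L : ℂ, exp L = c := ⟨log c, exp_log hc⟩
  obtain ⟨κ, hκ⟩ : ∃ κ : ℝ, κ = (Real.pi * I / u).im := ⟨_, rfl⟩
  obtain ⟨α, hα⟩ : ∃ α : ℝ, α = (L / (2 * u)).im := ⟨_, rfl⟩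
  have hκ0 : 0 < κ := by
    have h1 : κ = Real.pi * (u.re / normSq u) := by
      rw [hκ, Complex.div_im]
      simp [mul_div_assoc]
    rw [h1]
    exact mul_pos Real.pi_pos (div_pos hu (normSq_pos.2 hu0))
  have him : ∀ n : ℤ, (n * (Real.pi * I / u) - L / (2 * u) : ℂ).im = n * κ - α := by
    intro n
    rw [sub_im, ← hα, hκ]
    congr 1
    have : ((n : ℂ)) = ((n : ℝ) : ℂ) := by push_cast; rfl
    rw [this, Complex.im_ofReal_mul]
  have key : ∀ z : ℂ, c * exp (2 * (u * z)) = 1 → ∃ n : ℤ, z.im = n * κ - α := by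
    intro z hz
    rw [← hL, ← exp_add, Complex.exp_eq_one_iff] at hz
    obtain ⟨n, hn⟩ := hz
    refine ⟨n, ?_⟩
    rw [← him n]
    congr 1
    field_simp
    linear_combination hn
  have key2 : ∀ n : ℤ, (n : ℝ) * κ - α ≠ 0 := by
    intro n hn
    rw [← him n] at hn
    obtain ⟨z, hz⟩ : ∃ z : ℂ, z = n * (Real.pi * I / u) - L / (2 * u) := ⟨_, rfl⟩
    rw [← hz] at hn
    have h1 : ((z.re : ℝ) : ℂ) = z := Complex.ext (by simp) (by simp [hn])
    apply h z.re
    rw [h1, ← hL, ← exp_add, Complex.exp_eq_one_iff]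
    refine ⟨n, ?_⟩
    rw [hz]
    field_simp
    ring
  obtain ⟨β, hβ⟩ : ∃ β : ℝ, β = α / κ := ⟨_, rfl⟩
  have hαβ : α = β * κ := by rw [hβ]; field_simp
  have h3 : β = ⌊β⌋ + Int.fract β := (Int.floor_add_fract β).symm
  have h4 : 0 < Int.fract β := by
    rcases (Int.fract_nonneg β).lt_or_eq with h5 | h5
    · exact h5
    · exfalso
      apply key2 ⌊β⌋
      rw [hαβ]
      have : (⌊β⌋ : ℝ) = β := by linarith
      rw [this, sub_self]
  have h5 : Int.fract β < 1 := Int.fract_lt_one β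
  refine ⟨κ * min (Int.fract β) (1 - Int.fract β), mul_pos hκ0 (lt_min h4 (by linarith)), ?_⟩
  intro z hz heq
  obtain ⟨n, hn⟩ := key z heq
  rw [hn] at hz
  rcases le_or_gt n ⌊β⌋ with h6 | h6
  · have h7 : (n : ℝ) ≤ ⌊β⌋ := by exact_mod_cast h6
    have h8 : κ * min (Int.fract β) (1 - Int.fract β) ≤ κ * Int.fract β :=
      mul_le_mul_of_nonneg_left (min_le_left _ _) hκ0.le
    have h9 : -(n * κ - α) ≤ |n * κ - α| := neg_le_abs _
    rw [hαβ] at h9 hz
    nlinarith
  · have h7 : (⌊β⌋ : ℝ) + 1 ≤ n := by exact_mod_cast h6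
    have h8 : κ * min (Int.fract β) (1 - Int.fract β) ≤ κ * (1 - Int.fract β) :=
      mul_le_mul_of_nonneg_left (min_le_right _ _) hκ0.le
    have h9 : (n * κ - α) ≤ |n * κ - α| := le_abs_self _
    rw [hαβ] at h9 hz
    nlinarith

/-- The labels `l s`, `0 ≤ s < oo`, run into a zero of `q` (`q (l s) = q (l 0) e^(-2us)`, `m = l'` integrable:
finite length), the height `G Y0 e^(uτ)` never meets the tip value. Then `∫ (w/y) dl` along this arc is
good. Analytic on `|Im z| < d0` (`exists_strip`): `differentiableOn_paramInt_Ioi` with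
`f z s = G Y0 exp (u (z-s)) / Fl Y0 (u (z-s))`, locally bounded in `z`, uniformly in `s ≥ 0`
(`exists_norm_psi_le`: `‖f z s‖ ≤ C (1 + |G Y0| e^(Re (u (z - s))))`). Asymptotics: with
`φ τ = G Y0 / Fl Y0 (uτ)` (bounded for `τ ≥ 0`: `|ψ| e^(-u.re τ) ≤ C (1 + |G Y0|)`) and
`m1 s = exp (-(us)) m s`: `tendsto_conv` (`x = 0`) for the part `s ≤ t`; the part `s > t` is
`≤ C (1 + |G Y0|) ∫ ‖m‖`, times `t e^(-u.re t) → 0`. -/
theorem good_zend {u Y0 : ℂ} (hu : 0 < u.re) (h0 : sin Y0 ≠ 0)
    (hF : ∀ τ : ℝ, G Y0 ^ 2 * exp (2 * (u * τ)) ≠ tipc) {m : ℝ → ℂ}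
    (hm : IntegrableOn m (Ioi 0)) :
    Good u (fun t : ℝ => ∫ s in Ioi (0 : ℝ),
      G Y0 * exp (u * (t - s)) / Fl Y0 (u * (t - s)) * m s) := by
  have htip : tipc ≠ 0 := by
    unfold tipc
    have := Real.exp_pos 2
    rw [neg_ne_zero, Ne, ofReal_eq_zero]
    positivity
  obtain ⟨d0, hd0, hstrip⟩ := exists_strip (u := u) (c := G Y0 ^ 2 / tipc) hu
    (div_ne_zero (pow_ne_zero 2 (G_ne_zero h0)) htip) (fun τ hτ => hF τ (by
      rw [div_mul_eq_mul_div, div_eq_one_iff_eq htip] at hτ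
      exact hτ))
  have hfw : ∀ z : ℂ, |z.im| < d0 → Fwd Y0 (u * z) := by
    intro z hz r hr hh
    apply hstrip (r * z)
    · rw [Complex.im_ofReal_mul, abs_mul, abs_of_nonneg hr.1]
      exact lt_of_le_of_lt (mul_le_of_le_one_left (abs_nonneg _) hr.2) hz
    · rw [div_mul_eq_mul_div, div_eq_one_iff_eq htip, ← hh]
      congr 2
      ring
  have hfa : FwdAll u Y0 := fun t _ => hF t
  obtain ⟨ψ, hψ⟩ : ∃ ψ : ℂ → ℂ, ψ = fun z => G Y0 * exp (u * z) / Fl Y0 (u * z) := ⟨_, rfl⟩
  obtain ⟨C, hC, hCb⟩ := exists_norm_psi_le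
  have hψd : ∀ z : ℂ, |z.im| < d0 → DifferentiableAt ℂ ψ z := by
    intro z hz
    rw [hψ]
    have h1 : DifferentiableAt ℂ (fun z : ℂ => u * z) z := by fun_prop
    have h2 : DifferentiableAt ℂ (fun z : ℂ => Fl Y0 (u * z)) z :=
      DifferentiableAt.comp (g := Fl Y0) z (hasDerivAt_Fl h0 (hfw z hz)).differentiableAt h1
    exact DifferentiableAt.div (by fun_prop) h2 (Fl_ne_zero h0 (hfw z hz))
  have hψb : ∀ z : ℂ, ‖ψ z‖ ≤ C * (1 + ‖G Y0‖ * Real.exp ((u * z).re)) := by
    intro z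
    rw [hψ]
    have := hCb Y0 (u * z)
    rwa [norm_mul (G Y0), norm_exp] at this
  have hG0 : 0 ≤ ‖G Y0‖ := norm_nonneg _
  have hψc : ∀ z : ℂ, |z.im| < d0 → Continuous fun s : ℝ => ψ (z - s) := by
    intro z hz
    rw [continuous_iff_continuousAt]
    intro s
    have h1 : ContinuousAt (fun s : ℝ => z - (s : ℂ)) s := by fun_prop
    refine ContinuousAt.comp (g := ψ) (hψd (z - s) ?_).continuousAt h1
    simpa using hz
  have hreb : ∀ (z : ℂ) (s : ℝ), 0 ≤ s → (u * (z - s)).re ≤ (u * z).re := by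
    intro z s hs
    have h1 : (u * (z - s)).re = (u * z).re - u.re * s := by
      rw [mul_sub, sub_re, Complex.re_mul_ofReal]
    rw [h1]
    have := mul_nonneg hu.le hs
    linarith
  have hint : ∀ t : ℝ, IntegrableOn (fun s : ℝ => ψ (t - s) * m s) (Ioi 0) := by
    intro t
    refine Integrable.bdd_mul (c := C * (1 + ‖G Y0‖ * Real.exp ((u * (t : ℂ)).re))) hm ?_ ?_
    · exact (hψc t (by simpa using hd0)).aestronglyMeasurable
    · rw [ae_restrict_iff' measurableSet_Ioi]
      refine .of_forall fun s hs => (hψb _).trans ?_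
      have := hreb t s (le_of_lt hs)
      gcongr
  have hUo : IsOpen {z : ℂ | |z.im| < d0} := isOpen_lt (by fun_prop) continuous_const
  constructor
  · intro t ht
    refine analyticAt_real_of_complex (U := {z : ℂ | |z.im| < d0})
      (F := fun z => ∫ s in Ioi (0 : ℝ), ψ (z - s) * m s) hUo ?_ ?_ ?_
    · simpa using hd0
    · refine differentiableOn_paramInt_Ioi hUo hm (f := fun z s => ψ (z - s)) ?_ ?_ ?_
      · intro s hs z hz
        have h1 : DifferentiableAt ℂ (fun z : ℂ => z - (s : ℂ)) z := by fun_prop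
        have h2 : |(z - (s : ℂ)).im| < d0 := by simpa using hz
        exact (DifferentiableAt.comp (g := ψ) z (hψd _ h2) h1).differentiableWithinAt
      · intro z hz
        exact (hψc z hz).continuousOn
      · intro z0 hz0
        refine ⟨C * (1 + ‖G Y0‖ * Real.exp ((u * z0).re + 1)), ?_⟩
        have h1 : ContinuousAt (fun z : ℂ => (u * z).re) z0 := by fun_prop
        filter_upwards [h1.eventually (gt_mem_nhds (lt_add_one _))] with z hz s hs
        refine (hψb _).trans ?_
        have h2 := (hreb z s (le_of_lt hs)).trans (le_of_lt hz)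
        gcongr
    · refine .of_forall fun s => ?_
      rw [hψ]
  · obtain ⟨Λ, -, -, C1, T, hT, hΛ⟩ := exists_Lam hu (K := {Y0}) isCompact_singleton (by
      rintro y rfl
      exact ⟨h0, hfa⟩)
    obtain ⟨φ, hφ⟩ : ∃ φ : ℝ → ℂ, φ = fun τ : ℝ => G Y0 / Fl Y0 (u * τ) := ⟨_, rfl⟩
    obtain ⟨m1, hm1⟩ : ∃ m1 : ℝ → ℂ, m1 = fun s : ℝ => exp (-(u * s)) * m s := ⟨_, rfl⟩
    have hφψ : ∀ τ : ℝ, φ τ = exp (-(u * τ)) * ψ τ := by
      intro τ
      rw [hφ, hψ]
      beta_reduce
      rw [exp_neg]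
      field_simp
    have hm1i : IntegrableOn m1 (Ioi 0) := by
      rw [hm1]
      refine Integrable.bdd_mul (c := 1) hm (by fun_prop) ?_
      rw [ae_restrict_iff' measurableSet_Ioi]
      refine .of_forall fun s hs => ?_
      rw [norm_exp, Real.exp_le_one_iff, neg_re, Complex.re_mul_ofReal]
      have := mul_nonneg hu.le (le_of_lt (show (0 : ℝ) < s from hs))
      linarith
    have hm1n : ∀ s : ℝ, ‖m1 s‖ = Real.exp (-(u.re * s)) * ‖m s‖ := by
      intro s
      rw [hm1]
      beta_reduce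
      rw [norm_mul, norm_exp, neg_re, Complex.re_mul_ofReal]
    have hm2i : IntegrableOn (fun s : ℝ => (1 + s) * ‖m1 s‖) (Ioi 0) := by
      have e1 : (fun s : ℝ => (1 + s) * ‖m1 s‖) =
          fun s : ℝ => ((1 + s) * Real.exp (-(u.re * s))) * ‖m s‖ := by
        funext s
        rw [hm1n]
        ring
      rw [e1]
      refine Integrable.bdd_mul (c := 1 + 1 / u.re) hm.norm (by fun_prop) ?_
      rw [ae_restrict_iff' measurableSet_Ioi]
      refine .of_forall fun s hs => ?_
      have hs0 : 0 < s := hs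
      have h1 := Real.add_one_le_exp (u.re * s)
      have h2 := mul_pos hu hs0
      have h3 : Real.exp (u.re * s) * Real.exp (-(u.re * s)) = 1 := by
        rw [← Real.exp_add]; simp
      have h4 := Real.exp_pos (-(u.re * s))
      have h5 := Real.exp_pos (u.re * s)
      rw [Real.norm_of_nonneg (by positivity)]
      have h6 : 1 + s ≤ (1 + 1 / u.re) * Real.exp (u.re * s) := by
        have h7 : s ≤ 1 / u.re * Real.exp (u.re * s) := by
          rw [div_mul_eq_mul_div, one_mul, le_div_iff₀ hu]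
          linarith
        have h8 : 1 ≤ Real.exp (u.re * s) := by linarith
        linarith
      calc (1 + s) * Real.exp (-(u.re * s)) ≤
          (1 + 1 / u.re) * Real.exp (u.re * s) * Real.exp (-(u.re * s)) := by gcongr
        _ = 1 + 1 / u.re := by rw [mul_assoc, h3, mul_one]
    have R := tendsto_conv (u := u) (Φ := Λ Y0) hu (x := 0) (r0 := 0)
      (C := max C1 (C * (1 + ‖G Y0‖))) (T := T) (φ := φ) (m := m1) ?_ ?_ hT ?_ hm1i hm2i
    · refine ⟨Λ Y0 * ∫ s in Ioi (0 : ℝ), m1 s, ?_⟩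
      obtain ⟨M, hM⟩ : ∃ M : ℝ, M = ∫ s in Ioi (0 : ℝ), C * (1 + ‖G Y0‖) * ‖m s‖ := ⟨_, rfl⟩
      have hMi : IntegrableOn (fun s => C * (1 + ‖G Y0‖) * ‖m s‖) (Ioi 0) := hm.norm.const_mul _
      have htail : ∀ t : ℝ, 0 < t → ‖∫ s in Ioi t, ψ (t - s) * m s‖ ≤ M := by
        intro t ht
        have hsub : Ioi t ⊆ Ioi (0 : ℝ) := Ioi_subset_Ioi ht.le
        have k1 : ‖∫ s in Ioi t, ψ (t - s) * m s‖ ≤
            ∫ s in Ioi t, C * (1 + ‖G Y0‖) * ‖m s‖ := by
          refine MeasureTheory.norm_integral_le_of_norm_le (hMi.mono_set hsub) ?_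
          rw [ae_restrict_iff' measurableSet_Ioi]
          refine .of_forall fun s hs => ?_
          have hs0 : t < s := hs
          rw [norm_mul]
          refine mul_le_mul_of_nonneg_right ((hψb _).trans ?_) (norm_nonneg _)
          have k2 : Real.exp ((u * ((t : ℂ) - s)).re) ≤ 1 := by
            rw [Real.exp_le_one_iff, ← ofReal_sub, Complex.re_mul_ofReal]
            exact mul_nonpos_of_nonneg_of_nonpos hu.le (by linarith)
          have k3 : ‖G Y0‖ * Real.exp ((u * ((t : ℂ) - s)).re) ≤ ‖G Y0‖ * 1 := by gcongr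
          rw [mul_one] at k3
          gcongr
        refine k1.trans ?_
        rw [hM]
        refine setIntegral_mono_set hMi ?_ (LE.le.eventuallyLE hsub)
        refine .of_forall fun s => ?_
        have : 0 ≤ C * (1 + ‖G Y0‖) * ‖m s‖ := by positivity
        exact this
      have hsplit : ∀ t : ℝ, 0 < t →
          (∫ s in Ioi (0 : ℝ), G Y0 * exp (u * (t - s)) / Fl Y0 (u * (t - s)) * m s) =
          exp (u * t) * (∫ s in (0 : ℝ)..(t - 0), φ (t - s) * m1 s) +
            ∫ s in Ioi t, ψ (t - s) * m s := by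
        intro t ht
        have k1 := intervalIntegral.integral_interval_add_Ioi (hint t)
          ((hint t).mono_set (Ioi_subset_Ioi ht.le))
        have k2 : (∫ s in (0 : ℝ)..t, ψ (t - s) * m s) =
            exp (u * t) * (∫ s in (0 : ℝ)..(t - 0), φ (t - s) * m1 s) := by
          rw [sub_zero, ← intervalIntegral.integral_const_mul]
          congr 1
          funext s
          rw [hφψ, hm1]
          beta_reduce
          have k3 : exp (u * t) * (exp (-(u * ((t - s : ℝ) : ℂ))) * exp (-(u * s))) = 1 := by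
            rw [← exp_add, ← exp_add, ← exp_zero]
            congr 1
            push_cast
            ring
          have k4 : ((t - s : ℝ) : ℂ) = (t : ℂ) - s := by push_cast; rfl
          rw [k4] at k3 ⊢
          linear_combination -(ψ ((t : ℂ) - s) * m s) * k3
        rw [← k2, k1, hψ]
      have hlim : Tendsto (fun t : ℝ => (t : ℂ) * (exp (-(u * t)) *
          ∫ s in Ioi t, ψ (t - s) * m s)) atTop (𝓝 0) := by
        have k1 : Tendsto (fun t : ℝ => M / u.re * ((u.re * t) ^ 1 * Real.exp (-(u.re * t))))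
            atTop (𝓝 0) := by
          have k2 := (Real.tendsto_pow_mul_exp_neg_atTop_nhds_zero 1).comp
            (tendsto_id.const_mul_atTop hu)
          have k3 := k2.const_mul (M / u.re)
          rw [mul_zero] at k3
          exact k3
        refine squeeze_zero_norm' ?_ k1
        filter_upwards [eventually_gt_atTop (0 : ℝ)] with t ht
        rw [norm_mul, norm_mul, norm_exp, neg_re, Complex.re_mul_ofReal, Complex.norm_real,
          Real.norm_of_nonneg ht.le]
        have k4 := htail t ht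
        have k5 : M / u.re * ((u.re * t) ^ 1 * Real.exp (-(u.re * t))) =
            t * (Real.exp (-(u.re * t)) * M) := by
          field_simp
        rw [k5]
        gcongr
      have hsum := R.add hlim
      rw [add_zero] at hsum
      refine hsum.congr' ?_
      filter_upwards [eventually_gt_atTop (0 : ℝ)] with t ht
      rw [hsplit t ht]
      have k6 : exp (u * t) * exp (-(u * t)) = 1 := by
        rw [← exp_add]; simp
      linear_combination (-(t : ℂ) * ∫ s in (0 : ℝ)..(t - 0), φ (t - s) * m1 s) * k6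
    · intro τ _ _
      rw [hφ]
      have k1 : |((τ : ℝ) : ℂ).im| < d0 := by simpa using hd0
      have k2 : ContinuousAt (fun τ : ℝ => u * (τ : ℂ)) τ := by fun_prop
      have k3 : ContinuousAt (fun τ : ℝ => Fl Y0 (u * (τ : ℂ))) τ :=
        ContinuousAt.comp (g := Fl Y0) (hasDerivAt_Fl h0 (hfw τ k1)).continuousAt k2
      exact ContinuousAt.div continuousAt_const k3 (Fl_ne_zero h0 (hfw τ k1))
    · intro τ hτ
      refine le_trans ?_ (le_max_right _ _)
      rw [hφψ, norm_mul, norm_exp, neg_re, Complex.re_mul_ofReal]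
      have k1 := hψb (τ : ℂ)
      rw [Complex.re_mul_ofReal] at k1
      have k2 : Real.exp (-(u.re * τ)) ≤ 1 := by
        rw [Real.exp_le_one_iff]
        have := mul_nonneg hu.le hτ
        linarith
      have k3 : Real.exp (-(u.re * τ)) * Real.exp (u.re * τ) = 1 := by
        rw [← Real.exp_add]; simp
      calc Real.exp (-(u.re * τ)) * ‖ψ τ‖ ≤
          Real.exp (-(u.re * τ)) * (C * (1 + ‖G Y0‖ * Real.exp (u.re * τ))) := by gcongr
        _ = C * (Real.exp (-(u.re * τ)) +
            ‖G Y0‖ * (Real.exp (-(u.re * τ)) * Real.exp (u.re * τ))) := by ring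
        _ ≤ C * (1 + ‖G Y0‖) := by
          rw [k3, mul_one]
          gcongr
    · intro τ hτ
      have k1 := hΛ Y0 (mem_singleton _) τ hτ
      have k2 : 0 ≤ Real.log τ / τ ^ 2 :=
        div_nonneg (Real.log_nonneg (by linarith)) (by positivity)
      rw [hφ]
      exact k1.trans (mul_le_mul_of_nonneg_right (le_max_left _ _) k2)

end Pool.Agent.MP_ae5b4e_an_WB
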